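import Mathlib

/-!
Definitions: characters of `ι → ZMod 2`, types, the balanced characters of a type.
-/

set_option autoImplicit false
set_option linter.unusedSectionVars false

namespace Pool.Agent.Lib.MP_938ce2_ag_l4

open Finset

section

variable {ι : Type} [Fintype ι] [DecidableEq ι]

/-- the character attached to `v` -/
def ch (v y : ι → ZMod 2) : ℤ := if ∑ i, v i * y i = 0 then 1 else -1

/-- the values of the monomials of degree at most `j` -/
def ev (j : ℕ) (v : ι → ZMod 2) : Finset ι → ZMod 2 :=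
  fun I => if I.card ≤ j then ∏ i ∈ I, v i else 0

/-- the rank of the values of the monomials of degree at most `j` at the points of `B` -/
noncomputable def rk (j : ℕ) (B : Finset (ι → ZMod 2)) : ℕ :=
  Module.finrank (ZMod 2) (Submodule.span (ZMod 2) (ev j '' (B : Set (ι → ZMod 2))))

/-- the relations modulo `2 ^ r` between the characters in `B` -/
noncomputable def Lam (r : ℕ) (B : Finset (ι → ZMod 2)) : Finset (B → ZMod (2 ^ r)) := by
  classical
  haveI : NeZero (2 ^ r) := ⟨pow_ne_zero r two_ne_zero⟩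
  exact Finset.univ.filter fun t => ∀ y : ι → ZMod 2, ∑ v : B, t v * ((ch (v : ι → ZMod 2) y : ℤ) : ZMod (2 ^ r)) = 0

/-- the distance to the nearest integer -/
noncomputable def nrm (b : ℝ) : ℝ := |b - round b|

end

section

variable {X : Type} [DecidableEq X]

/-- the sign function of a set -/
def sgn (Φ : Finset X) (x : X) : ℤ := if x ∈ Φ then 1 else -1

/-- the set contains exactly one point of each pair -/
def Typ (c : X → X) (Φ : Finset X) : Prop := ∀ x, x ∈ Φ ↔ c x ∉ Φ

variable [Fintype X]

open Classical in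
/-- the number of the types with a property -/
noncomputable def cnt (c : X → X) (p : Finset X → Prop) : ℝ :=
  ((Finset.univ.filter fun Φ : Finset X => Typ c Φ ∧ p Φ).card : ℝ)

variable {ι : Type} [Fintype ι] [DecidableEq ι]

/-- the data: `X` has `2 g` elements, `c` is an involution without fixed points, the fibres of `y` have
the same number of elements and `c` acts through the translation by `c₀` -/
structure Dat (c : X → X) (y : X → ι → ZMod 2) (c₀ : ι → ZMod 2) (g : ℕ) : Prop where
  card : Fintype.card X = 2 * g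
  pos : 1 ≤ g
  inv : ∀ x, c (c x) = x
  free : ∀ x, c x ≠ x
  shift : ∀ x, y (c x) = y x + c₀
  fib : ∀ z, (Finset.univ.filter fun x => y x = z).card * 2 ^ Fintype.card ι = 2 * g

/-- the odd characters orthogonal to the sign function of a type -/
noncomputable def SS (y : X → ι → ZMod 2) (c₀ : ι → ZMod 2) (Φ : Finset X) : Finset (ι → ZMod 2) :=
  Finset.univ.filter fun v => ch v c₀ = -1 ∧ ∑ x, sgn Φ x * ch v (y x) = 0

/-- the sum of the squares of the distances to the nearest integers -/
noncomputable def NN (y : X → ι → ZMod 2) {B : Finset (ι → ZMod 2)} (θ : B → ℝ) : ℝ :=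
  1 / 2 * ∑ x, nrm (∑ v : B, θ v * (ch (v : ι → ZMod 2) (y x) : ℝ)) ^ 2

end

section

variable {ι : Type} [Fintype ι] [DecidableEq ι]

/-- the fourth member of a quadruple with sum zero is in `S` -/
def rel (S : Finset (ι → ZMod 2)) (a b c : ι → ZMod 2) : Prop :=
  b ≠ c ∧ a ≠ b ∧ a ≠ c ∧ a + b + c ∈ S

instance (S : Finset (ι → ZMod 2)) (a b c : ι → ZMod 2) : Decidable (rel S a b c) := by
  unfold rel; infer_instance

/-- the number of the ordered pairs in `F` which form a quadruple with `a` and an element of `S` -/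
def ee (S : Finset (ι → ZMod 2)) (a : ι → ZMod 2) (F : Finset (ι → ZMod 2)) : ℕ :=
  ((F ×ˢ F).filter fun p => rel S a p.1 p.2).card

/-- the number of the elements of `S` whose translate by `ψ` is in `S` -/
def rr (S : Finset (ι → ZMod 2)) (ψ : ι → ZMod 2) : ℕ := (S.filter fun b => b + ψ ∈ S).card

/-- the sums of two different elements of `A` are different -/
def Sid (A : Finset (ι → ZMod 2)) : Prop :=
  ∀ a ∈ A, ∀ b ∈ A, ∀ c ∈ A, ∀ d ∈ A, a ≠ b → c ≠ d → a + b = c + d → (a = c ∧ b = d) ∨ (a = d ∧ b = c)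

/-- twice the sum of the `rr S (a + b)` over the unordered pairs in `A` -/
def RR (S A : Finset (ι → ZMod 2)) : ℕ :=
  ∑ p ∈ (A ×ˢ A).filter (fun p => p.1 ≠ p.2), rr S (p.1 + p.2)

/-- the fourth moment form over the quadruples of different elements -/
noncomputable def Qf (T : Finset (ι → ZMod 2)) (w : (ι → ZMod 2) → ℝ) : ℝ :=
  ∑ a ∈ T, ∑ b ∈ T, ∑ c ∈ T, if rel T a b c then w a * w b * w c * w (a + b + c) else 0

/-- the first property of small subsets -/
def TG (s₀ : ℝ) (C : ℕ) (S : Finset (ι → ZMod 2)) : Prop :=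
  ∀ (a : ι → ZMod 2) (F : Finset (ι → ZMod 2)), F ⊆ S → (F.card : ℝ) ≤ s₀ → ee S a F ≤ C * F.card

/-- the `Λ(4)` property -/
def L4 (C : ℝ) (S : Finset (ι → ZMod 2)) : Prop :=
  ∀ w : (ι → ZMod 2) → ℝ, (∀ v ∉ S, w v = 0) →
    ∑ z : ι → ZMod 2, (∑ v, w v * (ch v z : ℝ)) ^ 4
      ≤ C * (∑ v, w v ^ 2) ^ 2 * 2 ^ Fintype.card ι

end

end Pool.Agent.Lib.MP_938ce2_ag_l4
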