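import Mathlib
import Pool.Agent.Lib.MP_938ce2_ag_l4.D

/-!
Definitions: closures, spans, the three bad events.
-/

set_option autoImplicit false
set_option linter.unusedSectionVars false

namespace Pool.Agent.Lib.MP_938ce2_ag_l4

open Finset

variable {ι : Type} [Fintype ι] [DecidableEq ι]

open Classical in
/-- the points whose values of the monomials of degree at most `j` are combinations of the values at the
points of `B` -/
noncomputable def clo (j : ℕ) (B : Finset (ι → ZMod 2)) : Finset (ι → ZMod 2) :=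
  univ.filter fun v => ev j v ∈ Submodule.span (ZMod 2) (ev j '' (B : Set (ι → ZMod 2)))

open Classical in
/-- the points `b` for which the sum of the values at `b` and `b + ψ` is such a combination -/
noncomputable def clp (j : ℕ) (B : Finset (ι → ZMod 2)) (ψ : ι → ZMod 2) : Finset (ι → ZMod 2) :=
  univ.filter fun b => ev j b + ev j (b + ψ) ∈ Submodule.span (ZMod 2) (ev j '' (B : Set (ι → ZMod 2)))

open Classical in
/-- the elements of the span of `A` -/
noncomputable def sp (A : Finset (ι → ZMod 2)) : Finset (ι → ZMod 2) :=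
  univ.filter fun v => v ∈ Submodule.span (ZMod 2) (A : Set (ι → ZMod 2))

/-- the deficiency -/
noncomputable def dfc (B : Finset (ι → ZMod 2)) : ℕ := B.card - rk 4 B

/-- the first bad event -/
def E1 (M : ℕ) (S : Finset (ι → ZMod 2)) : Prop :=
  ∃ A : Finset (ι → ZMod 2), A.card = M ∧ 3 * M ≤ (S ∩ sp A).card

/-- the second bad event -/
def E2 (M : ℕ) (S : Finset (ι → ZMod 2)) : Prop :=
  ∃ A R F : Finset (ι → ZMod 2), A ⊆ S ∧ A.card = M ∧ 1 ≤ R.card ∧ R.card ≤ 5 * M ∧ F ⊆ S ∧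
    F.card = 5 * M + 2 * R.card ∧ ∀ f ∈ F, f ∉ sp A ∧ ∃ r ∈ R, f + r ∈ sp A

/-- the third bad event -/
def E3 (M p : ℕ) (S : Finset (ι → ZMod 2)) : Prop :=
  ∃ A : Finset (ι → ZMod 2), A ⊆ S ∧ A.card = M ∧ ∃ β : Fin p → (ι → ZMod 2) × (ι → ZMod 2),
    (∀ i, (β i).1 ∈ S ∧ (β i).1 + (β i).2 ∈ S ∧ (β i).1 ∉ sp A ∧
      ∃ a ∈ A, ∃ a' ∈ A, a ≠ a' ∧ (β i).2 = a + a') ∧
    ∀ i j, i ≠ j → (β i).1 + (β j).1 ∉ sp A

/-- the set of all elements of a sequence -/
def BB {M p : ℕ} (a : Fin M → ι → ZMod 2) (q : Fin p → (Fin M × Fin M) × (ι → ZMod 2)) :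
    Finset (ι → ZMod 2) :=
  univ.image a ∪ univ.image (fun i => (q i).2)
    ∪ univ.image (fun i => (q i).2 + (a (q i).1.1 + a (q i).1.2))

/-- all elements of the sequence are different -/
def Okk {M p : ℕ} (a : Fin M → ι → ZMod 2) (q : Fin p → (Fin M × Fin M) × (ι → ZMod 2)) : Prop :=
  (BB a q).card = M + 2 * p ∧ ∀ i, a (q i).1.1 ≠ a (q i).1.2

instance {M p : ℕ} (a : Fin M → ι → ZMod 2) (q : Fin p → (Fin M × Fin M) × (ι → ZMod 2)) :
    Decidable (Okk a q) := by
  unfold Okk; infer_instance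

/-- the second moment form over the pairs -/
noncomputable def TT (S : Finset (ι → ZMod 2)) (w : (ι → ZMod 2) → ℝ) : ℝ :=
  ∑ a, ∑ b, if a ≠ b then w a ^ 2 * w b ^ 2 * rr S (a + b) else 0

end Pool.Agent.Lib.MP_938ce2_ag_l4
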