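import Mathlib
import Pool.Agent.Lib.MP_938ce2_ag_l4.D

set_option autoImplicit false

namespace Pool.Agent.Lib.MP_938ce2_ag_l4

open Finset

variable {ι : Type} [Fintype ι] [DecidableEq ι]

private def s2 (a : ZMod 2) : ℤ := if a = 0 then 1 else -1

private theorem s2_add (a b : ZMod 2) : s2 (a + b) = s2 a * s2 b := by
  revert a b; decide

private theorem s2_or (a : ZMod 2) : s2 a = 1 ∨ s2 a = -1 := by
  revert a; decide

private theorem ch_eq_s2 (v y : ι → ZMod 2) : ch v y = s2 (∑ i, v i * y i) := rfl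


theorem ch_comm (v y : ι → ZMod 2) : ch v y = ch y v := by
  simp only [ch, mul_comm]

theorem ch_add (v w y : ι → ZMod 2) : ch (v + w) y = ch v y * ch w y := by
  rw [ch_eq_s2, ch_eq_s2, ch_eq_s2, ← s2_add, ← Finset.sum_add_distrib]
  congr 1
  refine Finset.sum_congr rfl fun i _ => ?_
  rw [Pi.add_apply, add_mul]

theorem ch_add_right (v y z : ι → ZMod 2) : ch v (y + z) = ch v y * ch v z := by
  rw [ch_comm v (y + z), ch_add, ch_comm y v, ch_comm z v]

theorem ch_zero (y : ι → ZMod 2) : ch 0 y = 1 := by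
  simp [ch]

theorem ch_mul_self (v y : ι → ZMod 2) : ch v y * ch v y = 1 := by
  rw [ch_eq_s2]
  rcases s2_or (∑ i, v i * y i) with h | h <;> rw [h] <;> norm_num

theorem ch_eq_or (v y : ι → ZMod 2) : ch v y = 1 ∨ ch v y = -1 := by
  rw [ch_eq_s2]
  exact s2_or _

theorem sum_ch (v : ι → ZMod 2) :
    ∑ y, ch v y = if v = 0 then 2 ^ Fintype.card ι else 0 := by
  classical
  split_ifs with hv
  · subst hv
    simp_rw [ch_zero]
    rw [Finset.sum_const, Finset.card_univ, Fintype.card_fun, ZMod.card]
    simp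
  · obtain ⟨i, hi⟩ : ∃ i, v i ≠ 0 := by
      by_contra h
      push Not at h
      exact hv (funext h)
    have hi1 : v i = 1 := by
      have : ∀ a : ZMod 2, a ≠ 0 → a = 1 := by decide
      exact this _ hi
    have h1 : ch v (Pi.single i 1) = -1 := by
      rw [ch_eq_s2]
      have : ∑ j, v j * (Pi.single i (1 : ZMod 2) : ι → ZMod 2) j = 1 := by
        rw [Finset.sum_eq_single i]
        · rw [Pi.single_eq_same, hi1, one_mul]
        · intro j _ hj
          rw [Pi.single_eq_of_ne hj, mul_zero]
        · intro h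
          exact absurd (Finset.mem_univ i) h
      rw [this]
      decide
    have h3 : ∀ w : ι → ZMod 2, w + w = 0 := by
      intro w
      funext j
      have : ∀ a : ZMod 2, a + a = 0 := by decide
      exact this _
    have h2 : ∑ y : ι → ZMod 2, ch v y = ∑ y : ι → ZMod 2, ch v (y + Pi.single i 1) := by
      refine Finset.sum_nbij' (fun y : ι → ZMod 2 => y + Pi.single i 1)
        (fun y : ι → ZMod 2 => y + Pi.single i 1)
        (fun _ _ => Finset.mem_univ _) (fun _ _ => Finset.mem_univ _) ?_ ?_ ?_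
      · intro y _
        simp only [add_assoc, h3, add_zero]
      · intro y _
        simp only [add_assoc, h3, add_zero]
      · intro y _
        simp only [add_assoc, h3, add_zero]
    have h4 : ∑ y : ι → ZMod 2, ch v (y + Pi.single i 1) = ∑ y : ι → ZMod 2, -ch v y := by
      refine Finset.sum_congr rfl fun y _ => ?_
      rw [ch_add_right, h1, mul_neg_one]
    rw [h4, Finset.sum_neg_distrib] at h2
    omega

/-- orthogonality of the characters -/
theorem sum_ch_mul (v w : ι → ZMod 2) :
    ∑ y, ch v y * ch w y = if v = w then 2 ^ Fintype.card ι else 0 := by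
  simp_rw [← ch_add]
  rw [sum_ch]
  have h : v + w = 0 ↔ v = w := by
    constructor
    · intro h
      funext i
      have h1 : v i + w i = 0 := congrFun h i
      have : ∀ a b : ZMod 2, a + b = 0 → a = b := by decide
      exact this _ _ h1
    · rintro rfl
      funext i
      have : ∀ a : ZMod 2, a + a = 0 := by decide
      exact this _
  simp only [h]

variable {X : Type} [Fintype X] [DecidableEq X] {c : X → X} {y : X → ι → ZMod 2} {c₀ : ι → ZMod 2}
  {g : ℕ}

/-- sums over `X` are sums over the fibres -/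
theorem sum_fib (hD : Dat c y c₀ g) (f : (ι → ZMod 2) → ℝ) :
    (∑ x, f (y x)) * 2 ^ Fintype.card ι = 2 * g * ∑ z, f z := by
  classical
  have h1 : ∑ x, f (y x) = ∑ z, ((Finset.univ.filter fun x => y x = z).card : ℝ) * f z := by
    rw [← Finset.sum_fiberwise_of_maps_to (g := y) (t := Finset.univ)
      (fun x _ => Finset.mem_univ _)]
    refine Finset.sum_congr rfl fun z _ => ?_
    rw [Finset.sum_congr rfl (g := fun _ => f z), Finset.sum_const, nsmul_eq_mul]
    intro x hx
    rw [(Finset.mem_filter.mp hx).2]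
  rw [h1, Finset.sum_mul, Finset.mul_sum]
  refine Finset.sum_congr rfl fun z _ => ?_
  have h2 : ((Finset.univ.filter fun x => y x = z).card : ℝ) * 2 ^ Fintype.card ι = 2 * g := by
    exact_mod_cast hD.fib z
  calc ((Finset.univ.filter fun x => y x = z).card : ℝ) * f z * 2 ^ Fintype.card ι =
      (((Finset.univ.filter fun x => y x = z).card : ℝ) * 2 ^ Fintype.card ι) * f z := by ring
    _ = 2 * g * f z := by rw [h2]

theorem card_V_le (hD : Dat c y c₀ g) : 2 ^ Fintype.card ι ≤ 2 * g := by
  have h := hD.fib 0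
  have hp := hD.pos
  rcases Nat.eq_zero_or_pos (Finset.univ.filter fun x => y x = 0).card with h0 | h0
  · rw [h0, zero_mul] at h
    omega
  · rw [← h]
    exact Nat.le_mul_of_pos_left _ h0

/-- the number of the types -/
theorem cnt_true (hD : Dat c y c₀ g) : cnt c (fun _ => True) = 2 ^ g := by
  classical
  let e := Fintype.equivFin X
  let R : Finset X := Finset.univ.filter fun x => e x < e (c x)
  have hR : ∀ x, x ∈ R ↔ e x < e (c x) := fun x => by simp [R]
  have hRc : ∀ x, x ∈ R ↔ c x ∉ R := by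
    intro x
    rw [hR, hR, hD.inv x, not_lt]
    constructor
    · intro h
      exact h.le
    · intro h
      exact lt_of_le_of_ne h fun h' => hD.free x (e.injective h').symm
  have hcard : R.card = g := by
    have h1 : R.card = Rᶜ.card := by
      refine Finset.card_bij' (fun x _ => c x) (fun x _ => c x) ?_ ?_ ?_ ?_
      · intro x hx
        exact Finset.mem_compl.mpr ((hRc x).mp hx)
      · intro x hx
        rw [hRc, hD.inv]
        exact Finset.mem_compl.mp hx
      · intro x _
        exact hD.inv x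
      · intro x _
        exact hD.inv x
    have h2 : R.card + Rᶜ.card = 2 * g := by
      rw [Finset.card_add_card_compl, hD.card]
    omega
  have hmain : (Finset.univ.filter fun Φ : Finset X => Typ c Φ ∧ True).card =
      R.powerset.card := by
    refine Finset.card_bij' (fun Φ _ => Φ ∩ R)
      (fun S _ => Finset.univ.filter fun x => (x ∈ R ∧ x ∈ S) ∨ (x ∉ R ∧ c x ∉ S)) ?_ ?_ ?_ ?_
    · intro Φ _
      exact Finset.mem_powerset.mpr Finset.inter_subset_right
    · intro S _
      refine Finset.mem_filter.mpr ⟨Finset.mem_univ _, ?_, trivial⟩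
      intro x
      simp only [Finset.mem_filter, Finset.mem_univ, true_and]
      rw [hD.inv x]
      by_cases hx : x ∈ R
      · have h1 := (hRc x).mp hx
        simp [hx, h1]
      · have h1 : c x ∈ R := by
          by_contra h
          exact hx ((hRc x).mpr h)
        simp [hx, h1]
    · intro Φ hΦ
      have hT : Typ c Φ := (Finset.mem_filter.mp hΦ).2.1
      ext x
      simp only [Finset.mem_filter, Finset.mem_univ, true_and, Finset.mem_inter]
      by_cases hx : x ∈ R
      · simp [hx]
      · have h1 : c x ∈ R := by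
          by_contra h
          exact hx ((hRc x).mpr h)
        have h2 := hT x
        simp only [hx, h1, false_and, not_false_eq_true, true_and, false_or, and_true]
        exact h2.symm
    · intro S hS
      have hS' := Finset.mem_powerset.mp hS
      ext x
      simp only [Finset.mem_filter, Finset.mem_univ, true_and, Finset.mem_inter]
      by_cases hx : x ∈ R
      · simp [hx]
      · have h1 : x ∉ S := fun h => hx (hS' h)
        simp [hx, h1]
  have h1 : cnt c (fun _ => True) = ((R.powerset.card : ℕ) : ℝ) := by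
    rw [← hmain]
    unfold cnt
    congr!
  rw [h1, Finset.card_powerset, hcard]
  push_cast
  rfl

theorem cnt_mono {p q : Finset X → Prop} (h : ∀ Φ, Typ c Φ → p Φ → q Φ) : cnt c p ≤ cnt c q := by
  classical
  unfold cnt
  have h1 : (Finset.univ.filter fun Φ : Finset X => Typ c Φ ∧ p Φ) ⊆
      (Finset.univ.filter fun Φ : Finset X => Typ c Φ ∧ q Φ) := by
    intro Φ hΦ
    obtain ⟨h1, h2⟩ := (Finset.mem_filter.mp hΦ).2
    exact Finset.mem_filter.mpr ⟨Finset.mem_univ _, h1, h Φ h1 h2⟩
  exact_mod_cast Finset.card_le_card h1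

theorem cnt_or (p q : Finset X → Prop) : cnt c (fun Φ => p Φ ∨ q Φ) ≤ cnt c p + cnt c q := by
  classical
  have h1 : (Finset.univ.filter fun Φ : Finset X => Typ c Φ ∧ (p Φ ∨ q Φ)) ⊆
      (Finset.univ.filter fun Φ : Finset X => Typ c Φ ∧ p Φ) ∪
      (Finset.univ.filter fun Φ : Finset X => Typ c Φ ∧ q Φ) := by
    intro Φ hΦ
    obtain ⟨h1, h2⟩ := (Finset.mem_filter.mp hΦ).2
    rcases h2 with h2 | h2
    · exact Finset.mem_union_left _ (Finset.mem_filter.mpr ⟨Finset.mem_univ _, h1, h2⟩)
    · exact Finset.mem_union_right _ (Finset.mem_filter.mpr ⟨Finset.mem_univ _, h1, h2⟩)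
  have h2 : ((Finset.univ.filter fun Φ : Finset X => Typ c Φ ∧ (p Φ ∨ q Φ)).card : ℝ) ≤
      ((Finset.univ.filter fun Φ : Finset X => Typ c Φ ∧ p Φ).card : ℝ) +
      ((Finset.univ.filter fun Φ : Finset X => Typ c Φ ∧ q Φ).card : ℝ) := by
    exact_mod_cast (Finset.card_le_card h1).trans (Finset.card_union_le _ _)
  have h3 : cnt c (fun Φ => p Φ ∨ q Φ) =
      ((Finset.univ.filter fun Φ : Finset X => Typ c Φ ∧ (p Φ ∨ q Φ)).card : ℝ) := by
    unfold cnt
    congr!
  have h4 : cnt c p = ((Finset.univ.filter fun Φ : Finset X => Typ c Φ ∧ p Φ).card : ℝ) := by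
    unfold cnt
    congr!
  have h5 : cnt c q = ((Finset.univ.filter fun Φ : Finset X => Typ c Φ ∧ q Φ).card : ℝ) := by
    unfold cnt
    congr!
  rw [h3, h4, h5]
  exact h2

/-- the union bound -/
theorem cnt_exists {κ : Type} (s : Finset κ) (p : κ → Finset X → Prop) (q : Finset X → Prop)
    (h : ∀ Φ, Typ c Φ → q Φ → ∃ k ∈ s, p k Φ) : cnt c q ≤ ∑ k ∈ s, cnt c (p k) := by
  classical
  unfold cnt
  have h1 : (Finset.univ.filter fun Φ : Finset X => Typ c Φ ∧ q Φ) ⊆
      s.biUnion fun k => (Finset.univ.filter fun Φ : Finset X => Typ c Φ ∧ p k Φ) := by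
    intro Φ hΦ
    obtain ⟨h1, h2⟩ := (Finset.mem_filter.mp hΦ).2
    obtain ⟨k, hk, h3⟩ := h Φ h1 h2
    exact Finset.mem_biUnion.mpr ⟨k, hk, Finset.mem_filter.mpr ⟨Finset.mem_univ _, h1, h3⟩⟩
  exact_mod_cast (Finset.card_le_card h1).trans Finset.card_biUnion_le

/-- Markov's inequality for the number of the indices with a property -/
theorem cnt_markov {κ : Type} (s : Finset κ) (p : κ → Finset X → Prop) (q : Finset X → Prop) (N : ℕ)
    (hN : 0 < N) (h : ∀ Φ, Typ c Φ → q Φ → ∃ t ⊆ s, N ≤ t.card ∧ ∀ k ∈ t, p k Φ) :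
    cnt c q ≤ (∑ k ∈ s, cnt c (p k)) / N := by
  classical
  have hN' : (0 : ℝ) < N := by exact_mod_cast hN
  rw [le_div_iff₀ hN']
  unfold cnt
  have h1 : (Finset.univ.filter fun Φ : Finset X => Typ c Φ ∧ q Φ).card * N ≤
      ∑ k ∈ s, (Finset.univ.filter fun Φ : Finset X => Typ c Φ ∧ p k Φ).card := by
    have h2 : ∀ k ∈ s, (Finset.univ.filter fun Φ : Finset X => Typ c Φ ∧ p k Φ).card =
        ∑ Φ : Finset X, if Typ c Φ ∧ p k Φ then 1 else 0 := by
      intro k _
      rw [Finset.card_filter]
    rw [Finset.sum_congr rfl h2, Finset.sum_comm]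
    calc (Finset.univ.filter fun Φ : Finset X => Typ c Φ ∧ q Φ).card * N =
        ∑ Φ ∈ (Finset.univ.filter fun Φ : Finset X => Typ c Φ ∧ q Φ), N := by
          rw [Finset.sum_const, smul_eq_mul]
      _ ≤ ∑ Φ ∈ (Finset.univ.filter fun Φ : Finset X => Typ c Φ ∧ q Φ),
          ∑ k ∈ s, if Typ c Φ ∧ p k Φ then 1 else 0 := by
          refine Finset.sum_le_sum fun Φ hΦ => ?_
          obtain ⟨h3, h4⟩ := (Finset.mem_filter.mp hΦ).2
          obtain ⟨t, hts, hNt, hp⟩ := h Φ h3 h4
          rw [← Finset.card_filter]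
          refine hNt.trans (Finset.card_le_card ?_)
          intro k hk
          exact Finset.mem_filter.mpr ⟨hts hk, h3, hp k hk⟩
      _ ≤ ∑ Φ : Finset X, ∑ k ∈ s, if Typ c Φ ∧ p k Φ then 1 else 0 :=
          Finset.sum_le_sum_of_subset (Finset.subset_univ _)
  exact_mod_cast h1

theorem mem_SS {Φ : Finset X} {v : ι → ZMod 2} :
    v ∈ SS y c₀ Φ ↔ ch v c₀ = -1 ∧ ∑ x, sgn Φ x * ch v (y x) = 0 := by
  simp [SS]

end Pool.Agent.Lib.MP_938ce2_ag_l4
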