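import Mathlib
import Pool.Agent.Lib.MP_938ce2_ag_l4.T01

set_option autoImplicit false

namespace Pool.Agent.Lib.MP_938ce2_ag_l4

open Finset

variable {ι : Type} [Fintype ι] [DecidableEq ι]

/-- some point separates at least half of the other elements from `v` -/
private theorem exists_sep (B : Finset (ι → ZMod 2)) (v : ι → ZMod 2) (hv : v ∈ B)
    (h2 : 2 ≤ B.card) :
    ∃ h₀ : ι → ZMod 2, 2 * (B.filter fun v' => ch v' h₀ = ch v h₀).card ≤ B.card := by
  have hsum : ∑ h : ι → ZMod 2, ∑ v' ∈ B.erase v, ch v' h * ch v h = 0 := by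
    rw [Finset.sum_comm]
    apply Finset.sum_eq_zero
    intro v' hv'
    rw [sum_ch_mul, if_neg (Finset.ne_of_mem_erase hv')]
  have h0 : ∑ v' ∈ B.erase v, ch v' 0 * ch v 0 = (B.card : ℤ) - 1 := by
    have h1 : ∀ w : ι → ZMod 2, ch w 0 = 1 := fun w => by rw [ch_comm, ch_zero]
    rw [Finset.sum_congr rfl (g := fun _ => (1 : ℤ)) fun v' _ => by rw [h1, h1, one_mul]]
    rw [Finset.sum_const, Finset.card_erase_of_mem hv, nsmul_eq_mul, mul_one]
    push_cast [Nat.cast_sub (by omega : 1 ≤ B.card)]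
    rfl
  obtain ⟨h₀, hh₀⟩ : ∃ h₀ : ι → ZMod 2, ∑ v' ∈ B.erase v, ch v' h₀ * ch v h₀ < 0 := by
    by_contra hcon
    push Not at hcon
    have h3 := (Finset.sum_eq_zero_iff_of_nonneg fun h _ => hcon h).mp hsum 0 (Finset.mem_univ _)
    rw [h0] at h3
    have : (2 : ℤ) ≤ B.card := by exact_mod_cast h2
    omega
  refine ⟨h₀, ?_⟩
  -- the sum over `B` counts twice the equal ones
  have h4 : ∑ v' ∈ B, ch v' h₀ * ch v h₀
      = 2 * ((B.filter fun v' => ch v' h₀ = ch v h₀).card : ℤ) - B.card := by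
    have h5 : ∀ v' ∈ B, ch v' h₀ * ch v h₀
        = 2 * (if ch v' h₀ = ch v h₀ then 1 else 0) - 1 := by
      intro v' _
      rcases ch_eq_or v' h₀ with h6 | h6 <;> rcases ch_eq_or v h₀ with h7 | h7 <;>
        rw [h6, h7] <;> norm_num
    rw [Finset.sum_congr rfl h5, Finset.sum_sub_distrib, ← Finset.mul_sum, Finset.sum_boole,
      Finset.sum_const, nsmul_eq_mul, mul_one]
  have h6 : ∑ v' ∈ B, ch v' h₀ * ch v h₀ = ∑ v' ∈ B.erase v, ch v' h₀ * ch v h₀ + 1 := by
    rw [← Finset.sum_erase_add _ _ hv, ch_mul_self]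
  have h7 : 2 * ((B.filter fun v' => ch v' h₀ = ch v h₀).card : ℤ) ≤ B.card := by
    rw [h6] at h4
    omega
  exact_mod_cast h7

/-- **Isolation of a character.** Induction on the cardinality of `B`. If `B = {v}`: `ρ = 1` at `0`.
Otherwise, by averaging over `h` (`sum_ch_mul`; `h = 0` is above the average), some `h₀` has at most
`(B.card - 2) / 2` elements `v' ≠ v` of `B` with `ch v' h₀ = ch v h₀`; take the function `ρ'` for
`{v' ∈ B | ch v' h₀ = ch v h₀}` and `ρ h = ρ' h + ch v h₀ * ρ' (h + h₀)`. -/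
theorem isolation (B : Finset (ι → ZMod 2)) (v : ι → ZMod 2) (hv : v ∈ B) :
    ∃ (e : ℕ) (ρ : (ι → ZMod 2) → ℤ), 2 ^ e ≤ B.card ∧ ∑ h, |ρ h| ≤ 2 ^ e ∧
      ∀ v' ∈ B, ∑ h, ρ h * ch v' h = if v' = v then 2 ^ e else 0 := by
  induction B using Finset.strongInduction with
  | H B ih =>
    have hpos : 0 < B.card := Finset.card_pos.mpr ⟨v, hv⟩
    rcases Nat.lt_or_ge B.card 2 with h1 | h2
    · have hB : B = {v} := by
        obtain ⟨w, hw⟩ := Finset.card_eq_one.mp (by omega : B.card = 1)
        rw [hw] at hv ⊢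
        rw [Finset.mem_singleton.mp hv]
      refine ⟨0, fun h => if h = 0 then 1 else 0, by rw [pow_zero]; exact hpos, ?_, ?_⟩
      · have h3 : ∀ h : ι → ZMod 2, |(if h = 0 then (1 : ℤ) else 0)| = if h = 0 then (1 : ℤ) else 0 := by
          intro h
          by_cases hh : h = 0
          · rw [if_pos hh, abs_one]
          · rw [if_neg hh, abs_zero]
        show ∑ h : ι → ZMod 2, |(if h = 0 then (1 : ℤ) else 0)| ≤ _
        rw [Finset.sum_congr rfl fun h _ => h3 h]
        rw [Finset.sum_ite_eq' Finset.univ (0 : ι → ZMod 2), if_pos (Finset.mem_univ _), pow_zero]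
      · intro v' hv'
        rw [hB, Finset.mem_singleton] at hv'
        rw [if_pos hv', pow_zero]
        have h3 : ∀ h : ι → ZMod 2, (if h = 0 then (1 : ℤ) else 0) * ch v' h
            = if h = 0 then ch v' 0 else 0 := by
          intro h
          by_cases hh : h = 0
          · rw [if_pos hh, if_pos hh, hh, one_mul]
          · rw [if_neg hh, if_neg hh, zero_mul]
        show ∑ h : ι → ZMod 2, (if h = 0 then (1 : ℤ) else 0) * ch v' h = _
        rw [Finset.sum_congr rfl fun h _ => h3 h]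
        rw [Finset.sum_ite_eq' Finset.univ (0 : ι → ZMod 2), if_pos (Finset.mem_univ _), ch_comm,
          ch_zero]
    · obtain ⟨h₀, hh₀⟩ := exists_sep B v hv h2
      set B' := B.filter fun v' => ch v' h₀ = ch v h₀ with hB'
      have hvB' : v ∈ B' := by
        rw [hB', Finset.mem_filter]
        exact ⟨hv, rfl⟩
      have hss : B' ⊂ B := by
        refine ⟨Finset.filter_subset _ _, fun hsub => ?_⟩
        have := Finset.card_le_card hsub
        omega
      obtain ⟨e, ρ, he, hρ, hρ'⟩ := ih B' hss hvB'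
      have habs : |ch v h₀| = 1 := by
        rcases ch_eq_or v h₀ with h3 | h3 <;> rw [h3] <;> norm_num
      have hshift : ∀ f : (ι → ZMod 2) → ℤ, ∑ h, f (h + h₀) = ∑ h, f h := fun f =>
        Equiv.sum_comp (Equiv.addRight h₀) f
      refine ⟨e + 1, fun h => ρ h + ch v h₀ * ρ (h + h₀), ?_, ?_, ?_⟩
      · rw [pow_succ]
        omega
      · calc ∑ h, |ρ h + ch v h₀ * ρ (h + h₀)| ≤ ∑ h, (|ρ h| + |ρ (h + h₀)|) := by
              refine Finset.sum_le_sum fun h _ => ?_
              refine (abs_add_le _ _).trans ?_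
              rw [abs_mul, habs, one_mul]
          _ = ∑ h, |ρ h| + ∑ h, |ρ h| := by
              rw [Finset.sum_add_distrib, hshift fun h => |ρ h|]
          _ ≤ 2 ^ e + 2 ^ e := add_le_add hρ hρ
          _ = 2 ^ (e + 1) := by ring
      · intro v' hv'
        have h3 : ∑ h, (ρ h + ch v h₀ * ρ (h + h₀)) * ch v' h
            = (1 + ch v h₀ * ch v' h₀) * ∑ h, ρ h * ch v' h := by
          have h4 : ∀ h, (ρ h + ch v h₀ * ρ (h + h₀)) * ch v' h
              = ρ h * ch v' h + ch v h₀ * ch v' h₀ * (ρ (h + h₀) * ch v' (h + h₀)) := by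
            intro h
            have h5 : ch v' h = ch v' h₀ * ch v' (h + h₀) := by
              rw [ch_add_right, mul_comm (ch v' h), ← mul_assoc, ch_mul_self, one_mul]
            calc (ρ h + ch v h₀ * ρ (h + h₀)) * ch v' h
                = ρ h * ch v' h + ch v h₀ * ρ (h + h₀) * ch v' h := by ring
              _ = ρ h * ch v' h + ch v h₀ * ρ (h + h₀) * (ch v' h₀ * ch v' (h + h₀)) := by
                rw [← h5]
              _ = _ := by ring
          rw [Finset.sum_congr rfl fun h _ => h4 h, Finset.sum_add_distrib, ← Finset.mul_sum,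
            hshift fun h => ρ h * ch v' h]
          ring
        show ∑ h, (ρ h + ch v h₀ * ρ (h + h₀)) * ch v' h = _
        rw [h3]
        by_cases hm : v' ∈ B'
        · have h6 : ch v' h₀ = ch v h₀ := (Finset.mem_filter.mp hm).2
          rw [hρ' v' hm, h6, ch_mul_self]
          split_ifs
          · ring
          · ring
        · have h6 : ch v' h₀ ≠ ch v h₀ := fun h7 => hm (Finset.mem_filter.mpr ⟨hv', h7⟩)
          have h7 : v' ≠ v := fun h8 => h6 (by rw [h8])
          rw [if_neg h7]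
          have h8 : 1 + ch v h₀ * ch v' h₀ = 0 := by
            rcases ch_eq_or v' h₀ with h9 | h9 <;> rcases ch_eq_or v h₀ with h10 | h10
            · exact absurd (h9.trans h10.symm) h6
            · rw [h9, h10]; norm_num
            · rw [h9, h10]; norm_num
            · exact absurd (h9.trans h10.symm) h6
          rw [h8, zero_mul]

end Pool.Agent.Lib.MP_938ce2_ag_l4
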