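import Mathlib
import Pool.Agent.Lib.MP_938ce2_ag_l4.T02

set_option autoImplicit false

namespace Pool.Agent.Lib.MP_938ce2_ag_l4

open Finset

variable {ι : Type} [Fintype ι] [DecidableEq ι]

private theorem zmod2_cases (a : ZMod 2) : a = 0 ∨ a = 1 := by
  revert a; decide

private theorem ch_single (v : ι → ZMod 2) (a : ι) :
    ch v (Pi.single a 1) = if v a = 0 then 1 else -1 := by
  unfold ch
  have : ∑ i, v i * (Pi.single a (1 : ZMod 2) : ι → ZMod 2) i = v a := by
    rw [Finset.sum_eq_single a]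
    · simp
    · intro b _ hb
      simp [hb]
    · intro h; exact absurd (Finset.mem_univ a) h
  rw [this]

private theorem ch_ind (v : ι → ZMod 2) (H : Finset ι) :
    ch v (fun i => if i ∈ H then 1 else 0) = ∏ i ∈ H, (if v i = 0 then (1 : ℤ) else -1) := by
  induction H using Finset.induction_on with
  | empty =>
    unfold ch
    simp
  | insert a s ha ih =>
    have h1 : (fun i => if i ∈ insert a s then (1 : ZMod 2) else 0)
        = Pi.single a 1 + fun i => if i ∈ s then (1 : ZMod 2) else 0 := by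
      funext i
      by_cases hi : i = a
      · subst hi
        simp [ha]
      · simp [hi, Finset.mem_insert]
    rw [h1, ch_add_right, ih, ch_single, Finset.prod_insert ha]

/-- the sum over a face of the cube: the indicator of `H` is `fun i => if i ∈ H then 1 else 0` and
`∑ H ⊆ I, (-1) ^ H.card * ch v (indicator of H) = 2 ^ I.card` if `v = 1` on `I`, and `0` otherwise -/
theorem face_sum (I : Finset ι) (v : ι → ZMod 2) :
    ∑ H ∈ I.powerset, (-1) ^ H.card * ch v (fun i => if i ∈ H then 1 else 0)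
      = if ∀ i ∈ I, v i = 1 then 2 ^ I.card else 0 := by
  have h1 : ∀ H ∈ I.powerset, (-1) ^ H.card * ch v (fun i => if i ∈ H then 1 else 0)
      = ∏ i ∈ H, (if v i = 0 then (-1 : ℤ) else 1) := by
    intro H _
    rw [ch_ind, ← Finset.prod_const, ← Finset.prod_mul_distrib]
    refine Finset.prod_congr rfl fun i _ => ?_
    split_ifs <;> norm_num
  rw [Finset.sum_congr rfl h1, ← Finset.prod_one_add]
  split_ifs with h
  · rw [← Finset.prod_const]
    refine Finset.prod_congr rfl fun i hi => ?_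
    rw [h i hi]
    norm_num
  · push Not at h
    obtain ⟨i, hi, hv⟩ := h
    refine Finset.prod_eq_zero hi ?_
    rcases zmod2_cases (v i) with h0 | h0
    · simp [h0]
    · exact absurd h0 hv

private theorem mem_Lam {r : ℕ} {B : Finset (ι → ZMod 2)} {t : B → ZMod (2 ^ r)} :
    t ∈ Lam r B ↔ ∀ y : ι → ZMod 2,
      ∑ v : B, t v * ((ch (v : ι → ZMod 2) y : ℤ) : ZMod (2 ^ r)) = 0 := by
  unfold Lam
  simp

/-- every coordinate of a relation is killed by a power of two which is at most the number of the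
characters: `isolation` -/
theorem killed (B : Finset (ι → ZMod 2)) (v : B) :
    ∃ e : ℕ, 2 ^ e ≤ B.card ∧ ∀ r, ∀ t ∈ Lam r B, (2 : ZMod (2 ^ r)) ^ e * t v = 0 := by
  obtain ⟨e, ρ, he, -, hρ⟩ := isolation B (v : ι → ZMod 2) v.2
  refine ⟨e, he, fun r t ht => ?_⟩
  rw [mem_Lam] at ht
  have h1 : ∑ h : ι → ZMod 2, (ρ h : ZMod (2 ^ r)) *
      ∑ w : B, t w * ((ch (w : ι → ZMod 2) h : ℤ) : ZMod (2 ^ r)) = 0 := by
    refine Finset.sum_eq_zero fun h _ => ?_
    rw [ht h, mul_zero]
  have h2 : ∑ h : ι → ZMod 2, (ρ h : ZMod (2 ^ r)) *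
      ∑ w : B, t w * ((ch (w : ι → ZMod 2) h : ℤ) : ZMod (2 ^ r))
      = ∑ w : B, t w * ((∑ h, ρ h * ch (w : ι → ZMod 2) h : ℤ) : ZMod (2 ^ r)) := by
    simp_rw [Finset.mul_sum]
    rw [Finset.sum_comm]
    refine Finset.sum_congr rfl fun w _ => ?_
    push_cast
    rw [Finset.mul_sum]
    refine Finset.sum_congr rfl fun h _ => ?_
    ring
  rw [h2, Finset.sum_eq_single v] at h1
  · rw [hρ _ v.2, if_pos rfl] at h1
    push_cast at h1
    rw [mul_comm]
    exact h1
  · intro w _ hw
    rw [hρ _ w.2, if_neg]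
    · simp
    · intro h; exact hw (Subtype.ext h)
  · intro h; exact absurd (Finset.mem_univ v) h

private theorem prod_zmod2 (I : Finset ι) (v : ι → ZMod 2) :
    ∏ i ∈ I, v i = if ∀ i ∈ I, v i = 1 then 1 else 0 := by
  split_ifs with h
  · exact Finset.prod_eq_one h
  · push Not at h
    obtain ⟨i, hi, hv⟩ := h
    refine Finset.prod_eq_zero hi ?_
    rcases zmod2_cases (v i) with h0 | h0
    · exact h0
    · exact absurd h0 hv

private theorem dvd_step (j : ℕ) (B : Finset (ι → ZMod 2))
    (hB : LinearIndependent (ZMod 2) (fun v : B => ev j (v : ι → ZMod 2))) (S : B → ℤ)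
    (hS : ∀ y : ι → ZMod 2, (2 : ℤ) ^ (j + 1) ∣ ∑ v : B, S v * ch (v : ι → ZMod 2) y) (v : B) :
    (2 : ℤ) ∣ S v := by
  have key : ∑ v : B, (S v : ZMod 2) • ev j (v : ι → ZMod 2) = 0 := by
    funext I
    rw [Finset.sum_apply, Pi.zero_apply]
    by_cases hI : I.card ≤ j
    · have h1 : (2 : ℤ) ^ (j + 1) ∣ ∑ H ∈ I.powerset, (-1) ^ H.card *
          ∑ v : B, S v * ch (v : ι → ZMod 2) (fun i => if i ∈ H then 1 else 0) :=
        Finset.dvd_sum fun H _ => Dvd.dvd.mul_left (hS _) _
      have h2 : ∑ H ∈ I.powerset, (-1) ^ H.card *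
          ∑ v : B, S v * ch (v : ι → ZMod 2) (fun i => if i ∈ H then 1 else 0)
          = 2 ^ I.card * ∑ v : B, S v * (if ∀ i ∈ I, (v : ι → ZMod 2) i = 1 then 1 else 0) := by
        simp_rw [Finset.mul_sum]
        rw [Finset.sum_comm]
        refine Finset.sum_congr rfl fun w _ => ?_
        have h3 := face_sum I (w : ι → ZMod 2)
        have h4 : ∑ H ∈ I.powerset, (-1) ^ H.card *
            (S w * ch (w : ι → ZMod 2) (fun i => if i ∈ H then 1 else 0))
            = S w * ∑ H ∈ I.powerset, (-1) ^ H.card *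
              ch (w : ι → ZMod 2) (fun i => if i ∈ H then 1 else 0) := by
          rw [Finset.mul_sum]
          refine Finset.sum_congr rfl fun H _ => ?_
          ring
        rw [h4, h3]
        split_ifs <;> ring
      rw [h2] at h1
      have h5 : (2 : ℤ) ^ (j + 1) = 2 ^ I.card * 2 ^ (j + 1 - I.card) := by
        rw [← pow_add]; congr 1; omega
      rw [h5] at h1
      have h6 : (2 : ℤ) ^ (j + 1 - I.card) ∣
          ∑ v : B, S v * (if ∀ i ∈ I, (v : ι → ZMod 2) i = 1 then 1 else 0) :=
        (mul_dvd_mul_iff_left (pow_ne_zero _ two_ne_zero)).1 h1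
      have h7 : (2 : ℤ) ∣ ∑ v : B, S v * (if ∀ i ∈ I, (v : ι → ZMod 2) i = 1 then 1 else 0) :=
        (dvd_pow_self 2 (by omega)).trans h6
      have h8 := (ZMod.intCast_zmod_eq_zero_iff_dvd _ 2).2 (by exact_mod_cast h7)
      push_cast at h8
      rw [← h8]
      refine Finset.sum_congr rfl fun w _ => ?_
      rw [Pi.smul_apply, smul_eq_mul]
      unfold ev
      rw [if_pos hI, prod_zmod2]
    · refine Finset.sum_eq_zero fun w _ => ?_
      rw [Pi.smul_apply]
      unfold ev
      rw [if_neg hI, smul_zero]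
  have h9 := (Fintype.linearIndependent_iff.1 hB) (fun v => (S v : ZMod 2)) key v
  exact_mod_cast (ZMod.intCast_zmod_eq_zero_iff_dvd (S v) 2).1 h9

/-- a relation between characters with independent values of the monomials of degree at most `j` is
killed by `2 ^ j`. Otherwise divide by the largest power of `2` which divides all coordinates and
multiply back: integers `t v`, not all even, with `∑ t v * ch v y ≡ 0` modulo `2 ^ (j + 1)` for all `y`;
by `face_sum` the sum of the `t v` with `v = 1` on `I` is even if `I.card ≤ j`. -/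
theorem killed_gen (j r : ℕ) (B : Finset (ι → ZMod 2))
    (hB : LinearIndependent (ZMod 2) (fun v : B => ev j (v : ι → ZMod 2))) (t : B → ZMod (2 ^ r))
    (ht : t ∈ Lam r B) (v : B) : (2 : ZMod (2 ^ r)) ^ j * t v = 0 := by
  have : NeZero (2 ^ r) := ⟨pow_ne_zero r two_ne_zero⟩
  rw [mem_Lam] at ht
  have hT : ∀ y : ι → ZMod 2,
      (2 : ℤ) ^ r ∣ ∑ v : B, ((t v).val : ℤ) * ch (v : ι → ZMod 2) y := by
    intro y
    have h1 := ht y
    have h2 : ((∑ v : B, ((t v).val : ℤ) * ch (v : ι → ZMod 2) y : ℤ) : ZMod (2 ^ r)) = 0 := by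
      push_cast
      rw [← h1]
      refine Finset.sum_congr rfl fun w _ => ?_
      rw [ZMod.natCast_zmod_val]
    have h3 := (ZMod.intCast_zmod_eq_zero_iff_dvd _ _).1 h2
    exact_mod_cast h3
  have claim : ∀ k : ℕ, k + j ≤ r → ∀ w : B, (2 : ℤ) ^ k ∣ ((t w).val : ℤ) := by
    intro k
    induction k with
    | zero => intro _ w; simp
    | succ k ih =>
      intro hk w
      have ih' := ih (by omega)
      choose S hS using ih'
      have h1 : ∀ y : ι → ZMod 2, (2 : ℤ) ^ (j + 1) ∣ ∑ v : B, S v * ch (v : ι → ZMod 2) y := by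
        intro y
        have h2 : (2 : ℤ) ^ (k + (j + 1)) ∣ ∑ v : B, ((t v).val : ℤ) * ch (v : ι → ZMod 2) y :=
          (pow_dvd_pow 2 (by omega)).trans (hT y)
        have h3 : ∑ v : B, ((t v).val : ℤ) * ch (v : ι → ZMod 2) y
            = 2 ^ k * ∑ v : B, S v * ch (v : ι → ZMod 2) y := by
          rw [Finset.mul_sum]
          refine Finset.sum_congr rfl fun w _ => ?_
          rw [hS w]; ring
        rw [h3, pow_add] at h2
        exact (mul_dvd_mul_iff_left (pow_ne_zero _ two_ne_zero)).1 h2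
      obtain ⟨u, hu⟩ := dvd_step j B hB S h1 w
      refine ⟨u, ?_⟩
      rw [hS w, hu]; ring
  have hz : (2 : ZMod (2 ^ r)) ^ r = 0 := by
    have := ZMod.natCast_self (2 ^ r)
    push_cast at this
    exact this
  by_cases hjr : j ≤ r
  · obtain ⟨u, hu⟩ := claim (r - j) (by omega) v
    have h1 : t v = (((t v).val : ℤ) : ZMod (2 ^ r)) := by
      push_cast
      rw [ZMod.natCast_zmod_val]
    rw [h1, hu]
    push_cast
    rw [← mul_assoc, ← pow_add, show j + (r - j) = r by omega, hz, zero_mul]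
  · have h1 : (2 : ZMod (2 ^ r)) ^ j = 0 := by
      rw [show j = r + (j - r) by omega, pow_add, hz, zero_mul]
    rw [h1, zero_mul]

private theorem card_ker_le (r e : ℕ) (s : Finset (ZMod (2 ^ r)))
    (hs : ∀ x ∈ s, (2 : ZMod (2 ^ r)) ^ e * x = 0) : s.card ≤ 2 ^ e := by
  have : NeZero (2 ^ r) := ⟨pow_ne_zero r two_ne_zero⟩
  refine le_trans (Finset.card_le_card ?_)
    (IsAddCyclic.card_nsmul_eq_zero_le (α := ZMod (2 ^ r)) (n := 2 ^ e) (by positivity))
  intro x hx
  simp only [Finset.mem_filter, Finset.mem_univ, true_and]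
  rw [nsmul_eq_mul]
  push_cast
  exact hs x hx

/-- **The number of the relations.** Choose a maximal independent subset `B'` of `B`: `rk j B` elements;
the coordinates outside `B'` take at most `B.card` values each (`killed`), the difference of two
relations with the same coordinates outside `B'` is a relation on `B'` (`killed_gen`). -/
theorem card_Lam_le (j r : ℕ) (B : Finset (ι → ZMod 2)) :
    (Lam r B).card ≤ B.card ^ (B.card - rk j B) * 2 ^ (j * B.card) := by
  classical
  have : NeZero (2 ^ r) := ⟨pow_ne_zero r two_ne_zero⟩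
  obtain ⟨b, hbB, -, hspan, hind⟩ := exists_linearIndepOn_extension (K := ZMod 2) (v := ev j)
    (s := (∅ : Set (ι → ZMod 2))) (t := (B : Set (ι → ZMod 2))) (linearIndepOn_empty _ _)
    (Set.empty_subset _)
  obtain ⟨B', hB'⟩ : ∃ B' : Finset (ι → ZMod 2), (B' : Set (ι → ZMod 2)) = b :=
    ⟨b.toFinset, by simp⟩
  subst hB'
  have hsub : B' ⊆ B := by exact_mod_cast hbB
  have hrk : rk j B = B'.card := by
    unfold rk
    have h1 : Submodule.span (ZMod 2) (ev j '' (B : Set (ι → ZMod 2)))
        = Submodule.span (ZMod 2) (ev j '' (B' : Set (ι → ZMod 2))) := by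
      apply le_antisymm
      · exact Submodule.span_le.2 hspan
      · exact Submodule.span_mono (Set.image_mono hbB)
    rw [h1]
    have h2 : LinearIndependent (ZMod 2) (fun v : B' => ev j (v : ι → ZMod 2)) := hind
    have h3 := finrank_span_eq_card h2
    rw [Fintype.card_coe] at h3
    have h4 : Set.range (fun v : B' => ev j (v : ι → ZMod 2)) = ev j '' (B' : Set (ι → ZMod 2)) := by
      ext x
      constructor
      · rintro ⟨v, rfl⟩
        exact ⟨v.1, v.2, rfl⟩
      · rintro ⟨v, hv, rfl⟩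
        exact ⟨⟨v, hv⟩, rfl⟩
    rw [← h3, h4]
  have hind' : LinearIndependent (ZMod 2) (fun v : B' => ev j (v : ι → ZMod 2)) := hind
  choose e he1 he2 using fun v : B => killed B v
  -- the coordinates outside `B'`
  set f : (B → ZMod (2 ^ r)) → ({v // v ∈ B \ B'} → ZMod (2 ^ r)) :=
    fun t v => t ⟨v.1, (Finset.mem_sdiff.1 v.2).1⟩ with hf
  have himg : ((Lam r B).image f).card ≤ B.card ^ (B.card - rk j B) := by
    have h1 : (Lam r B).image f ⊆ Fintype.piFinset (fun v : {v // v ∈ B \ B'} =>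
        Finset.univ.filter fun x : ZMod (2 ^ r) =>
          (2 : ZMod (2 ^ r)) ^ (e ⟨v.1, (Finset.mem_sdiff.1 v.2).1⟩) * x = 0) := by
      intro u hu
      obtain ⟨t, ht, rfl⟩ := Finset.mem_image.1 hu
      rw [Fintype.mem_piFinset]
      intro v
      simp only [Finset.mem_filter, Finset.mem_univ, true_and]
      exact he2 _ r t ht
    refine (Finset.card_le_card h1).trans ?_
    rw [Fintype.card_piFinset]
    have h2 : ∏ v : {v // v ∈ B \ B'}, (Finset.univ.filter fun x : ZMod (2 ^ r) =>
          (2 : ZMod (2 ^ r)) ^ (e ⟨v.1, (Finset.mem_sdiff.1 v.2).1⟩) * x = 0).card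
        ≤ ∏ _v : {v // v ∈ B \ B'}, B.card := by
      refine Finset.prod_le_prod' fun v _ => ?_
      refine le_trans (card_ker_le r _ _ ?_) (he1 ⟨v.1, (Finset.mem_sdiff.1 v.2).1⟩)
      intro x hx
      exact (Finset.mem_filter.1 hx).2
    refine h2.trans ?_
    rw [Finset.prod_const, Finset.card_univ, Fintype.card_coe, Finset.card_sdiff_of_subset hsub,
      hrk]
  have hfib : ∀ u ∈ (Lam r B).image f,
      ((Lam r B).filter fun t => f t = u).card ≤ 2 ^ (j * B.card) := by
    intro u hu
    obtain ⟨t₀, ht₀, hu₀⟩ := Finset.mem_image.1 hu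
    have h1 : ((Lam r B).filter fun t => f t = u).card
        ≤ (Fintype.piFinset (fun _ : B' => Finset.univ.filter fun x : ZMod (2 ^ r) =>
          (2 : ZMod (2 ^ r)) ^ j * x = 0)).card := by
      refine Finset.card_le_card_of_injOn
        (fun t => fun v : B' => t ⟨v.1, hsub v.2⟩ - t₀ ⟨v.1, hsub v.2⟩) ?_ ?_
      · intro t ht
        obtain ⟨ht1, ht2⟩ := Finset.mem_filter.1 (Finset.mem_coe.1 ht)
        rw [Finset.mem_coe, Fintype.mem_piFinset]
        intro v
        simp only [Finset.mem_filter, Finset.mem_univ, true_and]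
        refine killed_gen j r B' hind' (fun v : B' => t ⟨v.1, hsub v.2⟩ - t₀ ⟨v.1, hsub v.2⟩) ?_ v
        rw [mem_Lam] at ht1 ht₀ ⊢
        intro y
        have h2 : ∑ w : B, (t w - t₀ w) * ((ch (w : ι → ZMod 2) y : ℤ) : ZMod (2 ^ r)) = 0 := by
          simp_rw [sub_mul]
          rw [Finset.sum_sub_distrib, ht1 y, ht₀ y, sub_zero]
        rw [← h2]
        -- compare the sums over `B'` and `B`
        have h3 : ∀ w : B, (w : ι → ZMod 2) ∉ B' → t w - t₀ w = 0 := by
          intro w hw
          have h4 : f t ⟨w.1, Finset.mem_sdiff.2 ⟨w.2, hw⟩⟩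
              = f t₀ ⟨w.1, Finset.mem_sdiff.2 ⟨w.2, hw⟩⟩ := by rw [ht2, hu₀]
          rw [sub_eq_zero]
          exact h4
        let i : B' → B := fun v => ⟨v.1, hsub v.2⟩
        have hi : Function.Injective i := by
          intro a b hab
          apply Subtype.ext
          exact congrArg (fun z : B => (z : ι → ZMod 2)) hab
        have h5 : ∑ w : B, (t w - t₀ w) * ((ch (w : ι → ZMod 2) y : ℤ) : ZMod (2 ^ r))
            = ∑ w ∈ Finset.univ.image i,
              (t w - t₀ w) * ((ch (w : ι → ZMod 2) y : ℤ) : ZMod (2 ^ r)) := by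
          symm
          refine Finset.sum_subset (Finset.subset_univ _) ?_
          intro w _ hw
          rw [h3 w, zero_mul]
          intro hwB
          exact hw (Finset.mem_image.2 ⟨⟨w.1, hwB⟩, Finset.mem_univ _, Subtype.ext rfl⟩)
        rw [h5, Finset.sum_image (fun a _ b _ h => hi h)]
      · intro t ht t' ht' hEq
        obtain ⟨ht1, ht2⟩ := Finset.mem_filter.1 (Finset.mem_coe.1 ht)
        obtain ⟨ht1', ht2'⟩ := Finset.mem_filter.1 (Finset.mem_coe.1 ht')
        funext w
        by_cases hw : (w : ι → ZMod 2) ∈ B'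
        · have h4 := congrFun hEq ⟨w.1, hw⟩
          simp only at h4
          exact sub_left_inj.1 h4
        · have h4 : f t ⟨w.1, Finset.mem_sdiff.2 ⟨w.2, hw⟩⟩
              = f t' ⟨w.1, Finset.mem_sdiff.2 ⟨w.2, hw⟩⟩ := by rw [ht2, ht2']
          exact h4
    refine h1.trans ?_
    rw [Fintype.card_piFinset, Finset.prod_const, Finset.card_univ, Fintype.card_coe, pow_mul]
    have h6 : (Finset.univ.filter fun x : ZMod (2 ^ r) =>
          (2 : ZMod (2 ^ r)) ^ j * x = 0).card ≤ 2 ^ j :=
      card_ker_le r j _ (fun x hx => (Finset.mem_filter.1 hx).2)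
    calc (Finset.univ.filter fun x : ZMod (2 ^ r) =>
          (2 : ZMod (2 ^ r)) ^ j * x = 0).card ^ B'.card ≤ (2 ^ j) ^ B'.card :=
          Nat.pow_le_pow_left h6 _
      _ ≤ (2 ^ j) ^ B.card := Nat.pow_le_pow_right (by positivity) (Finset.card_le_card hsub)
  calc (Lam r B).card ≤ 2 ^ (j * B.card) * ((Lam r B).image f).card :=
        Finset.card_le_mul_card_image _ _ hfib
    _ ≤ 2 ^ (j * B.card) * B.card ^ (B.card - rk j B) := Nat.mul_le_mul_left _ himg
    _ = B.card ^ (B.card - rk j B) * 2 ^ (j * B.card) := mul_comm _ _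

theorem one_le_card_Lam (r : ℕ) (B : Finset (ι → ZMod 2)) : 1 ≤ (Lam r B).card := by
  rw [Nat.one_le_iff_ne_zero, Finset.card_ne_zero]
  refine ⟨0, ?_⟩
  rw [mem_Lam]
  intro y
  simp

end Pool.Agent.Lib.MP_938ce2_ag_l4
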