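import Mathlib
import Pool.Agent.Lib.MP_938ce2_ag_l4.T01

set_option autoImplicit false

namespace Pool.Agent.Lib.MP_938ce2_ag_l4

open Finset

variable {ι : Type} [Fintype ι] [DecidableEq ι]

open Classical in
/-- a combination of characters with coefficients in `2 ^ (-E) ℤ` which is not integer valued takes a
non-integer value at least at a share `2 ^ (-E)` of the points. Induction on `E` by the differences
`F (y + h) - F y`, whose coefficients are `-2 θ v` or `0`. -/
theorem nonvanish (E : ℕ) (θ : (ι → ZMod 2) → ℝ) (hθ : ∀ v, ∃ k : ℤ, 2 ^ E * θ v = k)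
    (hne : ∃ y, ¬ ∃ k : ℤ, ∑ v, θ v * (ch v y : ℝ) = k) :
    2 ^ Fintype.card ι ≤ 2 ^ E *
      (univ.filter fun y : ι → ZMod 2 => ¬ ∃ k : ℤ, ∑ v, θ v * (ch v y : ℝ) = k).card := by
  induction E generalizing θ with
  | zero =>
    obtain ⟨y, hy⟩ := hne
    refine absurd ?_ hy
    choose k hk using hθ
    refine ⟨∑ v, k v * ch v y, ?_⟩
    push_cast
    refine Finset.sum_congr rfl fun v _ => ?_
    rw [← hk v, pow_zero, one_mul]
  | succ E ih =>
    -- the differences
    have hdiff : ∀ h y : ι → ZMod 2, ∑ v, θ v * (ch v (y + h) : ℝ) - ∑ v, θ v * (ch v y : ℝ)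
        = ∑ v, (θ v * ((ch v h : ℝ) - 1)) * (ch v y : ℝ) := by
      intro h y
      rw [← Finset.sum_sub_distrib]
      refine Finset.sum_congr rfl fun v _ => ?_
      rw [ch_add_right]
      push_cast
      ring
    by_cases hA : ∀ h y : ι → ZMod 2, ∃ k : ℤ, ∑ v, (θ v * ((ch v h : ℝ) - 1)) * (ch v y : ℝ) = k
    · -- every point is a non-integer point
      obtain ⟨y₀, hy₀⟩ := hne
      have hall : ∀ y : ι → ZMod 2, ¬ ∃ k : ℤ, ∑ v, θ v * (ch v y : ℝ) = k := by
        rintro y ⟨k, hk⟩
        apply hy₀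
        obtain ⟨l, hl⟩ := hA (y₀ - y) y
        rw [← hdiff, add_sub_cancel] at hl
        refine ⟨k + l, ?_⟩
        push_cast
        linarith
      rw [Finset.filter_true_of_mem fun y _ => hall y, Finset.card_univ, Fintype.card_fun, ZMod.card]
      exact Nat.le_mul_of_pos_left _ (by positivity)
    · push Not at hA
      obtain ⟨h, y₁, hy₁⟩ := hA
      have h1 := ih (fun v => θ v * ((ch v h : ℝ) - 1)) (by
        intro v
        obtain ⟨k, hk⟩ := hθ v
        rcases ch_eq_or v h with h2 | h2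
        · refine ⟨0, ?_⟩
          rw [h2]
          norm_num
        · refine ⟨-k, ?_⟩
          rw [h2]
          push_cast
          rw [← hk, pow_succ]
          ring) ⟨y₁, by
            rintro ⟨k, hk⟩
            exact hy₁ k hk⟩
      set A := univ.filter fun y : ι → ZMod 2 => ¬ ∃ k : ℤ, ∑ v, θ v * (ch v y : ℝ) = k with hAdef
      have h2 : (univ.filter fun y : ι → ZMod 2 =>
          ¬ ∃ k : ℤ, ∑ v, (θ v * ((ch v h : ℝ) - 1)) * (ch v y : ℝ) = k) ⊆
            A ∪ A.image fun y => y - h := by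
        intro y hy
        rw [Finset.mem_filter] at hy
        by_contra hn
        rw [Finset.mem_union, not_or] at hn
        apply hy.2
        have h3 : ∃ k : ℤ, ∑ v, θ v * (ch v y : ℝ) = k := by
          by_contra h4
          exact hn.1 (by rw [hAdef, Finset.mem_filter]; exact ⟨Finset.mem_univ _, h4⟩)
        have h5 : ∃ k : ℤ, ∑ v, θ v * (ch v (y + h) : ℝ) = k := by
          by_contra h4
          refine hn.2 (Finset.mem_image.mpr ⟨y + h, ?_, add_sub_cancel_right _ _⟩)
          rw [hAdef, Finset.mem_filter]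
          exact ⟨Finset.mem_univ _, h4⟩
        obtain ⟨k, hk⟩ := h3
        obtain ⟨l, hl⟩ := h5
        refine ⟨l - k, ?_⟩
        rw [← hdiff, hk, hl]
        push_cast
        rfl
      have h3 := (Finset.card_le_card h2).trans (Finset.card_union_le _ _)
      have h4 : (A.image fun y => y - h).card ≤ A.card := Finset.card_image_le
      refine h1.trans ?_
      rw [pow_succ, mul_assoc]
      exact Nat.mul_le_mul_left _ (by omega)

theorem nrm_nonneg (b : ℝ) : 0 ≤ nrm b := abs_nonneg _

theorem nrm_le (b : ℝ) : nrm b ≤ 1 / 2 := abs_sub_round b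

theorem nrm_le_abs_sub (b : ℝ) (k : ℤ) : nrm b ≤ |b - k| := round_le b k

theorem nrm_add_int (b : ℝ) (k : ℤ) : nrm (b + k) = nrm b := by
  unfold nrm
  rw [round_add_intCast]
  push_cast
  rw [add_sub_add_right_eq_sub]

theorem nrm_neg (b : ℝ) : nrm (-b) = nrm b := by
  have h : ∀ b : ℝ, nrm (-b) ≤ nrm b := by
    intro b
    refine (nrm_le_abs_sub (-b) (-round b)).trans (le_of_eq ?_)
    unfold nrm
    push_cast
    rw [← abs_neg]
    congr 1
    ring
  refine le_antisymm (h b) ?_
  have := h (-b)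
  rwa [neg_neg] at this

theorem nrm_add_le (a b : ℝ) : nrm (a + b) ≤ nrm a + nrm b := by
  refine (nrm_le_abs_sub (a + b) (round a + round b)).trans ?_
  have h : a + b - ((round a + round b : ℤ) : ℝ) = (a - round a) + (b - round b) := by
    push_cast
    ring
  rw [h]
  exact abs_add_le _ _

theorem nrm_int_mul_le (k : ℤ) (b : ℝ) : nrm (k * b) ≤ |(k : ℝ)| * nrm b := by
  refine (nrm_le_abs_sub (k * b) (k * round b)).trans (le_of_eq ?_)
  unfold nrm
  rw [← abs_mul]
  push_cast
  rw [mul_sub]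

theorem nrm_eq_abs {b : ℝ} (h : |b| ≤ 1 / 2) : nrm b = |b| := by
  refine le_antisymm ?_ ?_
  · have := nrm_le_abs_sub b 0
    simpa using this
  · unfold nrm
    by_cases h0 : round b = 0
    · rw [h0]
      simp
    · have h1 : (1 : ℝ) ≤ |(round b : ℝ)| := by
        have : (1 : ℤ) ≤ |round b| := Int.one_le_abs h0
        have h2 : ((1 : ℤ) : ℝ) ≤ ((|round b| : ℤ) : ℝ) := by exact_mod_cast this
        simpa using h2
      have h2 : |(round b : ℝ)| ≤ |b - round b| + |b| := by
        have h3 : (round b : ℝ) = -(b - round b) + b := by ring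
        calc |(round b : ℝ)| = |-(b - round b) + b| := by rw [← h3]
          _ ≤ |-(b - round b)| + |b| := abs_add_le _ _
          _ = |b - round b| + |b| := by rw [abs_neg]
      linarith

theorem nrm_eq_zero_iff (b : ℝ) : nrm b = 0 ↔ ∃ k : ℤ, b = k := by
  constructor
  · intro h
    refine ⟨round b, ?_⟩
    unfold nrm at h
    linarith [abs_eq_zero.mp h]
  · rintro ⟨k, rfl⟩
    unfold nrm
    rw [round_intCast, sub_self, abs_zero]

/-- the bound for the cosine -/
theorem abs_cos_le (b : ℝ) : |Real.cos (Real.pi * b)| ≤ Real.exp (-(2 * nrm b ^ 2)) := by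
  set δ := b - round b with hδ
  have h1 : |Real.cos (Real.pi * b)| = |Real.cos (Real.pi * δ)| := by
    have h2 : Real.pi * b = Real.pi * δ + round b * Real.pi := by
      rw [hδ]
      ring
    rw [h2, Real.cos_add_int_mul_pi]
    rw [abs_mul]
    have h3 : |((-1 : ℝ) ^ round b)| = 1 := by
      rw [abs_zpow, abs_neg, abs_one, one_zpow]
    rw [h3, one_mul]
  have h2 : nrm b ^ 2 = δ ^ 2 := by
    unfold nrm
    rw [sq_abs]
  have h3 : |δ| ≤ 1 / 2 := abs_sub_round b
  have h4 : |Real.pi * δ| ≤ Real.pi / 2 := by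
    rw [abs_mul, abs_of_pos Real.pi_pos]
    nlinarith [Real.pi_pos]
  rw [h1, h2]
  have h5 : 0 ≤ Real.cos (Real.pi * δ) := by
    apply Real.cos_nonneg_of_neg_pi_div_two_le_of_le
    · linarith [neg_abs_le (Real.pi * δ)]
    · exact (le_abs_self _).trans h4
  rw [abs_of_nonneg h5]
  have h6 : Real.cos (Real.pi * δ) ≤ 1 - 2 / Real.pi ^ 2 * (Real.pi * δ) ^ 2 :=
    Real.cos_le_one_sub_mul_cos_sq (h4.trans (by linarith [Real.pi_pos]))
  have h7 : 2 / Real.pi ^ 2 * (Real.pi * δ) ^ 2 = 2 * δ ^ 2 := by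
    field_simp
  rw [h7] at h6
  refine h6.trans ?_
  have := Real.add_one_le_exp (-(2 * δ ^ 2))
  linarith

end Pool.Agent.Lib.MP_938ce2_ag_l4
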