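import Mathlib
import Pool.Agent.Lib.MP_938ce2_ag_l4.T01
import Pool.Agent.Lib.MP_938ce2_ag_l4.T04

set_option autoImplicit false

namespace Pool.Agent.Lib.MP_938ce2_ag_l4

open Finset

variable {ι : Type} [Fintype ι] [DecidableEq ι] {X : Type} [Fintype X] [DecidableEq X] {c : X → X}
  {y : X → ι → ZMod 2} {c₀ : ι → ZMod 2} {g : ℕ}

private lemma t05_exists (hD : Dat c y c₀ g) : ∃ Φ₀ : Finset X, Typ c Φ₀ := by
  classical
  by_contra hcon
  push Not at hcon
  have h1 := cnt_true hD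
  have h2 : cnt c (fun _ => True) = 0 := by
    unfold cnt
    have h3 : ∀ Φ : Finset X, ¬ (Typ c Φ ∧ True) := fun Φ h => hcon Φ h.1
    simp [h3, hcon]
  rw [h2] at h1
  have : (0 : ℝ) < 2 ^ g := by positivity
  rw [← h1] at this
  exact lt_irrefl _ this

private lemma t05_compl (hD : Dat c y c₀ g) {Φ₀ : Finset X} (h0 : Typ c Φ₀) {M : Type*}
    [AddCommMonoid M] (f : X → M) : ∑ x, f x = ∑ x ∈ Φ₀, (f x + f (c x)) := by
  have hinj : Function.Injective c := fun a b h => by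
    have := congrArg c h
    rwa [hD.inv, hD.inv] at this
  have h1 : Φ₀ᶜ = Φ₀.image c := by
    ext x
    rw [mem_compl, mem_image]
    constructor
    · intro hx
      refine ⟨c x, ?_, hD.inv x⟩
      rw [h0 (c x), hD.inv]
      exact hx
    · rintro ⟨z, hz, rfl⟩
      exact (h0 z).1 hz
  rw [← sum_add_sum_compl Φ₀, h1, sum_image (fun a _ b _ h => hinj h), ← sum_add_distrib]

private lemma t05_card (hD : Dat c y c₀ g) {Φ₀ : Finset X} (h0 : Typ c Φ₀) : Φ₀.card = g := by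
  have h1 := t05_compl hD h0 (fun _ => (1 : ℕ))
  rw [sum_const, sum_const, card_univ, hD.card] at h1
  simp only [smul_eq_mul] at h1
  omega

private lemma t05_root {z : ℂ} {Q : ℕ} (hz : z ^ Q = 1) :
    ∃ n : ℕ, (∑ j : Fin Q, z ^ (j : ℕ)) = n ∧ (z = 1 → n = Q) := by
  by_cases h : z = 1
  · exact ⟨Q, by simp [h], fun _ => rfl⟩
  · refine ⟨0, ?_, fun h' => absurd h' h⟩
    have h1 := mul_geom_sum z Q
    rw [hz, sub_self] at h1
    rcases mul_eq_zero.1 h1 with h2 | h2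
    · exact absurd (sub_eq_zero.1 h2) h
    · rw [Finset.sum_range] at h2
      rw [h2]
      simp

/-- the exponent -/
private noncomputable def t05F (y : X → ι → ZMod 2) (B : Finset (ι → ZMod 2)) (q : ℕ)
    (t : B → Fin (2 ^ q)) (x : X) : ℝ :=
  ∑ v : B, 2 * ((t v : ℕ) : ℝ) / 2 ^ q * (ch (v : ι → ZMod 2) (y x) : ℝ)

private noncomputable def t05G (y : X → ι → ZMod 2) (Φ₀ : Finset X) (B : Finset (ι → ZMod 2)) (q : ℕ)
    (A : Finset X) : ℂ :=
  ∑ t : B → Fin (2 ^ q),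
    Complex.exp (((Real.pi * ∑ x ∈ Φ₀, (sgn A x : ℝ) * t05F y B q t x : ℝ) : ℂ) * Complex.I)

private lemma t05_G (y : X → ι → ZMod 2) (Φ₀ : Finset X) (B : Finset (ι → ZMod 2)) (q : ℕ)
    (A : Finset X) : ∃ n : ℕ, t05G y Φ₀ B q A = n ∧
      ((∀ v ∈ B, ∑ x ∈ Φ₀, sgn A x * ch v (y x) = 0) → n = (2 ^ q) ^ B.card) := by
  classical
  have hQ : (0 : ℝ) < 2 ^ q := by positivity
  obtain ⟨s, hs⟩ : ∃ s : B → ℤ, s = fun v : B => ∑ x ∈ Φ₀, sgn A x * ch (v : ι → ZMod 2) (y x) := ⟨_, rfl⟩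
  obtain ⟨z, hz⟩ : ∃ z : B → ℂ, z = fun v =>
      Complex.exp (((Real.pi * (2 / 2 ^ q * (s v : ℝ)) : ℝ) : ℂ) * Complex.I) := ⟨_, rfl⟩
  have hzQ : ∀ v, z v ^ (2 ^ q) = 1 := by
    intro v
    rw [hz]
    simp only
    rw [← Complex.exp_nat_mul]
    have : ((2 ^ q : ℕ) : ℂ) * (((Real.pi * (2 / 2 ^ q * (s v : ℝ)) : ℝ) : ℂ) * Complex.I)
        = (s v : ℂ) * (2 * Real.pi * Complex.I) := by
      push_cast
      have h2 : ((2 : ℂ) ^ q) ≠ 0 := pow_ne_zero _ two_ne_zero
      field_simp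
    rw [this]
    exact Complex.exp_int_mul_two_pi_mul_I _
  choose n hn1 hn2 using fun v => t05_root (hzQ v)
  refine ⟨∏ v, n v, ?_, ?_⟩
  · have h1 : t05G y Φ₀ B q A = ∑ t : B → Fin (2 ^ q), ∏ v, z v ^ ((t v : ℕ)) := by
      unfold t05G
      refine sum_congr rfl (fun t _ => ?_)
      rw [hz]
      simp only
      rw [Finset.prod_congr rfl (fun v _ => (Complex.exp_nat_mul _ _).symm), ← Complex.exp_sum]
      congr 1
      have h2 : Real.pi * ∑ x ∈ Φ₀, (sgn A x : ℝ) * t05F y B q t x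
          = ∑ v, ((t v : ℕ) : ℝ) * (Real.pi * (2 / 2 ^ q * (s v : ℝ))) := by
        rw [hs]
        unfold t05F
        push_cast
        rw [mul_sum]
        simp_rw [mul_sum]
        rw [sum_comm]
        refine sum_congr rfl (fun v _ => sum_congr rfl (fun x _ => ?_))
        ring
      rw [h2]
      push_cast
      rw [sum_mul]
      refine sum_congr rfl (fun v _ => ?_)
      ring
    rw [h1]
    push_cast
    rw [← Finset.prod_congr rfl (fun v _ => hn1 v), Finset.prod_univ_sum, Fintype.piFinset_univ]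
  · intro h0
    have h1 : ∀ v, n v = 2 ^ q := by
      intro v
      apply hn2 v
      rw [hz, hs]
      simp only
      rw [h0 v v.2]
      simp
    rw [Finset.prod_congr rfl (fun v _ => h1 v), prod_const, card_univ, Fintype.card_coe]

private lemma t05_sumG (y : X → ι → ZMod 2) (Φ₀ : Finset X) (B : Finset (ι → ZMod 2)) (q : ℕ) :
    ∑ A ∈ Φ₀.powerset, t05G y Φ₀ B q A = ((∑ t : B → Fin (2 ^ q),
      ∏ x ∈ Φ₀, (2 * Real.cos (Real.pi * t05F y B q t x)) : ℝ) : ℂ) := by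
  classical
  unfold t05G
  rw [sum_comm]
  push_cast
  refine sum_congr rfl (fun t _ => ?_)
  have h1 : ∀ x ∈ Φ₀, (2 * Complex.cos ((Real.pi : ℂ) * (t05F y B q t x : ℂ)))
      = Complex.exp (((Real.pi : ℂ) * (t05F y B q t x : ℂ)) * Complex.I)
        + Complex.exp (-((Real.pi : ℂ) * (t05F y B q t x : ℂ)) * Complex.I) :=
    fun x _ => Complex.two_cos _
  rw [Finset.prod_congr rfl h1, Finset.prod_add]
  refine sum_congr rfl (fun A hA => ?_)
  rw [mem_powerset] at hA
  rw [← Complex.exp_sum, ← Complex.exp_sum, ← Complex.exp_add]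
  congr 1
  rw [mul_sum, sum_mul, ← sum_sdiff hA, add_comm]
  congr 1
  · refine sum_congr rfl (fun x hx => ?_)
    have : sgn A x = 1 := by simp [sgn, hx]
    rw [this]
    push_cast
    ring
  · refine sum_congr rfl (fun x hx => ?_)
    have : sgn A x = -1 := by simp [sgn, (mem_sdiff.1 hx).2]
    rw [this]
    push_cast
    ring

/-- **The Fourier bound.** Fix a type `Φ₀` (`g` elements, one of each pair). For odd `v` the sum over `X` is
twice the sum `s v` over `Φ₀`, and `|s v| ≤ g < 2 ^ q`, so `s v = 0` iff `2 ^ q` divides `s v`. The indicator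
is the mean over `t` of `exp (2 π i ∑ t v * s v / 2 ^ q)`; summing over the types gives
`∏ x ∈ Φ₀, 2 * cos (2 π ∑ t v * ch v (y x) / 2 ^ q)`; then `abs_cos_le`, and the sum over `Φ₀` of the even
function `nrm ^ 2` is half of the sum over `X`. -/
theorem prob_le_sum (hD : Dat c y c₀ g) (B : Finset (ι → ZMod 2)) (hB : ∀ v ∈ B, ch v c₀ = -1)
    (q : ℕ) (hq : g < 2 ^ q) :
    cnt c (fun Φ => B ⊆ SS y c₀ Φ)
      ≤ 2 ^ g * (∑ t : B → Fin (2 ^ q),
        Real.exp (-(2 * NN y (fun v => 2 * ((t v : ℕ) : ℝ) / 2 ^ q)))) / (2 ^ q) ^ B.card := by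
  classical
  obtain ⟨Φ₀, h0⟩ := t05_exists hD
  have hcard := t05_card hD h0
  have hshift : ∀ v ∈ B, ∀ x, ch v (y (c x)) = - ch v (y x) := by
    intro v hv x
    rw [hD.shift, ch_add_right, hB v hv]
    ring
  rw [le_div_iff₀ (by positivity)]
  choose n hn1 hn2 using fun A => t05_G y Φ₀ B q A
  -- the count is at most the sum of the `n A`
  have hcount : cnt c (fun Φ => B ⊆ SS y c₀ Φ) * ((2 ^ q) ^ B.card : ℝ)
      ≤ ∑ A ∈ Φ₀.powerset, (n A : ℝ) := by
    have h1 : ((univ.filter fun Φ : Finset X => Typ c Φ ∧ B ⊆ SS y c₀ Φ).card)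
        ≤ (Φ₀.powerset.filter (fun A => n A = (2 ^ q) ^ B.card)).card := by
      refine card_le_card_of_injOn (fun Φ => Φ ∩ Φ₀) ?_ ?_
      · intro Φ hΦ
        rw [coe_filter] at hΦ ⊢
        obtain ⟨_, hT, hS⟩ := hΦ
        refine ⟨mem_powerset.2 inter_subset_right, hn2 _ (fun v hv => ?_)⟩
        have h2 := (mem_SS.1 (hS hv)).2
        rw [t05_compl hD h0] at h2
        have h3 : ∀ x ∈ Φ₀, sgn Φ x * ch v (y x) + sgn Φ (c x) * ch v (y (c x))
            = 2 * (sgn (Φ ∩ Φ₀) x * ch v (y x)) := by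
          intro x hx
          rw [hshift v hv]
          have h4 : sgn (Φ ∩ Φ₀) x = sgn Φ x := by simp [sgn, hx]
          have h5 : sgn Φ (c x) = - sgn Φ x := by
            have := hT x
            unfold sgn
            by_cases hxΦ : x ∈ Φ
            · simp [hxΦ, this.1 hxΦ]
            · have : c x ∈ Φ := by
                by_contra hcx
                exact hxΦ (this.2 hcx)
              simp [hxΦ, this]
          rw [h4, h5]
          ring
        rw [sum_congr rfl h3, ← mul_sum] at h2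
        exact (mul_eq_zero.1 h2).resolve_left two_ne_zero
      · intro Φ hΦ Ψ hΨ he
        rw [coe_filter] at hΦ hΨ
        have hT := hΦ.2.1
        have hT' := hΨ.2.1
        have he' : ∀ x ∈ Φ₀, (x ∈ Φ ↔ x ∈ Ψ) := by
          intro x hx
          have := Finset.ext_iff.1 he x
          simp only [mem_inter, hx, and_true] at this
          exact this
        ext x
        by_cases hx : x ∈ Φ₀
        · exact he' x hx
        · have hcx : c x ∈ Φ₀ := by
            rw [h0 (c x), hD.inv]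
            exact hx
          rw [hT x, hT' x, not_iff_not]
          exact he' _ hcx
    have h2 : cnt c (fun Φ => B ⊆ SS y c₀ Φ)
        = ((univ.filter fun Φ : Finset X => Typ c Φ ∧ B ⊆ SS y c₀ Φ).card : ℝ) := by
      unfold cnt
      congr 2
      ext Φ
      simp
    calc cnt c (fun Φ => B ⊆ SS y c₀ Φ) * ((2 ^ q) ^ B.card : ℝ)
        = ((univ.filter fun Φ : Finset X => Typ c Φ ∧ B ⊆ SS y c₀ Φ).card : ℝ) * ((2 ^ q) ^ B.card : ℝ) := by
          rw [h2]
      _ ≤ ((Φ₀.powerset.filter (fun A => n A = (2 ^ q) ^ B.card)).card : ℝ) * ((2 ^ q) ^ B.card : ℝ) := by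
          gcongr
      _ = ∑ A ∈ Φ₀.powerset.filter (fun A => n A = (2 ^ q) ^ B.card), (n A : ℝ) := by
          rw [sum_congr rfl (fun A hA => by rw [(mem_filter.1 hA).2]), sum_const, nsmul_eq_mul]
          push_cast
          rfl
      _ ≤ ∑ A ∈ Φ₀.powerset, (n A : ℝ) :=
          sum_le_sum_of_subset_of_nonneg (filter_subset _ _) (fun _ _ _ => Nat.cast_nonneg _)
  refine hcount.trans ?_
  have hsum : ∑ A ∈ Φ₀.powerset, (n A : ℝ) = ∑ t : B → Fin (2 ^ q),
      ∏ x ∈ Φ₀, (2 * Real.cos (Real.pi * t05F y B q t x)) := by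
    have h1 := t05_sumG y Φ₀ B q
    rw [sum_congr rfl (fun A _ => hn1 A)] at h1
    exact_mod_cast h1
  rw [hsum, mul_sum]
  refine sum_le_sum (fun t _ => ?_)
  have hNN : NN y (fun v : B => 2 * ((t v : ℕ) : ℝ) / 2 ^ q)
      = ∑ x ∈ Φ₀, nrm (t05F y B q t x) ^ 2 := by
    unfold NN
    rw [t05_compl hD h0 (fun x => nrm (∑ v : B, 2 * ((t v : ℕ) : ℝ) / 2 ^ q *
      (ch (v : ι → ZMod 2) (y x) : ℝ)) ^ 2), mul_sum]
    refine sum_congr rfl (fun x _ => ?_)
    have h1 : ∑ v : B, 2 * ((t v : ℕ) : ℝ) / 2 ^ q * (ch (v : ι → ZMod 2) (y (c x)) : ℝ)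
        = - t05F y B q t x := by
      unfold t05F
      rw [← sum_neg_distrib]
      refine sum_congr rfl (fun v _ => ?_)
      rw [hshift v v.2]
      push_cast
      ring
    rw [h1, nrm_neg]
    change 1 / 2 * (nrm (t05F y B q t x) ^ 2 + nrm (t05F y B q t x) ^ 2) = _
    ring
  rw [hNN]
  calc ∏ x ∈ Φ₀, (2 * Real.cos (Real.pi * t05F y B q t x))
      ≤ |∏ x ∈ Φ₀, (2 * Real.cos (Real.pi * t05F y B q t x))| := le_abs_self _
    _ = ∏ x ∈ Φ₀, |2 * Real.cos (Real.pi * t05F y B q t x)| := abs_prod _ _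
    _ ≤ ∏ x ∈ Φ₀, (2 * Real.exp (-(2 * nrm (t05F y B q t x) ^ 2))) := by
        refine prod_le_prod (fun _ _ => abs_nonneg _) (fun x _ => ?_)
        rw [abs_mul, abs_of_pos (by norm_num : (0 : ℝ) < 2)]
        exact mul_le_mul_of_nonneg_left (abs_cos_le _) (by norm_num)
    _ = 2 ^ g * Real.exp (-(2 * ∑ x ∈ Φ₀, nrm (t05F y B q t x) ^ 2)) := by
        rw [prod_mul_distrib, prod_const, hcard, ← Real.exp_sum, sum_neg_distrib, mul_sum]

end Pool.Agent.Lib.MP_938ce2_ag_l4
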