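import Mathlib
import Pool.Agent.Lib.MP_938ce2_ag_l4.T02
import Pool.Agent.Lib.MP_938ce2_ag_l4.T04

set_option autoImplicit false

namespace Pool.Agent.Lib.MP_938ce2_ag_l4

open Finset

variable {ι : Type} [Fintype ι] [DecidableEq ι] {X : Type} [Fintype X] [DecidableEq X] {c : X → X}
  {y : X → ι → ZMod 2} {c₀ : ι → ZMod 2} {g : ℕ}

private lemma t06_nrm_sum {κ : Type*} (s : Finset κ) (ρ : κ → ℤ) (f : κ → ℝ) :
    nrm (∑ h ∈ s, (ρ h : ℝ) * f h) ≤ ∑ h ∈ s, |(ρ h : ℝ)| * nrm (f h) := by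
  classical
  induction s using Finset.induction_on with
  | empty =>
    simp only [sum_empty]
    exact le_of_eq ((nrm_eq_zero_iff 0).2 ⟨0, by simp⟩)
  | insert a s ha ih =>
    rw [sum_insert ha, sum_insert ha]
    exact (nrm_add_le _ _).trans (add_le_add (nrm_int_mul_le _ _) ih)

private lemma t06_le (a b : ℝ) : nrm a ≤ nrm b + |a - b| := by
  have h1 := nrm_add_le (a - b) b
  rw [sub_add_cancel] at h1
  have h2 := nrm_le_abs_sub (a - b) 0
  rw [Int.cast_zero, sub_zero] at h2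
  linarith

/-- **Stability.** Let `F z = ∑ θ v * ch v z`. By `isolation`, `nrm (2 ^ e * θ v) ≤ ∑ |ρ h| * nrm (F (z + h))` for
all `z`; the mean over `z` is at most `2 ^ e * √(mean of nrm F ^ 2) ≤ 2 ^ e * √(τ / g)` (`sum_fib`). Choose
`θ₀ v` with `2 ^ e * θ₀ v` the nearest integer of `2 ^ e * θ v`. If `F₀ z = ∑ θ₀ v * ch v z` were not integer
valued it would be a non-integer at a share `≥ 1 / m` of the points (`nonvanish` with `2 ^ E ≤ m`), where
`nrm (F z) ≥ 1 / m - m * √(τ / g) ≥ 1 / (2 m)`; but the mean of `nrm F ^ 2` is at most `τ / g`. -/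
theorem stab (hD : Dat c y c₀ g) (B : Finset (ι → ZMod 2)) (hB : B.Nonempty) (θ : B → ℝ) {τ : ℝ}
    (hτ : 0 < τ) (hN : NN y θ ≤ τ) (hm : 8 * (B.card : ℝ) ^ 4 * τ ≤ g) :
    ∃ θ₀ : B → ℝ, (∀ v, ∃ (e : ℕ) (k : ℤ), 2 ^ e ≤ B.card ∧ 2 ^ e * θ₀ v = k) ∧
      (∀ v, |θ v - θ₀ v| ≤ √(τ / g)) ∧
      ∀ z : ι → ZMod 2, ∃ k : ℤ, ∑ v : B, θ₀ v * (ch (v : ι → ZMod 2) z : ℝ) = k := by
  classical
  obtain ⟨F, hF⟩ : ∃ F : (ι → ZMod 2) → ℝ, F = fun z => ∑ v : B, θ v * (ch (v : ι → ZMod 2) z : ℝ) :=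
    ⟨_, rfl⟩
  obtain ⟨N, hN0⟩ : ∃ N : ℝ, N = 2 ^ Fintype.card ι := ⟨_, rfl⟩
  have hNpos : 0 < N := by rw [hN0]; positivity
  have hNcard : ((univ : Finset (ι → ZMod 2)).card : ℝ) = N := by
    rw [card_univ, Fintype.card_fun, hN0, ZMod.card]
    push_cast
    rfl
  obtain ⟨η, hη⟩ : ∃ η : ℝ, η = √(τ / g) := ⟨_, rfl⟩
  have hg : (0 : ℝ) < g := by exact_mod_cast hD.pos
  have hη0 : 0 < η := by rw [hη]; positivity
  have hη2 : η ^ 2 = τ / g := by rw [hη]; exact Real.sq_sqrt (by positivity)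
  obtain ⟨m, hm0⟩ : ∃ m : ℝ, m = (B.card : ℝ) := ⟨_, rfl⟩
  have hm1 : 1 ≤ m := by rw [hm0]; exact_mod_cast hB.card_pos
  -- the mean of the squares
  have hsq : ∑ z, nrm (F z) ^ 2 ≤ η ^ 2 * N := by
    have h1 := sum_fib hD (fun z => nrm (F z) ^ 2)
    have h2 : ∑ x, nrm (F (y x)) ^ 2 = 2 * NN y θ := by
      unfold NN
      rw [hF]
      ring
    rw [h2, ← hN0] at h1
    rw [hη2, div_mul_eq_mul_div, le_div_iff₀ hg]
    nlinarith
  have hsum : ∑ z, nrm (F z) ≤ η * N := by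
    have h1 := sq_sum_le_card_mul_sum_sq (s := (univ : Finset (ι → ZMod 2))) (f := fun z => nrm (F z))
    rw [hNcard] at h1
    have h2 : (∑ z, nrm (F z)) ^ 2 ≤ (η * N) ^ 2 := by
      calc (∑ z, nrm (F z)) ^ 2 ≤ N * ∑ z, nrm (F z) ^ 2 := h1
        _ ≤ N * (η ^ 2 * N) := mul_le_mul_of_nonneg_left hsq hNpos.le
        _ = (η * N) ^ 2 := by ring
    exact le_of_sq_le_sq h2 (by positivity)
  -- the coefficients
  have hcoef : ∀ v : B, ∃ e : ℕ, 2 ^ e ≤ B.card ∧ nrm (2 ^ e * θ v) ≤ 2 ^ e * η := by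
    intro v
    obtain ⟨e, ρ, he, hρ, hiso⟩ := isolation B v v.2
    refine ⟨e, he, ?_⟩
    have h1 : ∀ z, nrm (2 ^ e * θ v) ≤ ∑ h, |(ρ h : ℝ)| * nrm (F (z + h)) := by
      intro z
      have h2 : ∑ h, (ρ h : ℝ) * F (z + h) = 2 ^ e * θ v * (ch (v : ι → ZMod 2) z : ℝ) := by
        rw [hF]
        simp only [mul_sum]
        rw [sum_comm]
        have h3 : ∀ v' : B, ∑ h, (ρ h : ℝ) * (θ v' * (ch (v' : ι → ZMod 2) (z + h) : ℝ))
            = if v' = v then 2 ^ e * θ v * (ch (v : ι → ZMod 2) z : ℝ) else 0 := by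
          intro v'
          have h4 : ∑ h, (ρ h : ℝ) * (ch (v' : ι → ZMod 2) h : ℝ)
              = if v' = v then (2 : ℝ) ^ e else 0 := by
            have h5 := hiso v' v'.2
            have h6 : ((∑ h, ρ h * ch (v' : ι → ZMod 2) h : ℤ) : ℝ)
                = ((if (v' : ι → ZMod 2) = v then 2 ^ e else 0 : ℤ) : ℝ) := by rw [h5]
            push_cast at h6
            rw [h6]
            by_cases h7 : v' = v
            · simp [h7]
            · have h8 : (v' : ι → ZMod 2) ≠ v := fun h => h7 (Subtype.ext h)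
              simp [h7, h8]
          calc ∑ h, (ρ h : ℝ) * (θ v' * (ch (v' : ι → ZMod 2) (z + h) : ℝ))
              = θ v' * (ch (v' : ι → ZMod 2) z : ℝ) * ∑ h, (ρ h : ℝ) * (ch (v' : ι → ZMod 2) h : ℝ) := by
                rw [mul_sum]
                refine sum_congr rfl (fun h _ => ?_)
                rw [ch_add_right]
                push_cast
                ring
            _ = _ := by
                rw [h4]
                by_cases h7 : v' = v
                · rw [if_pos h7, if_pos h7, h7]; ring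
                · rw [if_neg h7, if_neg h7]; ring
        rw [sum_congr rfl (fun v' _ => h3 v')]
        simp
      have h3 : nrm (2 ^ e * θ v * (ch (v : ι → ZMod 2) z : ℝ)) = nrm (2 ^ e * θ v) := by
        rcases ch_eq_or (v : ι → ZMod 2) z with h | h
        · rw [h]; simp
        · rw [h]
          push_cast
          rw [mul_neg_one, nrm_neg]
      rw [← h3, ← h2]
      exact t06_nrm_sum _ _ _
    have h2 : N * nrm (2 ^ e * θ v) ≤ N * (2 ^ e * η) := by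
      calc N * nrm (2 ^ e * θ v) = ∑ z : ι → ZMod 2, nrm (2 ^ e * θ v) := by
            rw [sum_const, nsmul_eq_mul, hNcard]
        _ ≤ ∑ z : ι → ZMod 2, ∑ h, |(ρ h : ℝ)| * nrm (F (z + h)) := sum_le_sum (fun z _ => h1 z)
        _ = ∑ h, |(ρ h : ℝ)| * ∑ z, nrm (F z) := by
            rw [sum_comm]
            refine sum_congr rfl (fun h _ => ?_)
            rw [← mul_sum]
            congr 1
            exact Fintype.sum_equiv (Equiv.addRight h) _ _ (fun z => rfl)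
        _ = (∑ h, |(ρ h : ℝ)|) * ∑ z, nrm (F z) := by rw [sum_mul]
        _ ≤ 2 ^ e * (η * N) := by
            refine mul_le_mul ?_ hsum (sum_nonneg (fun z _ => nrm_nonneg _)) (by positivity)
            have : ((∑ h, |ρ h| : ℤ) : ℝ) ≤ ((2 ^ e : ℤ) : ℝ) := by exact_mod_cast hρ
            push_cast at this
            exact this
        _ = N * (2 ^ e * η) := by ring
    exact le_of_mul_le_mul_left h2 hNpos
  choose e he1 he2 using hcoef
  obtain ⟨θ₀, hθ₀⟩ : ∃ θ₀ : B → ℝ, θ₀ = fun v => (round (2 ^ e v * θ v) : ℝ) / 2 ^ e v := ⟨_, rfl⟩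
  have hclose : ∀ v, |θ v - θ₀ v| ≤ η := by
    intro v
    have h1 : θ v - θ₀ v = (2 ^ e v * θ v - round (2 ^ e v * θ v)) / 2 ^ e v := by
      rw [hθ₀]
      field_simp
    rw [h1, abs_div, abs_of_pos (by positivity : (0 : ℝ) < 2 ^ e v), div_le_iff₀ (by positivity), mul_comm η]
    exact he2 v
  have hint : ∀ v, 2 ^ e v * θ₀ v = (round (2 ^ e v * θ v) : ℝ) := by
    intro v
    rw [hθ₀]
    field_simp
  refine ⟨θ₀, fun v => ⟨e v, _, he1 v, hint v⟩, fun v => by rw [← hη]; exact hclose v, ?_⟩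
  by_contra hcon
  push Not at hcon
  obtain ⟨z₀, hz₀⟩ := hcon
  -- common exponent
  obtain ⟨v₁, hv₁⟩ := hB
  obtain ⟨w, _, hw⟩ := exists_max_image (univ : Finset B) e ⟨⟨v₁, hv₁⟩, mem_univ _⟩
  obtain ⟨θ', hθ'⟩ : ∃ θ' : (ι → ZMod 2) → ℝ, θ' = fun v => if h : v ∈ B then θ₀ ⟨v, h⟩ else 0 :=
    ⟨_, rfl⟩
  have hsum' : ∀ z, ∑ v, θ' v * (ch v z : ℝ) = ∑ v : B, θ₀ v * (ch (v : ι → ZMod 2) z : ℝ) := by
    intro z
    rw [← sum_subset (subset_univ B), ← sum_coe_sort B]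
    · refine sum_congr rfl (fun v _ => ?_)
      rw [hθ']
      simp
    · intro v _ hv
      rw [hθ']
      simp [hv]
  have hθint : ∀ v, ∃ k : ℤ, 2 ^ e w * θ' v = k := by
    intro v
    by_cases h : v ∈ B
    · have h1 := hw ⟨v, h⟩ (mem_univ _)
      refine ⟨2 ^ (e w - e ⟨v, h⟩) * round (2 ^ e ⟨v, h⟩ * θ ⟨v, h⟩), ?_⟩
      rw [hθ']
      simp only [h, dif_pos]
      push_cast
      rw [← hint ⟨v, h⟩, ← mul_assoc, ← pow_add, Nat.sub_add_cancel h1]
    · exact ⟨0, by rw [hθ']; simp [h]⟩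
  have hnv := nonvanish (e w) θ' hθint ⟨z₀, by rw [hsum' z₀]; rintro ⟨k, hk⟩; exact hz₀ k hk⟩
  have h2m : (2 : ℝ) ^ e w ≤ m := by rw [hm0]; exact_mod_cast he1 w
  have hbig : ∀ z, (¬ ∃ k : ℤ, ∑ v, θ' v * (ch v z : ℝ) = k) → 1 / (2 * m) ≤ nrm (F z) := by
    intro z hz
    obtain ⟨b, hb⟩ : ∃ b : ℝ, b = ∑ v, θ' v * (ch v z : ℝ) := ⟨_, rfl⟩
    rw [← hb] at hz
    have h1 : ∃ K : ℤ, 2 ^ e w * b = K := by
      choose k hk using hθint
      refine ⟨∑ v, k v * ch v z, ?_⟩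
      rw [hb, mul_sum]
      push_cast
      refine sum_congr rfl (fun v _ => ?_)
      rw [← hk v]
      ring
    obtain ⟨K, hK⟩ := h1
    have h2 : 1 / m ≤ nrm b := by
      have h3 : (1 : ℝ) ≤ 2 ^ e w * nrm b := by
        unfold nrm
        rw [← abs_of_pos (by positivity : (0 : ℝ) < 2 ^ e w), ← abs_mul, mul_sub, hK]
        have h4 : ((K : ℝ) - 2 ^ e w * (round b : ℝ)) = ((K - 2 ^ e w * round b : ℤ) : ℝ) := by
          push_cast; ring
        rw [h4]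
        have h5 : (K - 2 ^ e w * round b : ℤ) ≠ 0 := by
          intro h6
          apply hz
          refine ⟨round b, ?_⟩
          have h7 : (K : ℝ) - 2 ^ e w * (round b : ℝ) = 0 := by rw [h4, h6]; simp
          rw [← hK, ← mul_sub] at h7
          rcases mul_eq_zero.1 h7 with h8 | h8
          · exact absurd h8 (by positivity)
          · linarith
        have h6 : 1 ≤ |K - 2 ^ e w * round b| := Int.one_le_abs h5
        exact_mod_cast h6
      rw [div_le_iff₀ (by linarith)]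
      have := nrm_nonneg b
      nlinarith
    have h3 : |F z - b| ≤ m * η := by
      rw [hb, hsum' z, hF]
      simp only []
      rw [← sum_sub_distrib]
      refine (abs_sum_le_sum_abs _ _).trans ?_
      have h4 : ∀ v : B, |θ v * (ch (v : ι → ZMod 2) z : ℝ) - θ₀ v * (ch (v : ι → ZMod 2) z : ℝ)| ≤ η := by
        intro v
        rw [← sub_mul, abs_mul]
        have : |(ch (v : ι → ZMod 2) z : ℝ)| = 1 := by
          rcases ch_eq_or (v : ι → ZMod 2) z with h | h <;> rw [h] <;> simp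
        rw [this, mul_one]
        exact hclose v
      refine (sum_le_sum (fun v _ => h4 v)).trans ?_
      rw [sum_const, nsmul_eq_mul, card_univ, Fintype.card_coe, hm0]
    have h4 := t06_le b (F z)
    rw [abs_sub_comm] at h4
    have h5 : m * η ≤ 1 / (2 * m) := by
      have h6 : 8 * m ^ 4 * η ^ 2 ≤ 1 := by
        rw [hη2, ← mul_div_assoc, div_le_one hg, hm0]
        exact hm
      have h7 : (2 * m * (m * η)) ^ 2 ≤ 1 ^ 2 := by nlinarith
      have h8 := le_of_sq_le_sq h7 (by norm_num)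
      rw [le_div_iff₀ (by positivity)]
      linarith
    have h6 : 1 / m = 2 * (1 / (2 * m)) := by field_simp
    linarith
  have h1 : (1 / (2 * m)) ^ 2 * (univ.filter fun z : ι → ZMod 2 =>
      ¬ ∃ k : ℤ, ∑ v, θ' v * (ch v z : ℝ) = k).card ≤ ∑ z, nrm (F z) ^ 2 := by
    calc (1 / (2 * m)) ^ 2 * (univ.filter fun z : ι → ZMod 2 =>
          ¬ ∃ k : ℤ, ∑ v, θ' v * (ch v z : ℝ) = k).card
        = ∑ z ∈ univ.filter (fun z : ι → ZMod 2 =>
          ¬ ∃ k : ℤ, ∑ v, θ' v * (ch v z : ℝ) = k), (1 / (2 * m)) ^ 2 := by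
          rw [sum_const, nsmul_eq_mul, mul_comm]
      _ ≤ ∑ z ∈ univ.filter (fun z : ι → ZMod 2 =>
          ¬ ∃ k : ℤ, ∑ v, θ' v * (ch v z : ℝ) = k), nrm (F z) ^ 2 := by
          refine sum_le_sum (fun z hz => pow_le_pow_left₀ (by positivity) (hbig z (mem_filter.1 hz).2) 2)
      _ ≤ _ := sum_le_sum_of_subset_of_nonneg (filter_subset _ _) (fun _ _ _ => by positivity)
  have h2 : N ≤ 2 ^ e w * ((univ.filter fun z : ι → ZMod 2 =>
      ¬ ∃ k : ℤ, ∑ v, θ' v * (ch v z : ℝ) = k).card : ℝ) := by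
    rw [hN0]
    exact_mod_cast hnv
  obtain ⟨T, hT⟩ : ∃ T : ℝ, T = ((univ.filter fun z : ι → ZMod 2 =>
      ¬ ∃ k : ℤ, ∑ v, θ' v * (ch v z : ℝ) = k).card : ℝ) := ⟨_, rfl⟩
  rw [← hT] at h1 h2
  have hT0 : 0 ≤ T := by rw [hT]; exact Nat.cast_nonneg _
  have h3 : N ≤ m * T := h2.trans (mul_le_mul_of_nonneg_right h2m hT0)
  have h4 : (1 / (2 * m)) ^ 2 * T ≤ η ^ 2 * N := h1.trans hsq
  have h5 : 8 * m ^ 4 * η ^ 2 ≤ 1 := by
    rw [hη2, ← mul_div_assoc, div_le_one hg, hm0]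
    exact hm
  have h6 : T ≤ 4 * m ^ 2 * (η ^ 2 * N) := by
    have h7 : (1 / (2 * m)) ^ 2 * T * (4 * m ^ 2) = T := by field_simp; ring
    calc T = (1 / (2 * m)) ^ 2 * T * (4 * m ^ 2) := h7.symm
      _ ≤ (η ^ 2 * N) * (4 * m ^ 2) := mul_le_mul_of_nonneg_right h4 (by positivity)
      _ = _ := by ring
  have h7 : N ≤ 4 * m ^ 3 * η ^ 2 * N := by
    calc N ≤ m * T := h3
      _ ≤ m * (4 * m ^ 2 * (η ^ 2 * N)) := mul_le_mul_of_nonneg_left h6 (by linarith)
      _ = _ := by ring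
  have h8 : 1 ≤ 4 * m ^ 3 * η ^ 2 := by
    by_contra hcon2
    push Not at hcon2
    nlinarith
  have h9 : 4 * m ^ 3 * η ^ 2 ≤ 1 / 2 := by
    have h10 : m ^ 3 * η ^ 2 ≤ m ^ 4 * η ^ 2 := by
      have : m ^ 3 ≤ m ^ 4 := pow_le_pow_right₀ hm1 (by norm_num)
      exact mul_le_mul_of_nonneg_right this (by positivity)
    linarith
  linarith

end Pool.Agent.Lib.MP_938ce2_ag_l4
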