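import Mathlib
import Pool.Agent.Lib.MP_938ce2_ag_l4.T01
import Pool.Agent.Lib.MP_938ce2_ag_l4.T04

set_option autoImplicit false

namespace Pool.Agent.Lib.MP_938ce2_ag_l4

open Finset

variable {ι : Type} [Fintype ι] [DecidableEq ι] {X : Type} [Fintype X] [DecidableEq X] {c : X → X}
  {y : X → ι → ZMod 2} {c₀ : ι → ZMod 2} {g : ℕ}

private theorem abs_ch (v z : ι → ZMod 2) : |(ch v z : ℝ)| = 1 := by
  rcases ch_eq_or v z with h | h <;> simp [h]

/-- near an integer valued combination the form is the sum of squares -/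
theorem gauss (hD : Dat c y c₀ g) (B : Finset (ι → ZMod 2)) (θ θ₀ : B → ℝ)
    (h0 : ∀ z : ι → ZMod 2, ∃ k : ℤ, ∑ v : B, θ₀ v * (ch (v : ι → ZMod 2) z : ℝ) = k)
    (hs : ∑ v, |θ v - θ₀ v| ≤ 1 / 2) : NN y θ = g * ∑ v, (θ v - θ₀ v) ^ 2 := by
  have key : ∀ z : ι → ZMod 2, nrm (∑ v : B, θ v * (ch (v : ι → ZMod 2) z : ℝ)) ^ 2
      = (∑ v : B, (θ v - θ₀ v) * (ch (v : ι → ZMod 2) z : ℝ)) ^ 2 := by
    intro z
    obtain ⟨k, hk⟩ := h0 z
    have e1 : ∑ v : B, θ v * (ch (v : ι → ZMod 2) z : ℝ)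
        = ∑ v : B, (θ v - θ₀ v) * (ch (v : ι → ZMod 2) z : ℝ) + k := by
      rw [← hk, ← Finset.sum_add_distrib]
      refine Finset.sum_congr rfl fun v _ => by ring
    have e2 : |∑ v : B, (θ v - θ₀ v) * (ch (v : ι → ZMod 2) z : ℝ)| ≤ 1 / 2 := by
      refine (Finset.abs_sum_le_sum_abs _ _).trans (le_trans (le_of_eq ?_) hs)
      refine Finset.sum_congr rfl fun v _ => by rw [abs_mul, abs_ch, mul_one]
    rw [e1, nrm_add_int, nrm_eq_abs e2, sq_abs]
  have hp : (0 : ℝ) < 2 ^ Fintype.card ι := by positivity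
  have hf := sum_fib hD (fun z => (∑ v : B, (θ v - θ₀ v) * (ch (v : ι → ZMod 2) z : ℝ)) ^ 2)
  have hz : ∑ z : ι → ZMod 2, (∑ v : B, (θ v - θ₀ v) * (ch (v : ι → ZMod 2) z : ℝ)) ^ 2
      = 2 ^ Fintype.card ι * ∑ v, (θ v - θ₀ v) ^ 2 := by
    have e3 : ∀ z : ι → ZMod 2, (∑ v : B, (θ v - θ₀ v) * (ch (v : ι → ZMod 2) z : ℝ)) ^ 2
        = ∑ v : B, ∑ w : B, (θ v - θ₀ v) * (θ w - θ₀ w) *
          ((ch (v : ι → ZMod 2) z : ℝ) * (ch (w : ι → ZMod 2) z : ℝ)) := by
      intro z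
      rw [sq, Finset.sum_mul_sum]
      refine Finset.sum_congr rfl fun v _ => Finset.sum_congr rfl fun w _ => by ring
    simp only [e3]
    rw [Finset.sum_comm, Finset.mul_sum]
    refine Finset.sum_congr rfl fun v _ => ?_
    rw [Finset.sum_comm]
    have e4 : ∀ w : B, ∑ z : ι → ZMod 2, (θ v - θ₀ v) * (θ w - θ₀ w) *
        ((ch (v : ι → ZMod 2) z : ℝ) * (ch (w : ι → ZMod 2) z : ℝ))
        = if v = w then 2 ^ Fintype.card ι * (θ v - θ₀ v) ^ 2 else 0 := by
      intro w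
      rw [← Finset.mul_sum]
      have e5 := sum_ch_mul (v : ι → ZMod 2) (w : ι → ZMod 2)
      have e6 : ∑ z : ι → ZMod 2, ((ch (v : ι → ZMod 2) z : ℝ) * (ch (w : ι → ZMod 2) z : ℝ))
          = if (v : ι → ZMod 2) = w then 2 ^ Fintype.card ι else 0 := by
        have := congrArg (fun n : ℤ => (n : ℝ)) e5
        push_cast at this
        rw [this]
      rw [e6]
      by_cases h : v = w
      · subst h
        simp only [if_true]
        ring
      · have h' : ¬ ((v : ι → ZMod 2) = w) := fun e => h (Subtype.ext e)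
        simp [h, h']
    rw [Finset.sum_congr rfl fun w _ => e4 w]
    simp
  rw [hz] at hf
  have hf' : ∑ x, (∑ v : B, (θ v - θ₀ v) * (ch (v : ι → ZMod 2) (y x) : ℝ)) ^ 2
      = 2 * g * ∑ v, (θ v - θ₀ v) ^ 2 := by
    refine mul_right_cancel₀ hp.ne' ?_
    rw [hf]
    ring
  unfold NN
  rw [Finset.sum_congr rfl fun x _ => key (y x), hf']
  ring

/-- the one dimensional sum -/
theorem theta_sum {a : ℝ} (ha : 0 < a) (ha1 : a ≤ 1) (D : ℕ) :
    ∑ k ∈ Icc (-(D : ℤ)) D, Real.exp (-(a * (k : ℝ) ^ 2)) ≤ 4 / √a := by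
  have h1 : ∀ D : ℕ, ∑ k ∈ Icc (-(D : ℤ)) D, Real.exp (-(a * (k : ℝ) ^ 2))
      = 1 + 2 * ∑ i ∈ range D, Real.exp (-a * (0 + ((i + 1 : ℕ) : ℝ)) ^ 2) := by
    intro D
    induction D with
    | zero => simp
    | succ D ih =>
      have e : Icc (-((D + 1 : ℕ) : ℤ)) ((D + 1 : ℕ) : ℤ)
          = insert (-((D + 1 : ℕ) : ℤ)) (insert ((D + 1 : ℕ) : ℤ) (Icc (-(D : ℤ)) D)) := by
        ext k
        simp only [mem_Icc, mem_insert]
        push_cast
        constructor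
        · intro h
          omega
        · intro h
          omega
      rw [e, Finset.sum_insert, Finset.sum_insert, ih, Finset.sum_range_succ]
      · push_cast
        ring_nf
      · simp
      · simp only [mem_insert, mem_Icc, not_or]
        push_cast
        constructor
        · omega
        · omega
  rw [h1 D]
  have hanti : AntitoneOn (fun x : ℝ => Real.exp (-a * x ^ 2)) (Set.Icc 0 (0 + (D : ℝ))) := by
    intro x hx z hz hxz
    apply Real.exp_le_exp.mpr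
    have : x ^ 2 ≤ z ^ 2 := pow_le_pow_left₀ hx.1 hxz 2
    nlinarith
  have h2 := AntitoneOn.sum_le_integral hanti
  have h3 : ∫ x in (0 : ℝ)..(0 + (D : ℝ)), Real.exp (-a * x ^ 2) ≤ √(Real.pi / a) / 2 := by
    rw [← integral_gaussian_Ioi a, intervalIntegral.integral_of_le (by positivity)]
    apply MeasureTheory.setIntegral_mono_set
    · exact (integrable_exp_neg_mul_sq ha).integrableOn
    · exact Filter.Eventually.of_forall fun x => (Real.exp_pos _).le
    · exact Filter.Eventually.of_forall fun x hx => hx.1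
  have h4 : √(Real.pi / a) ≤ 2 / √a := by
    rw [Real.sqrt_div Real.pi_pos.le]
    apply div_le_div_of_nonneg_right _ (Real.sqrt_nonneg a)
    rw [Real.sqrt_le_left (by norm_num)]
    have := Real.pi_le_four
    linarith
  have h5 : (1 : ℝ) ≤ 1 / √a := by
    rw [le_div_iff₀ (Real.sqrt_pos.mpr ha), one_mul]
    exact Real.sqrt_le_one.mpr ha1
  have h6 : (4 : ℝ) / √a = 2 / √a + 2 * (1 / √a) := by ring
  rw [h6]
  have : ∑ i ∈ range D, Real.exp (-a * (0 + ((i + 1 : ℕ) : ℝ)) ^ 2) ≤ √(Real.pi / a) / 2 :=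
    h2.trans h3
  linarith

end Pool.Agent.Lib.MP_938ce2_ag_l4
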