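import Mathlib
import Pool.Agent.Lib.MP_938ce2_ag_l4.T03
import Pool.Agent.Lib.MP_938ce2_ag_l4.T06
import Pool.Agent.Lib.MP_938ce2_ag_l4.T07

set_option autoImplicit false

namespace Pool.Agent.Lib.MP_938ce2_ag_l4

open Finset

variable {ι : Type} [Fintype ι] [DecidableEq ι] {X : Type} [Fintype X] [DecidableEq X] {c : X → X}
  {y : X → ι → ZMod 2} {c₀ : ι → ZMod 2} {g : ℕ}

private theorem mem_Lam_iff (r : ℕ) (B : Finset (ι → ZMod 2)) (t : B → ZMod (2 ^ r)) :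
    t ∈ Lam r B ↔ ∀ y : ι → ZMod 2,
      ∑ v : B, t v * ((ch (v : ι → ZMod 2) y : ℤ) : ZMod (2 ^ r)) = 0 := by
  unfold Lam
  rw [mem_filter]
  exact ⟨fun h => h.2, fun h => ⟨mem_univ _, h⟩⟩

/-- the structure of the frequencies with a small form -/
private theorem freq_key (hD : Dat c y c₀ g) (B : Finset (ι → ZMod 2)) (hB : B.Nonempty) (q : ℕ)
    (hq2 : 2 * B.card ≤ 2 ^ q) {τ : ℝ} (hτ : 0 < τ) (hm : 8 * (B.card : ℝ) ^ 4 * τ ≤ g)
    (t : B → Fin (2 ^ q)) (hN : NN y (fun v => 2 * ((t v : ℕ) : ℝ) / 2 ^ q) ≤ τ) :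
    ∃ t₀ δ : B → ℤ, (∀ v, ((t v : ℕ) : ℤ) = t₀ v + δ v) ∧ (∀ v, |δ v| ≤ 2 ^ q) ∧
      (fun v => ((t₀ v : ℤ) : ZMod (2 ^ (q - 1)))) ∈ Lam (q - 1) B ∧
      NN y (fun v => 2 * ((t v : ℕ) : ℝ) / 2 ^ q) = g * ∑ v, (2 * (δ v : ℝ) / 2 ^ q) ^ 2 := by
  have hg0 : (0 : ℝ) < g := by exact_mod_cast hD.pos
  have hc1 : 1 ≤ B.card := hB.card_pos
  have hcR : (1 : ℝ) ≤ B.card := by exact_mod_cast hc1
  obtain ⟨θ₀, h1, h2, h3⟩ := stab hD B hB (fun v => 2 * ((t v : ℕ) : ℝ) / 2 ^ q) hτ hN hm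
  choose e k he hk using h1
  have heq : ∀ v, e v + 1 ≤ q := by
    intro v
    have h4 : 2 ^ (e v + 1) ≤ 2 ^ q := by
      rw [pow_succ]
      have := he v
      omega
    exact (Nat.pow_le_pow_iff_right (by norm_num)).1 h4
  have hq1 : 1 ≤ q := by
    obtain ⟨v, hv⟩ := hB
    have := heq ⟨v, hv⟩
    omega
  have hQ : (0 : ℝ) < 2 ^ q := by positivity
  have hQ2 : (2 : ℝ) ^ q = 2 * 2 ^ (q - 1) := by
    rw [← pow_succ']
    congr 1
    omega
  -- the integer vector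
  have ht₀ : ∀ v, ((k v * 2 ^ (q - 1 - e v) : ℤ) : ℝ) = 2 ^ (q - 1) * θ₀ v := by
    intro v
    push_cast
    rw [← hk v]
    have h5 : (2 : ℝ) ^ (q - 1) = 2 ^ (e v) * 2 ^ (q - 1 - e v) := by
      rw [← pow_add]
      congr 1
      have := heq v
      omega
    rw [h5]
    ring
  have hδ : ∀ v, (((((t v : ℕ) : ℤ) - k v * 2 ^ (q - 1 - e v) : ℤ)) : ℝ) =
      2 ^ (q - 1) * (2 * ((t v : ℕ) : ℝ) / 2 ^ q - θ₀ v) := by
    intro v
    rw [Int.cast_sub, ht₀ v, hQ2]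
    have h6 : (2 : ℝ) ^ (q - 1) ≠ 0 := by positivity
    push_cast
    field_simp
  -- the square root
  have hc4 : (B.card : ℝ) ^ 2 ≤ (B.card : ℝ) ^ 4 := pow_le_pow_right₀ hcR (by norm_num)
  have hsq : (B.card : ℝ) ^ 2 * (τ / g) ≤ (1 / 2) ^ 2 := by
    rw [mul_div_assoc', div_le_iff₀ hg0]
    have h7 : (B.card : ℝ) ^ 2 * τ ≤ (B.card : ℝ) ^ 4 * τ := mul_le_mul_of_nonneg_right hc4 hτ.le
    nlinarith
  have hroot : (B.card : ℝ) * √(τ / g) ≤ 1 / 2 := by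
    have h8 : (0 : ℝ) ≤ τ / g := by positivity
    have h9 : ((B.card : ℝ) * √(τ / g)) ^ 2 ≤ (1 / 2) ^ 2 := by
      rw [mul_pow, Real.sq_sqrt h8]
      exact hsq
    exact le_of_sq_le_sq h9 (by norm_num)
  have hroot1 : √(τ / g) ≤ 1 / 2 := by
    refine le_trans ?_ hroot
    have := Real.sqrt_nonneg (τ / g)
    nlinarith
  have hsum : ∑ v : B, |2 * ((t v : ℕ) : ℝ) / 2 ^ q - θ₀ v| ≤ 1 / 2 := by
    calc ∑ v : B, |2 * ((t v : ℕ) : ℝ) / 2 ^ q - θ₀ v| ≤ ∑ _v : B, √(τ / g) :=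
          sum_le_sum (fun v _ => h2 v)
      _ = (B.card : ℝ) * √(τ / g) := by
          rw [sum_const, card_univ, Fintype.card_coe, nsmul_eq_mul]
      _ ≤ 1 / 2 := hroot
  refine ⟨fun v => k v * 2 ^ (q - 1 - e v), fun v => ((t v : ℕ) : ℤ) - k v * 2 ^ (q - 1 - e v),
    fun v => by ring, fun v => ?_, ?_, ?_⟩
  · have h10 : (|(((t v : ℕ) : ℤ) - k v * 2 ^ (q - 1 - e v) : ℤ)| : ℝ) ≤ 2 ^ q := by
      rw [hδ v, abs_mul, abs_of_pos (by positivity : (0 : ℝ) < 2 ^ (q - 1)), hQ2]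
      have h11 := (h2 v).trans hroot1
      have h12 : (0 : ℝ) < 2 ^ (q - 1) := by positivity
      rw [hQ2] at h11
      nlinarith
    exact_mod_cast h10
  · rw [mem_Lam_iff]
    intro z
    obtain ⟨j, hj⟩ := h3 z
    have h13 : (∑ v : B, (k v * 2 ^ (q - 1 - e v)) * ch (v : ι → ZMod 2) z : ℤ) = 2 ^ (q - 1) * j := by
      have h14 : ((∑ v : B, (k v * 2 ^ (q - 1 - e v)) * ch (v : ι → ZMod 2) z : ℤ) : ℝ) =
          ((2 ^ (q - 1) * j : ℤ) : ℝ) := by
        rw [Int.cast_sum, Int.cast_mul, ← hj, mul_sum]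
        push_cast
        refine sum_congr rfl (fun v _ => ?_)
        have := ht₀ v
        push_cast at this
        rw [this]
        ring
      exact_mod_cast h14
    have h15 : ∑ v : B, (((k v * 2 ^ (q - 1 - e v) : ℤ)) : ZMod (2 ^ (q - 1))) *
        ((ch (v : ι → ZMod 2) z : ℤ) : ZMod (2 ^ (q - 1))) =
        ((∑ v : B, (k v * 2 ^ (q - 1 - e v)) * ch (v : ι → ZMod 2) z : ℤ) : ZMod (2 ^ (q - 1))) := by
      push_cast
      rfl
    rw [h15, h13]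
    rw [ZMod.intCast_zmod_eq_zero_iff_dvd]
    exact_mod_cast Dvd.intro _ rfl
  · rw [gauss hD B (fun v => 2 * ((t v : ℕ) : ℝ) / 2 ^ q) θ₀ h3 hsum]
    congr 1
    refine sum_congr rfl (fun v _ => ?_)
    congr 1
    rw [hδ v, hQ2]
    have h6 : (2 : ℝ) ^ (q - 1) ≠ 0 := by positivity
    field_simp

/-- the sum over all frequencies. Put `Q = 2 ^ q`, `m = B.card`, `τ = m * log g`. The `t` with `NN > τ` contribute at
most `Q ^ m * exp (-2 τ)`. For the others `stab` gives `θ₀`, so an integer vector `t₀ v = Q * θ₀ v / 2` (`2 ^ (e + 1)`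
divides `Q`), `δ = t - t₀` with `|δ v| ≤ Q * √(τ / g) / 2`; the class of `t₀` modulo `2 ^ (q - 1)` is in
`Lam (q - 1) B` (and there are `2 ^ m` lifts modulo `2 ^ q`), `NN = g * ∑ (2 δ v / Q) ^ 2` (`gauss`), `t` is determined
by `t₀` modulo `2 ^ q` and `δ`, and the sum over `δ` is a product of `m` sums `theta_sum` with `a = 8 g / Q ^ 2`:
`4 / √a ≤ 2 * Q / √g`. -/
theorem sum_exp_le (hD : Dat c y c₀ g) (hg : 2 ≤ g) (B : Finset (ι → ZMod 2)) (hB : B.Nonempty)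
    (hm : 8 * (B.card : ℝ) ^ 5 * Real.log g ≤ g) (q : ℕ) (hq : 8 * g ≤ (2 ^ q) ^ 2)
    (hq2 : 2 * B.card ≤ 2 ^ q) :
    ∑ t : B → Fin (2 ^ q), Real.exp (-(2 * NN y (fun v => 2 * ((t v : ℕ) : ℝ) / 2 ^ q)))
      ≤ 2 ^ B.card * ((Lam (q - 1) B).card : ℝ) * (2 * 2 ^ q / √g) ^ B.card
        + (2 ^ q) ^ B.card * Real.exp (-(2 * (B.card * Real.log g))) := by
  classical
  have hg0 : (0 : ℝ) < g := by
    have : 0 < g := by omega
    exact_mod_cast this
  have hg1 : (1 : ℝ) < g := by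
    have : 1 < g := by omega
    exact_mod_cast this
  have hlog : 0 < Real.log g := Real.log_pos hg1
  have hc1 : 1 ≤ B.card := hB.card_pos
  have hcR : (1 : ℝ) ≤ B.card := by exact_mod_cast hc1
  have hq1 : 1 ≤ q := by
    by_contra h
    have h0 : q = 0 := by omega
    rw [h0] at hq2
    simp at hq2
    omega
  set τ : ℝ := B.card * Real.log g with hτdef
  have hτ : 0 < τ := by positivity
  have hm4 : 8 * (B.card : ℝ) ^ 4 * τ ≤ g := by
    rw [hτdef]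
    have h5 : 8 * (B.card : ℝ) ^ 4 * (B.card * Real.log g) = 8 * (B.card : ℝ) ^ 5 * Real.log g := by
      ring
    rw [h5]
    exact hm
  have hkey := fun (t : B → Fin (2 ^ q)) (hN : NN y (fun v => 2 * ((t v : ℕ) : ℝ) / 2 ^ q) ≤ τ) =>
    freq_key hD B hB q hq2 hτ hm4 t hN
  choose! t₀ δ h1 h2 h3 h4 using hkey
  set S : Finset (B → Fin (2 ^ q)) :=
    univ.filter (fun t => NN y (fun v => 2 * ((t v : ℕ) : ℝ) / 2 ^ q) ≤ τ) with hS
  have hSmem : ∀ t, t ∈ S ↔ NN y (fun v => 2 * ((t v : ℕ) : ℝ) / 2 ^ q) ≤ τ := by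
    intro t
    rw [hS, mem_filter]
    simp
  have hQ : (0 : ℝ) < 2 ^ q := by positivity
  set a : ℝ := 8 * g / (2 ^ q) ^ 2 with ha
  have ha0 : 0 < a := by positivity
  have ha1 : a ≤ 1 := by
    rw [ha, div_le_one (by positivity)]
    exact_mod_cast hq
  -- the good frequencies
  have hgood : ∑ t ∈ S, Real.exp (-(2 * NN y (fun v => 2 * ((t v : ℕ) : ℝ) / 2 ^ q)))
      ≤ 2 ^ B.card * ((Lam (q - 1) B).card : ℝ) * (2 * 2 ^ q / √g) ^ B.card := by
    set Ψ : (B → Fin (2 ^ q)) → ((B → ZMod (2 ^ (q - 1))) × (B → ZMod 2)) × (B → ℤ) :=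
      fun t => ((fun v => ((t₀ t v : ℤ) : ZMod (2 ^ (q - 1))),
        fun v => ((t₀ t v / 2 ^ (q - 1) : ℤ) : ZMod 2)), δ t) with hΨ
    set h : ((B → ZMod (2 ^ (q - 1))) × (B → ZMod 2)) × (B → ℤ) → ℝ :=
      fun p => ∏ v : B, Real.exp (-(a * (p.2 v : ℝ) ^ 2)) with hh
    have hterm : ∀ t ∈ S, Real.exp (-(2 * NN y (fun v => 2 * ((t v : ℕ) : ℝ) / 2 ^ q))) = h (Ψ t) := by
      intro t ht
      rw [hSmem] at ht
      rw [h4 t ht, hh, hΨ]
      simp only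
      rw [← Real.exp_sum]
      congr 1
      rw [mul_sum, mul_sum, ← sum_neg_distrib]
      refine sum_congr rfl (fun v _ => ?_)
      rw [ha]
      field_simp
      ring
    have hinj : Set.InjOn Ψ (S : Set (B → Fin (2 ^ q))) := by
      intro t ht t' ht' heq
      have ht := (hSmem t).1 (mem_coe.1 ht)
      have ht' := (hSmem t').1 (mem_coe.1 ht')
      simp only [hΨ, Prod.mk.injEq] at heq
      obtain ⟨⟨e1, e2⟩, e3⟩ := heq
      funext v
      have f1 : ((t₀ t v : ℤ) : ZMod (2 ^ (q - 1))) = ((t₀ t' v : ℤ) : ZMod (2 ^ (q - 1))) :=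
        congrFun e1 v
      have f2 : ((t₀ t v / 2 ^ (q - 1) : ℤ) : ZMod 2) = ((t₀ t' v / 2 ^ (q - 1) : ℤ) : ZMod 2) :=
        congrFun e2 v
      have f3 : δ t v = δ t' v := congrFun e3 v
      have g1 := h1 t ht v
      have g1' := h1 t' ht' v
      have hmod : (t₀ t v) % (2 ^ (q - 1)) = (t₀ t' v) % (2 ^ (q - 1)) := by
        have := (ZMod.intCast_eq_intCast_iff' _ _ _).1 f1
        push_cast at this
        exact this
      have hmod2 : (t₀ t v / 2 ^ (q - 1)) % 2 = (t₀ t' v / 2 ^ (q - 1)) % 2 := by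
        have := (ZMod.intCast_eq_intCast_iff' _ _ _).1 f2
        push_cast at this
        exact this
      have hd1 := Int.mul_ediv_add_emod (t₀ t v) (2 ^ (q - 1))
      have hd2 := Int.mul_ediv_add_emod (t₀ t' v) (2 ^ (q - 1))
      obtain ⟨j, hj⟩ : ∃ j : ℤ, t₀ t v / 2 ^ (q - 1) - t₀ t' v / 2 ^ (q - 1) = 2 * j :=
        ⟨(t₀ t v / 2 ^ (q - 1) - t₀ t' v / 2 ^ (q - 1)) / 2, by omega⟩
      have hdiff : t₀ t v - t₀ t' v = 2 ^ q * j := by
        have hQ2 : (2 : ℤ) ^ q = 2 ^ (q - 1) * 2 := by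
          rw [← pow_succ]
          congr 1
          omega
        rw [hQ2, mul_assoc, ← hj]
        linarith [hd1, hd2, hmod, mul_sub ((2 : ℤ) ^ (q - 1)) (t₀ t v / 2 ^ (q - 1))
          (t₀ t' v / 2 ^ (q - 1))]
      have hdt : (((t v : ℕ) : ℤ)) - ((t' v : ℕ) : ℤ) = 2 ^ q * j := by
        rw [g1, g1', f3, ← hdiff]
        ring
      have hl1 : (((t v : ℕ) : ℤ)) < 2 ^ q := by exact_mod_cast (t v).isLt
      have hl2 : (((t' v : ℕ) : ℤ)) < 2 ^ q := by exact_mod_cast (t' v).isLt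
      have hn1 : (0 : ℤ) ≤ ((t v : ℕ) : ℤ) := Int.natCast_nonneg _
      have hn2 : (0 : ℤ) ≤ ((t' v : ℕ) : ℤ) := Int.natCast_nonneg _
      have hQZ : (0 : ℤ) < 2 ^ q := by positivity
      have hj0 : j = 0 := by
        by_contra hne
        rcases lt_or_gt_of_ne hne with hlt | hgt
        · have : 2 ^ q * j ≤ 2 ^ q * (-1) := mul_le_mul_of_nonneg_left (by omega) hQZ.le
          linarith
        · have : 2 ^ q * 1 ≤ 2 ^ q * j := mul_le_mul_of_nonneg_left (by omega) hQZ.le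
          linarith
      rw [hj0, mul_zero, sub_eq_zero] at hdt
      exact Fin.ext (by exact_mod_cast hdt)
    have himg : S.image Ψ ⊆ ((Lam (q - 1) B) ×ˢ (univ : Finset (B → ZMod 2))) ×ˢ
        Fintype.piFinset (fun _ : B => Icc (-((2 ^ q : ℕ) : ℤ)) ((2 ^ q : ℕ) : ℤ)) := by
      intro p hp
      rw [mem_image] at hp
      obtain ⟨t, ht, rfl⟩ := hp
      have ht := (hSmem t).1 ht
      simp only [hΨ, mem_product, mem_univ, and_true]
      refine ⟨h3 t ht, ?_⟩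
      rw [Fintype.mem_piFinset]
      intro v
      rw [mem_Icc]
      have := abs_le.1 (h2 t ht v)
      push_cast
      exact this
    calc ∑ t ∈ S, Real.exp (-(2 * NN y (fun v => 2 * ((t v : ℕ) : ℝ) / 2 ^ q)))
        = ∑ t ∈ S, h (Ψ t) := sum_congr rfl hterm
      _ = ∑ p ∈ S.image Ψ, h p := (sum_image hinj).symm
      _ ≤ ∑ p ∈ ((Lam (q - 1) B) ×ˢ (univ : Finset (B → ZMod 2))) ×ˢ
          Fintype.piFinset (fun _ : B => Icc (-((2 ^ q : ℕ) : ℤ)) ((2 ^ q : ℕ) : ℤ)), h p :=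
          sum_le_sum_of_subset_of_nonneg himg
            (fun p _ _ => prod_nonneg (fun v _ => (Real.exp_pos _).le))
      _ = ∑ _x ∈ (Lam (q - 1) B) ×ˢ (univ : Finset (B → ZMod 2)),
          ∏ _v : B, ∑ k ∈ Icc (-((2 ^ q : ℕ) : ℤ)) ((2 ^ q : ℕ) : ℤ), Real.exp (-(a * (k : ℝ) ^ 2)) := by
          rw [sum_product]
          refine sum_congr rfl (fun x _ => ?_)
          rw [prod_univ_sum]
      _ = (2 ^ B.card * ((Lam (q - 1) B).card : ℝ)) *
          (∑ k ∈ Icc (-((2 ^ q : ℕ) : ℤ)) ((2 ^ q : ℕ) : ℤ), Real.exp (-(a * (k : ℝ) ^ 2))) ^ B.card := by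
          rw [sum_const, nsmul_eq_mul, card_product, prod_const, card_univ, card_univ,
            Fintype.card_coe, Fintype.card_fun, ZMod.card, Fintype.card_coe]
          push_cast
          ring
      _ ≤ (2 ^ B.card * ((Lam (q - 1) B).card : ℝ)) * (2 * 2 ^ q / √g) ^ B.card := by
          refine mul_le_mul_of_nonneg_left ?_ (by positivity)
          refine pow_le_pow_left₀ (sum_nonneg (fun k _ => (Real.exp_pos _).le)) ?_ _
          refine (theta_sum ha0 ha1 (2 ^ q)).trans ?_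
          have hsa : √a = √8 * √g / 2 ^ q := by
            rw [ha, Real.sqrt_div (by positivity), Real.sqrt_mul (by norm_num),
              Real.sqrt_sq hQ.le]
          have hs8 : (2 : ℝ) ≤ √8 := by
            rw [show (2 : ℝ) = √(2 ^ 2) by rw [Real.sqrt_sq (by norm_num)]]
            exact Real.sqrt_le_sqrt (by norm_num)
          have hsg : 0 < √(g : ℝ) := Real.sqrt_pos.2 hg0
          rw [hsa, div_div_eq_mul_div, div_le_div_iff₀ (by positivity) hsg]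
          nlinarith [mul_pos hQ hsg, mul_le_mul_of_nonneg_right hs8 (mul_pos hQ hsg).le]
  -- the others
  have hbad : ∑ t ∈ univ.filter (fun t : B → Fin (2 ^ q) => ¬ NN y (fun v => 2 * ((t v : ℕ) : ℝ) / 2 ^ q) ≤ τ),
      Real.exp (-(2 * NN y (fun v => 2 * ((t v : ℕ) : ℝ) / 2 ^ q)))
      ≤ (2 ^ q) ^ B.card * Real.exp (-(2 * τ)) := by
    calc ∑ t ∈ univ.filter (fun t : B → Fin (2 ^ q) => ¬ NN y (fun v => 2 * ((t v : ℕ) : ℝ) / 2 ^ q) ≤ τ),
        Real.exp (-(2 * NN y (fun v => 2 * ((t v : ℕ) : ℝ) / 2 ^ q)))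
        ≤ ∑ _t ∈ univ.filter (fun t : B → Fin (2 ^ q) =>
          ¬ NN y (fun v => 2 * ((t v : ℕ) : ℝ) / 2 ^ q) ≤ τ), Real.exp (-(2 * τ)) := by
          refine sum_le_sum (fun t ht => ?_)
          rw [mem_filter, not_le] at ht
          exact Real.exp_le_exp.2 (by linarith [ht.2])
      _ ≤ ∑ _t : B → Fin (2 ^ q), Real.exp (-(2 * τ)) :=
          sum_le_sum_of_subset_of_nonneg (filter_subset _ _) (fun _ _ _ => (Real.exp_pos _).le)
      _ = (2 ^ q) ^ B.card * Real.exp (-(2 * τ)) := by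
          rw [sum_const, nsmul_eq_mul, card_univ, Fintype.card_fun, Fintype.card_fin,
            Fintype.card_coe]
          push_cast
          ring
  rw [← sum_filter_add_sum_filter_not univ
    (fun t : B → Fin (2 ^ q) => NN y (fun v => 2 * ((t v : ℕ) : ℝ) / 2 ^ q) ≤ τ)]
  exact add_le_add hgood hbad

end Pool.Agent.Lib.MP_938ce2_ag_l4
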