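import Mathlib
import Pool.Agent.Lib.MP_938ce2_ag_l4.T03
import Pool.Agent.Lib.MP_938ce2_ag_l4.T05
import Pool.Agent.Lib.MP_938ce2_ag_l4.T08

set_option autoImplicit false

namespace Pool.Agent.Lib.MP_938ce2_ag_l4

open Finset

variable {ι : Type} [Fintype ι] [DecidableEq ι] {X : Type} [Fintype X] [DecidableEq X] {c : X → X}
  {y : X → ι → ZMod 2} {c₀ : ι → ZMod 2} {g : ℕ}

omit [DecidableEq X] in
private theorem cnt_zero_of_not (p : Finset X → Prop) (h : ∀ Φ, ¬ p Φ) : cnt c p = 0 := by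
  classical
  unfold cnt
  rw [Nat.cast_eq_zero, Finset.card_eq_zero]
  exact Finset.filter_eq_empty_iff.2 (fun Φ _ hp => h Φ hp.2)

private theorem prob_common (hD : Dat c y c₀ g) (hg : 2 ≤ g) (B : Finset (ι → ZMod 2)) (hB : B.Nonempty)
    (hm : 8 * (B.card : ℝ) ^ 5 * Real.log g ≤ g) :
    ∃ r : ℕ, cnt c (fun Φ => B ⊆ SS y c₀ Φ)
      ≤ 2 * (((Lam r B).card : ℝ) * (4 / √g) ^ B.card) * 2 ^ g := by
  by_cases hodd : ∀ v ∈ B, ch v c₀ = -1
  · obtain ⟨q, hq⟩ : ∃ q : ℕ, q = 8 * g + 2 * B.card := ⟨_, rfl⟩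
    have hlt : 8 * g + 2 * B.card < 2 ^ q := by
      rw [hq]; exact Nat.lt_two_pow_self
    have hq1 : g < 2 ^ q := by omega
    have hq2 : 8 * g ≤ (2 ^ q) ^ 2 := by
      have h1 : 8 * g ≤ 2 ^ q := by omega
      exact le_trans h1 (Nat.le_self_pow (by norm_num) _)
    have hq3 : 2 * B.card ≤ 2 ^ q := by omega
    have h1 := prob_le_sum hD B hodd q hq1
    have h2 := sum_exp_le hD hg B hB hm q hq2 hq3
    refine ⟨q - 1, ?_⟩
    have hg0 : (2 : ℝ) ≤ (g : ℝ) := by exact_mod_cast hg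
    have hs0 : 0 < √(g : ℝ) := Real.sqrt_pos.2 (by linarith)
    have hQ : (0 : ℝ) < (2 : ℝ) ^ q := by positivity
    set L : ℝ := ((Lam (q - 1) B).card : ℝ) with hL
    have hL1 : (1 : ℝ) ≤ L := by
      rw [hL]; exact_mod_cast one_le_card_Lam (q - 1) B
    -- the exponential term
    have h3 : Real.exp (-(2 * (B.card * Real.log g))) ≤ (4 / √(g : ℝ)) ^ B.card := by
      have h4 : Real.exp (-(2 * (B.card * Real.log g))) = (((g : ℝ) ^ 2)⁻¹) ^ B.card := by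
        have h5 : -(2 * ((B.card : ℝ) * Real.log g)) = (B.card : ℝ) * (-(2 * Real.log g)) := by ring
        rw [h5, Real.exp_nat_mul, Real.exp_neg]
        congr 2
        have h6 : (2 : ℝ) * Real.log g = ((2 : ℕ) : ℝ) * Real.log g := by norm_num
        rw [h6, Real.exp_nat_mul, Real.exp_log (by linarith)]
      rw [h4]
      refine pow_le_pow_left₀ (by positivity) ?_ _
      rw [inv_eq_one_div, div_le_div_iff₀ (by positivity) hs0]
      have h7 : √(g : ℝ) ≤ (g : ℝ) := by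
        rw [Real.sqrt_le_left (by linarith)]
        nlinarith
      nlinarith
    have h4 : 2 ^ B.card * L * (2 * 2 ^ q / √(g : ℝ)) ^ B.card / (2 ^ q) ^ B.card
        = L * (4 / √(g : ℝ)) ^ B.card := by
      rw [div_eq_iff (by positivity)]
      have h5 : (2 * 2 ^ q / √(g : ℝ)) ^ B.card = (2 / √(g : ℝ)) ^ B.card * (2 ^ q) ^ B.card := by
        rw [← mul_pow]; congr 1; ring
      have h6 : (4 / √(g : ℝ)) ^ B.card = 2 ^ B.card * (2 / √(g : ℝ)) ^ B.card := by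
        rw [← mul_pow]; congr 1; ring
      rw [h5, h6]; ring
    have h5 : (2 ^ B.card * L * (2 * 2 ^ q / √(g : ℝ)) ^ B.card
        + (2 ^ q) ^ B.card * Real.exp (-(2 * (B.card * Real.log g)))) / (2 ^ q) ^ B.card
        = L * (4 / √(g : ℝ)) ^ B.card + Real.exp (-(2 * (B.card * Real.log g))) := by
      rw [add_div, h4, mul_div_cancel_left₀ _ (by positivity)]
    have hpos : (0 : ℝ) < (4 / √(g : ℝ)) ^ B.card := by positivity
    calc cnt c (fun Φ => B ⊆ SS y c₀ Φ) ≤ _ := h1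
      _ ≤ 2 ^ g * (2 ^ B.card * L * (2 * 2 ^ q / √(g : ℝ)) ^ B.card
        + (2 ^ q) ^ B.card * Real.exp (-(2 * (B.card * Real.log g)))) / (2 ^ q) ^ B.card := by
          gcongr
      _ = 2 ^ g * (L * (4 / √(g : ℝ)) ^ B.card + Real.exp (-(2 * (B.card * Real.log g)))) := by
          rw [mul_div_assoc, h5]
      _ ≤ 2 ^ g * (L * (4 / √(g : ℝ)) ^ B.card + L * (4 / √(g : ℝ)) ^ B.card) := by
          gcongr
          calc Real.exp (-(2 * (B.card * Real.log g))) ≤ (4 / √(g : ℝ)) ^ B.card := h3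
            _ = 1 * (4 / √(g : ℝ)) ^ B.card := (one_mul _).symm
            _ ≤ L * (4 / √(g : ℝ)) ^ B.card := by gcongr
      _ = 2 * (L * (4 / √(g : ℝ)) ^ B.card) * 2 ^ g := by ring
  · refine ⟨0, ?_⟩
    rw [cnt_zero_of_not]
    · positivity
    · intro Φ hΦ
      apply hodd
      intro v hv
      exact (mem_SS.1 (hΦ hv)).1

/-- **The joint probability.** `prob_le_sum` and `sum_exp_le` for a large `q`, `one_le_card_Lam`,
`exp (-2 m log g) = g ^ (-2 m) ≤ (4 / √g) ^ m`, `card_Lam_le` with `j = 4`. (If some element of `B` is not odd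
the left side is zero.) -/
theorem prob_gen (hD : Dat c y c₀ g) (hg : 2 ≤ g) (B : Finset (ι → ZMod 2)) (hB : B.Nonempty)
    (hm : 8 * (B.card : ℝ) ^ 5 * Real.log g ≤ g) :
    cnt c (fun Φ => B ⊆ SS y c₀ Φ)
      ≤ 2 * (64 / √g) ^ B.card * (B.card : ℝ) ^ (B.card - rk 4 B) * 2 ^ g := by
  obtain ⟨r, hr⟩ := prob_common hD hg B hB hm
  refine le_trans hr ?_
  have h1 : ((Lam r B).card : ℝ) ≤ (B.card : ℝ) ^ (B.card - rk 4 B) * 2 ^ (4 * B.card) := by
    exact_mod_cast card_Lam_le 4 r B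
  have h2 : (0 : ℝ) ≤ (4 / √(g : ℝ)) ^ B.card := by positivity
  have h3 : ((Lam r B).card : ℝ) * (4 / √(g : ℝ)) ^ B.card
      ≤ (64 / √(g : ℝ)) ^ B.card * (B.card : ℝ) ^ (B.card - rk 4 B) := by
    refine le_trans (mul_le_mul_of_nonneg_right h1 h2) (le_of_eq ?_)
    have h4 : (64 / √(g : ℝ)) ^ B.card = 2 ^ (4 * B.card) * (4 / √(g : ℝ)) ^ B.card := by
      rw [pow_mul, ← mul_pow]; congr 1; ring
    rw [h4]; ring
  calc 2 * (((Lam r B).card : ℝ) * (4 / √(g : ℝ)) ^ B.card) * 2 ^ g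
      ≤ 2 * ((64 / √(g : ℝ)) ^ B.card * (B.card : ℝ) ^ (B.card - rk 4 B)) * 2 ^ g := by gcongr
    _ = _ := by ring

/-- the same with `j = 0` -/
theorem prob_lossy (hD : Dat c y c₀ g) (hg : 2 ≤ g) (B : Finset (ι → ZMod 2)) (hB : B.Nonempty)
    (hm : 8 * (B.card : ℝ) ^ 5 * Real.log g ≤ g) :
    cnt c (fun Φ => B ⊆ SS y c₀ Φ) ≤ 2 * (4 * B.card / √g) ^ B.card * 2 ^ g := by
  obtain ⟨r, hr⟩ := prob_common hD hg B hB hm
  refine le_trans hr ?_
  have hc : (1 : ℝ) ≤ (B.card : ℝ) := by exact_mod_cast Finset.card_pos.2 hB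
  have h1 : ((Lam r B).card : ℝ) ≤ (B.card : ℝ) ^ B.card := by
    have h5 : ((Lam r B).card : ℝ) ≤ (B.card : ℝ) ^ (B.card - rk 0 B) * 2 ^ (0 * B.card) := by
      exact_mod_cast card_Lam_le 0 r B
    rw [zero_mul, pow_zero, mul_one] at h5
    exact le_trans h5 (pow_le_pow_right₀ hc (Nat.sub_le _ _))
  have h2 : (0 : ℝ) ≤ (4 / √(g : ℝ)) ^ B.card := by positivity
  have h3 : ((Lam r B).card : ℝ) * (4 / √(g : ℝ)) ^ B.card ≤ (4 * B.card / √(g : ℝ)) ^ B.card := by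
    refine le_trans (mul_le_mul_of_nonneg_right h1 h2) (le_of_eq ?_)
    rw [← mul_pow]; congr 1; ring
  gcongr

end Pool.Agent.Lib.MP_938ce2_ag_l4
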