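import Mathlib
import Pool.Agent.Lib.MP_938ce2_ag_l4.D2

set_option autoImplicit false
set_option linter.unusedSectionVars false

namespace Pool.Agent.Lib.MP_938ce2_ag_l4

open Finset

variable {ι : Type} [Fintype ι] [DecidableEq ι]

private theorem zmod2_cases (a : ZMod 2) : a = 0 ∨ a = 1 := by
  fin_cases a
  · left; rfl
  · right; rfl

private theorem zmod2_add_self (a : ZMod 2) : a + a = 0 := by
  rcases zmod2_cases a with h | h <;> rw [h] <;> decide

/-- a large family of vectors realizes all patterns on some set with `d` elements -/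
private theorem exists_shatter (H : Finset (ι → ZMod 2)) (d : ℕ)
    (h : ∑ i ∈ range d, (Fintype.card ι).choose i < H.card) :
    ∃ D : Finset ι, D.card = d ∧ ∀ J ⊆ D, ∃ v ∈ H, ∀ i ∈ D, v i = if i ∈ J then 1 else 0 := by
  classical
  set supp : (ι → ZMod 2) → Finset ι := fun v => univ.filter fun i => v i = 1 with hsupp
  have hinj : Function.Injective supp := by
    intro v w hvw
    funext i
    have h1 : i ∈ supp v ↔ i ∈ supp w := by rw [hvw]
    simp only [hsupp, mem_filter, mem_univ, true_and] at h1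
    rcases zmod2_cases (v i) with h2 | h2 <;> rcases zmod2_cases (w i) with h3 | h3 <;>
      rw [h2, h3] at h1 ⊢ <;> simp at h1
  set A : Finset (Finset ι) := H.image supp with hA
  have hcard : A.card = H.card := card_image_of_injective _ hinj
  have h1 : d ≤ A.vcDim := by
    by_contra hlt
    push Not at hlt
    have h2 := (card_le_card_shatterer A).trans (card_shatterer_le_sum_vcDim (𝒜 := A))
    have h3 : ∑ k ∈ Iic A.vcDim, (Fintype.card ι).choose k ≤ ∑ i ∈ range d, (Fintype.card ι).choose i := by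
      refine sum_le_sum_of_subset fun k hk => ?_
      rw [mem_Iic] at hk
      rw [mem_range]
      omega
    omega
  have hne : A.shatterer.Nonempty := by
    have h2 : A.Nonempty := by
      rw [← card_pos, hcard]
      omega
    have h3 := card_le_card_shatterer A
    rw [← card_pos]
    have := card_pos.2 h2
    omega
  obtain ⟨s, hs, hsd⟩ := exists_mem_eq_sup A.shatterer hne card
  have hsd' : d ≤ s.card := by
    have : A.vcDim = s.card := hsd
    omega
  obtain ⟨D, hDs, hDd⟩ := exists_subset_card_eq hsd'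
  have hD : A.Shatters D := (mem_shatterer.1 hs).mono_right hDs
  refine ⟨D, hDd, fun J hJ => ?_⟩
  obtain ⟨u, hu, huJ⟩ := hD hJ
  obtain ⟨v, hv, rfl⟩ := mem_image.1 hu
  refine ⟨v, hv, fun i hi => ?_⟩
  have h4 : i ∈ J ↔ v i = 1 := by
    rw [← huJ]
    simp [hsupp, hi]
  by_cases h5 : i ∈ J
  · rw [if_pos h5]; exact h4.1 h5
  · rw [if_neg h5]
    rcases zmod2_cases (v i) with h6 | h6
    · exact h6
    · exact absurd (h4.2 h6) h5

/-- functionals dual to elements of the span bound the number of the elements -/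
private theorem dual_bound (B : Finset (ι → ZMod 2)) (j : ℕ) {K : Type} [Fintype K] [DecidableEq K]
    (u : K → Finset ι → ZMod 2) (φ : K → (Finset ι → ZMod 2) →ₗ[ZMod 2] ZMod 2)
    (hu : ∀ k, u k ∈ Submodule.span (ZMod 2) (ev j '' (B : Set (ι → ZMod 2))))
    (hφ : ∀ k l, φ k (u l) = if k = l then 1 else 0) : Fintype.card K ≤ B.card := by
  classical
  set W := Submodule.span (ZMod 2) (ev j '' (B : Set (ι → ZMod 2))) with hW
  have hWeq : W = Submodule.span (ZMod 2) ((B.image (ev j) : Finset (Finset ι → ZMod 2)) :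
      Set (Finset ι → ZMod 2)) := by
    rw [hW, coe_image]
  have hWr : Module.finrank (ZMod 2) W ≤ B.card := by
    rw [hWeq]
    exact (finrank_span_finset_le_card _).trans card_image_le
  set Φ : W →ₗ[ZMod 2] (K → ZMod 2) := LinearMap.pi fun k => (φ k).comp W.subtype with hΦ
  have hsurj : Function.Surjective Φ := by
    intro f
    refine ⟨∑ l, f l • (⟨u l, hu l⟩ : W), ?_⟩
    funext k
    rw [hΦ, LinearMap.pi_apply, map_sum, sum_eq_single k]
    · simp [hφ]
    · intro b _ hb
      rw [map_smul]
      simp [hφ, hb.symm]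
    · intro hk
      exact absurd (mem_univ _) hk
  have h1 := LinearMap.finrank_le_finrank_of_surjective hsurj
  rw [Module.finrank_fintype_fun_eq_card] at h1
  omega

private theorem ev_pat (j : ℕ) {D I J : Finset ι} (v : ι → ZMod 2)
    (hv : ∀ i ∈ D, v i = if i ∈ J then 1 else 0) (hI : I ⊆ D) (hIj : I.card = j) (hJj : J.card = j) :
    ∏ i ∈ I, v i = if I = J then 1 else 0 := by
  by_cases h : I = J
  · rw [if_pos h]
    refine prod_eq_one fun i hi => ?_
    rw [hv i (hI hi), if_pos (h ▸ hi)]
  · rw [if_neg h]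
    have h1 : ¬ I ⊆ J := fun hIJ => h (eq_of_subset_of_card_le hIJ (by omega))
    obtain ⟨i, hi, hiJ⟩ := not_subset.1 h1
    exact prod_eq_zero hi (by rw [hv i (hI hi), if_neg hiJ])

/-- **Closures are small.** The supports of the elements of `clo j B` form a family of subsets of `ι`. If it has
more than `∑ i < d, choose (card ι) i` members it shatters a set `D` with `d` elements
(`Finset.card_le_card_shatterer`, `Finset.card_shatterer_le_sum_vcDim`): for each `J ⊆ D` with `j` elements there
is `v J` in the closure with support meeting `D` in `J`. The coordinates `I ⊆ D`, `I.card = j`, of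
`ev j (v J)` are `if I = J then 1 else 0`, so the span of `ev j '' B` has dimension at least `choose d j`. -/
theorem clo_card (j d : ℕ) (B : Finset (ι → ZMod 2)) (h : B.card < d.choose j) :
    (clo j B).card ≤ ∑ i ∈ range d, (Fintype.card ι).choose i := by
  classical
  by_contra hcon
  push Not at hcon
  obtain ⟨D, hD, hpat⟩ := exists_shatter (clo j B) d hcon
  have hpat' : ∀ J : {J // J ∈ powersetCard j D}, ∃ v ∈ clo j B, ∀ i ∈ D, v i = if i ∈ J.1 then 1 else 0 :=
    fun J => hpat J.1 (mem_powersetCard.1 J.2).1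
  choose v hv hvD using hpat'
  have key := dual_bound B j (fun J => ev j (v J))
    (fun I : {J // J ∈ powersetCard j D} => LinearMap.proj I.1)
    (fun J => by
      have := hv J
      rw [clo, mem_filter] at this
      exact this.2)
    (fun I J => by
      have hI := mem_powersetCard.1 I.2
      have hJ := mem_powersetCard.1 J.2
      have e := ev_pat j (v J) (hvD J) hI.1 hI.2 hJ.2
      rw [LinearMap.proj_apply, ev, if_pos hI.2.le, e]
      by_cases hIJ : I = J
      · rw [if_pos hIJ, if_pos (congrArg _ hIJ)]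
      · rw [if_neg hIJ, if_neg fun hh => hIJ (Subtype.ext hh)])
  rw [Fintype.card_coe, card_powersetCard, hD] at key
  omega

/-- the functional of the second part -/
private noncomputable def qf (ψ : ι → ZMod 2) (i₀ : ι) (I : Finset ι) :
    (Finset ι → ZMod 2) →ₗ[ZMod 2] ZMod 2 :=
  ∑ T ∈ I.powerset, (∏ i ∈ I \ T, ψ i) • LinearMap.proj (insert i₀ T)

private theorem qf_ev (j : ℕ) (ψ v : ι → ZMod 2) (i₀ : ι) (I : Finset ι) (hi : i₀ ∉ I)
    (hI : I.card = j) :
    qf ψ i₀ I (ev (j + 1) v) = v i₀ * ∏ i ∈ I, (v i + ψ i * v i₀) := by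
  classical
  rw [qf, LinearMap.sum_apply, prod_add, mul_sum]
  refine sum_congr rfl fun T hT => ?_
  have hTI := mem_powerset.1 hT
  have hiT : i₀ ∉ T := fun hh => hi (hTI hh)
  rw [LinearMap.smul_apply, LinearMap.proj_apply, smul_eq_mul, ev, if_pos, prod_insert hiT,
    prod_mul_distrib, prod_const]
  · have hp : v i₀ * v i₀ ^ (I \ T).card = v i₀ := by
      rcases zmod2_cases (v i₀) with h0 | h0
      · rw [h0, zero_mul]
      · rw [h0, one_pow, mul_one]
    calc (∏ i ∈ I \ T, ψ i) * (v i₀ * ∏ i ∈ T, v i)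
        = (∏ i ∈ I \ T, ψ i) * ((v i₀ * v i₀ ^ (I \ T).card) * ∏ i ∈ T, v i) := by rw [hp]
      _ = v i₀ * ((∏ i ∈ T, v i) * ((∏ i ∈ I \ T, ψ i) * v i₀ ^ (I \ T).card)) := by ring
  · rw [card_insert_of_notMem hiT]
    have := card_le_card hTI
    omega

/-- The same for pairs. Let `ψ i₀ = 1`; the set is stable under `b ↦ b + ψ`, so half of it has `b i₀ = 0`. If
this half has more than `∑ i < d, choose (card ι) i` elements, it shatters `D` with `d` elements (then `i₀ ∉ D`):
`b J` with support meeting `D` in `J`, `J.card = j`. The functional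
`Q I v = v i₀ * ∏ i ∈ I, (v i + ψ i * v i₀)` (`I ⊆ D`, `I.card = j`) is a linear functional of `ev (j + 1) v`
(expand the product, `v i₀ ^ k = v i₀`), and `Q I (b J) + Q I (b J + ψ) = ∏ i ∈ I, b J i`
is `1` if `I = J` and `0` otherwise. -/
theorem clp_card (j d : ℕ) (B : Finset (ι → ZMod 2)) (ψ : ι → ZMod 2) (hψ : ψ ≠ 0)
    (h : B.card < d.choose j) :
    (clp (j + 1) B ψ).card ≤ 2 * ∑ i ∈ range d, (Fintype.card ι).choose i := by
  classical
  obtain ⟨i₀, hi₀⟩ := Function.ne_iff.1 hψ
  have hψ1 : ψ i₀ = 1 := by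
    rcases zmod2_cases (ψ i₀) with h0 | h0
    · exact absurd h0 hi₀
    · exact h0
  set H := (clp (j + 1) B ψ).filter fun b => b i₀ = 0 with hH
  have hψψ : ψ + ψ = 0 := by
    funext i
    exact zmod2_add_self _
  have hstab : ∀ b ∈ clp (j + 1) B ψ, b + ψ ∈ clp (j + 1) B ψ := by
    intro b hb
    rw [clp, mem_filter] at hb ⊢
    refine ⟨mem_univ _, ?_⟩
    rw [add_assoc b, hψψ, add_zero, add_comm (ev (j + 1) (b + ψ))]
    exact hb.2
  have hhalf : (clp (j + 1) B ψ).card ≤ 2 * H.card := by
    rw [← card_filter_add_card_filter_not (s := clp (j + 1) B ψ) (fun b => b i₀ = 0), two_mul]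
    refine Nat.add_le_add_left ?_ _
    refine card_le_card_of_injOn (fun b => b + ψ) ?_ ?_
    · intro b hb
      rw [mem_coe, mem_filter] at hb
      rw [mem_coe, hH, mem_filter]
      refine ⟨hstab b hb.1, ?_⟩
      rcases zmod2_cases (b i₀) with h0 | h0
      · exact absurd h0 hb.2
      · change b i₀ + ψ i₀ = 0
        rw [h0, hψ1]
        decide
    · intro a _ b _ hab
      exact add_right_cancel hab
  by_contra hcon
  push Not at hcon
  have hcon' : ∑ i ∈ range d, (Fintype.card ι).choose i < H.card := by omega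
  obtain ⟨D, hD, hpat⟩ := exists_shatter H d hcon'
  have hiD : i₀ ∉ D := by
    intro hh
    obtain ⟨v, hv, hvD⟩ := hpat D (Subset.refl D)
    have h1 := hvD i₀ hh
    rw [if_pos hh] at h1
    rw [hH, mem_filter] at hv
    rw [hv.2] at h1
    exact zero_ne_one h1
  have hpat' : ∀ J : {J // J ∈ powersetCard j D}, ∃ v ∈ H, ∀ i ∈ D, v i = if i ∈ J.1 then 1 else 0 :=
    fun J => hpat J.1 (mem_powersetCard.1 J.2).1
  choose v hv hvD using hpat'
  have key := dual_bound B (j + 1) (fun J => ev (j + 1) (v J) + ev (j + 1) (v J + ψ))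
    (fun I : {J // J ∈ powersetCard j D} => qf ψ i₀ I.1)
    (fun J => by
      have := hv J
      rw [hH, mem_filter, clp, mem_filter] at this
      exact this.1.2)
    (fun I J => by
      have hI := mem_powersetCard.1 I.2
      have hJ := mem_powersetCard.1 J.2
      have hiI : i₀ ∉ I.1 := fun hh => hiD (hI.1 hh)
      have hv0 : v J i₀ = 0 := by
        have := hv J
        rw [hH, mem_filter] at this
        exact this.2
      have e := ev_pat j (v J) (hvD J) hI.1 hI.2 hJ.2
      rw [map_add, qf_ev j ψ (v J) i₀ I.1 hiI hI.2, qf_ev j ψ (v J + ψ) i₀ I.1 hiI hI.2, hv0, zero_mul,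
        zero_add, Pi.add_apply, hv0, hψ1, zero_add, one_mul]
      have e2 : ∏ i ∈ I.1, ((v J + ψ) i + ψ i * 1) = ∏ i ∈ I.1, v J i := by
        refine prod_congr rfl fun i _ => ?_
        rw [Pi.add_apply, mul_one, add_assoc, zmod2_add_self, add_zero]
      rw [e2, e]
      by_cases hIJ : I = J
      · rw [if_pos hIJ, if_pos (congrArg _ hIJ)]
      · rw [if_neg hIJ, if_neg fun hh => hIJ (Subtype.ext hh)])
  rw [Fintype.card_coe, card_powersetCard, hD] at key
  omega


end Pool.Agent.Lib.MP_938ce2_ag_l4
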