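import Mathlib

set_option autoImplicit false
set_option linter.unusedSectionVars false

namespace Pool.Agent.Lib.MP_938ce2_ag_l4

open Finset

theorem par_ch3 (n : ℕ) : ((n : ℝ) - 2) ^ 3 ≤ 6 * (n.choose 3 : ℝ) ∨ n < 3 := by
  by_cases h : n < 3
  · exact Or.inr h
  · left
    obtain ⟨m, rfl⟩ := Nat.exists_eq_add_of_le (not_lt.mp h)
    have h1 := Nat.descFactorial_eq_factorial_mul_choose (3 + m) 3
    have h2 : (3 + m).descFactorial 3 = (m + 3) * (m + 2) * (m + 1) := by
      have e1 : 3 + m - 2 = m + 1 := by omega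
      have e2 : 3 + m - 1 = m + 2 := by omega
      have e0 : 3 + m - 0 = m + 3 := by omega
      rw [Nat.descFactorial_succ, Nat.descFactorial_succ, Nat.descFactorial_succ,
        Nat.descFactorial_zero, e0, e1, e2]; ring
    have h3 : ((3 + m).descFactorial 3 : ℝ) = 6 * ((3 + m).choose 3 : ℝ) := by
      rw [h1]; push_cast; norm_num [Nat.factorial]
    rw [← h3, h2]; push_cast
    have hm : (0 : ℝ) ≤ m := Nat.cast_nonneg m
    nlinarith [mul_nonneg hm hm, mul_nonneg (mul_nonneg hm hm) hm]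

theorem par_ch4 (n : ℕ) : ((n : ℝ) - 3) ^ 4 ≤ 24 * (n.choose 4 : ℝ) ∨ n < 4 := by
  by_cases h : n < 4
  · exact Or.inr h
  · left
    obtain ⟨m, rfl⟩ := Nat.exists_eq_add_of_le (not_lt.mp h)
    have h1 := Nat.descFactorial_eq_factorial_mul_choose (4 + m) 4
    have h2 : (4 + m).descFactorial 4 = (m + 4) * (m + 3) * (m + 2) * (m + 1) := by
      have e0 : 4 + m - 0 = m + 4 := by omega
      have e1 : 4 + m - 1 = m + 3 := by omega
      have e2 : 4 + m - 2 = m + 2 := by omega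
      have e3 : 4 + m - 3 = m + 1 := by omega
      rw [Nat.descFactorial_succ, Nat.descFactorial_succ, Nat.descFactorial_succ,
        Nat.descFactorial_succ, Nat.descFactorial_zero, e0, e1, e2, e3]; ring
    have h3 : ((4 + m).descFactorial 4 : ℝ) = 24 * ((4 + m).choose 4 : ℝ) := by
      rw [h1]; push_cast; norm_num [Nat.factorial]
    rw [← h3, h2]; push_cast
    have hm : (0 : ℝ) ≤ m := Nat.cast_nonneg m
    have e : ((4 : ℝ) + m - 3) = m + 1 := by ring
    rw [e]
    have := mul_nonneg hm hm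
    have := mul_nonneg (mul_nonneg hm hm) hm
    nlinarith

theorem par_sum (κ d : ℕ) : (∑ i ∈ range d, κ.choose i) ≤ (κ + 1) ^ d := by
  rw [add_pow]
  calc (∑ i ∈ range d, κ.choose i) ≤ ∑ i ∈ range d, κ ^ i * 1 ^ (d - i) * d.choose i := by
        apply Finset.sum_le_sum
        intro i hi
        have hi' : i ≤ d := le_of_lt (Finset.mem_range.mp hi)
        have h1 : κ.choose i ≤ κ ^ i := Nat.choose_le_pow κ i
        have h2 : 1 ≤ d.choose i := Nat.choose_pos hi'
        simp only [one_pow, mul_one]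
        calc κ.choose i ≤ κ ^ i := h1
          _ = κ ^ i * 1 := (mul_one _).symm
          _ ≤ κ ^ i * d.choose i := Nat.mul_le_mul_left _ h2
    _ ≤ ∑ i ∈ range (d + 1), κ ^ i * 1 ^ (d - i) * d.choose i := by
        rw [Finset.sum_range_succ]
        exact Nat.le_add_right _ _

/-- **The parameter of the closures**: `d` of the order `(log g) ^ (2 / 3)`, `(κ + 1) ^ d ≤ g ^ (1 / 10) / 2`. -/
theorem params (K : ℝ) : ∃ g₀ : ℕ, ∀ g : ℕ, g₀ ≤ g → ∀ κ : ℕ, 2 ^ κ ≤ 2 * g →
    ∃ d : ℕ, K * Real.log g ^ 2 < d.choose 3 ∧ K * Real.log g ^ 2 < d.choose 4 ∧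
      2 * ((∑ i ∈ range d, κ.choose i : ℕ) : ℝ) ≤ (g : ℝ) ^ (1 / 10 : ℝ) := by
  set U : ℝ := 384 * |K| + 200 with hU
  have hK0 : 0 ≤ |K| := abs_nonneg K
  have hU200 : 200 ≤ U := by rw [hU]; linarith
  refine ⟨⌈Real.exp (U ^ 8)⌉₊, ?_⟩
  intro g hg κ hκ
  have hgexp : Real.exp (U ^ 8) ≤ g := (Nat.le_ceil _).trans (by exact_mod_cast hg)
  have hgpos : (0 : ℝ) < g := (Real.exp_pos _).trans_le hgexp
  set L : ℝ := Real.log g with hL
  have hLU : U ^ 8 ≤ L := by
    rw [hL, Real.le_log_iff_exp_le hgpos]; exact hgexp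
  have hU0 : 0 ≤ U := by linarith
  have hL0 : 0 ≤ L := (pow_nonneg hU0 8).trans hLU
  set u : ℝ := L ^ (1 / 8 : ℝ) with hu
  have hu8 : u ^ 8 = L := by
    rw [hu, ← Real.rpow_natCast, ← Real.rpow_mul hL0]; norm_num
  have hu0 : 0 ≤ u := Real.rpow_nonneg hL0 _
  have huU : U ≤ u := by
    by_contra hlt
    push Not at hlt
    have : u ^ 8 < U ^ 8 := pow_lt_pow_left₀ hlt hu0 (by norm_num)
    rw [hu8] at this
    linarith
  have hu200 : 200 ≤ u := hU200.trans huU
  have hu1 : 1 ≤ u := by linarith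
  set d : ℕ := ⌈u ^ 6⌉₊ with hd
  have hdl : u ^ 6 ≤ d := Nat.le_ceil _
  have hdu : (d : ℝ) ≤ u ^ 6 + 1 := (Nat.ceil_lt_add_one (by positivity)).le
  have hu6 : 200 ≤ u ^ 6 := by
    calc (200 : ℝ) ≤ u := hu200
      _ = u ^ 1 := (pow_one u).symm
      _ ≤ u ^ 6 := pow_le_pow_right₀ hu1 (by norm_num)
  have hd200 : (200 : ℝ) ≤ d := hu6.trans hdl
  have hd200' : 200 ≤ d := by exact_mod_cast hd200
  have hKle : K ≤ |K| := le_abs_self K
  have hKu : 384 * |K| < u := by
    have : 384 * |K| < U := by rw [hU]; linarith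
    linarith
  have hu16 : 0 < u ^ 16 := by positivity
  have hLsq : L ^ 2 = u ^ 16 := by rw [← hu8]; ring
  have hKL : K * L ^ 2 ≤ |K| * u ^ 16 := by
    rw [hLsq]; exact mul_le_mul_of_nonneg_right hKle hu16.le
  have hu2 : u ≤ u ^ 2 := by nlinarith
  have hu8' : u ≤ u ^ 8 := by
    calc u = u ^ 1 := (pow_one u).symm
      _ ≤ u ^ 8 := pow_le_pow_right₀ hu1 (by norm_num)
  refine ⟨d, ?_, ?_, ?_⟩
  · -- `d.choose 3`
    rcases par_ch3 d with h | h
    · have h1 : (u ^ 6 / 2) ^ 3 ≤ ((d : ℝ) - 2) ^ 3 := by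
        apply pow_le_pow_left₀ (by positivity)
        linarith
      have h2 : (u ^ 6 / 2) ^ 3 = u ^ 16 * u ^ 2 / 8 := by ring
      have h3 : |K| * u ^ 16 < u ^ 16 * u ^ 2 / 48 := by
        have : |K| < u ^ 2 / 48 := by linarith
        calc |K| * u ^ 16 < u ^ 2 / 48 * u ^ 16 := mul_lt_mul_of_pos_right this hu16
          _ = u ^ 16 * u ^ 2 / 48 := by ring
      linarith
    · omega
  · rcases par_ch4 d with h | h
    · have h1 : (u ^ 6 / 2) ^ 4 ≤ ((d : ℝ) - 3) ^ 4 := by
        apply pow_le_pow_left₀ (by positivity)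
        linarith
      have h2 : (u ^ 6 / 2) ^ 4 = u ^ 16 * u ^ 8 / 16 := by ring
      have h3 : |K| * u ^ 16 < u ^ 16 * u ^ 8 / 384 := by
        have : |K| < u ^ 8 / 384 := by linarith
        calc |K| * u ^ 16 < u ^ 8 / 384 * u ^ 16 := mul_lt_mul_of_pos_right this hu16
          _ = u ^ 16 * u ^ 8 / 384 := by ring
      linarith
    · omega
  · have hκL : (κ : ℝ) ≤ 1 + 2 * L := by
      have h1 : ((2 : ℝ)) ^ κ ≤ 2 * g := by exact_mod_cast hκ
      have h2 : Real.log ((2 : ℝ) ^ κ) ≤ Real.log (2 * g) := Real.log_le_log (by positivity) h1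
      rw [Real.log_pow, Real.log_mul (by norm_num) hgpos.ne', ← hL] at h2
      have h3 : (0.5 : ℝ) ≤ Real.log 2 := by linarith [Real.log_two_gt_d9]
      have h4 : Real.log 2 ≤ 1 := by linarith [Real.log_two_lt_d9]
      by_contra hlt
      push Not at hlt
      have h5 : (1 + 2 * L) * Real.log 2 < κ * Real.log 2 :=
        mul_lt_mul_of_pos_right hlt (by linarith)
      nlinarith
    have hκ1 : ((κ : ℝ) + 1) ≤ 4 * u ^ 8 := by
      rw [hu8]
      have : 1 ≤ L := by rw [← hu8]; linarith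
      linarith
    have hlogκ : Real.log ((κ : ℝ) + 1) ≤ 8 * u := by
      have h1 : Real.log ((κ : ℝ) + 1) ≤ Real.log (4 * u ^ 8) := Real.log_le_log (by positivity) hκ1
      rw [Real.log_mul (by norm_num) (by positivity), Real.log_pow] at h1
      have h2 : Real.log u ≤ u - 1 := Real.log_le_sub_one_of_pos (by linarith)
      have h3 : Real.log 4 ≤ 2 := by
        have : (4 : ℝ) = 2 ^ 2 := by norm_num
        rw [this, Real.log_pow]
        have := Real.log_two_lt_d9
        push_cast; linarith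
      push_cast at h1
      linarith
    have hsum : ((∑ i ∈ range d, κ.choose i : ℕ) : ℝ) ≤ ((κ : ℝ) + 1) ^ d := by
      exact_mod_cast par_sum κ d
    have hfin : 2 * ((κ : ℝ) + 1) ^ d ≤ (g : ℝ) ^ (1 / 10 : ℝ) := by
      have hp : (0 : ℝ) < 2 * ((κ : ℝ) + 1) ^ d := by positivity
      rw [← Real.log_le_log_iff hp (Real.rpow_pos_of_pos hgpos _), Real.log_rpow hgpos,
        Real.log_mul (by norm_num) (by positivity), Real.log_pow, ← hL]
      have h1 : (d : ℝ) * Real.log ((κ : ℝ) + 1) ≤ (u ^ 6 + 1) * (8 * u) := by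
        apply mul_le_mul hdu hlogκ
        · exact Real.log_nonneg (by have : (0 : ℝ) ≤ κ := Nat.cast_nonneg κ
                                    linarith)
        · positivity
      have h2 : (u ^ 6 + 1) * (8 * u) ≤ 16 * u ^ 7 := by
        have : 8 * u ≤ 8 * u ^ 7 := by
          have : u ^ 1 ≤ u ^ 7 := pow_le_pow_right₀ hu1 (by norm_num)
          rw [pow_one] at this
          linarith
        nlinarith
      have h3 : Real.log 2 ≤ u ^ 7 := by
        have h4 : Real.log 2 ≤ 1 := by linarith [Real.log_two_lt_d9]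
        have h5 : (1 : ℝ) ≤ u ^ 7 := one_le_pow₀ hu1
        linarith
      have h6 : 17 * u ^ 7 ≤ 1 / 10 * L := by
        rw [← hu8]
        have h7 : 0 < u ^ 7 := by positivity
        have h8 : u ^ 8 = u * u ^ 7 := by ring
        rw [h8]
        nlinarith
      linarith
    linarith

end Pool.Agent.Lib.MP_938ce2_ag_l4
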