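import Mathlib

set_option autoImplicit false
set_option linter.unusedSectionVars false

namespace Pool.Agent.Lib.MP_938ce2_ag_l4

open Finset

/-- a graph with many edges has a nonempty subgraph with large degrees: take a minimal `F'` with the
inequality, and remove a vertex of small degree -/
theorem min_degree {α : Type} [DecidableEq α] (r : α → α → Prop) [DecidableRel r]
    (hs : ∀ b c, r b c → r c b) (hi : ∀ b, ¬ r b b) (D : ℕ) (F : Finset α)
    (h : 2 * D * F.card < ((F ×ˢ F).filter fun p => r p.1 p.2).card) :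
    ∃ F' ⊆ F, F'.Nonempty ∧ ∀ b ∈ F', D < (F'.filter fun c => r b c).card := by
  induction F using Finset.strongInduction with
  | H F ih =>
    by_cases hall : ∀ b ∈ F, D < (F.filter fun c => r b c).card
    · refine ⟨F, Finset.Subset.refl _, ?_, hall⟩
      rw [Finset.nonempty_iff_ne_empty]
      rintro rfl
      simp at h
    · push Not at hall
      obtain ⟨b, hb, hdeg⟩ := hall
      have hcard : ((F ×ˢ F).filter fun p => r p.1 p.2).card ≤
          (((F.erase b) ×ˢ (F.erase b)).filter fun p => r p.1 p.2).card + 2 * (F.filter fun c => r b c).card := by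
        have hsub : ((F ×ˢ F).filter fun p => r p.1 p.2) ⊆
            (((F.erase b) ×ˢ (F.erase b)).filter fun p => r p.1 p.2) ∪
              ((F.filter fun c => r b c).image (fun c => (b, c)) ∪ (F.filter fun c => r b c).image (fun c => (c, b))) := by
          rintro ⟨x, y⟩ hxy
          simp only [Finset.mem_filter, Finset.mem_product, Finset.mem_union, Finset.mem_image,
            Finset.mem_erase, Prod.mk.injEq] at hxy ⊢
          obtain ⟨⟨hx, hy⟩, hr⟩ := hxy
          by_cases hxb : x = b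
          · subst hxb
            right; left
            exact ⟨y, ⟨hy, hr⟩, rfl, rfl⟩
          · by_cases hyb : y = b
            · subst hyb
              right; right
              exact ⟨x, ⟨hx, hs _ _ hr⟩, rfl, rfl⟩
            · left
              exact ⟨⟨⟨hxb, hx⟩, ⟨hyb, hy⟩⟩, hr⟩
        refine (Finset.card_le_card hsub).trans ?_
        refine (Finset.card_union_le _ _).trans ?_
        have h1 := Finset.card_union_le ((F.filter fun c => r b c).image (fun c => (b, c)))
          ((F.filter fun c => r b c).image (fun c => (c, b)))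
        have h2 : ((F.filter fun c => r b c).image (fun c => (b, c))).card ≤ (F.filter fun c => r b c).card :=
          Finset.card_image_le
        have h3 : ((F.filter fun c => r b c).image (fun c => (c, b))).card ≤ (F.filter fun c => r b c).card :=
          Finset.card_image_le
        omega
      have hce : (F.erase b).card + 1 = F.card := Finset.card_erase_add_one hb
      obtain ⟨F', hF', hne, hdd⟩ := ih (F.erase b) (Finset.erase_ssubset hb) (by
        rw [← hce] at h
        have : 2 * D * ((F.erase b).card + 1) = 2 * D * (F.erase b).card + 2 * D := by ring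
        omega)
      exact ⟨F', hF'.trans (Finset.erase_subset _ _), hne, hdd⟩

theorem T12_indep {α : Type} [Fintype α] [DecidableEq α] (m : ℕ) (A : (α → Fin (m + 1)) → Prop)
    [DecidablePred A] (u : α) (hA : ∀ ω i, A (Function.update ω u i) ↔ A ω) :
    (univ.filter (fun ω => A ω ∧ ω u = 0)).card * (m + 1) = (univ.filter A).card := by
  have h1 : (univ.filter A).card = ∑ i : Fin (m + 1), ((univ.filter A).filter (fun ω => ω u = i)).card :=
    Finset.card_eq_sum_card_fiberwise (fun _ _ => Finset.mem_coe.2 (Finset.mem_univ _))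
  have h2 : ∀ i : Fin (m + 1), ((univ.filter A).filter (fun ω => ω u = i)).card
      = (univ.filter (fun ω => A ω ∧ ω u = 0)).card := by
    intro i
    refine Finset.card_bij' (fun ω _ => Function.update ω u 0) (fun ω _ => Function.update ω u i) ?_ ?_ ?_ ?_
    · intro ω hω
      simp only [Finset.mem_filter, Finset.mem_univ, true_and] at hω ⊢
      exact ⟨(hA _ _).2 hω.1, Function.update_self _ _ _⟩
    · intro ω hω
      simp only [Finset.mem_filter, Finset.mem_univ, true_and] at hω ⊢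
      exact ⟨(hA _ _).2 hω.1, Function.update_self _ _ _⟩
    · intro ω hω
      simp only [Finset.mem_filter, Finset.mem_univ, true_and] at hω
      rw [Function.update_idem, ← hω.2, Function.update_eq_self]
    · intro ω hω
      simp only [Finset.mem_filter, Finset.mem_univ, true_and] at hω
      rw [Function.update_idem, ← hω.2, Function.update_eq_self]
  rw [h1, Finset.sum_congr rfl (fun i _ => h2 i)]
  simp [mul_comm]

theorem T12_pairs {α : Type} [Fintype α] [DecidableEq α] (m : ℕ) (P : Finset (α × α))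
    (hne : ∀ p ∈ P, p.1 ≠ p.2)
    (hd : ∀ p ∈ P, ∀ q ∈ P, p ≠ q → p.1 ≠ q.1 ∧ p.1 ≠ q.2 ∧ p.2 ≠ q.1 ∧ p.2 ≠ q.2) :
    ((univ.filter (fun ω : α → Fin (m + 1) => ∀ p ∈ P, ¬ (ω p.1 = 0 ∧ ω p.2 = 0))).card : ℝ)
      = ((m : ℝ) + 1) ^ Fintype.card α * (1 - 1 / ((m : ℝ) + 1) ^ 2) ^ P.card := by
  induction P using Finset.induction_on with
  | empty =>
    simp [Fintype.card_pi]
  | insert p P hp ih =>
    have ih' := ih (fun q hq => hne q (Finset.mem_insert_of_mem hq))
      (fun q hq q' hq' => hd q (Finset.mem_insert_of_mem hq) q' (Finset.mem_insert_of_mem hq'))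
    rw [Finset.card_insert_of_notMem hp, pow_succ, ← mul_assoc, ← ih']
    have hpq : ∀ q ∈ P, p.1 ≠ q.1 ∧ p.1 ≠ q.2 ∧ p.2 ≠ q.1 ∧ p.2 ≠ q.2 := fun q hq =>
      hd p (Finset.mem_insert_self _ _) q (Finset.mem_insert_of_mem hq) (fun h => hp (h ▸ hq))
    have hp12 := hne p (Finset.mem_insert_self _ _)
    set A : (α → Fin (m + 1)) → Prop := fun ω => ∀ p ∈ P, ¬ (ω p.1 = 0 ∧ ω p.2 = 0) with hAdef
    have hA1 : ∀ ω i, A (Function.update ω p.1 i) ↔ A ω := by
      intro ω i
      simp only [hAdef]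
      refine forall₂_congr (fun q hq => ?_)
      rw [Function.update_of_ne (hpq q hq).1.symm, Function.update_of_ne (hpq q hq).2.1.symm]
    have hA2 : ∀ ω i, (A (Function.update ω p.2 i) ∧ (Function.update ω p.2 i) p.1 = 0) ↔ (A ω ∧ ω p.1 = 0) := by
      intro ω i
      simp only [hAdef]
      rw [Function.update_of_ne hp12]
      refine and_congr_left (fun _ => ?_)
      refine forall₂_congr (fun q hq => ?_)
      rw [Function.update_of_ne (hpq q hq).2.2.1.symm, Function.update_of_ne (hpq q hq).2.2.2.symm]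
    have e1 := T12_indep m A p.1 hA1
    have e2 := T12_indep m (fun ω => A ω ∧ ω p.1 = 0) p.2 hA2
    have e3 : (univ.filter (fun ω => (A ω ∧ ω p.1 = 0) ∧ ω p.2 = 0)).card
        + (univ.filter (fun ω : α → Fin (m + 1) => ∀ q ∈ insert p P, ¬ (ω q.1 = 0 ∧ ω q.2 = 0))).card
        = (univ.filter A).card := by
      rw [← Finset.card_filter_add_card_filter_not (s := univ.filter A) (fun ω => ω p.1 = 0 ∧ ω p.2 = 0)]
      congr 1
      · congr 1
        ext ω
        simp only [Finset.mem_filter, Finset.mem_univ, true_and]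
        tauto
      · congr 1
        ext ω
        simp only [Finset.mem_filter, Finset.mem_univ, true_and, Finset.forall_mem_insert, hAdef]
        tauto
    have e1' : ((univ.filter (fun ω => A ω ∧ ω p.1 = 0)).card : ℝ) * ((m : ℝ) + 1) = ((univ.filter A).card : ℝ) := by
      exact_mod_cast e1
    have e2' : ((univ.filter (fun ω => (A ω ∧ ω p.1 = 0) ∧ ω p.2 = 0)).card : ℝ) * ((m : ℝ) + 1)
        = ((univ.filter (fun ω => A ω ∧ ω p.1 = 0)).card : ℝ) := by
      exact_mod_cast e2
    have e3' : ((univ.filter (fun ω => (A ω ∧ ω p.1 = 0) ∧ ω p.2 = 0)).card : ℝ)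
        + ((univ.filter (fun ω : α → Fin (m + 1) => ∀ q ∈ insert p P, ¬ (ω q.1 = 0 ∧ ω q.2 = 0))).card : ℝ)
        = ((univ.filter A).card : ℝ) := by
      exact_mod_cast e3
    have hm : (0 : ℝ) < (m : ℝ) + 1 := by positivity
    generalize ((univ.filter (fun ω : α → Fin (m + 1) => ∀ q ∈ insert p P, ¬ (ω q.1 = 0 ∧ ω q.2 = 0))).card : ℝ) = a at *
    generalize ((univ.filter (fun ω => (A ω ∧ ω p.1 = 0) ∧ ω p.2 = 0)).card : ℝ) = b at *
    have hb : b * ((m : ℝ) + 1) ^ 2 = ((univ.filter A).card : ℝ) := by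
      rw [← e1', ← e2']; ring
    have hb' : b = ((univ.filter A).card : ℝ) / ((m : ℝ) + 1) ^ 2 := by
      rw [eq_div_iff (by positivity)]; exact hb
    have : a = ((univ.filter A).card : ℝ) - b := by linarith
    rw [this, hb']
    ring

/-- **A random subset.** Average over all functions `ω : α → Fin n`, `R` = the elements of `U` with `ω u = 0`:
the mean of `R.card` is `U.card / n`, and the probability that no pair of `P b` is in `R` is
`(1 - 1 / n ^ 2) ^ (P b).card` (the pairs are disjoint: induction on the family of pairs). -/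
theorem random_subset {α : Type} [Fintype α] [DecidableEq α] (n k : ℕ) (hn : 1 ≤ n) (U F : Finset α)
    (P : α → Finset (α × α)) (hP : ∀ b ∈ F, k ≤ (P b).card)
    (hne : ∀ b ∈ F, ∀ p ∈ P b, p.1 ≠ p.2 ∧ p.1 ∈ U ∧ p.2 ∈ U)
    (hd : ∀ b ∈ F, ∀ p ∈ P b, ∀ q ∈ P b, p ≠ q → p.1 ≠ q.1 ∧ p.1 ≠ q.2 ∧ p.2 ≠ q.1 ∧ p.2 ≠ q.2) :
    ∃ R ⊆ U, ((R.card : ℝ) + (F.filter fun b => ∀ p ∈ P b, ¬ (p.1 ∈ R ∧ p.2 ∈ R)).card)
      ≤ U.card / n + F.card * (1 - 1 / (n : ℝ) ^ 2) ^ k := by
  obtain ⟨m, rfl⟩ : ∃ m, n = m + 1 := ⟨n - 1, by omega⟩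
  have hm : (0 : ℝ) < (m : ℝ) + 1 := by positivity
  have hm1 : (1 : ℝ) ≤ (m : ℝ) + 1 := by linarith [Nat.cast_nonneg (α := ℝ) m]
  have hcardΩ : ((univ : Finset (α → Fin (m + 1))).card : ℝ) = ((m : ℝ) + 1) ^ Fintype.card α := by
    simp [Finset.card_univ, Fintype.card_pi]
  have hsum : ∑ ω : α → Fin (m + 1), (((U.filter (fun u => ω u = 0)).card : ℝ) +
      ((F.filter fun b => ∀ p ∈ P b, ¬ (ω p.1 = 0 ∧ ω p.2 = 0)).card : ℝ))
      ≤ ∑ ω : α → Fin (m + 1), (U.card / ((m : ℝ) + 1) + F.card * (1 - 1 / ((m : ℝ) + 1) ^ 2) ^ k) := by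
    rw [Finset.sum_const, nsmul_eq_mul, hcardΩ, Finset.sum_add_distrib]
    have s1 : ∑ ω : α → Fin (m + 1), ((U.filter (fun u => ω u = 0)).card : ℝ)
        = ((m : ℝ) + 1) ^ Fintype.card α * (U.card / ((m : ℝ) + 1)) := by
      have : ∑ ω : α → Fin (m + 1), ((U.filter (fun u => ω u = 0)).card : ℝ)
          = ∑ u ∈ U, ((univ.filter (fun ω : α → Fin (m + 1) => ω u = 0)).card : ℝ) := by
        simp only [Finset.card_filter, Nat.cast_sum]
        rw [Finset.sum_comm]
      rw [this]
      have h1 : ∀ u ∈ U, ((univ.filter (fun ω : α → Fin (m + 1) => ω u = 0)).card : ℝ)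
          = ((m : ℝ) + 1) ^ Fintype.card α / ((m : ℝ) + 1) := by
        intro u _
        have h2 := T12_indep m (fun _ : α → Fin (m + 1) => True) u (fun _ _ => Iff.rfl)
        simp only [true_and, Finset.filter_true] at h2
        rw [eq_div_iff hm.ne', ← hcardΩ]
        exact_mod_cast h2
      rw [Finset.sum_congr rfl h1, Finset.sum_const, nsmul_eq_mul]
      ring
    have s2 : ∑ ω : α → Fin (m + 1), ((F.filter fun b => ∀ p ∈ P b, ¬ (ω p.1 = 0 ∧ ω p.2 = 0)).card : ℝ)
        ≤ ((m : ℝ) + 1) ^ Fintype.card α * (F.card * (1 - 1 / ((m : ℝ) + 1) ^ 2) ^ k) := by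
      have : ∑ ω : α → Fin (m + 1), ((F.filter fun b => ∀ p ∈ P b, ¬ (ω p.1 = 0 ∧ ω p.2 = 0)).card : ℝ)
          = ∑ b ∈ F, ((univ.filter (fun ω : α → Fin (m + 1) => ∀ p ∈ P b, ¬ (ω p.1 = 0 ∧ ω p.2 = 0))).card : ℝ) := by
        simp only [Finset.card_filter, Nat.cast_sum]
        rw [Finset.sum_comm]
      rw [this]
      have h1 : ∀ b ∈ F, ((univ.filter (fun ω : α → Fin (m + 1) => ∀ p ∈ P b, ¬ (ω p.1 = 0 ∧ ω p.2 = 0))).card : ℝ)
          ≤ ((m : ℝ) + 1) ^ Fintype.card α * (1 - 1 / ((m : ℝ) + 1) ^ 2) ^ k := by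
        intro b hb
        rw [T12_pairs m (P b) (fun p hp => (hne b hb p hp).1) (hd b hb)]
        have h0 : (0 : ℝ) ≤ 1 - 1 / ((m : ℝ) + 1) ^ 2 := by
          rw [sub_nonneg, div_le_one (by positivity)]
          nlinarith
        have h1' : 1 - 1 / ((m : ℝ) + 1) ^ 2 ≤ (1 : ℝ) := by
          have : (0 : ℝ) ≤ 1 / ((m : ℝ) + 1) ^ 2 := by positivity
          linarith
        have := pow_le_pow_of_le_one h0 h1' (hP b hb)
        gcongr
      refine (Finset.sum_le_sum h1).trans (le_of_eq ?_)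
      rw [Finset.sum_const, nsmul_eq_mul]
      ring
    calc _ ≤ ((m : ℝ) + 1) ^ Fintype.card α * (U.card / ((m : ℝ) + 1))
        + ((m : ℝ) + 1) ^ Fintype.card α * (F.card * (1 - 1 / ((m : ℝ) + 1) ^ 2) ^ k) := by
          rw [s1]; gcongr
      _ = _ := by ring
  obtain ⟨ω, -, hω⟩ := Finset.exists_le_of_sum_le (Finset.univ_nonempty) hsum
  refine ⟨U.filter (fun u => ω u = 0), Finset.filter_subset _ _, ?_⟩
  have hcongr : (F.filter fun b => ∀ p ∈ P b, ¬ (p.1 ∈ U.filter (fun u => ω u = 0) ∧ p.2 ∈ U.filter (fun u => ω u = 0)))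
      = (F.filter fun b => ∀ p ∈ P b, ¬ (ω p.1 = 0 ∧ ω p.2 = 0)) := by
    refine Finset.filter_congr (fun b hb => ?_)
    refine forall₂_congr (fun p hp => ?_)
    have := hne b hb p hp
    simp only [Finset.mem_filter]
    tauto
  rw [hcongr]
  push_cast
  exact hω

end Pool.Agent.Lib.MP_938ce2_ag_l4
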