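import Mathlib
import Pool.Agent.Lib.MP_938ce2_ag_l4.T12
import Pool.Agent.Lib.MP_938ce2_ag_l4.D2

set_option autoImplicit false
set_option linter.unusedSectionVars false

namespace Pool.Agent.Lib.MP_938ce2_ag_l4

open Finset

variable {ι : Type} [Fintype ι] [DecidableEq ι]

private theorem pow_small_aux (x : ℝ) (n : ℕ) (h0 : 0 ≤ x) (h1 : x ≤ Real.exp (-(1 / 1600)))
    (hn : (n : ℝ) = 4000) : x ^ n ≤ 1 / 8 := by
  have h3 : x ^ n ≤ Real.exp (-(5 / 2)) := by
    calc x ^ n ≤ Real.exp (-(1 / 1600)) ^ n := pow_le_pow_left₀ h0 h1 n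
      _ = Real.exp (-(5 / 2)) := by
        rw [← Real.exp_nat_mul, hn]
        congr 1
        norm_num
  refine h3.trans ?_
  rw [Real.exp_neg, ← one_div]
  apply one_div_le_one_div_of_le (by norm_num)
  have h4 : Real.exp (5 / 2) = Real.exp 1 * Real.exp 1 * Real.exp (1 / 2) := by
    rw [← Real.exp_add, ← Real.exp_add]
    norm_num
  have h5 : (2.7 : ℝ) ≤ Real.exp 1 := by
    have := Real.exp_one_gt_d9
    linarith
  have h6 : (1.5 : ℝ) ≤ Real.exp (1 / 2) := by
    have := Real.add_one_le_exp (1 / 2 : ℝ)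
    linarith
  rw [h4]
  have h7 : (2.7 * 2.7 : ℝ) ≤ Real.exp 1 * Real.exp 1 :=
    mul_le_mul h5 h5 (by norm_num) (Real.exp_pos 1).le
  have h8 : (2.7 * 2.7 * 1.5 : ℝ) ≤ Real.exp 1 * Real.exp 1 * Real.exp (1 / 2) :=
    mul_le_mul h7 h6 (by norm_num) (by positivity)
  linarith

private theorem base_small : (1 - 1 / ((40 : ℕ) : ℝ) ^ 2) ≤ Real.exp (-(1 / 1600)) := by
  have := Real.add_one_le_exp (-(1 / 1600 : ℝ))
  push_cast
  linarith

private theorem add_self' (v : ι → ZMod 2) : v + v = 0 := by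
  funext i
  exact CharTwo.add_self_eq_zero (v i)

/-- a coordinate splits the neighbours into two classes without pairs -/
private theorem half (N : Finset (ι → ZMod 2)) (s : ι → ZMod 2) (hs : s ≠ 0) :
    ∃ N' ⊆ N, N.card ≤ 2 * N'.card ∧ ∀ c ∈ N', ∀ d ∈ N', c ≠ s + d := by
  obtain ⟨i, hi⟩ : ∃ i, s i ≠ 0 := by
    by_contra hcon
    push Not at hcon
    exact hs (funext hcon)
  have key : ∀ z : ZMod 2, ∀ c d : ι → ZMod 2, c i = z → d i = z → c ≠ s + d := by
    intro z c d hc hd h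
    have h1 := congrFun h i
    rw [Pi.add_apply, hc, hd] at h1
    exact hi (by
      have h2 : s i + z = 0 + z := by rw [← h1, zero_add]
      exact add_right_cancel h2)
  have hcard : (N.filter fun c => c i = 0).card + (N.filter fun c => ¬ c i = 0).card = N.card :=
    card_filter_add_card_filter_not _
  rcases le_total (N.filter fun c => c i = 0).card (N.filter fun c => ¬ c i = 0).card with h | h
  · refine ⟨N.filter fun c => ¬ c i = 0, filter_subset _ _, by omega, ?_⟩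
    intro c hc d hd
    have h2 : ∀ z : ZMod 2, z ≠ 0 → z = 1 := by decide
    exact key 1 c d (h2 _ (mem_filter.mp hc).2) (h2 _ (mem_filter.mp hd).2)
  · refine ⟨N.filter fun c => c i = 0, filter_subset _ _, by omega, ?_⟩
    intro c hc d hd
    exact key 0 c d (mem_filter.mp hc).2 (mem_filter.mp hd).2

/-- **Structure of a set with large degrees.** Let `D₀` be the set of the `a + b + c`, `b c ∈ F`, `rel S a b c`. If
`(D₀ \ F).card ≥ 4 * F.card` take a subset. Otherwise `U = F ∪ D₀` has at most `5 * F.card` elements; for `b ∈ F`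
the involution `c ↦ a + b + c` gives at least `4000` disjoint pairs `(c, a + b + c)` in `U`; apply `random_subset`
with `n = 40`: `(1 - 1 / 1600) ^ 4000 ≤ 1 / 8`; `P` is the union of `R` and of the `b` without a pair in `R`. -/
theorem struct (S F : Finset (ι → ZMod 2)) (a : ι → ZMod 2) (hF : F ⊆ S)
    (hdeg : ∀ b ∈ F, 8000 < (F.filter fun c => rel S a b c).card) :
    (∃ D ⊆ S \ F, D.card = 4 * F.card ∧ ∀ d ∈ D, ∃ b ∈ F, ∃ b' ∈ F, d = a + b + b') ∨
    (∃ P : Finset (ι → ZMod 2), 4 * P.card ≤ F.card ∧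
      F ⊆ P ∪ (P ×ˢ P).image (fun p => a + p.1 + p.2)) := by
  classical
  set D₀ := ((F ×ˢ F).filter fun p => rel S a p.1 p.2).image fun p => a + p.1 + p.2 with hD₀
  have hmem : ∀ d ∈ D₀, d ∈ S ∧ ∃ b ∈ F, ∃ b' ∈ F, d = a + b + b' := by
    intro d hd
    obtain ⟨p, hp, rfl⟩ := mem_image.mp hd
    rw [mem_filter, mem_product] at hp
    exact ⟨hp.2.2.2.2, p.1, hp.1.1, p.2, hp.1.2, rfl⟩
  by_cases hcase : 4 * F.card ≤ (D₀ \ F).card
  · left
    obtain ⟨D, hD, hDc⟩ := exists_subset_card_eq hcase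
    refine ⟨D, fun d hd => ?_, hDc, fun d hd => ?_⟩
    · have h1 := mem_sdiff.mp (hD hd)
      exact mem_sdiff.mpr ⟨(hmem d h1.1).1, h1.2⟩
    · exact (hmem d (mem_sdiff.mp (hD hd)).1).2
  · right
    push Not at hcase
    set U := F ∪ (D₀ \ F) with hU
    have hUcard : U.card ≤ 5 * F.card := by
      have h := card_union_le F (D₀ \ F)
      rw [← hU] at h
      omega
    have hDU : ∀ d ∈ D₀, d ∈ U := by
      intro d hd
      rw [hU, mem_union, mem_sdiff]
      by_cases h : d ∈ F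
      · exact Or.inl h
      · exact Or.inr ⟨hd, h⟩
    have hex : ∀ b ∈ F, ∃ Q : Finset ((ι → ZMod 2) × (ι → ZMod 2)), 4000 ≤ Q.card ∧
        (∀ p ∈ Q, p.1 ≠ p.2 ∧ p.1 ∈ U ∧ p.2 ∈ U) ∧ (∀ p ∈ Q, b = a + p.1 + p.2) ∧
        (∀ p ∈ Q, ∀ q ∈ Q, p ≠ q → p.1 ≠ q.1 ∧ p.1 ≠ q.2 ∧ p.2 ≠ q.1 ∧ p.2 ≠ q.2) := by
      intro b hb
      have hN := hdeg b hb
      have hab : a + b ≠ 0 := by
        intro h0
        obtain ⟨c, hc⟩ := card_pos.mp (by omega : 0 < (F.filter fun c => rel S a b c).card)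
        apply (mem_filter.mp hc).2.2.1
        have h1 : a + b + b = 0 + b := by rw [h0]
        rwa [add_assoc, add_self', add_zero, zero_add] at h1
      obtain ⟨N', hN', hcard, hfree⟩ := half (F.filter fun c => rel S a b c) (a + b) hab
      have hpair : ∀ c ∈ N', c ∈ F ∧ rel S a b c := fun c hc => mem_filter.mp (hN' hc)
      refine ⟨N'.image fun c => (c, a + b + c), ?_, ?_, ?_, ?_⟩
      · rw [card_image_of_injective _ (fun c d h => (Prod.ext_iff.mp h).1)]
        omega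
      · intro p hp
        obtain ⟨c, hc, rfl⟩ := mem_image.mp hp
        refine ⟨fun h => hfree c hc c hc h, mem_union_left _ (hpair c hc).1, ?_⟩
        apply hDU
        rw [hD₀]
        exact mem_image.mpr ⟨(b, c), mem_filter.mpr ⟨mem_product.mpr ⟨hb, (hpair c hc).1⟩,
          (hpair c hc).2⟩, rfl⟩
      · intro p hp
        obtain ⟨c, hc, rfl⟩ := mem_image.mp hp
        show b = a + c + (a + b + c)
        have h1 : a + c + (a + b + c) = (a + a) + (c + c) + b := by abel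
        rw [h1, add_self', add_self', zero_add, zero_add]
      · intro p hp q hq hpq
        obtain ⟨c, hc, rfl⟩ := mem_image.mp hp
        obtain ⟨d, hd, rfl⟩ := mem_image.mp hq
        have hcd : c ≠ d := fun h => hpq (by rw [h])
        exact ⟨hcd, hfree c hc d hd, (hfree d hd c hc).symm, fun h => hcd (add_left_cancel h)⟩
    choose! P hP1 hP2 hP3 hP4 using hex
    obtain ⟨k, hk⟩ : ∃ k : ℕ, k = 4000 := ⟨_, rfl⟩
    rw [← hk] at hP1
    obtain ⟨R, hR, hRle⟩ := random_subset 40 k (by norm_num) U F P hP1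
      (fun b hb => hP2 b hb) (fun b hb => hP4 b hb)
    have hsmall : (1 - 1 / ((40 : ℕ) : ℝ) ^ 2) ^ k ≤ 1 / 8 :=
      pow_small_aux _ _ (by norm_num) base_small (by rw [hk]; norm_num)
    generalize (1 - 1 / ((40 : ℕ) : ℝ) ^ 2) ^ k = z at hRle hsmall
    refine ⟨R ∪ F.filter (fun b => ∀ p ∈ P b, ¬ (p.1 ∈ R ∧ p.2 ∈ R)), ?_, ?_⟩
    · have h1 := card_union_le R (F.filter (fun b => ∀ p ∈ P b, ¬ (p.1 ∈ R ∧ p.2 ∈ R)))
      have h2 : (((R ∪ F.filter (fun b => ∀ p ∈ P b, ¬ (p.1 ∈ R ∧ p.2 ∈ R))).card : ℕ) : ℝ)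
          ≤ (R.card : ℝ) + (F.filter (fun b => ∀ p ∈ P b, ¬ (p.1 ∈ R ∧ p.2 ∈ R))).card := by
        exact_mod_cast h1
      have h3 : (U.card : ℝ) ≤ 5 * F.card := by exact_mod_cast hUcard
      have h4 : (F.card : ℝ) * z ≤ F.card * (1 / 8) :=
        mul_le_mul_of_nonneg_left hsmall (Nat.cast_nonneg _)
      have h5 : (U.card : ℝ) / ((40 : ℕ) : ℝ) ≤ F.card * (1 / 8) := by
        push_cast
        linarith
      have h6 : 4 * (((R ∪ F.filter (fun b => ∀ p ∈ P b, ¬ (p.1 ∈ R ∧ p.2 ∈ R))).card : ℕ) : ℝ)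
          ≤ F.card := by
        linarith
      exact_mod_cast h6
    · intro b hb
      by_cases h1 : ∀ p ∈ P b, ¬ (p.1 ∈ R ∧ p.2 ∈ R)
      · exact mem_union_left _ (mem_union_right _ (mem_filter.mpr ⟨hb, h1⟩))
      · push Not at h1
        obtain ⟨p, hp, hpR⟩ := h1
        refine mem_union_right _ (mem_image.mpr ⟨p, mem_product.mpr
          ⟨mem_union_left _ hpR.1, mem_union_left _ hpR.2⟩, (hP3 b hb p hp).symm⟩)

end Pool.Agent.Lib.MP_938ce2_ag_l4
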