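import Mathlib
import Pool.Agent.Lib.MP_938ce2_ag_l4.T01
import Pool.Agent.Lib.MP_938ce2_ag_l4.T09

set_option autoImplicit false
set_option linter.unusedSectionVars false

namespace Pool.Agent.Lib.MP_938ce2_ag_l4

open Finset

variable {ι : Type} [Fintype ι] [DecidableEq ι] {X : Type} [Fintype X] [DecidableEq X] {c : X → X}
  {y : X → ι → ZMod 2} {c₀ : ι → ZMod 2} {g : ℕ}

/-- the union bound with `prob_lossy` -/
theorem union_lossy (hD : Dat c y c₀ g) (hg : 2 ≤ g) {κ : Type} [Fintype κ]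
    (B : κ → Finset (ι → ZMod 2)) (m : ℕ) (hm1 : 1 ≤ m)
    (hm : 8 * (m : ℝ) ^ 5 * Real.log g ≤ g) (q : Finset X → Prop)
    (h : ∀ Φ, Typ c Φ → q Φ → ∃ k, (B k).card = m ∧ B k ⊆ SS y c₀ Φ) :
    cnt c q ≤ Fintype.card κ * (2 * (4 * m / √g) ^ m * 2 ^ g) := by
  classical
  have h1 := cnt_exists (c := c) (univ.filter fun k => (B k).card = m)
    (fun k Φ => B k ⊆ SS y c₀ Φ) q
    (by
      intro Φ hΦ hq
      obtain ⟨k, hk1, hk2⟩ := h Φ hΦ hq
      exact ⟨k, by simp [hk1], hk2⟩)
  refine h1.trans ?_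
  have hnn : (0 : ℝ) ≤ 2 * (4 * m / √g) ^ m * 2 ^ g := by positivity
  calc ∑ k ∈ univ.filter (fun k => (B k).card = m), cnt c (fun Φ => B k ⊆ SS y c₀ Φ)
      ≤ ∑ k ∈ univ.filter (fun k => (B k).card = m), (2 * (4 * m / √g) ^ m * 2 ^ g) := by
        apply Finset.sum_le_sum
        intro k hk
        rw [Finset.mem_filter] at hk
        have hne : (B k).Nonempty := by rw [← Finset.card_pos, hk.2]; omega
        have := prob_lossy hD hg (B k) hne (by rw [hk.2]; exact hm)
        rw [hk.2] at this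
        exact this
    _ = ((univ.filter (fun k => (B k).card = m)).card : ℝ) * (2 * (4 * m / √g) ^ m * 2 ^ g) := by
        rw [Finset.sum_const, nsmul_eq_mul]
    _ ≤ Fintype.card κ * (2 * (4 * m / √g) ^ m * 2 ^ g) := by
        apply mul_le_mul_of_nonneg_right _ hnn
        exact_mod_cast Finset.card_le_univ _

theorem card_V_le' (hD : Dat c y c₀ g) : (Fintype.card (ι → ZMod 2) : ℝ) ≤ 2 * g := by
  rw [Fintype.card_fun, ZMod.card]
  exact_mod_cast card_V_le hD

theorem card_fun_le (hD : Dat c y c₀ g) (m : ℕ) :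
    (Fintype.card (Fin m → (ι → ZMod 2)) : ℝ) ≤ (2 * g : ℝ) ^ m := by
  rw [Fintype.card_fun, Fintype.card_fin]
  push_cast
  exact pow_le_pow_left₀ (by positivity) (card_V_le' hD) m

/-- **Union bound, first case.** `cnt_exists` over `a`, `F` = the image of `Fin s → V` and `D` = the image of a function
`Fin (4 * s) → Fin s × Fin s` under `(i, j) ↦ a + f i + f j`; `F ∪ D` has `5 * s` elements, `prob_lossy`. -/
theorem case1 (hD : Dat c y c₀ g) (hg : 2 ≤ g) (s : ℕ) (hs : 1 ≤ s)
    (hm : 8 * (5 * s : ℝ) ^ 5 * Real.log g ≤ g) :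
    cnt c (fun Φ => ∃ (a : ι → ZMod 2) (F D : Finset (ι → ZMod 2)), F ⊆ SS y c₀ Φ ∧
        D ⊆ SS y c₀ Φ \ F ∧ F.card = s ∧ D.card = 4 * s ∧
        ∀ d ∈ D, ∃ b ∈ F, ∃ b' ∈ F, d = a + b + b')
      ≤ 2 * (2 * g : ℝ) ^ (s + 1) * (s : ℝ) ^ (8 * s) * (20 * s / √g) ^ (5 * s) * 2 ^ g := by
  classical
  have key := union_lossy hD hg
    (κ := (ι → ZMod 2) × (Fin s → (ι → ZMod 2)) × (Fin (4 * s) → Fin s × Fin s))
    (fun k => univ.image k.2.1 ∪ univ.image (fun j => k.1 + k.2.1 (k.2.2 j).1 + k.2.1 (k.2.2 j).2))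
    (5 * s) (by omega) (by push_cast; exact hm)
    (fun Φ => ∃ (a : ι → ZMod 2) (F D : Finset (ι → ZMod 2)), F ⊆ SS y c₀ Φ ∧
        D ⊆ SS y c₀ Φ \ F ∧ F.card = s ∧ D.card = 4 * s ∧
        ∀ d ∈ D, ∃ b ∈ F, ∃ b' ∈ F, d = a + b + b')
    (by
      rintro Φ - ⟨a, F, D, hF, hDS, hFc, hDc, hd⟩
      let eF : Fin s ≃ F := (F.equivFinOfCardEq hFc).symm
      let eD : Fin (4 * s) ≃ D := (D.equivFinOfCardEq hDc).symm
      have hex : ∀ j : Fin (4 * s), ∃ p : Fin s × Fin s,
          ((eD j : ι → ZMod 2)) = a + (eF p.1 : ι → ZMod 2) + (eF p.2 : ι → ZMod 2) := by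
        intro j
        obtain ⟨b, hb, b', hb', he⟩ := hd _ (eD j).2
        exact ⟨(eF.symm ⟨b, hb⟩, eF.symm ⟨b', hb'⟩), by simp [he]⟩
      choose h hh using hex
      have i1 : univ.image (fun i => (eF i : ι → ZMod 2)) = F := by
        ext v
        simp only [Finset.mem_image, Finset.mem_univ, true_and]
        constructor
        · rintro ⟨i, rfl⟩; exact (eF i).2
        · intro hv; exact ⟨eF.symm ⟨v, hv⟩, by simp⟩
      have i2 : univ.image (fun j => a + (eF (h j).1 : ι → ZMod 2) + (eF (h j).2 : ι → ZMod 2)) = D := by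
        ext v
        simp only [Finset.mem_image, Finset.mem_univ, true_and]
        constructor
        · rintro ⟨j, rfl⟩; rw [← hh j]; exact (eD j).2
        · intro hv; exact ⟨eD.symm ⟨v, hv⟩, by rw [← hh]; simp⟩
      refine ⟨(a, fun i => (eF i : ι → ZMod 2), h), ?_, ?_⟩
      · simp only
        rw [i1, i2]
        rw [Finset.card_union_of_disjoint, hFc, hDc]
        · ring
        · rw [Finset.disjoint_left]
          intro v hv hv'
          exact (Finset.mem_sdiff.mp (hDS hv')).2 hv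
      · simp only
        rw [i1, i2]
        exact Finset.union_subset hF (hDS.trans Finset.sdiff_subset))
  refine key.trans ?_
  have hcard : (Fintype.card ((ι → ZMod 2) × (Fin s → (ι → ZMod 2)) × (Fin (4 * s) → Fin s × Fin s)) : ℝ)
      ≤ (2 * g : ℝ) ^ (s + 1) * (s : ℝ) ^ (8 * s) := by
    rw [Fintype.card_prod, Fintype.card_prod]
    push_cast
    have e1 : (Fintype.card (Fin (4 * s) → Fin s × Fin s) : ℝ) = (s : ℝ) ^ (8 * s) := by
      rw [Fintype.card_fun, Fintype.card_prod, Fintype.card_fin, Fintype.card_fin]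
      push_cast
      rw [← pow_two, ← pow_mul]
      congr 1
      ring
    rw [e1, ← mul_assoc]
    apply mul_le_mul_of_nonneg_right _ (by positivity)
    rw [pow_succ']
    exact mul_le_mul (card_V_le' hD) (card_fun_le hD s) (by positivity) (by positivity)
  calc (Fintype.card ((ι → ZMod 2) × (Fin s → (ι → ZMod 2)) × (Fin (4 * s) → Fin s × Fin s)) : ℝ)
        * (2 * (4 * ((5 * s : ℕ) : ℝ) / √g) ^ (5 * s) * 2 ^ g)
      ≤ ((2 * g : ℝ) ^ (s + 1) * (s : ℝ) ^ (8 * s)) * (2 * (4 * ((5 * s : ℕ) : ℝ) / √g) ^ (5 * s) * 2 ^ g) :=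
        mul_le_mul_of_nonneg_right hcard (by positivity)
    _ = _ := by
        push_cast
        rw [show (4 : ℝ) * (5 * s) = 20 * s by ring]
        ring

/-- **Union bound, second case.** Over `a`, over `P` = the image of a function on `Fin (s / 4)` and over `F` = the image
of a function from `Fin s` to a set with at most `s ^ 2` elements; `prob_lossy`. -/
theorem case2 (hD : Dat c y c₀ g) (hg : 2 ≤ g) (s : ℕ) (hs : 1 ≤ s)
    (hm : 8 * (s : ℝ) ^ 5 * Real.log g ≤ g) :
    cnt c (fun Φ => ∃ (a : ι → ZMod 2) (F P : Finset (ι → ZMod 2)), F ⊆ SS y c₀ Φ ∧ F.card = s ∧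
        4 * P.card ≤ s ∧ F ⊆ P ∪ (P ×ˢ P).image (fun p => a + p.1 + p.2))
      ≤ 2 * (2 * g : ℝ) ^ (s / 4 + 1) * (s : ℝ) ^ (2 * s) * (4 * s / √g) ^ s * 2 ^ g := by
  classical
  set m := s / 4 with hmdef
  have key := union_lossy hD hg
    (κ := (ι → ZMod 2) × (Fin m → (ι → ZMod 2)) × (Fin s → Fin m × Option (Fin m)))
    (fun k => univ.image (fun t => k.2.1 (k.2.2 t).1 + (k.2.2 t).2.elim 0 (fun j => k.1 + k.2.1 j)))
    s hs hm
    (fun Φ => ∃ (a : ι → ZMod 2) (F P : Finset (ι → ZMod 2)), F ⊆ SS y c₀ Φ ∧ F.card = s ∧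
        4 * P.card ≤ s ∧ F ⊆ P ∪ (P ×ˢ P).image (fun p => a + p.1 + p.2))
    (by
      rintro Φ - ⟨a, F, P, hF, hFc, hPc, hFP⟩
      have hPne : P.Nonempty := by
        rw [Finset.nonempty_iff_ne_empty]
        rintro rfl
        have : F = ∅ := by
          rw [← Finset.subset_empty]
          simpa using hFP
        rw [this] at hFc
        simp at hFc
        omega
      have hPm : P.card ≤ m := by omega
      -- a surjection from `Fin m`
      obtain ⟨hf, hhf⟩ : ∃ hf : Fin m → (ι → ZMod 2), univ.image hf = P := by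
        obtain ⟨p0, hp0⟩ := hPne
        let e : Fin P.card ≃ P := (P.equivFinOfCardEq rfl).symm
        refine ⟨fun i => if hi : (i : ℕ) < P.card then (e ⟨i, hi⟩ : ι → ZMod 2) else p0, ?_⟩
        ext v
        simp only [Finset.mem_image, Finset.mem_univ, true_and]
        constructor
        · rintro ⟨i, rfl⟩
          split_ifs with hi
          · exact (e ⟨i, hi⟩).2
          · exact hp0
        · intro hv
          refine ⟨⟨(e.symm ⟨v, hv⟩ : ℕ), lt_of_lt_of_le (e.symm ⟨v, hv⟩).2 hPm⟩, ?_⟩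
          rw [dif_pos (e.symm ⟨v, hv⟩).2]
          simp
      have hfP : ∀ v ∈ P, ∃ i, hf i = v := by
        intro v hv
        rw [← hhf] at hv
        simpa using hv
      let eF : Fin s ≃ F := (F.equivFinOfCardEq hFc).symm
      have hex : ∀ t : Fin s, ∃ w : Fin m × Option (Fin m),
          ((eF t : ι → ZMod 2)) = hf w.1 + w.2.elim 0 (fun j => a + hf j) := by
        intro t
        have := hFP (eF t).2
        rw [Finset.mem_union, Finset.mem_image] at this
        rcases this with h1 | ⟨p, hp, h1⟩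
        · obtain ⟨i, hi⟩ := hfP _ h1
          exact ⟨(i, none), by simp [hi]⟩
        · rw [Finset.mem_product] at hp
          obtain ⟨i, hi⟩ := hfP _ hp.1
          obtain ⟨j, hj⟩ := hfP _ hp.2
          refine ⟨(i, some j), ?_⟩
          simp only [Option.elim]
          rw [← h1, hi, hj]
          abel
      choose w hw using hex
      have i1 : univ.image (fun t => hf (w t).1 + (w t).2.elim 0 (fun j => a + hf j)) = F := by
        ext v
        simp only [Finset.mem_image, Finset.mem_univ, true_and]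
        constructor
        · rintro ⟨i, rfl⟩; rw [← hw]; exact (eF i).2
        · intro hv; exact ⟨eF.symm ⟨v, hv⟩, by rw [← hw]; simp⟩
      exact ⟨(a, hf, w), by simp only; rw [i1, hFc], by simp only; rw [i1]; exact hF⟩)
  refine key.trans ?_
  have hcard : (Fintype.card ((ι → ZMod 2) × (Fin m → (ι → ZMod 2)) × (Fin s → Fin m × Option (Fin m))) : ℝ)
      ≤ (2 * g : ℝ) ^ (m + 1) * (s : ℝ) ^ (2 * s) := by
    rw [Fintype.card_prod, Fintype.card_prod]
    push_cast
    have e1 : (Fintype.card (Fin s → Fin m × Option (Fin m)) : ℝ) ≤ (s : ℝ) ^ (2 * s) := by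
      rw [Fintype.card_fun, Fintype.card_prod, Fintype.card_option, Fintype.card_fin, Fintype.card_fin]
      have : m * (m + 1) ≤ s ^ 2 := by
        rw [pow_two]
        apply Nat.mul_le_mul <;> omega
      calc (((m * (m + 1)) ^ s : ℕ) : ℝ) ≤ (((s ^ 2) ^ s : ℕ) : ℝ) := by
            exact_mod_cast Nat.pow_le_pow_left this s
        _ = _ := by push_cast; rw [← pow_mul]
    rw [← mul_assoc]
    apply mul_le_mul _ e1 (by positivity) (by positivity)
    rw [pow_succ']
    exact mul_le_mul (card_V_le' hD) (card_fun_le hD m) (by positivity) (by positivity)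
  calc (Fintype.card ((ι → ZMod 2) × (Fin m → (ι → ZMod 2)) × (Fin s → Fin m × Option (Fin m))) : ℝ)
        * (2 * (4 * (s : ℝ) / √g) ^ s * 2 ^ g)
      ≤ ((2 * g : ℝ) ^ (m + 1) * (s : ℝ) ^ (2 * s)) * (2 * (4 * (s : ℝ) / √g) ^ s * 2 ^ g) :=
        mul_le_mul_of_nonneg_right hcard (by positivity)
    _ = _ := by ring

end Pool.Agent.Lib.MP_938ce2_ag_l4
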