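import Mathlib

set_option autoImplicit false
set_option linter.unusedSectionVars false

namespace Pool.Agent.Lib.MP_938ce2_ag_l4

open Finset

namespace T16aux

open Filter Real

theorem ev_pow (c : ℝ) (n : ℕ) : ∀ᶠ x : ℝ in atTop, c * x ^ n ≤ exp x := by
  have h := (isLittleO_pow_exp_atTop (n := n)).const_mul_left c
  have h1 := h.bound (c := 1) one_pos
  filter_upwards [h1] with x hx
  rw [one_mul, Real.norm_eq_abs, Real.norm_eq_abs, abs_of_pos (exp_pos x)] at hx
  exact (le_abs_self _).trans hx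

theorem ev_log (c d : ℝ) : ∀ᶠ x : ℝ in atTop, c * log x + d ≤ x := by
  have h := (isLittleO_log_id_atTop).const_mul_left c
  have h1 := h.bound (c := 1 / 2) (by norm_num)
  filter_upwards [h1, eventually_ge_atTop (2 * d), eventually_ge_atTop (0 : ℝ)] with x hx hd h0
  rw [Real.norm_eq_abs, Real.norm_eq_abs, id, abs_of_nonneg h0] at hx
  have := (le_abs_self _).trans hx
  linarith

theorem ev_nat {P : ℝ → Prop} (h : ∀ᶠ x : ℝ in atTop, P x) :
    ∃ g₀ : ℕ, ∀ g : ℕ, g₀ ≤ g → P (log g) := by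
  have h1 : Tendsto (fun g : ℕ => log (g : ℝ)) atTop atTop :=
    tendsto_log_atTop.comp tendsto_natCast_atTop_atTop
  exact eventually_atTop.1 (h1.eventually h)

end T16aux

open T16aux in
/-- pure analysis: the bounds of `case1` and `case2` for `8000 < s ≤ (log g) ^ 9` -/
theorem tg_asymp : ∃ g₀ : ℕ, ∀ g : ℕ, g₀ ≤ g → ∀ s : ℕ, 8000 < s → (s : ℝ) ≤ Real.log g ^ 9 →
    8 * (5 * s : ℝ) ^ 5 * Real.log g ≤ g ∧
    2 * (2 * g : ℝ) ^ (s + 1) * (s : ℝ) ^ (8 * s) * (20 * s / √g) ^ (5 * s) ≤ 1 / (g : ℝ) ^ 2 ∧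
    2 * (2 * g : ℝ) ^ (s / 4 + 1) * (s : ℝ) ^ (2 * s) * (4 * s / √g) ^ s ≤ 1 / (g : ℝ) ^ 2 := by
  obtain ⟨g₀, hg₀⟩ := ev_nat (((ev_pow 25000 46).and (ev_log 1000 1000)).and
    (Filter.eventually_ge_atTop (1 : ℝ)))
  refine ⟨max g₀ 1, fun g hg s hs hsl => ?_⟩
  obtain ⟨⟨hp, hl⟩, h1⟩ := hg₀ g ((le_max_left _ _).trans hg)
  have hg1 : (1 : ℝ) ≤ g := by exact_mod_cast (le_max_right g₀ 1).trans hg
  have hg0 : (0 : ℝ) < g := by linarith
  set ℓ := Real.log g with hℓ
  have hexp : Real.exp ℓ = g := Real.exp_log hg0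
  have hs8 : (8001 : ℝ) ≤ s := by exact_mod_cast hs
  have hs0 : (0 : ℝ) < s := by linarith
  have hlogs : Real.log s ≤ 9 * Real.log ℓ := by
    have := Real.log_le_log hs0 hsl
    rwa [Real.log_pow] at this
  have hlogℓ : 0 ≤ Real.log ℓ := Real.log_nonneg h1
  have hsq : (0 : ℝ) < √g := Real.sqrt_pos.2 hg0
  have hlsq : Real.log (√g) = ℓ / 2 := by rw [Real.log_sqrt hg0.le]
  have l2 : Real.log 2 ≤ 1 := by
    have := Real.log_two_lt_d9
    linarith
  have l2p : 0 ≤ Real.log 2 := Real.log_nonneg (by norm_num)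
  have l4 : Real.log 4 ≤ 2 := by
    have : Real.log 4 = 2 * Real.log 2 := by
      rw [show (4 : ℝ) = 2 ^ 2 by norm_num, Real.log_pow]
      norm_num
    linarith
  have l20 : Real.log 20 ≤ 5 := by
    have h32 : Real.log 20 ≤ Real.log (2 ^ 5) := Real.log_le_log (by norm_num) (by norm_num)
    rw [Real.log_pow] at h32
    push_cast at h32
    linarith
  refine ⟨?_, ?_, ?_⟩
  · have h5 : (5 * s : ℝ) ^ 5 ≤ (5 * ℓ ^ 9) ^ 5 := by
      apply pow_le_pow_left₀ (by positivity)
      linarith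
    calc 8 * (5 * s : ℝ) ^ 5 * ℓ ≤ 8 * (5 * ℓ ^ 9) ^ 5 * ℓ := by gcongr
      _ = 25000 * ℓ ^ 46 := by ring
      _ ≤ Real.exp ℓ := hp
      _ = g := hexp
  · rw [← Real.log_le_log_iff (by positivity) (by positivity)]
    rw [Real.log_mul (by positivity) (by positivity), Real.log_mul (by positivity) (by positivity),
      Real.log_mul (by positivity) (by positivity), Real.log_pow, Real.log_pow, Real.log_pow,
      Real.log_div (by positivity) hsq.ne', Real.log_mul (by positivity) (by positivity),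
      Real.log_mul (by positivity) (by positivity), hlsq, Real.log_div one_ne_zero (by positivity),
      Real.log_one, Real.log_pow]
    push_cast
    rw [← hℓ]
    -- everything is linear in `log s`, with coefficient `13 s`
    have e1 : (13 * s : ℝ) * Real.log s ≤ 13 * s * (9 * Real.log ℓ) := by gcongr
    have e2 : (5 * s : ℝ) * Real.log 20 ≤ 5 * s * 5 := by gcongr
    have e3 : ((s : ℝ) + 2) * Real.log 2 ≤ (s + 2) * 1 := by gcongr
    have e4 : (s : ℝ) * (1000 * Real.log ℓ + 1000) ≤ s * ℓ := by gcongr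
    have e5 : (8001 : ℝ) * ℓ ≤ s * ℓ := by gcongr
    have e6 : 0 ≤ (s : ℝ) * Real.log ℓ := by positivity
    nlinarith
  · rw [← Real.log_le_log_iff (by positivity) (by positivity)]
    rw [Real.log_mul (by positivity) (by positivity), Real.log_mul (by positivity) (by positivity),
      Real.log_mul (by positivity) (by positivity), Real.log_pow, Real.log_pow, Real.log_pow,
      Real.log_div (by positivity) hsq.ne', Real.log_mul (by positivity) (by positivity),
      Real.log_mul (by positivity) (by positivity), hlsq, Real.log_div one_ne_zero (by positivity),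
      Real.log_one, Real.log_pow]
    have hfl : ((s / 4 : ℕ) : ℝ) ≤ s / 4 := by
      have := @Nat.cast_div_le ℝ _ _ _ s 4
      simpa using this
    push_cast
    rw [← hℓ]
    have hfl' : (((s / 4 : ℕ) : ℝ) + 1) * (Real.log 2 + ℓ) ≤ (s / 4 + 1) * (Real.log 2 + ℓ) := by
      have : 0 ≤ Real.log 2 + ℓ := by linarith
      gcongr
    have e1 : (3 * s : ℝ) * Real.log s ≤ 3 * s * (9 * Real.log ℓ) := by gcongr
    have e2 : (s : ℝ) * Real.log 4 ≤ s * 2 := by gcongr
    have e3 : ((s : ℝ) / 4 + 2) * Real.log 2 ≤ (s / 4 + 2) * 1 := by gcongr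
    have e4 : (s : ℝ) * (1000 * Real.log ℓ + 1000) ≤ s * ℓ := by gcongr
    have e5 : (8001 : ℝ) * ℓ ≤ s * ℓ := by gcongr
    have e6 : 0 ≤ (s : ℝ) * Real.log ℓ := by positivity
    nlinarith

end Pool.Agent.Lib.MP_938ce2_ag_l4
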