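import Mathlib
import Pool.Agent.Lib.MP_938ce2_ag_l4.T13
import Pool.Agent.Lib.MP_938ce2_ag_l4.T15
import Pool.Agent.Lib.MP_938ce2_ag_l4.T16

set_option autoImplicit false
set_option linter.unusedSectionVars false

namespace Pool.Agent.Lib.MP_938ce2_ag_l4

open Finset

private theorem log_small : ∃ g₁ : ℕ, ∀ g : ℕ, g₁ ≤ g → 2 * Real.log g ^ 9 ≤ g := by
  have h1 := (Real.isLittleO_pow_log_id_atTop (n := 9)).bound (show (0 : ℝ) < 1 / 2 by norm_num)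
  have h2 := tendsto_natCast_atTop_atTop (R := ℝ) |>.eventually h1
  obtain ⟨g₁, hg₁⟩ := Filter.eventually_atTop.1 h2
  refine ⟨g₁, fun g hg => ?_⟩
  have h3 := hg₁ g hg
  rw [Real.norm_eq_abs, Real.norm_eq_abs, id, Nat.abs_cast] at h3
  have h4 := le_abs_self (Real.log (g : ℝ) ^ 9)
  linarith

/-- the structure of the failure of the first property -/
private theorem not_TG {ι : Type} [Fintype ι] [DecidableEq ι] (s₀ : ℝ) (S : Finset (ι → ZMod 2))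
    (h : ¬ TG s₀ 16000 S) :
    ∃ s : ℕ, 8000 < s ∧ (s : ℝ) ≤ s₀ ∧
      ((∃ (a : ι → ZMod 2) (F D : Finset (ι → ZMod 2)), F ⊆ S ∧ D ⊆ S \ F ∧ F.card = s ∧
        D.card = 4 * s ∧ ∀ d ∈ D, ∃ b ∈ F, ∃ b' ∈ F, d = a + b + b') ∨
       (∃ (a : ι → ZMod 2) (F P : Finset (ι → ZMod 2)), F ⊆ S ∧ F.card = s ∧
        4 * P.card ≤ s ∧ F ⊆ P ∪ (P ×ˢ P).image (fun p => a + p.1 + p.2))) := by
  unfold TG at h
  push Not at h
  obtain ⟨a, F, hFS, hFc, hlt⟩ := h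
  obtain ⟨F', hF', hne, hdeg⟩ := min_degree (fun b c => rel S a b c)
    (fun b c hbc => by
      obtain ⟨h1, h2, h3, h4⟩ := hbc
      exact ⟨h1.symm, h3, h2, by rwa [add_right_comm] at h4⟩)
    (fun b hbb => hbb.1 rfl) 8000 F (by
      have : ee S a F = ((F ×ˢ F).filter fun p => rel S a p.1 p.2).card := rfl
      omega)
  have hc : F'.card ≤ F.card := card_le_card hF'
  refine ⟨F'.card, ?_, ?_, ?_⟩
  · obtain ⟨b, hb⟩ := hne
    exact lt_of_lt_of_le (hdeg b hb) (card_filter_le _ _)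
  · have : (F'.card : ℝ) ≤ F.card := by exact_mod_cast hc
    linarith
  · rcases struct S F' a (hF'.trans hFS) hdeg with ⟨D, hD, hDc, hDe⟩ | ⟨P, hP, hPe⟩
    · exact Or.inl ⟨a, F', D, hF'.trans hFS, hD, rfl, hDc, hDe⟩
    · exact Or.inr ⟨a, F', P, hF'.trans hFS, rfl, hP, hPe⟩

/-- **The first property holds for almost all types**: `min_degree` with `D = 8000`, `struct`, `case1`, `case2`,
`tg_asymp`, and the union over `s ≤ (log g) ^ 9` -/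
theorem TG_small : ∃ g₀ : ℕ, ∀ {ι : Type} [Fintype ι] [DecidableEq ι] {X : Type} [Fintype X]
    [DecidableEq X] {c : X → X} {y : X → ι → ZMod 2} {c₀ : ι → ZMod 2} {g : ℕ},
    Dat c y c₀ g → g₀ ≤ g →
    cnt c (fun Φ => ¬ TG (Real.log g ^ 9) 16000 (SS y c₀ Φ)) ≤ 2 ^ g / g := by
  obtain ⟨g₀, hg₀⟩ := tg_asymp
  obtain ⟨g₁, hg₁⟩ := log_small
  refine ⟨max (max g₀ g₁) 2, ?_⟩
  intro ι _ _ X _ _ c y c₀ g hD hg
  have hg0 : g₀ ≤ g := (le_max_left _ _).trans ((le_max_left _ _).trans hg)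
  have hg1 : g₁ ≤ g := (le_max_right _ _).trans ((le_max_left _ _).trans hg)
  have hg2 : 2 ≤ g := (le_max_right _ _).trans hg
  have hgpos : (0 : ℝ) < g := by
    have : 0 < g := by omega
    exact_mod_cast this
  have hlog : 0 ≤ Real.log (g : ℝ) := Real.log_natCast_nonneg g
  set N : ℕ := ⌊Real.log (g : ℝ) ^ 9⌋₊ with hN
  have hNle : (N : ℝ) ≤ Real.log (g : ℝ) ^ 9 := Nat.floor_le (by positivity)
  have hunion := cnt_exists (c := c) (Ioc 8000 N)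
    (fun s Φ =>
      (∃ (a : ι → ZMod 2) (F D : Finset (ι → ZMod 2)), F ⊆ SS y c₀ Φ ∧
        D ⊆ SS y c₀ Φ \ F ∧ F.card = s ∧ D.card = 4 * s ∧
        ∀ d ∈ D, ∃ b ∈ F, ∃ b' ∈ F, d = a + b + b') ∨
      (∃ (a : ι → ZMod 2) (F P : Finset (ι → ZMod 2)), F ⊆ SS y c₀ Φ ∧ F.card = s ∧
        4 * P.card ≤ s ∧ F ⊆ P ∪ (P ×ˢ P).image (fun p => a + p.1 + p.2)))
    (fun Φ => ¬ TG (Real.log g ^ 9) 16000 (SS y c₀ Φ))
    (by
      intro Φ _ hΦ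
      obtain ⟨s, hs1, hs2, hs3⟩ := not_TG _ _ hΦ
      exact ⟨s, mem_Ioc.2 ⟨hs1, Nat.le_floor hs2⟩, hs3⟩)
  refine hunion.trans ?_
  have hterm : ∀ s ∈ Ioc 8000 N, cnt c (fun Φ =>
      (∃ (a : ι → ZMod 2) (F D : Finset (ι → ZMod 2)), F ⊆ SS y c₀ Φ ∧
        D ⊆ SS y c₀ Φ \ F ∧ F.card = s ∧ D.card = 4 * s ∧
        ∀ d ∈ D, ∃ b ∈ F, ∃ b' ∈ F, d = a + b + b') ∨
      (∃ (a : ι → ZMod 2) (F P : Finset (ι → ZMod 2)), F ⊆ SS y c₀ Φ ∧ F.card = s ∧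
        4 * P.card ≤ s ∧ F ⊆ P ∪ (P ×ˢ P).image (fun p => a + p.1 + p.2)))
      ≤ 2 * (1 / (g : ℝ) ^ 2) * 2 ^ g := by
    intro s hs
    have hs' := mem_Ioc.1 hs
    have hs9 : (s : ℝ) ≤ Real.log (g : ℝ) ^ 9 := by
      have : (s : ℝ) ≤ N := by exact_mod_cast hs'.2
      linarith
    obtain ⟨e1, e2, e3⟩ := hg₀ g hg0 s hs'.1 hs9
    have hs0 : (0 : ℝ) ≤ s := Nat.cast_nonneg s
    have e1' : 8 * (s : ℝ) ^ 5 * Real.log g ≤ g := by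
      refine le_trans ?_ e1
      have h5 : (s : ℝ) ^ 5 ≤ (5 * s : ℝ) ^ 5 := pow_le_pow_left₀ hs0 (by linarith) 5
      exact mul_le_mul_of_nonneg_right (mul_le_mul_of_nonneg_left h5 (by norm_num)) hlog
    have h2g : (0 : ℝ) < 2 ^ g := by positivity
    have c1 := (case1 hD hg2 s (by omega) e1).trans (mul_le_mul_of_nonneg_right e2 h2g.le)
    have c2 := (case2 hD hg2 s (by omega) e1').trans (mul_le_mul_of_nonneg_right e3 h2g.le)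
    have c3 := cnt_or (c := c)
      (fun Φ => (∃ (a : ι → ZMod 2) (F D : Finset (ι → ZMod 2)), F ⊆ SS y c₀ Φ ∧
        D ⊆ SS y c₀ Φ \ F ∧ F.card = s ∧ D.card = 4 * s ∧
        ∀ d ∈ D, ∃ b ∈ F, ∃ b' ∈ F, d = a + b + b'))
      (fun Φ => (∃ (a : ι → ZMod 2) (F P : Finset (ι → ZMod 2)), F ⊆ SS y c₀ Φ ∧ F.card = s ∧
        4 * P.card ≤ s ∧ F ⊆ P ∪ (P ×ˢ P).image (fun p => a + p.1 + p.2)))
    refine c3.trans ((add_le_add c1 c2).trans (le_of_eq ?_))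
    ring
  refine (sum_le_sum hterm).trans ?_
  rw [sum_const, nsmul_eq_mul, Nat.card_Ioc]
  have hNg : 2 * (N : ℝ) ≤ g := (mul_le_mul_of_nonneg_left hNle (by norm_num)).trans (hg₁ g hg1)
  have hcard : ((N - 8000 : ℕ) : ℝ) ≤ N := by exact_mod_cast Nat.sub_le N 8000
  have h2g : (0 : ℝ) < 2 ^ g := by positivity
  calc ((N - 8000 : ℕ) : ℝ) * (2 * (1 / (g : ℝ) ^ 2) * 2 ^ g)
      ≤ N * (2 * (1 / (g : ℝ) ^ 2) * 2 ^ g) := mul_le_mul_of_nonneg_right hcard (by positivity)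
    _ = (2 * N) * (1 / (g : ℝ) ^ 2) * 2 ^ g := by ring
    _ ≤ g * (1 / (g : ℝ) ^ 2) * 2 ^ g := by gcongr
    _ = 2 ^ g / g := by field_simp


end Pool.Agent.Lib.MP_938ce2_ag_l4
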