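import Mathlib
import Pool.Agent.Lib.MP_938ce2_ag_l4.D2

set_option autoImplicit false
set_option linter.unusedSectionVars false

namespace Pool.Agent.Lib.MP_938ce2_ag_l4

open Finset

private theorem t18_abel {α : Type} [DecidableEq α] (e : α → ℕ) (a : α → ℝ) (T : Finset α) :
    ∀ u : α → ℝ, Set.InjOn e T → (∀ b ∈ T, 0 ≤ u b) →
      (∀ b ∈ T, ∀ c ∈ T, e b ≤ e c → u c ≤ u b) →
      (∀ n : ℕ, 0 ≤ ∑ c ∈ T.filter (fun c => e c ≤ n), a c) → 0 ≤ ∑ c ∈ T, a c * u c := by
  induction T using Finset.strongInduction with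
  | H T ih =>
    intro u he hu hmono hA
    rcases T.eq_empty_or_nonempty with rfl | hne
    · simp
    obtain ⟨m, hm, hmax⟩ := Finset.exists_max_image T e hne
    have hT : T.filter (fun c => e c ≤ e m) = T :=
      Finset.filter_true_of_mem fun c hc => hmax c hc
    have h1 := hA (e m)
    rw [hT] at h1
    have h2 : 0 ≤ ∑ c ∈ T.erase m, a c * (u c - u m) := by
      refine ih (T.erase m) (Finset.erase_ssubset hm) (fun c => u c - u m) ?_ ?_ ?_ ?_
      · exact he.mono (by
          intro x hx
          exact Finset.mem_of_mem_erase hx)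
      · intro b hb
        have hb' := Finset.mem_of_mem_erase hb
        have := hmono b hb' m hm (hmax b hb')
        linarith
      · intro b hb c hc hbc
        have := hmono b (Finset.mem_of_mem_erase hb) c (Finset.mem_of_mem_erase hc) hbc
        linarith
      · intro n
        by_cases hn : n < e m
        · have e1 : (T.erase m).filter (fun c => e c ≤ n) = T.filter (fun c => e c ≤ n) := by
            ext c
            simp only [Finset.mem_filter, Finset.mem_erase]
            constructor
            · rintro ⟨⟨-, h3⟩, h4⟩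
              exact ⟨h3, h4⟩
            · rintro ⟨h3, h4⟩
              refine ⟨⟨?_, h3⟩, h4⟩
              rintro rfl
              omega
          rw [e1]
          exact hA n
        · rcases Nat.eq_zero_or_pos (e m) with h0 | h0
          · have e2 : T.erase m = ∅ := by
              rw [Finset.eq_empty_iff_forall_notMem]
              intro c hc
              have hc' := Finset.mem_of_mem_erase hc
              have h3 := hmax c hc'
              exact Finset.ne_of_mem_erase hc (he hc' hm (by omega))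
            rw [e2]
            simp
          · have e3 : (T.erase m).filter (fun c => e c ≤ n) =
                T.filter (fun c => e c ≤ e m - 1) := by
              ext c
              simp only [Finset.mem_filter, Finset.mem_erase]
              constructor
              · rintro ⟨⟨h3, h4⟩, -⟩
                refine ⟨h4, ?_⟩
                have h5 := hmax c h4
                have h6 : e c ≠ e m := fun h => h3 (he h4 hm h)
                omega
              · rintro ⟨h3, h4⟩
                refine ⟨⟨?_, h3⟩, by omega⟩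
                rintro rfl
                omega
            rw [e3]
            exact hA _
    have h3 : ∑ c ∈ T, a c * u c = ∑ c ∈ T.erase m, a c * (u c - u m) + u m * ∑ c ∈ T, a c := by
      have e4 : ∑ c ∈ T, a c * u c = ∑ c ∈ T, a c * (u c - u m) + u m * ∑ c ∈ T, a c := by
        rw [Finset.mul_sum, ← Finset.sum_add_distrib]
        exact Finset.sum_congr rfl fun c _ => by ring
      rw [e4, ← Finset.add_sum_erase T _ hm]
      ring
    rw [h3]
    exact add_nonneg h2 (mul_nonneg (hu m hm) h1)

/-- Abel summation: `u` decreases along the order given by the injective key `e`, and the initial sums of `t` are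
at most `C` times the numbers of terms -/
theorem level_sum {α : Type} [DecidableEq α] (T : Finset α) (e : α → ℕ) (he : Set.InjOn e T)
    (u t : α → ℝ) (hu : ∀ b ∈ T, 0 ≤ u b) (hmono : ∀ b ∈ T, ∀ c ∈ T, e b ≤ e c → u c ≤ u b)
    (C : ℝ) (ht : ∀ n : ℕ, ∑ c ∈ T.filter (fun c => e c ≤ n), t c
      ≤ C * (T.filter fun c => e c ≤ n).card) :
    ∑ c ∈ T, t c * u c ≤ C * ∑ c ∈ T, u c := by
  have h := t18_abel e (fun c => C - t c) T u he hu hmono (fun n => by
    rw [Finset.sum_sub_distrib, Finset.sum_const, nsmul_eq_mul]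
    have := ht n
    linarith)
  have h2 : ∑ c ∈ T, (C - t c) * u c = C * ∑ c ∈ T, u c - ∑ c ∈ T, t c * u c := by
    rw [Finset.mul_sum, ← Finset.sum_sub_distrib]
    exact Finset.sum_congr rfl fun c _ => by ring
  rw [h2] at h
  linarith

/-- an injective key ordering the elements by decreasing weight -/
theorem exists_key {α : Type} [DecidableEq α] (T : Finset α) (w : α → ℝ) :
    ∃ e : α → ℕ, Set.InjOn e T ∧ ∀ b ∈ T, ∀ c ∈ T, e b ≤ e c → w c ≤ w b := by
  induction T using Finset.strongInduction with
  | H T ih =>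
    rcases T.eq_empty_or_nonempty with rfl | hne
    · exact ⟨fun _ => 0, by simp, by simp⟩
    obtain ⟨m, hm, hmin⟩ := Finset.exists_min_image T w hne
    obtain ⟨e, he1, he2⟩ := ih (T.erase m) (Finset.erase_ssubset hm)
    have hlt : ∀ c ∈ T, c ≠ m → e c < (T.erase m).sup e + 1 := by
      intro c hc hcm
      have := Finset.le_sup (f := e) (Finset.mem_erase.mpr ⟨hcm, hc⟩)
      omega
    refine ⟨fun c => if c = m then (T.erase m).sup e + 1 else e c, ?_, ?_⟩
    · intro b hb c hc hbc
      rw [Finset.mem_coe] at hb hc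
      simp only at hbc
      by_cases h1 : b = m
      · by_cases h2 : c = m
        · rw [h1, h2]
        · rw [if_pos h1, if_neg h2] at hbc
          have := hlt c hc h2
          omega
      · by_cases h2 : c = m
        · rw [if_neg h1, if_pos h2] at hbc
          have := hlt b hb h1
          omega
        · rw [if_neg h1, if_neg h2] at hbc
          exact he1 (Finset.mem_coe.mpr (Finset.mem_erase.mpr ⟨h1, hb⟩))
            (Finset.mem_coe.mpr (Finset.mem_erase.mpr ⟨h2, hc⟩)) hbc
    · intro b hb c hc hbc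
      simp only at hbc
      by_cases h2 : c = m
      · rw [h2]
        exact hmin b hb
      · by_cases h1 : b = m
        · rw [if_pos h1, if_neg h2] at hbc
          have := hlt c hc h2
          omega
        · rw [if_neg h1, if_neg h2] at hbc
          exact he2 b (Finset.mem_erase.mpr ⟨h1, hb⟩) c (Finset.mem_erase.mpr ⟨h2, hc⟩) hbc

variable {ι : Type} [Fintype ι] [DecidableEq ι]

private theorem t18_inj4 {V : Type} (q : Fin 4 → V) : Function.Injective q ↔
    (q 0 ≠ q 1 ∧ q 0 ≠ q 2 ∧ q 0 ≠ q 3 ∧ q 1 ≠ q 2 ∧ q 1 ≠ q 3 ∧ q 2 ≠ q 3) := by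
  constructor
  · intro h
    refine ⟨h.ne (by decide), h.ne (by decide), h.ne (by decide), h.ne (by decide),
      h.ne (by decide), h.ne (by decide)⟩
  · rintro ⟨h1, h2, h3, h4, h5, h6⟩ i j hij
    fin_cases i <;> fin_cases j <;> simp_all

private theorem t18_sum3 {V : Type} [Fintype V] [DecidableEq V] (T : Finset V)
    (f : V → V → V → ℝ) :
    ∑ a, ∑ b, ∑ c, (if a ∈ T ∧ b ∈ T ∧ c ∈ T then f a b c else 0) =
      ∑ a ∈ T, ∑ b ∈ T, ∑ c ∈ T, f a b c := by
  rw [← Finset.sum_subset (Finset.subset_univ T)]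
  · refine Finset.sum_congr rfl fun a ha => ?_
    rw [← Finset.sum_subset (Finset.subset_univ T)]
    · refine Finset.sum_congr rfl fun b hb => ?_
      rw [← Finset.sum_subset (Finset.subset_univ T)]
      · exact Finset.sum_congr rfl fun c hc => if_pos ⟨ha, hb, hc⟩
      · intro c _ hc
        exact if_neg fun h => hc h.2.2
    · intro b _ hb
      exact Finset.sum_eq_zero fun c _ => if_neg fun h => hb h.2.1
  · intro a _ ha
    exact Finset.sum_eq_zero fun b _ => Finset.sum_eq_zero fun c _ => if_neg fun h => ha h.1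

private theorem t18_two (v : ι → ZMod 2) : v + v = 0 := by
  funext i
  exact CharTwo.add_self_eq_zero (v i)

private theorem t18_sum4 (K : (Fin 4 → ι → ZMod 2) → ℝ) :
    ∑ q : Fin 4 → ι → ZMod 2, (if ∑ i, q i = 0 then K q else 0) =
      ∑ a : ι → ZMod 2, ∑ b : ι → ZMod 2, ∑ c : ι → ZMod 2, K ![a, b, c, a + b + c] := by
  rw [← Finset.sum_filter]
  have h1 : ∑ a : ι → ZMod 2, ∑ b : ι → ZMod 2, ∑ c : ι → ZMod 2, K ![a, b, c, a + b + c] =
      ∑ p : (ι → ZMod 2) × (ι → ZMod 2) × (ι → ZMod 2),
        K ![p.1, p.2.1, p.2.2, p.1 + p.2.1 + p.2.2] := by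
    rw [Fintype.sum_prod_type]
    refine Finset.sum_congr rfl fun a _ => ?_
    rw [Fintype.sum_prod_type]
  rw [h1]
  have h2 : ∀ q : Fin 4 → ι → ZMod 2, ∑ i, q i = 0 →
      ![q 0, q 1, q 2, q 0 + q 1 + q 2] = q := by
    intro q hq
    rw [Fin.sum_univ_four] at hq
    have h3 : q 0 + q 1 + q 2 = q 3 := by
      have h4 : q 0 + q 1 + q 2 = (q 0 + q 1 + q 2 + q 3) + q 3 := by
        rw [add_assoc (q 0 + q 1 + q 2), t18_two, add_zero]
      rw [h4, hq, zero_add]
    rw [h3]
    funext i
    fin_cases i <;> rfl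
  refine Finset.sum_nbij' (fun q => (q 0, q 1, q 2))
    (fun p => ![p.1, p.2.1, p.2.2, p.1 + p.2.1 + p.2.2]) ?_ ?_ ?_ ?_ ?_
  · intro q _
    exact Finset.mem_univ _
  · intro p _
    rw [Finset.mem_filter]
    refine ⟨Finset.mem_univ _, ?_⟩
    rw [Fin.sum_univ_four]
    exact t18_two _
  · intro q hq
    exact h2 q (Finset.mem_filter.mp hq).2
  · intro p _
    rfl
  · intro q hq
    simp only
    rw [h2 q (Finset.mem_filter.mp hq).2]

private theorem t18_cond (T : Finset (ι → ZMod 2)) (a b c : ι → ZMod 2) :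
    ((∀ i, (![a, b, c, a + b + c] : Fin 4 → ι → ZMod 2) i ∈ T) ∧
      Function.Injective (![a, b, c, a + b + c] : Fin 4 → ι → ZMod 2)) ↔
    ((a ∈ T ∧ b ∈ T ∧ c ∈ T) ∧ rel T a b c) := by
  rw [t18_inj4]
  unfold rel
  have e1 : ∀ x y : ι → ZMod 2, x + y = 0 ↔ x = y := by
    intro x y
    constructor
    · intro h
      have h4 : x = (x + y) + y := by rw [add_assoc, t18_two, add_zero]
      rw [h4, h, zero_add]
    · rintro rfl
      exact t18_two _
  constructor
  · rintro ⟨h1, h2, h3, h4, h5, h6, h7⟩
    exact ⟨⟨h1 0, h1 1, h1 2⟩, h5, h2, h3, h1 3⟩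
  · rintro ⟨⟨h1, h2, h3⟩, h4, h5, h6, h7⟩
    refine ⟨fun i => by fin_cases i <;> assumption, h5, h6, ?_, h4, ?_, ?_⟩
    · intro h
      change a = a + b + c at h
      apply h4
      rw [← e1]
      have h8 : a + (b + c) = a + 0 := by rw [add_zero, ← add_assoc, ← h]
      exact add_left_cancel h8
    · intro h
      change b = a + b + c at h
      apply h6
      rw [← e1]
      have h8 : b + (a + c) = b + 0 := by
        rw [add_zero, ← add_assoc, add_comm b a, ← h]
      exact add_left_cancel h8
    · intro h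
      change c = a + b + c at h
      apply h5
      rw [← e1]
      have h8 : c + (a + b) = c + 0 := by
        rw [add_zero, add_comm c (a + b), ← h]
      exact add_left_cancel h8

open Classical in
private theorem t18_perm {V : Type} [Fintype V] (T : Finset V) (e : V → ℕ) (he : Set.InjOn e T)
    (F : (Fin 4 → V) → ℝ) (hF0 : ∀ q, 0 ≤ F q)
    (hF1 : ∀ q, F q ≠ 0 → (∀ i, q i ∈ T) ∧ Function.Injective q)
    (hF2 : ∀ (σ : Equiv.Perm (Fin 4)) q, F (q ∘ σ) = F q) :
    ∑ q, F q ≤ 24 * ∑ q, (if StrictMono (e ∘ q) then F q else 0) := by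
  have h1 : ∀ q, F q ≤ ∑ σ : Equiv.Perm (Fin 4), (if StrictMono (e ∘ (q ∘ σ)) then F q else 0) := by
    intro q
    by_cases hq : F q = 0
    · rw [hq]
      exact Finset.sum_nonneg fun σ _ => by split_ifs <;> simp
    · obtain ⟨h2, h3⟩ := hF1 q hq
      have h4 : StrictMono (e ∘ (q ∘ Tuple.sort (e ∘ q))) := by
        have h5 : Monotone ((e ∘ q) ∘ Tuple.sort (e ∘ q)) := Tuple.monotone_sort (e ∘ q)
        have h6 : Function.Injective ((e ∘ q) ∘ Tuple.sort (e ∘ q)) := by
          intro i j hij
          have h7 : e (q (Tuple.sort (e ∘ q) i)) = e (q (Tuple.sort (e ∘ q) j)) := hij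
          exact (Tuple.sort (e ∘ q)).injective (h3 (he (h2 _) (h2 _) h7))
        exact h5.strictMono_of_injective h6
      have h8 := Finset.single_le_sum
        (f := fun σ : Equiv.Perm (Fin 4) => (if StrictMono (e ∘ (q ∘ σ)) then F q else 0))
        (fun σ _ => by
          show (0 : ℝ) ≤ if StrictMono (e ∘ (q ∘ σ)) then F q else 0
          split_ifs
          · exact hF0 q
          · exact le_rfl)
        (Finset.mem_univ (Tuple.sort (e ∘ q)))
      simp only [if_pos h4] at h8
      exact h8
  calc ∑ q, F q ≤ ∑ q, ∑ σ : Equiv.Perm (Fin 4), (if StrictMono (e ∘ (q ∘ σ)) then F q else 0) :=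
        Finset.sum_le_sum fun q _ => h1 q
    _ = ∑ σ : Equiv.Perm (Fin 4), ∑ q, (if StrictMono (e ∘ (q ∘ σ)) then F q else 0) :=
        Finset.sum_comm
    _ = ∑ σ : Equiv.Perm (Fin 4), ∑ q, (if StrictMono (e ∘ q) then F q else 0) := by
        refine Finset.sum_congr rfl fun σ _ => ?_
        have h9 := Equiv.sum_comp (Equiv.arrowCongr σ.symm (Equiv.refl V))
          (fun q : Fin 4 → V => if StrictMono (e ∘ q) then F q else 0)
        rw [← h9]
        refine Finset.sum_congr rfl fun q _ => ?_
        have h10 : (Equiv.arrowCongr σ.symm (Equiv.refl V)) q = q ∘ σ := by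
          funext i
          simp [Equiv.arrowCongr]
        rw [h10, hF2]
    _ = _ := by
        rw [Finset.sum_const, Finset.card_univ, Fintype.card_perm, Fintype.card_fin, nsmul_eq_mul]
        norm_num [Nat.factorial]

/-- symmetrization: the quadruples with sum zero, put in the order of the key, `24` permutations
(`Tuple.sort` on `Fin 4 → V`) -/
theorem Qf_le_ordered (T : Finset (ι → ZMod 2)) (w : (ι → ZMod 2) → ℝ) (hw : ∀ v, 0 ≤ w v)
    (e : (ι → ZMod 2) → ℕ) (he : Set.InjOn e T) :
    Qf T w ≤ 24 * ∑ a ∈ T, ∑ b ∈ T, ∑ c ∈ T,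
      if rel T a b c ∧ e a < e b ∧ e b < e c ∧ e c < e (a + b + c)
        then w a * w b * w c * w (a + b + c) else 0 := by
  classical
  have hK : ∀ q : Fin 4 → ι → ZMod 2, 0 ≤ ∏ i, w (q i) := fun q =>
    Finset.prod_nonneg fun i _ => hw _
  have h1 := t18_perm T e he
    (fun q => if ∑ i, q i = 0 then
      (if (∀ i, q i ∈ T) ∧ Function.Injective q then ∏ i, w (q i) else 0) else 0)
    (fun q => by
      split_ifs
      · exact hK q
      · exact le_rfl
      · exact le_rfl)
    (fun q hq => by
      by_contra hcon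
      apply hq
      rw [if_neg hcon]
      simp)
    (fun σ q => by
      have e1 : ∑ i, (q ∘ σ) i = ∑ i, q i := Equiv.sum_comp σ q
      have e2 : ∏ i, w ((q ∘ σ) i) = ∏ i, w (q i) := Equiv.prod_comp σ (fun i => w (q i))
      have e3 : (∀ i, (q ∘ σ) i ∈ T) ↔ ∀ i, q i ∈ T :=
        (σ.surjective.forall (p := fun i => q i ∈ T)).symm
      have e4 : Function.Injective (q ∘ σ) ↔ Function.Injective q := by
        constructor
        · intro h
          have h2 : q = (q ∘ σ) ∘ σ.symm := by
            funext i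
            simp
          rw [h2]
          exact h.comp σ.symm.injective
        · intro h
          exact h.comp σ.injective
      simp only [e1, e2, e3, e4])
  have hL : ∑ q : Fin 4 → ι → ZMod 2, (if ∑ i, q i = 0 then
      (if (∀ i, q i ∈ T) ∧ Function.Injective q then ∏ i, w (q i) else 0) else 0) = Qf T w := by
    rw [t18_sum4]
    unfold Qf
    rw [← t18_sum3 T]
    refine Finset.sum_congr rfl fun a _ => Finset.sum_congr rfl fun b _ =>
      Finset.sum_congr rfl fun c _ => ?_
    have e1 := t18_cond T a b c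
    have e2 : ∏ i, w ((![a, b, c, a + b + c] : Fin 4 → ι → ZMod 2) i) =
        w a * w b * w c * w (a + b + c) := by
      rw [Fin.prod_univ_four]
      rfl
    rw [e2]
    by_cases h2 : a ∈ T ∧ b ∈ T ∧ c ∈ T
    · by_cases h3 : rel T a b c
      · rw [if_pos (e1.mpr ⟨h2, h3⟩), if_pos h2, if_pos h3]
      · rw [if_neg fun h => h3 (e1.mp h).2, if_pos h2, if_neg h3]
    · rw [if_neg fun h => h2 (e1.mp h).1, if_neg h2]
  have hR : ∑ q : Fin 4 → ι → ZMod 2, (if StrictMono (e ∘ q) then (if ∑ i, q i = 0 then
      (if (∀ i, q i ∈ T) ∧ Function.Injective q then ∏ i, w (q i) else 0) else 0) else 0) =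
      ∑ a ∈ T, ∑ b ∈ T, ∑ c ∈ T,
      if rel T a b c ∧ e a < e b ∧ e b < e c ∧ e c < e (a + b + c)
        then w a * w b * w c * w (a + b + c) else 0 := by
    have e0 : ∀ q : Fin 4 → ι → ZMod 2, (if StrictMono (e ∘ q) then (if ∑ i, q i = 0 then
      (if (∀ i, q i ∈ T) ∧ Function.Injective q then ∏ i, w (q i) else 0) else 0) else 0) =
      (if ∑ i, q i = 0 then (if StrictMono (e ∘ q) then
        (if (∀ i, q i ∈ T) ∧ Function.Injective q then ∏ i, w (q i) else 0) else 0) else 0) := by
      intro q
      split_ifs <;> rfl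
    rw [Finset.sum_congr rfl fun q _ => e0 q, t18_sum4, ← t18_sum3 T]
    refine Finset.sum_congr rfl fun a _ => Finset.sum_congr rfl fun b _ =>
      Finset.sum_congr rfl fun c _ => ?_
    have e1 := t18_cond T a b c
    have e2 : ∏ i, w ((![a, b, c, a + b + c] : Fin 4 → ι → ZMod 2) i) =
        w a * w b * w c * w (a + b + c) := by
      rw [Fin.prod_univ_four]
      rfl
    have e3 : StrictMono (e ∘ (![a, b, c, a + b + c] : Fin 4 → ι → ZMod 2)) ↔
        (e a < e b ∧ e b < e c ∧ e c < e (a + b + c)) := by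
      constructor
      · intro h
        exact ⟨h (show (0 : Fin 4) < 1 by decide), h (show (1 : Fin 4) < 2 by decide),
          h (show (2 : Fin 4) < 3 by decide)⟩
      · rintro ⟨h1, h2, h3⟩
        rw [Fin.strictMono_iff_lt_succ]
        intro i
        fin_cases i
        · exact h1
        · exact h2
        · exact h3
    rw [e2]
    by_cases h2 : a ∈ T ∧ b ∈ T ∧ c ∈ T
    · by_cases h4 : e a < e b ∧ e b < e c ∧ e c < e (a + b + c)
      · rw [if_pos (e3.mpr h4)]
        by_cases h3 : rel T a b c
        · rw [if_pos (e1.mpr ⟨h2, h3⟩), if_pos h2, if_pos ⟨h3, h4⟩]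
        · rw [if_neg fun h => h3 (e1.mp h).2, if_pos h2, if_neg fun h => h3 h.1]
      · rw [if_neg fun h => h4 (e3.mp h), if_pos h2, if_neg fun h => h4 h.2]
    · rw [if_neg h2]
      split_ifs with h5 h6
      · exact absurd (e1.mp h6).1 h2
      · rfl
      · rfl
  rw [hL, hR] at h1
  exact h1


end Pool.Agent.Lib.MP_938ce2_ag_l4
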