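import Mathlib
import Pool.Agent.Lib.MP_938ce2_ag_l4.T18

set_option autoImplicit false
set_option linter.unusedSectionVars false

namespace Pool.Agent.Lib.MP_938ce2_ag_l4

open Finset

variable {ι : Type} [Fintype ι] [DecidableEq ι]

/-- **Weights on small subsets.** `Qf_le_ordered`; an ordered term is at most `w a ^ 2 * w c ^ 2`; for fixed `a` the number
`t c` of the `b` with `e b < e c` and `rel S a b c` satisfies `∑ c ∈ F, t c ≤ ee S a F ≤ C * F.card` for the upper
level sets `F`; `level_sum`. -/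
theorem weighted (S T : Finset (ι → ZMod 2)) (hT : T ⊆ S) (s₀ : ℝ) (C : ℕ) (hs : (T.card : ℝ) ≤ s₀)
    (hTG : TG s₀ C S) (w : (ι → ZMod 2) → ℝ) (hw : ∀ v, 0 ≤ w v) :
    Qf T w ≤ 24 * C * (∑ v ∈ T, w v ^ 2) ^ 2 := by
  obtain ⟨e, he, hmono⟩ := exists_key T w
  refine (Qf_le_ordered T w hw e he).trans ?_
  have key : ∀ a ∈ T, (∑ b ∈ T, ∑ c ∈ T,
      if rel T a b c ∧ e a < e b ∧ e b < e c ∧ e c < e (a + b + c)
        then w a * w b * w c * w (a + b + c) else 0) ≤ w a ^ 2 * (C * ∑ c ∈ T, w c ^ 2) := by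
    intro a ha
    have h1 : (∑ b ∈ T, ∑ c ∈ T,
      if rel T a b c ∧ e a < e b ∧ e b < e c ∧ e c < e (a + b + c)
        then w a * w b * w c * w (a + b + c) else 0)
        ≤ ∑ b ∈ T, ∑ c ∈ T, if rel T a b c ∧ e b < e c then w a ^ 2 * w c ^ 2 else 0 := by
      refine Finset.sum_le_sum (fun b hb => Finset.sum_le_sum (fun c hc => ?_))
      by_cases h : rel T a b c ∧ e a < e b ∧ e b < e c ∧ e c < e (a + b + c)
      · rw [if_pos h, if_pos ⟨h.1, h.2.2.1⟩]
        have hd : a + b + c ∈ T := h.1.2.2.2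
        have g1 : w b ≤ w a := hmono a ha b hb h.2.1.le
        have g2 : w (a + b + c) ≤ w c := hmono c hc _ hd h.2.2.2.le
        have g3 : w a * w b ≤ w a ^ 2 := by
          rw [sq]; exact mul_le_mul_of_nonneg_left g1 (hw a)
        have g4 : w c * w (a + b + c) ≤ w c ^ 2 := by
          rw [sq]; exact mul_le_mul_of_nonneg_left g2 (hw c)
        calc w a * w b * w c * w (a + b + c) = (w a * w b) * (w c * w (a + b + c)) := by ring
          _ ≤ w a ^ 2 * w c ^ 2 := mul_le_mul g3 g4 (mul_nonneg (hw _) (hw _)) (sq_nonneg _)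
      · rw [if_neg h]
        split_ifs
        · positivity
        · exact le_refl _
    have h2 : (∑ b ∈ T, ∑ c ∈ T, if rel T a b c ∧ e b < e c then w a ^ 2 * w c ^ 2 else 0)
        = w a ^ 2 * ∑ c ∈ T, ((T.filter (fun b => rel T a b c ∧ e b < e c)).card : ℝ) * w c ^ 2 := by
      rw [Finset.sum_comm, Finset.mul_sum]
      refine Finset.sum_congr rfl (fun c _ => ?_)
      rw [← Finset.sum_filter, Finset.sum_const, nsmul_eq_mul]
      ring
    have h3 : ∑ c ∈ T, ((T.filter (fun b => rel T a b c ∧ e b < e c)).card : ℝ) * w c ^ 2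
        ≤ C * ∑ c ∈ T, w c ^ 2 := by
      refine level_sum T e he (fun c => w c ^ 2) (fun c => ((T.filter (fun b => rel T a b c ∧ e b < e c)).card : ℝ))
        (fun b _ => sq_nonneg _) (fun b hb c hc hbc => ?_) C (fun n => ?_)
      · exact pow_le_pow_left₀ (hw c) (hmono b hb c hc hbc) 2
      · have hF : (T.filter (fun c => e c ≤ n)) ⊆ S := (Finset.filter_subset _ _).trans hT
        have hFs : ((T.filter (fun c => e c ≤ n)).card : ℝ) ≤ s₀ := by
          refine le_trans ?_ hs
          exact_mod_cast Finset.card_le_card (Finset.filter_subset _ _)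
        have h4 := hTG a _ hF hFs
        have h5 : ∑ c ∈ T.filter (fun c => e c ≤ n), (T.filter (fun b => rel T a b c ∧ e b < e c)).card
            ≤ ee S a (T.filter (fun c => e c ≤ n)) := by
          unfold ee
          have h6 : ∑ c ∈ T.filter (fun c => e c ≤ n), (T.filter (fun b => rel T a b c ∧ e b < e c)).card
              = ((T.filter (fun c => e c ≤ n)).sigma (fun c => T.filter (fun b => rel T a b c ∧ e b < e c))).card := by
            rw [Finset.card_sigma]
          rw [h6]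
          refine Finset.card_le_card_of_injOn (fun p => (p.2, p.1)) ?_ ?_
          · rintro ⟨c, b⟩ hp
            simp only [Finset.coe_sigma, Set.mem_sigma_iff, Finset.mem_coe, Finset.mem_filter] at hp
            simp only [Finset.coe_filter, Finset.mem_product, Finset.mem_filter, Set.mem_setOf_eq]
            obtain ⟨⟨hc, hcn⟩, hb, hr, hbc⟩ := hp
            exact ⟨⟨⟨hb, by omega⟩, hc, hcn⟩, hr.1, hr.2.1, hr.2.2.1, hT hr.2.2.2⟩
          · rintro ⟨c, b⟩ _ ⟨c', b'⟩ _ h
            simp only [Prod.mk.injEq] at h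
            obtain ⟨rfl, rfl⟩ := h
            rfl
        exact_mod_cast h5.trans h4
    calc _ ≤ _ := h1
      _ = _ := h2
      _ ≤ _ := mul_le_mul_of_nonneg_left h3 (sq_nonneg _)
  have hsum := Finset.sum_le_sum key
  calc _ ≤ 24 * ∑ a ∈ T, w a ^ 2 * (C * ∑ c ∈ T, w c ^ 2) := by gcongr
    _ = 24 * C * (∑ v ∈ T, w v ^ 2) ^ 2 := by
      rw [← Finset.sum_mul]; ring

end Pool.Agent.Lib.MP_938ce2_ag_l4
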