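import Mathlib
import Pool.Agent.Lib.MP_938ce2_ag_l4.T01
import Pool.Agent.Lib.MP_938ce2_ag_l4.T09

set_option autoImplicit false
set_option linter.unusedSectionVars false

namespace Pool.Agent.Lib.MP_938ce2_ag_l4

open Finset

variable {ι : Type} [Fintype ι] [DecidableEq ι] {X : Type} [Fintype X] [DecidableEq X] {c : X → X}
  {y : X → ι → ZMod 2} {c₀ : ι → ZMod 2} {g : ℕ}

/-- the pair of `b` -/
private def pr (ψ b : ι → ZMod 2) : Finset (ι → ZMod 2) := {b, b + ψ}

private theorem mem_pr {ψ b x : ι → ZMod 2} : x ∈ pr ψ b ↔ x = b ∨ x = b + ψ := by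
  unfold pr
  rw [mem_insert, mem_singleton]

private theorem add_self_fun (ψ : ι → ZMod 2) : ψ + ψ = 0 := by
  funext i
  exact CharTwo.add_self_eq_zero (ψ i)

private theorem pr_eq {ψ b x : ι → ZMod 2} (h : x ∈ pr ψ b) : pr ψ x = pr ψ b := by
  rcases mem_pr.1 h with rfl | rfl
  · rfl
  · ext z
    rw [mem_pr, mem_pr, add_assoc, add_self_fun, add_zero]
    exact or_comm

private theorem card_pr {ψ b : ι → ZMod 2} (hψ : ψ ≠ 0) : (pr ψ b).card = 2 := by
  unfold pr
  rw [card_pair]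
  intro h
  apply hψ
  have : b + ψ = b + 0 := by rw [add_zero]; exact h.symm
  exact add_left_cancel this

/-- all pairs -/
private def PP (ψ : ι → ZMod 2) : Finset (Finset (ι → ZMod 2)) := univ.image (pr ψ)

private theorem disj_PP {ψ : ι → ZMod 2} {p p' : Finset (ι → ZMod 2)} (hp : p ∈ PP ψ)
    (hp' : p' ∈ PP ψ) (hne : p ≠ p') : Disjoint p p' := by
  unfold PP at hp hp'
  rw [mem_image] at hp hp'
  obtain ⟨b, -, rfl⟩ := hp
  obtain ⟨b', -, rfl⟩ := hp'
  rw [disjoint_left]
  intro x hx hx'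
  exact hne ((pr_eq hx).symm.trans (pr_eq hx'))

private theorem card_PP (hD : Dat c y c₀ g) {ψ : ι → ZMod 2} (hψ : ψ ≠ 0) : (PP ψ).card ≤ g := by
  have h1 : ∑ p ∈ PP ψ, p.card ≤ Fintype.card (ι → ZMod 2) := by
    have h2 : ∑ p ∈ PP ψ, p.card = ((PP ψ).biUnion id).card :=
      (card_biUnion (fun p hp p' hp' hne => disj_PP hp hp' hne)).symm
    rw [h2]
    exact card_le_univ _
  have h3 : ∑ p ∈ PP ψ, p.card = (PP ψ).card * 2 := by
    rw [← smul_eq_mul, ← sum_const]
    refine sum_congr rfl (fun p hp => ?_)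
    unfold PP at hp
    rw [mem_image] at hp
    obtain ⟨b, -, rfl⟩ := hp
    exact card_pr hψ
  have h4 : Fintype.card (ι → ZMod 2) = 2 ^ Fintype.card ι := by
    rw [Fintype.card_fun, ZMod.card]
  have h5 := card_V_le hD
  omega

/-- one difference -/
private theorem rr_one (hD : Dat c y c₀ g) (hg : 2 ≤ g) (s n : ℕ) (hs : 1 ≤ s) (hsn : s ≤ n)
    (hm : 8 * (2 * s : ℝ) ^ 5 * Real.log g ≤ g) {ψ : ι → ZMod 2} (hψ : ψ ≠ 0) :
    cnt c (fun Φ => 2 * n ≤ rr (SS y c₀ Φ) ψ)
      ≤ 2 * (64 * (s : ℝ) ^ 2) ^ s / (s.factorial * n.choose s) * 2 ^ g := by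
  classical
  have hg0 : (0 : ℝ) < g := by
    have : 0 < g := by omega
    exact_mod_cast this
  have hN : 0 < n.choose s := Nat.choose_pos hsn
  have h1 := cnt_markov (c := c) ((PP ψ).powersetCard s)
    (fun k Φ => k.biUnion id ⊆ SS y c₀ Φ) (fun Φ => 2 * n ≤ rr (SS y c₀ Φ) ψ) (n.choose s) hN
    (by
      intro Φ _ hq
      refine ⟨((PP ψ).filter (fun p => p ⊆ SS y c₀ Φ)).powersetCard s, ?_, ?_, ?_⟩
      · exact powersetCard_mono (filter_subset _ _)
      · rw [card_powersetCard]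
        refine Nat.choose_le_choose s ?_
        have h2 : ((SS y c₀ Φ).filter (fun b => b + ψ ∈ SS y c₀ Φ)).card ≤
            2 * ((PP ψ).filter (fun p => p ⊆ SS y c₀ Φ)).card := by
          refine card_le_mul_card_image_of_maps_to (f := pr ψ) ?_ 2 ?_
          · intro b hb
            rw [mem_filter] at hb ⊢
            refine ⟨mem_image_of_mem _ (mem_univ _), ?_⟩
            intro x hx
            rcases mem_pr.1 hx with rfl | rfl
            · exact hb.1
            · exact hb.2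
          · intro p hp
            have hp2 : p.card = 2 := by
              have := (mem_filter.1 hp).1
              unfold PP at this
              rw [mem_image] at this
              obtain ⟨b, -, rfl⟩ := this
              exact card_pr hψ
            refine (card_le_card (fun b hb => ?_)).trans hp2.le
            rw [mem_filter] at hb
            rw [← hb.2, mem_pr]
            exact Or.inl rfl
        have h3 : 2 * n ≤ ((SS y c₀ Φ).filter (fun b => b + ψ ∈ SS y c₀ Φ)).card := hq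
        omega
      · intro k hk
        rw [mem_powersetCard] at hk
        intro x hx
        rw [mem_biUnion] at hx
        obtain ⟨p, hp, hxp⟩ := hx
        exact (mem_filter.1 (hk.1 hp)).2 hxp)
  refine h1.trans ?_
  have h2 : ∀ k ∈ (PP ψ).powersetCard s, cnt c (fun Φ => k.biUnion id ⊆ SS y c₀ Φ) ≤
      2 * (64 * (s : ℝ) ^ 2 / g) ^ s * 2 ^ g := by
    intro k hk
    rw [mem_powersetCard] at hk
    have hkc : (k.biUnion id).card = 2 * s := by
      have hb : (k.biUnion id).card = ∑ p ∈ k, p.card :=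
        card_biUnion (fun p hp p' hp' hne => disj_PP (hk.1 hp) (hk.1 hp') hne)
      rw [hb, ← hk.2, mul_comm, ← smul_eq_mul, ← sum_const]
      refine sum_congr rfl (fun p hp => ?_)
      have := hk.1 hp
      unfold PP at this
      rw [mem_image] at this
      obtain ⟨b, -, rfl⟩ := this
      exact card_pr hψ
    have hne : (k.biUnion id).Nonempty := by
      rw [← card_pos, hkc]
      omega
    have h3 := prob_lossy hD hg (k.biUnion id) hne (by
      rw [hkc]
      push_cast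
      exact hm)
    refine h3.trans ?_
    rw [hkc, pow_mul]
    have h4 : (4 * ((2 * s : ℕ) : ℝ) / √g) ^ 2 = 64 * (s : ℝ) ^ 2 / g := by
      rw [div_pow, Real.sq_sqrt hg0.le]
      push_cast
      ring
    rw [h4]
  have h5 : ∑ k ∈ (PP ψ).powersetCard s, cnt c (fun Φ => k.biUnion id ⊆ SS y c₀ Φ) ≤
      (g : ℝ) ^ s / s.factorial * (2 * (64 * (s : ℝ) ^ 2 / g) ^ s * 2 ^ g) := by
    refine (sum_le_sum h2).trans ?_
    rw [sum_const, nsmul_eq_mul, card_powersetCard]
    refine mul_le_mul_of_nonneg_right ?_ (by positivity)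
    refine (Nat.choose_le_pow_div s _).trans ?_
    gcongr
    exact_mod_cast card_PP hD hψ
  have h6 : (g : ℝ) ^ s / s.factorial * (2 * (64 * (s : ℝ) ^ 2 / g) ^ s * 2 ^ g) =
      2 * (64 * (s : ℝ) ^ 2) ^ s / s.factorial * 2 ^ g := by
    rw [div_pow]
    field_simp
  rw [h6] at h5
  have hN' : (0 : ℝ) < (n.choose s : ℝ) := by exact_mod_cast hN
  rw [div_le_iff₀ hN']
  refine h5.trans (le_of_eq ?_)
  have hf : (0 : ℝ) < (s.factorial : ℝ) := by exact_mod_cast s.factorial_pos
  field_simp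

/-- **Number of the pairs with a given difference.** For `ψ ≠ 0` there are at most `g` pairs `{b, b + ψ}` (`card_V_le`). If
`2 * n ≤ rr S ψ`, then `S` contains at least `n` of them, so at least `choose n s` of the sets of `s` pairs; there are at
most `g ^ s / s!` sets of `s` pairs, each has `2 * s` elements, `prob_lossy`: `2 * (8 s / √g) ^ (2 s)`; `cnt_markov`; then
the union over `ψ`. -/
theorem rr_raw (hD : Dat c y c₀ g) (hg : 2 ≤ g) (s n : ℕ) (hs : 1 ≤ s) (hsn : s ≤ n)
    (hm : 8 * (2 * s : ℝ) ^ 5 * Real.log g ≤ g) :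
    cnt c (fun Φ => ∃ ψ : ι → ZMod 2, ψ ≠ 0 ∧ 2 * n ≤ rr (SS y c₀ Φ) ψ)
      ≤ 2 * g * (2 * (64 * (s : ℝ) ^ 2) ^ s / (s.factorial * n.choose s)) * 2 ^ g := by
  classical
  have h1 := cnt_exists (c := c) (univ.filter (fun ψ : ι → ZMod 2 => ψ ≠ 0))
    (fun ψ Φ => 2 * n ≤ rr (SS y c₀ Φ) ψ)
    (fun Φ => ∃ ψ : ι → ZMod 2, ψ ≠ 0 ∧ 2 * n ≤ rr (SS y c₀ Φ) ψ)
    (by
      rintro Φ - ⟨ψ, hψ, h⟩
      exact ⟨ψ, mem_filter.2 ⟨mem_univ _, hψ⟩, h⟩)
  refine h1.trans ?_
  refine (sum_le_sum (fun ψ hψ => rr_one hD hg s n hs hsn hm (mem_filter.1 hψ).2)).trans ?_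
  rw [sum_const, nsmul_eq_mul]
  have h2 : ((univ.filter (fun ψ : ι → ZMod 2 => ψ ≠ 0)).card : ℝ) ≤ 2 * g := by
    have h3 : (univ.filter (fun ψ : ι → ZMod 2 => ψ ≠ 0)).card ≤ 2 * g := by
      refine (card_le_univ _).trans ?_
      rw [Fintype.card_fun, ZMod.card]
      exact card_V_le hD
    exact_mod_cast h3
  rw [mul_assoc (2 * (g : ℝ))]
  exact mul_le_mul_of_nonneg_right h2 (by positivity)


end Pool.Agent.Lib.MP_938ce2_ag_l4
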