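import Mathlib
import Pool.Agent.Lib.MP_938ce2_ag_l4.T19

set_option autoImplicit false
set_option linter.unusedSectionVars false

namespace Pool.Agent.Lib.MP_938ce2_ag_l4

open Finset

/-- eventually `log g` is large and a power of it is at most `g` -/
theorem rr_small_ev : ∃ g₀ : ℕ, ∀ g : ℕ, g₀ ≤ g → 
    30000 ≤ Real.log g ∧ 262144 * Real.log g ^ 6 ≤ g ∧ 4 ≤ g := by
  have h1 : ∀ᶠ x : ℝ in Filter.atTop, 30000 ≤ Real.log x :=
    Real.tendsto_log_atTop.eventually_ge_atTop _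
  have h2 : ∀ᶠ x : ℝ in Filter.atTop, 262144 * Real.log x ^ 6 ≤ x := by
    have := (Real.isLittleO_pow_log_id_atTop (n := 6)).bound (c := 1 / 262144) (by norm_num)
    filter_upwards [this, Filter.eventually_ge_atTop (1 : ℝ)] with x hx hx1
    have h0 : 0 ≤ Real.log x := Real.log_nonneg hx1
    rw [Real.norm_of_nonneg (by positivity)] at hx
    simp only [id, Real.norm_of_nonneg (zero_le_one.trans hx1)] at hx
    linarith
  have h3 : ∀ᶠ g : ℕ in Filter.atTop, 30000 ≤ Real.log g ∧ 262144 * Real.log g ^ 6 ≤ g ∧ 4 ≤ g := by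
    filter_upwards [tendsto_natCast_atTop_atTop.eventually h1,
      tendsto_natCast_atTop_atTop.eventually h2, Filter.eventually_ge_atTop 4] with g a b c
    exact ⟨a, b, c⟩
  obtain ⟨g₀, h⟩ := Filter.eventually_atTop.1 h3
  exact ⟨g₀, fun g hg => h g hg⟩

/-- `rr_raw` with `s = ⌈3 log g⌉₊`, `n = ⌊(log g) ^ 3 / 2⌋₊`: `s! * choose n s ≥ (n / 2) ^ s`,
`(128 s ^ 2 / n) ^ s ≤ exp (- s) ≤ g ^ (-3)` -/
theorem rr_small : ∃ g₀ : ℕ, ∀ {ι : Type} [Fintype ι] [DecidableEq ι] {X : Type} [Fintype X]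
    [DecidableEq X] {c : X → X} {y : X → ι → ZMod 2} {c₀ : ι → ZMod 2} {g : ℕ},
    Dat c y c₀ g → g₀ ≤ g →
    cnt c (fun Φ => ¬ ∀ ψ : ι → ZMod 2, ψ ≠ 0 → (rr (SS y c₀ Φ) ψ : ℝ) ≤ Real.log g ^ 3)
      ≤ 2 ^ g / g := by
  obtain ⟨g₀, h₀⟩ := rr_small_ev
  refine ⟨g₀, ?_⟩
  intro ι _ _ X _ _ c y c₀ g hD hg
  obtain ⟨hL, hg6, hg4⟩ := h₀ g hg
  set L : ℝ := Real.log g with hLdef
  have hgpos : (0 : ℝ) < g := by
    have : 0 < g := by omega
    exact_mod_cast this
  have hL0 : 0 < L := by linarith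
  set s : ℕ := ⌈3 * L⌉₊ with hs
  set n : ℕ := ⌊L ^ 3 / 2⌋₊ with hn
  have hs1 : 3 * L ≤ s := Nat.le_ceil _
  have hs2 : (s : ℝ) < 3 * L + 1 := Nat.ceil_lt_add_one (by positivity)
  have hs4 : (s : ℝ) ≤ 4 * L := by linarith
  have hn1 : (n : ℝ) ≤ L ^ 3 / 2 := Nat.floor_le (by positivity)
  have hn2 : L ^ 3 / 2 < n + 1 := Nat.lt_floor_add_one _
  have hL3 : L ^ 3 = L * L ^ 2 := by ring
  have hLL : L ^ 2 = L * L := by ring
  have hL2 : 30000 * L ≤ L ^ 2 := by nlinarith
  have hL2' : 30000 * L ^ 2 ≤ L ^ 3 := by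
    rw [hL3]
    nlinarith [sq_nonneg L]
  have hn3 : L ^ 3 / 4 ≤ n := by nlinarith
  have hspos : (0 : ℝ) < s := by linarith
  have hs0 : 1 ≤ s := by
    have : 0 < s := by exact_mod_cast hspos
    omega
  have hsn2 : 2 * (s : ℝ) ≤ n := by nlinarith
  have hsn2' : 2 * s ≤ n := by exact_mod_cast hsn2
  have hsn : s ≤ n := by omega
  have hnpos : (0 : ℝ) < n := by linarith
  have hm : 8 * (2 * s : ℝ) ^ 5 * Real.log g ≤ g := by
    have h1 : (2 * s : ℝ) ^ 5 ≤ (8 * L) ^ 5 := by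
      apply pow_le_pow_left₀ (by positivity)
      linarith
    calc 8 * (2 * s : ℝ) ^ 5 * Real.log g ≤ 8 * (8 * L) ^ 5 * L := by
          rw [← hLdef]
          exact mul_le_mul_of_nonneg_right (mul_le_mul_of_nonneg_left h1 (by norm_num)) hL0.le
      _ = 262144 * L ^ 6 := by ring
      _ ≤ g := hg6
  have hraw := rr_raw hD (by omega) s n hs0 hsn hm
  refine le_trans (cnt_mono ?_) (hraw.trans ?_)
  · intro Φ _ hΦ
    push Not at hΦ
    obtain ⟨ψ, hψ, h⟩ := hΦ
    refine ⟨ψ, hψ, ?_⟩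
    have : ((2 * n : ℕ) : ℝ) ≤ (rr (SS y c₀ Φ) ψ : ℝ) := by
      push_cast
      linarith
    exact_mod_cast this
  · -- the bound
    have hdesc : ((n : ℝ) / 2) ^ s ≤ (s.factorial * n.choose s : ℝ) := by
      have h1 : (n + 1 - s) ^ s ≤ n.descFactorial s := Nat.pow_sub_le_descFactorial n s
      rw [Nat.descFactorial_eq_factorial_mul_choose] at h1
      have h2 : (((n + 1 - s : ℕ) : ℝ)) ^ s ≤ (s.factorial * n.choose s : ℝ) := by exact_mod_cast h1
      refine le_trans (pow_le_pow_left₀ (by positivity) ?_ s) h2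
      rw [Nat.cast_sub (by omega)]
      push_cast
      linarith
    have hexp : (64 * (s : ℝ) ^ 2) ^ s / (s.factorial * n.choose s) ≤ 1 / (g : ℝ) ^ 3 := by
      have hd : 0 < ((n : ℝ) / 2) ^ s := by positivity
      calc (64 * (s : ℝ) ^ 2) ^ s / (s.factorial * n.choose s)
          ≤ (64 * (s : ℝ) ^ 2) ^ s / ((n : ℝ) / 2) ^ s :=
            div_le_div_of_nonneg_left (by positivity) hd hdesc
        _ = (64 * (s : ℝ) ^ 2 / (n / 2)) ^ s := (div_pow _ _ _).symm
        _ ≤ (Real.exp (-1)) ^ s := by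
            apply pow_le_pow_left₀ (by positivity)
            have he : Real.exp 1 < 2.7182818286 := Real.exp_one_lt_d9
            rw [Real.exp_neg, div_le_iff₀ (by positivity), inv_mul_eq_div,
              le_div_iff₀ (Real.exp_pos 1)]
            have hss : (s : ℝ) ^ 2 ≤ 16 * L ^ 2 := by nlinarith
            calc 64 * (s : ℝ) ^ 2 * Real.exp 1 ≤ 64 * (16 * L ^ 2) * 2.72 := by
                  apply mul_le_mul _ (by linarith) (Real.exp_pos 1).le (by positivity)
                  linarith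
              _ ≤ L ^ 3 / 4 / 2 := by nlinarith [sq_nonneg L]
              _ ≤ n / 2 := by linarith
        _ = Real.exp (-s) := by
            rw [← Real.exp_nat_mul]
            congr 1
            ring
        _ ≤ Real.exp (-(3 * L)) := Real.exp_le_exp.2 (by linarith)
        _ = 1 / (g : ℝ) ^ 3 := by
            rw [Real.exp_neg, one_div]
            congr 1
            have : (3 : ℝ) * L = ((3 : ℕ) : ℝ) * L := by norm_num
            rw [this, Real.exp_nat_mul, hLdef, Real.exp_log hgpos]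
    have h2 : 2 * (64 * (s : ℝ) ^ 2) ^ s / (s.factorial * n.choose s)
        = 2 * ((64 * (s : ℝ) ^ 2) ^ s / (s.factorial * n.choose s)) := by ring
    rw [h2]
    have hg4' : (4 : ℝ) ≤ g := by exact_mod_cast hg4
    calc 2 * (g : ℝ) * (2 * ((64 * (s : ℝ) ^ 2) ^ s / (s.factorial * n.choose s))) * 2 ^ g
        ≤ 2 * (g : ℝ) * (2 * (1 / (g : ℝ) ^ 3)) * 2 ^ g := by
          apply mul_le_mul_of_nonneg_right _ (by positivity)
          apply mul_le_mul_of_nonneg_left _ (by positivity)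
          linarith
      _ = 4 / (g : ℝ) * (2 ^ g / g) := by
          field_simp
          ring
      _ ≤ 1 * (2 ^ g / g) := by
          apply mul_le_mul_of_nonneg_right _ (by positivity)
          rw [div_le_one hgpos]
          exact hg4'
      _ = 2 ^ g / g := one_mul _

end Pool.Agent.Lib.MP_938ce2_ag_l4
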