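import Mathlib
import Pool.Agent.Lib.MP_938ce2_ag_l4.T01
import Pool.Agent.Lib.MP_938ce2_ag_l4.T09
import Pool.Agent.Lib.MP_938ce2_ag_l4.D2

set_option autoImplicit false
set_option linter.unusedSectionVars false

namespace Pool.Agent.Lib.MP_938ce2_ag_l4

open Finset

variable {ι : Type} [Fintype ι] [DecidableEq ι] {X : Type} [Fintype X] [DecidableEq X] {c : X → X}
  {y : X → ι → ZMod 2} {c₀ : ι → ZMod 2} {g : ℕ}

theorem card_sp_le (A : Finset (ι → ZMod 2)) : (sp A).card ≤ 2 ^ A.card := by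
  classical
  have h1 : sp A ⊆ (univ : Finset (A → ZMod 2)).image fun f => ∑ a : A, f a • (a : ι → ZMod 2) := by
    intro v hv
    have hv' : v ∈ Submodule.span (ZMod 2) (A : Set (ι → ZMod 2)) := (mem_filter.mp hv).2
    obtain ⟨f, -, hf⟩ := Submodule.mem_span_finset.mp hv'
    refine mem_image.mpr ⟨fun a => f a, mem_univ _, ?_⟩
    rw [← hf]
    exact Finset.sum_coe_sort A fun a => f a • a
  refine (card_le_card h1).trans (card_image_le.trans ?_)
  rw [card_univ, Fintype.card_fun, ZMod.card, Fintype.card_coe]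

private theorem card_V_choose (hD : Dat c y c₀ g) (M : ℕ) :
    (((univ : Finset (ι → ZMod 2)).powersetCard M).card : ℝ) ≤ (2 * g : ℝ) ^ M := by
  rw [card_powersetCard, card_univ, Fintype.card_fun, ZMod.card]
  have h1 := card_V_le hD
  have h2 : (2 ^ Fintype.card ι).choose M ≤ (2 * g) ^ M :=
    (Nat.choose_le_pow _ _).trans (Nat.pow_le_pow_left h1 M)
  exact_mod_cast h2

private theorem sum_le_card_mul {κ : Type} (s : Finset κ) (f : κ → ℝ) (P K : ℝ) (hP : 0 ≤ P)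
    (h : ∀ k ∈ s, f k ≤ P) (hK : (s.card : ℝ) ≤ K) : ∑ k ∈ s, f k ≤ K * P := by
  calc ∑ k ∈ s, f k ≤ ∑ _k ∈ s, P := sum_le_sum h
    _ = (s.card : ℝ) * P := by rw [sum_const, nsmul_eq_mul]
    _ ≤ K * P := mul_le_mul_of_nonneg_right hK hP

/-- union over `A` = the image of `Fin M → V` and `F ⊆ sp A` = the image of `Fin (3 * M) → sp A` -/
theorem E1_raw (hD : Dat c y c₀ g) (hg : 2 ≤ g) (M : ℕ) (hM : 1 ≤ M)
    (hm : 8 * (3 * M : ℝ) ^ 5 * Real.log g ≤ g) :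
    cnt c (fun Φ => E1 M (SS y c₀ Φ))
      ≤ 2 * (2 * g : ℝ) ^ M * (2 ^ M : ℝ) ^ (3 * M) * (12 * M / √g) ^ (3 * M) * 2 ^ g := by
  have hP0 : (0 : ℝ) ≤ 2 * (12 * M / √g) ^ (3 * M) * 2 ^ g := by positivity
  have h1 : cnt c (fun Φ => E1 M (SS y c₀ Φ))
      ≤ ∑ A ∈ (univ : Finset (ι → ZMod 2)).powersetCard M,
        cnt c (fun Φ => 3 * M ≤ (SS y c₀ Φ ∩ sp A).card) := by
    refine cnt_exists _ (fun A Φ => 3 * M ≤ (SS y c₀ Φ ∩ sp A).card) _ ?_
    rintro Φ _ ⟨A, hA, h⟩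
    exact ⟨A, mem_powersetCard.mpr ⟨subset_univ _, hA⟩, h⟩
  have h2 : ∀ A ∈ (univ : Finset (ι → ZMod 2)).powersetCard M,
      cnt c (fun Φ => 3 * M ≤ (SS y c₀ Φ ∩ sp A).card)
        ≤ (2 ^ M : ℝ) ^ (3 * M) * (2 * (12 * M / √g) ^ (3 * M) * 2 ^ g) := by
    intro A hA
    rw [mem_powersetCard] at hA
    refine (cnt_exists ((sp A).powersetCard (3 * M)) (fun F Φ => F ⊆ SS y c₀ Φ) _ ?_).trans ?_
    · intro Φ _ h
      obtain ⟨F, hF, hc⟩ := exists_subset_card_eq h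
      exact ⟨F, mem_powersetCard.mpr ⟨hF.trans inter_subset_right, hc⟩, hF.trans inter_subset_left⟩
    · refine sum_le_card_mul _ _ _ _ hP0 ?_ ?_
      · intro F hF
        rw [mem_powersetCard] at hF
        have h3 := prob_lossy hD hg F (card_pos.mp (by omega)) (by
          rw [hF.2]
          push_cast
          exact hm)
        rw [hF.2] at h3
        refine h3.trans (le_of_eq ?_)
        push_cast
        ring_nf
      · rw [card_powersetCard]
        have h3 := card_sp_le A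
        rw [hA.2] at h3
        have h4 : (sp A).card.choose (3 * M) ≤ (2 ^ M) ^ (3 * M) :=
          (Nat.choose_le_pow _ _).trans (Nat.pow_le_pow_left h3 _)
        exact_mod_cast h4
  refine h1.trans ((sum_le_card_mul _ _ _ _ (by positivity) h2 (card_V_choose hD M)).trans
    (le_of_eq ?_))
  ring

open Classical in
/-- the candidates for the elements of `F` -/
private noncomputable def cand (A R : Finset (ι → ZMod 2)) : Finset (ι → ZMod 2) :=
  univ.filter fun f => ∃ r ∈ R, f + r ∈ sp A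

private theorem card_cand_le (A R : Finset (ι → ZMod 2)) :
    (cand A R).card ≤ R.card * 2 ^ A.card := by
  classical
  have h1 : cand A R ⊆ (R ×ˢ sp A).image fun p => p.2 - p.1 := by
    intro f hf
    obtain ⟨r, hr, h⟩ := (mem_filter.mp hf).2
    exact mem_image.mpr ⟨(r, f + r), mem_product.mpr ⟨hr, h⟩, add_sub_cancel_right _ _⟩
  refine (card_le_card h1).trans (card_image_le.trans ?_)
  rw [card_product]
  exact Nat.mul_le_mul_left _ (card_sp_le A)

private theorem subset_sp (A : Finset (ι → ZMod 2)) : A ⊆ sp A := by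
  classical
  intro a ha
  unfold sp
  rw [mem_filter]
  exact ⟨mem_univ _, Submodule.subset_span ha⟩

/-- union over `r = R.card`, over `A`, `R` and `F` (a function from `Fin (5 * M + 2 * r)` to `Fin r × sp A`); `A ∪ F` has
`6 * M + 2 * r` elements; `prob_lossy` -/
theorem E2_raw (hD : Dat c y c₀ g) (hg : 2 ≤ g) (M : ℕ) (hM : 1 ≤ M)
    (hm : 8 * (16 * M : ℝ) ^ 5 * Real.log g ≤ g) :
    cnt c (fun Φ => E2 M (SS y c₀ Φ))
      ≤ (∑ r ∈ Icc 1 (5 * M), 2 * (2 * g : ℝ) ^ (M + r) * (r * 2 ^ M : ℝ) ^ (5 * M + 2 * r)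
        * (4 * (6 * M + 2 * r : ℝ) / √g) ^ (6 * M + 2 * r)) * 2 ^ g := by
  classical
  have hlog : 0 ≤ Real.log g := Real.log_natCast_nonneg g
  -- the union over `r`
  have h1 : cnt c (fun Φ => E2 M (SS y c₀ Φ)) ≤ ∑ r ∈ Icc 1 (5 * M), cnt c (fun Φ =>
      ∃ A R F : Finset (ι → ZMod 2), A ⊆ SS y c₀ Φ ∧ A.card = M ∧ R.card = r ∧ F ⊆ SS y c₀ Φ ∧
        F.card = 5 * M + 2 * r ∧ ∀ f ∈ F, f ∉ sp A ∧ ∃ r ∈ R, f + r ∈ sp A) := by
    refine cnt_exists _ (fun r Φ => ∃ A R F : Finset (ι → ZMod 2), A ⊆ SS y c₀ Φ ∧ A.card = M ∧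
      R.card = r ∧ F ⊆ SS y c₀ Φ ∧ F.card = 5 * M + 2 * r ∧
        ∀ f ∈ F, f ∉ sp A ∧ ∃ r ∈ R, f + r ∈ sp A) _ ?_
    rintro Φ _ ⟨A, R, F, hA, hA', hR, hR', hF, hF', h⟩
    exact ⟨R.card, mem_Icc.mpr ⟨hR, hR'⟩, A, R, F, hA, hA', rfl, hF, hF', h⟩
  refine h1.trans ?_
  rw [sum_mul]
  refine sum_le_sum fun r hr => ?_
  rw [mem_Icc] at hr
  have hr' : (r : ℝ) ≤ 5 * M := by exact_mod_cast hr.2
  set P : ℝ := 2 * (4 * (6 * M + 2 * r : ℝ) / √g) ^ (6 * M + 2 * r) * 2 ^ g with hP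
  have hP0 : 0 ≤ P := by positivity
  have h2 : cnt c (fun Φ =>
      ∃ A R F : Finset (ι → ZMod 2), A ⊆ SS y c₀ Φ ∧ A.card = M ∧ R.card = r ∧ F ⊆ SS y c₀ Φ ∧
        F.card = 5 * M + 2 * r ∧ ∀ f ∈ F, f ∉ sp A ∧ ∃ r ∈ R, f + r ∈ sp A)
      ≤ ∑ A ∈ (univ : Finset (ι → ZMod 2)).powersetCard M, cnt c (fun Φ =>
        ∃ R F : Finset (ι → ZMod 2), A ⊆ SS y c₀ Φ ∧ R.card = r ∧ F ⊆ SS y c₀ Φ ∧
          F.card = 5 * M + 2 * r ∧ ∀ f ∈ F, f ∉ sp A ∧ ∃ r ∈ R, f + r ∈ sp A) := by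
    refine cnt_exists _ (fun A Φ => ∃ R F : Finset (ι → ZMod 2), A ⊆ SS y c₀ Φ ∧ R.card = r ∧
      F ⊆ SS y c₀ Φ ∧ F.card = 5 * M + 2 * r ∧ ∀ f ∈ F, f ∉ sp A ∧ ∃ r ∈ R, f + r ∈ sp A) _ ?_
    rintro Φ _ ⟨A, R, F, hA, hA', hR, hF, hF', h⟩
    exact ⟨A, mem_powersetCard.mpr ⟨subset_univ _, hA'⟩, R, F, hA, hR, hF, hF', h⟩
  have h3 : ∀ A ∈ (univ : Finset (ι → ZMod 2)).powersetCard M, cnt c (fun Φ =>
        ∃ R F : Finset (ι → ZMod 2), A ⊆ SS y c₀ Φ ∧ R.card = r ∧ F ⊆ SS y c₀ Φ ∧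
          F.card = 5 * M + 2 * r ∧ ∀ f ∈ F, f ∉ sp A ∧ ∃ r ∈ R, f + r ∈ sp A)
        ≤ (2 * g : ℝ) ^ r * ((r * 2 ^ M : ℝ) ^ (5 * M + 2 * r) * P) := by
    intro A hA
    rw [mem_powersetCard] at hA
    refine (cnt_exists ((univ : Finset (ι → ZMod 2)).powersetCard r) (fun R Φ =>
      ∃ F : Finset (ι → ZMod 2), A ⊆ SS y c₀ Φ ∧ F ⊆ SS y c₀ Φ ∧
          F.card = 5 * M + 2 * r ∧ ∀ f ∈ F, f ∉ sp A ∧ ∃ r ∈ R, f + r ∈ sp A) _ ?_).trans ?_
    · rintro Φ _ ⟨R, F, hA', hR, hF, hF', h⟩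
      exact ⟨R, mem_powersetCard.mpr ⟨subset_univ _, hR⟩, F, hA', hF, hF', h⟩
    · refine sum_le_card_mul _ _ _ _ (by positivity) ?_ (card_V_choose hD r)
      intro R hR
      rw [mem_powersetCard] at hR
      refine (cnt_exists ((cand A R \ sp A).powersetCard (5 * M + 2 * r)) (fun F Φ =>
        A ∪ F ⊆ SS y c₀ Φ) _ ?_).trans ?_
      · rintro Φ _ ⟨F, hA', hF, hF', h⟩
        refine ⟨F, mem_powersetCard.mpr ⟨fun f hf => ?_, hF'⟩, union_subset hA' hF⟩
        rw [mem_sdiff]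
        exact ⟨mem_filter.mpr ⟨mem_univ _, (h f hf).2⟩, (h f hf).1⟩
      · refine sum_le_card_mul _ _ _ _ hP0 ?_ ?_
        · intro F hF
          rw [mem_powersetCard] at hF
          have hdis : Disjoint A F := by
            rw [disjoint_left]
            intro a ha ha'
            exact (mem_sdiff.mp (hF.1 ha')).2 (subset_sp A ha)
          have hcard : (A ∪ F).card = 6 * M + 2 * r := by
            rw [card_union_of_disjoint hdis, hA.2, hF.2]
            ring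
          have h4 := prob_lossy hD hg (A ∪ F) (card_pos.mp (by omega)) (by
            rw [hcard]
            refine le_trans ?_ hm
            push_cast
            have h5 : (6 * M + 2 * r : ℝ) ≤ 16 * M := by linarith
            gcongr)
          rw [hcard] at h4
          refine h4.trans (le_of_eq ?_)
          rw [hP]
          push_cast
          rfl
        · rw [card_powersetCard]
          have h4 : (cand A R \ sp A).card ≤ r * 2 ^ M := by
            refine (card_le_card sdiff_subset).trans ((card_cand_le A R).trans ?_)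
            rw [hR.2, hA.2]
          have h5 : (cand A R \ sp A).card.choose (5 * M + 2 * r)
              ≤ (r * 2 ^ M) ^ (5 * M + 2 * r) :=
            (Nat.choose_le_pow _ _).trans (Nat.pow_le_pow_left h4 _)
          exact_mod_cast h5
  refine h2.trans ((sum_le_card_mul _ _ _ _ (by positivity) h3 (card_V_choose hD M)).trans
    (le_of_eq ?_))
  rw [hP, pow_add]
  ring

end Pool.Agent.Lib.MP_938ce2_ag_l4
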