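import Mathlib
import Pool.Agent.Lib.MP_938ce2_ag_l4.D2

set_option autoImplicit false
set_option linter.unusedSectionVars false

namespace Pool.Agent.Lib.MP_938ce2_ag_l4

open Finset

variable {ι : Type} [Fintype ι] [DecidableEq ι]

private theorem mem_clo {j : ℕ} {B : Finset (ι → ZMod 2)} {v : ι → ZMod 2} :
    v ∈ clo j B ↔ ev j v ∈ Submodule.span (ZMod 2) (ev j '' (B : Set (ι → ZMod 2))) := by
  classical
  simp only [clo, Finset.mem_filter, Finset.mem_univ, true_and]

private theorem mem_clp {j : ℕ} {B : Finset (ι → ZMod 2)} {b ψ : ι → ZMod 2} :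
    b ∈ clp j B ψ ↔
      ev j b + ev j (b + ψ) ∈ Submodule.span (ZMod 2) (ev j '' (B : Set (ι → ZMod 2))) := by
  classical
  simp only [clp, Finset.mem_filter, Finset.mem_univ, true_and]

private theorem finrank_insert_of_mem {W : Type*} [AddCommGroup W] [Module (ZMod 2) W]
    (s : Set W) (x : W) (h : x ∈ Submodule.span (ZMod 2) s) :
    Module.finrank (ZMod 2) (Submodule.span (ZMod 2) (insert x s))
      = Module.finrank (ZMod 2) (Submodule.span (ZMod 2) s) := by
  rw [Submodule.span_insert_eq_span h]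

private theorem finrank_insert_of_notMem {W : Type*} [AddCommGroup W] [Module (ZMod 2) W]
    [FiniteDimensional (ZMod 2) W]
    (s : Set W) (x : W) (h : x ∉ Submodule.span (ZMod 2) s) :
    Module.finrank (ZMod 2) (Submodule.span (ZMod 2) (insert x s))
      = Module.finrank (ZMod 2) (Submodule.span (ZMod 2) s) + 1 := by
  have hx : x ≠ 0 := by
    rintro rfl
    exact h (Submodule.zero_mem _)
  have h1 := Submodule.finrank_sup_add_finrank_inf_eq (Submodule.span (ZMod 2) {x})
    (Submodule.span (ZMod 2) s)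
  have h2 : Submodule.span (ZMod 2) {x} ⊓ Submodule.span (ZMod 2) s = ⊥ := by
    rw [Submodule.eq_bot_iff]
    intro y hy
    rw [Submodule.mem_inf, Submodule.mem_span_singleton] at hy
    obtain ⟨⟨c, rfl⟩, hy2⟩ := hy
    by_cases hc : c = 0
    · rw [hc, zero_smul]
    · exact absurd ((Submodule.smul_mem_iff _ hc).1 hy2) h
  rw [h2, finrank_bot, add_zero, finrank_span_singleton hx, ← Submodule.span_insert] at h1
  rw [h1, add_comm]

private theorem rk_insert (j : ℕ) (B : Finset (ι → ZMod 2)) (v : ι → ZMod 2) :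
    rk j (insert v B) = Module.finrank (ZMod 2)
      (Submodule.span (ZMod 2) (insert (ev j v) (ev j '' (B : Set (ι → ZMod 2))))) := by
  unfold rk
  rw [Finset.coe_insert, Set.image_insert_eq]

theorem rk_le_card (j : ℕ) (B : Finset (ι → ZMod 2)) : rk j B ≤ B.card := by
  classical
  unfold rk
  rw [← Finset.coe_image]
  exact (finrank_span_finset_le_card _).trans Finset.card_image_le

private theorem rk_mono (j : ℕ) {B B' : Finset (ι → ZMod 2)} (h : B ⊆ B') : rk j B ≤ rk j B' := by
  unfold rk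
  exact Submodule.finrank_mono (Submodule.span_mono (Set.image_mono (Finset.coe_subset.2 h)))

private theorem rk_insert_of_mem (B : Finset (ι → ZMod 2)) (v : ι → ZMod 2) (h : v ∈ clo 4 B) :
    rk 4 (insert v B) = rk 4 B := by
  rw [rk_insert, finrank_insert_of_mem]
  · rfl
  · exact mem_clo.1 h

private theorem rk_insert_of_notMem (B : Finset (ι → ZMod 2)) (v : ι → ZMod 2)
    (h : v ∉ clo 4 B) : rk 4 (insert v B) = rk 4 B + 1 := by
  rw [rk_insert, finrank_insert_of_notMem]
  · rfl
  · exact fun h' => h (mem_clo.2 h')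

theorem dfc_insert (B : Finset (ι → ZMod 2)) (v : ι → ZMod 2) (hv : v ∉ B) :
    dfc (insert v B) ≤ dfc B + if v ∈ clo 4 B then 1 else 0 := by
  have h1 := rk_le_card 4 B
  unfold dfc
  rw [Finset.card_insert_of_notMem hv]
  by_cases h : v ∈ clo 4 B
  · rw [rk_insert_of_mem B v h, if_pos h]
    omega
  · rw [rk_insert_of_notMem B v h, if_neg h]
    omega

/-- the rank grows by two unless `b`, `b + ψ` or the sum is in the closure -/
theorem dfc_pair (B : Finset (ι → ZMod 2)) (b ψ : ι → ZMod 2) (hψ : ψ ≠ 0) (hb : b ∉ B)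
    (hb' : b + ψ ∉ B) :
    dfc (insert b (insert (b + ψ) B)) ≤ dfc B +
      if b ∈ clo 4 B ∨ b + ψ ∈ clo 4 B ∨ b ∈ clp 4 B ψ then 2 else 0 := by
  have h1 := rk_le_card 4 B
  have hne : b ≠ b + ψ := by
    intro h
    exact hψ (left_eq_add.1 h)
  have hcard : (insert b (insert (b + ψ) B)).card = B.card + 2 := by
    rw [Finset.card_insert_of_notMem, Finset.card_insert_of_notMem hb']
    rw [Finset.mem_insert]
    rintro (h | h)
    · exact hne h
    · exact hb h
  unfold dfc
  rw [hcard]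
  by_cases h : b ∈ clo 4 B ∨ b + ψ ∈ clo 4 B ∨ b ∈ clp 4 B ψ
  · rw [if_pos h]
    have h2 : rk 4 B ≤ rk 4 (insert b (insert (b + ψ) B)) :=
      rk_mono 4 ((Finset.subset_insert _ _).trans (Finset.subset_insert _ _))
    omega
  · rw [if_neg h]
    push Not at h
    obtain ⟨h3, h4, h5⟩ := h
    have h6 := rk_insert_of_notMem B (b + ψ) h4
    have h7 : b ∉ clo 4 (insert (b + ψ) B) := by
      intro h8
      rw [mem_clo] at h8 h3
      rw [mem_clp] at h5
      have h9 := h8
      rw [Finset.coe_insert, Set.image_insert_eq, Submodule.mem_span_insert] at h9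
      obtain ⟨c, z, hz, hc⟩ := h9
      by_cases hc0 : c = 0
      · rw [hc0, zero_smul, zero_add] at hc
        exact h3 (hc ▸ hz)
      · have hc1 : c = 1 := by
          have : ∀ x : ZMod 2, x ≠ 0 → x = 1 := by decide
          exact this c hc0
        refine h5 ?_
        have hz2 : ev 4 b + ev 4 (b + ψ) = z := by
          rw [hc, hc1, one_smul]
          have h10 : ev 4 (b + ψ) + ev 4 (b + ψ) = 0 := by
            funext I
            exact CharTwo.add_self_eq_zero _
          calc ev 4 (b + ψ) + z + ev 4 (b + ψ) = (ev 4 (b + ψ) + ev 4 (b + ψ)) + z := by abel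
            _ = z := by rw [h10, zero_add]
        rw [hz2]
        exact hz
    have h8 := rk_insert_of_notMem (insert (b + ψ) B) b h7
    omega

private theorem pow_dfc_le (μ : ℝ) (hμ : 1 ≤ μ) {x y k : ℕ} (h : x ≤ y + k) :
    μ ^ x ≤ μ ^ y * μ ^ k := by
  rw [← pow_add]
  exact pow_le_pow_right₀ hμ h

private theorem card_pi : (univ : Finset (ι → ZMod 2)).card = 2 ^ Fintype.card ι := by
  rw [Finset.card_univ, Fintype.card_fun, ZMod.card]

theorem sum_insert_le (B : Finset (ι → ZMod 2)) (μ c₁ : ℝ) (hμ : 1 ≤ μ)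
    (hc : ((clo 4 B).card : ℝ) ≤ c₁) :
    ∑ v ∈ univ.filter (fun v => v ∉ B), μ ^ dfc (insert v B)
      ≤ μ ^ dfc B * (2 ^ Fintype.card ι + μ * c₁) := by
  classical
  have hμ0 : (0 : ℝ) ≤ μ := by linarith
  have hstep : ∀ v ∈ univ.filter (fun v => v ∉ B), μ ^ dfc (insert v B)
      ≤ μ ^ dfc B * (1 + if v ∈ clo 4 B then μ else 0) := by
    intro v hv
    rw [Finset.mem_filter] at hv
    have h1 := dfc_insert B v hv.2
    by_cases h : v ∈ clo 4 B
    · rw [if_pos h] at h1 ⊢
      refine (pow_dfc_le μ hμ h1).trans ?_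
      rw [pow_one]
      exact mul_le_mul_of_nonneg_left (by linarith) (pow_nonneg hμ0 _)
    · rw [if_neg h] at h1 ⊢
      refine (pow_dfc_le μ hμ h1).trans ?_
      rw [pow_zero, add_zero]
  refine (Finset.sum_le_sum hstep).trans ?_
  rw [← Finset.mul_sum]
  refine mul_le_mul_of_nonneg_left ?_ (pow_nonneg hμ0 _)
  have hnn : ∀ v : ι → ZMod 2, (0 : ℝ) ≤ 1 + if v ∈ clo 4 B then μ else 0 := by
    intro v
    split_ifs <;> linarith
  calc ∑ v ∈ univ.filter (fun v => v ∉ B), ((1 : ℝ) + if v ∈ clo 4 B then μ else 0)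
      ≤ ∑ v : ι → ZMod 2, ((1 : ℝ) + if v ∈ clo 4 B then μ else 0) :=
        Finset.sum_le_sum_of_subset_of_nonneg (Finset.subset_univ _) fun v _ _ => hnn v
    _ = 2 ^ Fintype.card ι + μ * (clo 4 B).card := by
        rw [Finset.sum_add_distrib, Finset.sum_const, card_pi, nsmul_eq_mul, mul_one,
          Finset.sum_ite_mem, Finset.univ_inter, Finset.sum_const, nsmul_eq_mul]
        push_cast
        ring
    _ ≤ 2 ^ Fintype.card ι + μ * c₁ := by
        have := mul_le_mul_of_nonneg_left hc hμ0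
        linarith

private theorem card_shift (C : Finset (ι → ZMod 2)) (ψ : ι → ZMod 2) :
    (univ.filter fun b => b + ψ ∈ C).card = C.card := by
  refine Finset.card_bij (fun b _ => b + ψ) ?_ ?_ ?_
  · intro b hb
    rw [Finset.mem_filter] at hb
    exact hb.2
  · intro b _ b' _ h
    exact add_right_cancel h
  · intro b hb
    refine ⟨b - ψ, ?_, ?_⟩
    · rw [Finset.mem_filter, sub_add_cancel]
      exact ⟨Finset.mem_univ _, hb⟩
    · exact sub_add_cancel _ _

theorem sum_pair_le (B : Finset (ι → ZMod 2)) (ψ : ι → ZMod 2) (hψ : ψ ≠ 0) (μ c₁ : ℝ) (hμ : 1 ≤ μ)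
    (hc : ((clo 4 B).card : ℝ) ≤ c₁) (hc' : ((clp 4 B ψ).card : ℝ) ≤ c₁) :
    ∑ b ∈ univ.filter (fun b => b ∉ B ∧ b + ψ ∉ B), μ ^ dfc (insert b (insert (b + ψ) B))
      ≤ μ ^ dfc B * (2 ^ Fintype.card ι + 3 * μ ^ 2 * c₁) := by
  classical
  have hμ0 : (0 : ℝ) ≤ μ := by linarith
  have hμ2 : (0 : ℝ) ≤ μ ^ 2 := pow_nonneg hμ0 _
  set f : (ι → ZMod 2) → ℝ := fun b => 1 + (if b ∈ clo 4 B then μ ^ 2 else 0)
    + (if b ∈ univ.filter (fun b => b + ψ ∈ clo 4 B) then μ ^ 2 else 0)
    + (if b ∈ clp 4 B ψ then μ ^ 2 else 0) with hf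
  have hnn : ∀ b, 0 ≤ f b := by
    intro b
    rw [hf]
    dsimp only
    split_ifs <;> linarith
  have hstep : ∀ b ∈ univ.filter (fun b => b ∉ B ∧ b + ψ ∉ B),
      μ ^ dfc (insert b (insert (b + ψ) B)) ≤ μ ^ dfc B * f b := by
    intro b hb
    rw [Finset.mem_filter] at hb
    have h1 := dfc_pair B b ψ hψ hb.2.1 hb.2.2
    by_cases h : b ∈ clo 4 B ∨ b + ψ ∈ clo 4 B ∨ b ∈ clp 4 B ψ
    · rw [if_pos h] at h1
      refine (pow_dfc_le μ hμ h1).trans (mul_le_mul_of_nonneg_left ?_ (pow_nonneg hμ0 _))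
      rw [hf]
      dsimp only
      rcases h with h | h | h
      · rw [if_pos h]
        split_ifs <;> linarith
      · have h' : b ∈ univ.filter (fun b => b + ψ ∈ clo 4 B) := by
          rw [Finset.mem_filter]
          exact ⟨Finset.mem_univ _, h⟩
        rw [if_pos h']
        split_ifs <;> linarith
      · rw [if_pos h]
        split_ifs <;> linarith
    · rw [if_neg h] at h1
      refine (pow_dfc_le μ hμ h1).trans (mul_le_mul_of_nonneg_left ?_ (pow_nonneg hμ0 _))
      rw [hf, pow_zero]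
      dsimp only
      split_ifs <;> linarith
  refine (Finset.sum_le_sum hstep).trans ?_
  rw [← Finset.mul_sum]
  refine mul_le_mul_of_nonneg_left ?_ (pow_nonneg hμ0 _)
  have hsum : ∀ C : Finset (ι → ZMod 2), ∑ b : ι → ZMod 2, (if b ∈ C then μ ^ 2 else 0)
      = μ ^ 2 * C.card := by
    intro C
    rw [Finset.sum_ite_mem, Finset.univ_inter, Finset.sum_const, nsmul_eq_mul, mul_comm]
  calc ∑ b ∈ univ.filter (fun b => b ∉ B ∧ b + ψ ∉ B), f b
      ≤ ∑ b : ι → ZMod 2, f b :=
        Finset.sum_le_sum_of_subset_of_nonneg (Finset.subset_univ _) fun v _ _ => hnn v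
    _ = 2 ^ Fintype.card ι + μ ^ 2 * (clo 4 B).card
          + μ ^ 2 * (univ.filter (fun b => b + ψ ∈ clo 4 B)).card
          + μ ^ 2 * (clp 4 B ψ).card := by
        rw [hf]
        dsimp only
        rw [Finset.sum_add_distrib, Finset.sum_add_distrib, Finset.sum_add_distrib, hsum, hsum,
          hsum, Finset.sum_const, card_pi, nsmul_eq_mul, mul_one]
        push_cast
        ring
    _ ≤ 2 ^ Fintype.card ι + 3 * μ ^ 2 * c₁ := by
        rw [card_shift]
        have h1 := mul_le_mul_of_nonneg_left hc hμ2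
        have h2 := mul_le_mul_of_nonneg_left hc' hμ2
        linarith


end Pool.Agent.Lib.MP_938ce2_ag_l4
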