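import Mathlib
import Pool.Agent.Lib.MP_938ce2_ag_l4.T21

set_option autoImplicit false
set_option linter.unusedSectionVars false

namespace Pool.Agent.Lib.MP_938ce2_ag_l4

open Finset

variable {ι : Type} [Fintype ι] [DecidableEq ι]

private lemma sum_cons_eq {Y : Type} [Fintype Y] (n : ℕ) (f : (Fin (n + 1) → Y) → ℝ) :
    ∑ q, f q = ∑ x : Y, ∑ q' : Fin n → Y, f (Fin.cons x q') := by
  rw [← (Fin.consEquiv (fun _ : Fin (n + 1) => Y)).sum_comp, Fintype.sum_prod_type]
  rfl

private lemma card_BB_le {M p : ℕ} (a : Fin M → ι → ZMod 2)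
    (q : Fin p → (Fin M × Fin M) × (ι → ZMod 2)) : (BB a q).card ≤ M + 2 * p := by
  unfold BB
  refine (card_union_le _ _).trans ?_
  have h1 := card_union_le (univ.image a) (univ.image fun i => (q i).2)
  have h2 : (univ.image a).card ≤ M := card_image_le.trans (by simp)
  have h3 : (univ.image fun i => (q i).2).card ≤ p := card_image_le.trans (by simp)
  have h4 : (univ.image fun i => (q i).2 + (a (q i).1.1 + a (q i).1.2)).card ≤ p :=
    card_image_le.trans (by simp)
  omega

private lemma BB_cons {M p : ℕ} (a : Fin M → ι → ZMod 2)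
    (x : (Fin M × Fin M) × (ι → ZMod 2)) (q : Fin p → (Fin M × Fin M) × (ι → ZMod 2)) :
    BB a (Fin.cons x q : Fin (p + 1) → (Fin M × Fin M) × (ι → ZMod 2)) =
      insert x.2 (insert (x.2 + (a x.1.1 + a x.1.2)) (BB a q)) := by
  ext v
  simp only [BB, mem_union, mem_image, mem_univ, true_and, mem_insert, Fin.exists_fin_succ,
    Fin.cons_zero, Fin.cons_succ, eq_comm (a := v)]
  tauto

private lemma okk_cons {M p : ℕ} (a : Fin M → ι → ZMod 2)
    (x : (Fin M × Fin M) × (ι → ZMod 2)) (q : Fin p → (Fin M × Fin M) × (ι → ZMod 2))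
    (h : Okk a (Fin.cons x q : Fin (p + 1) → (Fin M × Fin M) × (ι → ZMod 2))) :
    Okk a q ∧ a x.1.1 + a x.1.2 ≠ 0 ∧ x.2 ∉ BB a q ∧ x.2 + (a x.1.1 + a x.1.2) ∉ BB a q := by
  obtain ⟨h1, h2⟩ := h
  rw [BB_cons] at h1
  have h3 := card_BB_le a q
  have h4 := card_insert_le x.2 (insert (x.2 + (a x.1.1 + a x.1.2)) (BB a q))
  have h5 := card_insert_le (x.2 + (a x.1.1 + a x.1.2)) (BB a q)
  refine ⟨⟨by omega, ?_⟩, ?_, ?_, ?_⟩
  · intro i
    have := h2 i.succ
    simpa only [Fin.cons_succ] using this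
  · intro h0
    have := h2 0
    simp only [Fin.cons_zero] at this
    apply this
    funext i
    have hi := congrFun h0 i
    simp only [Pi.add_apply, Pi.zero_apply] at hi
    exact CharTwo.add_eq_zero.mp hi
  · intro hmem
    rw [insert_eq_of_mem (mem_insert_of_mem hmem)] at h1
    omega
  · intro hmem
    rw [insert_eq_of_mem hmem] at h1 h4
    omega

private lemma BB_zero {M : ℕ} (a : Fin M → ι → ZMod 2)
    (q : Fin 0 → (Fin M × Fin M) × (ι → ZMod 2)) : BB a q = univ.image a := by
  unfold BB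
  simp

private lemma dfc_empty : dfc (∅ : Finset (ι → ZMod 2)) = 0 := by
  unfold dfc
  simp

private lemma image_cons {M : ℕ} (v : ι → ZMod 2) (a : Fin M → ι → ZMod 2) :
    univ.image (Fin.cons v a : Fin (M + 1) → ι → ZMod 2) = insert v (univ.image a) := by
  ext u
  simp only [mem_image, mem_univ, true_and, mem_insert, Fin.exists_fin_succ,
    Fin.cons_zero, Fin.cons_succ, eq_comm (a := u)]

private lemma base_le (M : ℕ) (μ c₁ : ℝ) (hμ : 1 ≤ μ)
    (hc : ∀ B : Finset (ι → ZMod 2), B.card ≤ M → ((clo 4 B).card : ℝ) ≤ c₁) :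
    ∑ a : Fin M → ι → ZMod 2,
        (if (univ.image a).card = M then μ ^ dfc (univ.image a) else 0)
      ≤ (2 ^ Fintype.card ι + μ * c₁) ^ M := by
  induction M with
  | zero =>
    rw [Fintype.sum_unique]
    simp [dfc_empty]
  | succ M ih =>
    have hc0 : 0 ≤ c₁ := (Nat.cast_nonneg _).trans (hc ∅ (by simp))
    have ih' := ih fun B hB => hc B (by omega)
    rw [sum_cons_eq, sum_comm]
    have hD : (0 : ℝ) ≤ 2 ^ Fintype.card ι + μ * c₁ := by positivity
    calc ∑ a : Fin M → ι → ZMod 2, ∑ v : ι → ZMod 2,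
          (if (univ.image (Fin.cons v a : Fin (M + 1) → ι → ZMod 2)).card = M + 1 then
            μ ^ dfc (univ.image (Fin.cons v a : Fin (M + 1) → ι → ZMod 2)) else 0)
        ≤ ∑ a : Fin M → ι → ZMod 2,
          (if (univ.image a).card = M then μ ^ dfc (univ.image a) else 0) *
            (2 ^ Fintype.card ι + μ * c₁) := by
          refine sum_le_sum fun a _ => ?_
          have hle : (univ.image a).card ≤ M := card_image_le.trans (by simp)
          by_cases hM : (univ.image a).card = M
          · rw [if_pos hM]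
            refine le_trans ?_ (sum_insert_le (univ.image a) μ c₁ hμ (hc _ (by omega)))
            rw [sum_filter]
            refine sum_le_sum fun v _ => ?_
            rw [image_cons]
            by_cases hv : v ∈ univ.image a
            · rw [insert_eq_of_mem hv, if_neg (by omega), if_neg (not_not.mpr hv)]
            · rw [if_pos (by rw [card_insert_of_notMem hv, hM]), if_pos hv]
          · rw [if_neg hM, zero_mul]
            refine (sum_eq_zero fun v _ => ?_).le
            rw [image_cons, if_neg]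
            have := card_insert_le v (univ.image a)
            omega
      _ = (∑ a : Fin M → ι → ZMod 2,
          (if (univ.image a).card = M then μ ^ dfc (univ.image a) else 0)) *
            (2 ^ Fintype.card ι + μ * c₁) := by rw [sum_mul]
      _ ≤ (2 ^ Fintype.card ι + μ * c₁) ^ M * (2 ^ Fintype.card ι + μ * c₁) :=
          mul_le_mul_of_nonneg_right ih' hD
      _ = (2 ^ Fintype.card ι + μ * c₁) ^ (M + 1) := (pow_succ _ _).symm

private lemma step_le (M p : ℕ) (μ c₁ : ℝ) (hμ : 1 ≤ μ) (a : Fin M → ι → ZMod 2)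
    (hc : ∀ B : Finset (ι → ZMod 2), B.card ≤ M + 2 * p →
      ((clo 4 B).card : ℝ) ≤ c₁ ∧ ∀ ψ : ι → ZMod 2, ψ ≠ 0 → ((clp 4 B ψ).card : ℝ) ≤ c₁) :
    ∑ q : Fin p → (Fin M × Fin M) × (ι → ZMod 2), (if Okk a q then μ ^ dfc (BB a q) else 0)
      ≤ (if (univ.image a).card = M then μ ^ dfc (univ.image a) else 0)
        * ((M : ℝ) ^ 2 * (2 ^ Fintype.card ι + 3 * μ ^ 2 * c₁)) ^ p := by
  induction p with
  | zero =>
    rw [Fintype.sum_unique, pow_zero, mul_one]
    have e : ∀ q : Fin 0 → (Fin M × Fin M) × (ι → ZMod 2),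
        (Okk a q ↔ (univ.image a).card = M) := by
      intro q
      unfold Okk
      rw [BB_zero]
      simp
    simp only [e, BB_zero]
    exact le_refl _
  | succ p ih =>
    have hc0 : 0 ≤ c₁ := (Nat.cast_nonneg _).trans (hc ∅ (by simp)).1
    have ih' := ih fun B hB => hc B (by omega)
    have hE : (0 : ℝ) ≤ 2 ^ Fintype.card ι + 3 * μ ^ 2 * c₁ := by positivity
    have hD : (0 : ℝ) ≤ (M : ℝ) ^ 2 * (2 ^ Fintype.card ι + 3 * μ ^ 2 * c₁) := by positivity
    have hμ0 : (0 : ℝ) ≤ μ := by linarith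
    rw [sum_cons_eq, sum_comm]
    calc ∑ q : Fin p → (Fin M × Fin M) × (ι → ZMod 2), ∑ x : (Fin M × Fin M) × (ι → ZMod 2),
          (if Okk a (Fin.cons x q : Fin (p + 1) → (Fin M × Fin M) × (ι → ZMod 2)) then
            μ ^ dfc (BB a (Fin.cons x q : Fin (p + 1) → (Fin M × Fin M) × (ι → ZMod 2))) else 0)
        ≤ ∑ q : Fin p → (Fin M × Fin M) × (ι → ZMod 2),
          (if Okk a q then μ ^ dfc (BB a q) else 0) *
            ((M : ℝ) ^ 2 * (2 ^ Fintype.card ι + 3 * μ ^ 2 * c₁)) := by
          refine sum_le_sum fun q _ => ?_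
          by_cases hq : Okk a q
          · rw [if_pos hq, Fintype.sum_prod_type]
            have hcB := hc (BB a q) ((card_BB_le a q).trans (by omega))
            calc ∑ ij : Fin M × Fin M, ∑ b : ι → ZMod 2,
                  (if Okk a (Fin.cons (ij, b) q :
                      Fin (p + 1) → (Fin M × Fin M) × (ι → ZMod 2)) then
                    μ ^ dfc (BB a (Fin.cons (ij, b) q :
                      Fin (p + 1) → (Fin M × Fin M) × (ι → ZMod 2))) else 0)
                ≤ ∑ _ij : Fin M × Fin M,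
                  μ ^ dfc (BB a q) * (2 ^ Fintype.card ι + 3 * μ ^ 2 * c₁) := by
                  refine sum_le_sum fun ij _ => ?_
                  by_cases hψ : a ij.1 + a ij.2 = 0
                  · refine le_trans (sum_eq_zero fun b _ => ?_).le (by positivity)
                    rw [if_neg]
                    intro h
                    exact (okk_cons a (ij, b) q h).2.1 hψ
                  · refine le_trans ?_ (sum_pair_le (BB a q) (a ij.1 + a ij.2) hψ μ c₁ hμ
                      hcB.1 (hcB.2 _ hψ))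
                    rw [sum_filter]
                    refine sum_le_sum fun b _ => ?_
                    rw [BB_cons]
                    by_cases h : Okk a (Fin.cons (ij, b) q :
                      Fin (p + 1) → (Fin M × Fin M) × (ι → ZMod 2))
                    · obtain ⟨-, -, h3, h4⟩ := okk_cons a (ij, b) q h
                      rw [if_pos h, if_pos ⟨h3, h4⟩]
                    · rw [if_neg h]
                      split
                      · positivity
                      · exact le_refl _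
              _ = μ ^ dfc (BB a q) * ((M : ℝ) ^ 2 * (2 ^ Fintype.card ι + 3 * μ ^ 2 * c₁)) := by
                  rw [sum_const, card_univ, Fintype.card_prod, Fintype.card_fin, nsmul_eq_mul]
                  push_cast
                  ring
          · rw [if_neg hq, zero_mul]
            refine (sum_eq_zero fun x _ => ?_).le
            rw [if_neg]
            intro h
            exact hq (okk_cons a x q h).1
      _ = (∑ q : Fin p → (Fin M × Fin M) × (ι → ZMod 2),
          (if Okk a q then μ ^ dfc (BB a q) else 0)) *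
            ((M : ℝ) ^ 2 * (2 ^ Fintype.card ι + 3 * μ ^ 2 * c₁)) := by rw [sum_mul]
      _ ≤ ((if (univ.image a).card = M then μ ^ dfc (univ.image a) else 0)
        * ((M : ℝ) ^ 2 * (2 ^ Fintype.card ι + 3 * μ ^ 2 * c₁)) ^ p) *
            ((M : ℝ) ^ 2 * (2 ^ Fintype.card ι + 3 * μ ^ 2 * c₁)) :=
          mul_le_mul_of_nonneg_right ih' hD
      _ = (if (univ.image a).card = M then μ ^ dfc (univ.image a) else 0)
        * ((M : ℝ) ^ 2 * (2 ^ Fintype.card ι + 3 * μ ^ 2 * c₁)) ^ (p + 1) := by
          rw [pow_succ]; ring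

/-- **The sum over all sequences**, by induction on `p` and on `M` (split off the last element; all elements are different) -/
theorem sum_seq_le (M p : ℕ) (μ c₁ : ℝ) (hμ : 1 ≤ μ)
    (hc : ∀ B : Finset (ι → ZMod 2), B.card ≤ M + 2 * p →
      ((clo 4 B).card : ℝ) ≤ c₁ ∧ ∀ ψ : ι → ZMod 2, ψ ≠ 0 → ((clp 4 B ψ).card : ℝ) ≤ c₁) :
    ∑ a : Fin M → ι → ZMod 2, ∑ q : Fin p → (Fin M × Fin M) × (ι → ZMod 2),
        (if Okk a q then μ ^ dfc (BB a q) else 0)
      ≤ (2 ^ Fintype.card ι + μ * c₁) ^ M
        * ((M : ℝ) ^ 2 * (2 ^ Fintype.card ι + 3 * μ ^ 2 * c₁)) ^ p := by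
  have hc0 : 0 ≤ c₁ := (Nat.cast_nonneg _).trans (hc ∅ (by simp)).1
  have hD : (0 : ℝ) ≤ (M : ℝ) ^ 2 * (2 ^ Fintype.card ι + 3 * μ ^ 2 * c₁) := by positivity
  calc ∑ a : Fin M → ι → ZMod 2, ∑ q : Fin p → (Fin M × Fin M) × (ι → ZMod 2),
        (if Okk a q then μ ^ dfc (BB a q) else 0)
      ≤ ∑ a : Fin M → ι → ZMod 2,
        (if (univ.image a).card = M then μ ^ dfc (univ.image a) else 0)
        * ((M : ℝ) ^ 2 * (2 ^ Fintype.card ι + 3 * μ ^ 2 * c₁)) ^ p :=
        sum_le_sum fun a _ => step_le M p μ c₁ hμ a hc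
    _ = (∑ a : Fin M → ι → ZMod 2,
        (if (univ.image a).card = M then μ ^ dfc (univ.image a) else 0))
        * ((M : ℝ) ^ 2 * (2 ^ Fintype.card ι + 3 * μ ^ 2 * c₁)) ^ p := by rw [sum_mul]
    _ ≤ _ := mul_le_mul_of_nonneg_right
        (base_le M μ c₁ hμ fun B hB => (hc B (by omega)).1) (by positivity)


end Pool.Agent.Lib.MP_938ce2_ag_l4
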