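import Mathlib
import Pool.Agent.Lib.MP_938ce2_ag_l4.T01
import Pool.Agent.Lib.MP_938ce2_ag_l4.D2

set_option autoImplicit false
set_option linter.unusedSectionVars false

namespace Pool.Agent.Lib.MP_938ce2_ag_l4

open Finset

variable {ι : Type} [Fintype ι] [DecidableEq ι] {X : Type} [Fintype X] [DecidableEq X] {c : X → X}
  {y : X → ι → ZMod 2} {c₀ : ι → ZMod 2} {g : ℕ}

private theorem t22_add_self (v : ι → ZMod 2) : v + v = 0 := by
  funext i
  exact CharTwo.add_self_eq_zero (v i)

private theorem t22_mem_sp {A : Finset (ι → ZMod 2)} {v : ι → ZMod 2} :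
    v ∈ sp A ↔ v ∈ Submodule.span (ZMod 2) (A : Set (ι → ZMod 2)) := by
  classical
  simp only [sp, Finset.mem_filter, Finset.mem_univ, true_and]

private theorem t22_sub_sp {A : Finset (ι → ZMod 2)} {v : ι → ZMod 2} (h : v ∈ A) : v ∈ sp A :=
  t22_mem_sp.2 (Submodule.subset_span h)

private theorem t22_add_sp {A : Finset (ι → ZMod 2)} {v w : ι → ZMod 2} (h : v ∈ sp A)
    (h' : w ∈ sp A) : v + w ∈ sp A :=
  t22_mem_sp.2 (Submodule.add_mem _ (t22_mem_sp.1 h) (t22_mem_sp.1 h'))

/-- the disjoint union of the three parts -/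
private theorem t22_card {M p : ℕ} (A : Finset (ι → ZMod 2)) (hA : A.card = M)
    (b : Fin p → ι → ZMod 2) (s : Fin p → ι → ZMod 2) (hb : ∀ i, b i ∉ sp A)
    (hs : ∀ i, s i ∈ sp A) (hs0 : ∀ i, s i ≠ 0) (hij : ∀ i j, i ≠ j → b i + b j ∉ sp A) :
    (A ∪ univ.image b ∪ univ.image (fun i => b i + s i)).card = M + 2 * p := by
  have hbinj : Function.Injective b := by
    intro i j h
    by_contra hne
    apply hij i j hne
    rw [h, t22_add_self]
    exact t22_mem_sp.2 (Submodule.zero_mem _)
  have hbsinj : Function.Injective (fun i => b i + s i) := by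
    intro i j h
    by_contra hne
    apply hij i j hne
    have h' : b i + s i = b j + s j := h
    have e : b i + b j = s i + s j := by
      have : b i + b j = (b i + s i) + (b j + s i) := by
        have e2 : (b i + s i) + (b j + s i) = b i + b j + (s i + s i) := by abel
        rw [e2, t22_add_self, add_zero]
      rw [this, h']
      have e3 : b j + s j + (b j + s i) = (b j + b j) + (s i + s j) := by abel
      rw [e3, t22_add_self, zero_add]
    rw [e]
    exact t22_add_sp (hs i) (hs j)
  have d1 : Disjoint A (univ.image b) := by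
    rw [Finset.disjoint_left]
    intro x hx hx'
    obtain ⟨i, -, rfl⟩ := Finset.mem_image.1 hx'
    exact hb i (t22_sub_sp hx)
  have d2 : Disjoint (A ∪ univ.image b) (univ.image (fun i => b i + s i)) := by
    rw [Finset.disjoint_left]
    intro x hx hx'
    obtain ⟨i, -, hi⟩ := Finset.mem_image.1 hx'
    rcases Finset.mem_union.1 hx with hx | hx
    · apply hb i
      have : b i = x + s i := by
        rw [← hi, add_assoc, t22_add_self, add_zero]
      rw [this]
      exact t22_add_sp (t22_sub_sp hx) (hs i)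
    · obtain ⟨j, -, hj⟩ := Finset.mem_image.1 hx
      by_cases hne : i = j
      · subst hne
        apply hs0 i
        have h1 : b i + s i = b i := by rw [hi, hj]
        have h2 : b i + (b i + s i) = b i + b i := by rw [h1]
        rwa [← add_assoc, t22_add_self, zero_add] at h2
      · apply hij i j hne
        rw [hj, ← hi, ← add_assoc, t22_add_self, zero_add]
        exact hs i
  rw [Finset.card_union_of_disjoint d2, Finset.card_union_of_disjoint d1,
    Finset.card_image_of_injective _ hbinj, Finset.card_image_of_injective _ hbsinj, hA,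
    Finset.card_univ, Fintype.card_fin]
  ring

private theorem t22_key (M p : ℕ) (S : Finset (ι → ZMod 2)) (h : E3 M p S) :
    ∃ t ⊆ (univ : Finset ((Fin M → ι → ZMod 2) × (Fin p → (Fin M × Fin M) × (ι → ZMod 2)))).filter
          (fun k => Okk k.1 k.2), p.factorial ≤ t.card ∧ ∀ k ∈ t, BB k.1 k.2 ⊆ S := by
  obtain ⟨A, hAS, hAM, β, hβ, hij⟩ := h
  -- the enumeration of `A`
  let e : A ≃ Fin M := Finset.equivFinOfCardEq hAM
  let a : Fin M → ι → ZMod 2 := fun i => ((e.symm i : A) : ι → ZMod 2)
  have ha : ∀ i, a i ∈ A := fun i => (e.symm i).2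
  have haimg : univ.image a = A := by
    ext x
    rw [Finset.mem_image]
    constructor
    · rintro ⟨i, -, rfl⟩
      exact ha i
    · intro hx
      exact ⟨e ⟨x, hx⟩, Finset.mem_univ _, by simp [a]⟩
  have hsurj : ∀ x ∈ A, ∃ i, a i = x := by
    intro x hx
    rw [← haimg, Finset.mem_image] at hx
    obtain ⟨i, -, hi⟩ := hx
    exact ⟨i, hi⟩
  -- the indices
  have hidx : ∀ i : Fin p, ∃ uv : Fin M × Fin M, a uv.1 ≠ a uv.2 ∧ (β i).2 = a uv.1 + a uv.2 := by
    intro i
    obtain ⟨-, -, -, x, hx, x', hx', hne, hsum⟩ := hβ i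
    obtain ⟨u, hu⟩ := hsurj x hx
    obtain ⟨v, hv⟩ := hsurj x' hx'
    exact ⟨(u, v), by rw [hu, hv]; exact hne, by rw [hu, hv]; exact hsum⟩
  choose uv huv using hidx
  let q : Equiv.Perm (Fin p) → Fin p → (Fin M × Fin M) × (ι → ZMod 2) :=
    fun π i => (uv (π i), (β (π i)).1)
  have hβinj : Function.Injective fun i => (β i).1 := by
    intro i j h
    by_contra hne
    apply hij i j hne
    have h' : (β i).1 = (β j).1 := h
    rw [h', t22_add_self]
    exact t22_mem_sp.2 (Submodule.zero_mem _)
  have hqinj : Function.Injective fun π => (a, q π) := by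
    intro π π' h
    have h1 : q π = q π' := congrArg Prod.snd h
    refine Equiv.ext fun i => ?_
    have h2 := congrArg Prod.snd (congrFun h1 i)
    exact hβinj h2
  have hsSp : ∀ i, (β i).2 ∈ sp A := by
    intro i
    rw [(huv i).2]
    exact t22_add_sp (t22_sub_sp (ha _)) (t22_sub_sp (ha _))
  have hs0 : ∀ i, (β i).2 ≠ 0 := by
    intro i h
    apply (huv i).1
    rw [(huv i).2] at h
    have : a (uv i).1 + a (uv i).2 + a (uv i).2 = a (uv i).2 := by rw [h, zero_add]
    rwa [add_assoc, t22_add_self, add_zero] at this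
  have hBB : ∀ π, BB a (q π) = A ∪ univ.image (fun i => (β i).1) ∪
      univ.image (fun i => (β i).1 + (β i).2) := by
    intro π
    unfold BB
    rw [haimg]
    have e1 : univ.image (fun i => (q π i).2) = univ.image (fun i => (β i).1) := by
      ext x
      rw [Finset.mem_image, Finset.mem_image]
      constructor
      · rintro ⟨i, -, hi⟩
        exact ⟨π i, Finset.mem_univ _, hi⟩
      · rintro ⟨i, -, hi⟩
        refine ⟨π.symm i, Finset.mem_univ _, ?_⟩
        show (β (π (π.symm i))).1 = x
        rw [Equiv.apply_symm_apply]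
        exact hi
    have e2 : univ.image (fun i => (q π i).2 + (a (q π i).1.1 + a (q π i).1.2)) =
        univ.image (fun i => (β i).1 + (β i).2) := by
      ext x
      rw [Finset.mem_image, Finset.mem_image]
      constructor
      · rintro ⟨i, -, hi⟩
        refine ⟨π i, Finset.mem_univ _, ?_⟩
        show (β (π i)).1 + (β (π i)).2 = x
        rw [(huv (π i)).2]
        exact hi
      · rintro ⟨i, -, hi⟩
        refine ⟨π.symm i, Finset.mem_univ _, ?_⟩
        show (β (π (π.symm i))).1 + (a (uv (π (π.symm i))).1 + a (uv (π (π.symm i))).2) = x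
        rw [Equiv.apply_symm_apply, ← (huv i).2]
        exact hi
    rw [e1, e2]
  refine ⟨univ.image fun π => (a, q π), ?_, ?_, ?_⟩
  · intro k hk
    obtain ⟨π, -, rfl⟩ := Finset.mem_image.1 hk
    rw [Finset.mem_filter]
    refine ⟨Finset.mem_univ _, ?_, ?_⟩
    · show (BB a (q π)).card = M + 2 * p
      rw [hBB π]
      exact t22_card A hAM (fun i => (β i).1) (fun i => (β i).2) (fun i => (hβ i).2.2.1) hsSp hs0 hij
    · intro i
      exact (huv (π i)).1
  · rw [Finset.card_image_of_injective _ hqinj, Finset.card_univ, Fintype.card_perm,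
      Fintype.card_fin]
  · intro k hk
    obtain ⟨π, -, rfl⟩ := Finset.mem_image.1 hk
    show BB a (q π) ⊆ S
    rw [hBB π]
    refine Finset.union_subset (Finset.union_subset hAS ?_) ?_
    · intro x hx
      obtain ⟨i, -, rfl⟩ := Finset.mem_image.1 hx
      exact (hβ i).1
    · intro x hx
      obtain ⟨i, -, rfl⟩ := Finset.mem_image.1 hx
      exact (hβ i).2.1

/-- **Markov with the permutations.** `cnt_markov` with `N = p!`: from `A` and `β` choose an enumeration `a` of `A`, indices of
the two elements of `A` with sum `(β i).2`, and permute `Fin p`; the `(β i).1` are different; all elements are different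
because `(β i).1` and `(β i).1 + (β i).2` are in one coset of `sp A`, different for different `i`, and not `sp A`. -/
theorem E3_markov (M p : ℕ) :
    cnt c (fun Φ => E3 M p (SS y c₀ Φ))
      ≤ (∑ k ∈ (univ : Finset ((Fin M → ι → ZMod 2) × (Fin p → (Fin M × Fin M) × (ι → ZMod 2)))).filter
          (fun k => Okk k.1 k.2), cnt c (fun Φ => BB k.1 k.2 ⊆ SS y c₀ Φ)) / p.factorial := by
  have key : ∀ Φ, Typ c Φ → E3 M p (SS y c₀ Φ) →
      ∃ t ⊆ (univ : Finset ((Fin M → ι → ZMod 2) × (Fin p → (Fin M × Fin M) × (ι → ZMod 2)))).filter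
          (fun k => Okk k.1 k.2), p.factorial ≤ t.card ∧ ∀ k ∈ t, BB k.1 k.2 ⊆ SS y c₀ Φ :=
    fun Φ _ h => t22_key M p (SS y c₀ Φ) h
  generalize hs : (univ : Finset ((Fin M → ι → ZMod 2) × (Fin p → (Fin M × Fin M) × (ι → ZMod 2)))).filter
          (fun k => Okk k.1 k.2) = s at key ⊢
  exact cnt_markov s (fun k Φ => BB k.1 k.2 ⊆ SS y c₀ Φ) (fun Φ => E3 M p (SS y c₀ Φ)) p.factorial
    (Nat.factorial_pos p) key

end Pool.Agent.Lib.MP_938ce2_ag_l4
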