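import Mathlib
import Pool.Agent.Lib.MP_938ce2_ag_l4.T09
import Pool.Agent.Lib.MP_938ce2_ag_l4.T22a
import Pool.Agent.Lib.MP_938ce2_ag_l4.T22b

set_option autoImplicit false
set_option linter.unusedSectionVars false

namespace Pool.Agent.Lib.MP_938ce2_ag_l4

open Finset

variable {ι : Type} [Fintype ι] [DecidableEq ι] {X : Type} [Fintype X] [DecidableEq X] {c : X → X}
  {y : X → ι → ZMod 2} {c₀ : ι → ZMod 2} {g : ℕ}

/-- `E3_markov`, `prob_gen` with `B = BB a q`, `B.card = M + 2 * p = μ`, and `sum_seq_le`, `card_V_le` -/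
theorem E3_raw (hD : Dat c y c₀ g) (hg : 2 ≤ g) (M p : ℕ) (hM : 1 ≤ M) (c₁ : ℝ)
    (hc : ∀ B : Finset (ι → ZMod 2), B.card ≤ M + 2 * p →
      ((clo 4 B).card : ℝ) ≤ c₁ ∧ ∀ ψ : ι → ZMod 2, ψ ≠ 0 → ((clp 4 B ψ).card : ℝ) ≤ c₁)
    (hm : 8 * (M + 2 * p : ℝ) ^ 5 * Real.log g ≤ g) :
    cnt c (fun Φ => E3 M p (SS y c₀ Φ))
      ≤ 2 * (64 / √g) ^ (M + 2 * p) * (2 * g + (M + 2 * p) * c₁) ^ M
        * ((M : ℝ) ^ 2 * (2 * g + 3 * (M + 2 * p : ℝ) ^ 2 * c₁)) ^ p / p.factorial * 2 ^ g := by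
  classical
  have hc₁ : 0 ≤ c₁ := by
    have h := (hc ∅ (by simp)).1
    exact le_trans (Nat.cast_nonneg _) h
  have hμ1 : (1 : ℝ) ≤ ((M + 2 * p : ℕ) : ℝ) := by
    exact_mod_cast (by omega : 1 ≤ M + 2 * p)
  have hμe : ((M + 2 * p : ℕ) : ℝ) = (M : ℝ) + 2 * p := by push_cast; ring
  have h1 := E3_markov (c := c) (y := y) (c₀ := c₀) M p
  have hK : (0 : ℝ) ≤ 2 * (64 / √(g : ℝ)) ^ (M + 2 * p) * 2 ^ g := by positivity
  have h2 : (∑ k ∈ (univ : Finset ((Fin M → ι → ZMod 2) × (Fin p → (Fin M × Fin M) × (ι → ZMod 2)))).filter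
          (fun k => Okk k.1 k.2), cnt c (fun Φ => BB k.1 k.2 ⊆ SS y c₀ Φ))
      ≤ 2 * (64 / √(g : ℝ)) ^ (M + 2 * p) * 2 ^ g *
        ∑ a : Fin M → ι → ZMod 2, ∑ q : Fin p → (Fin M × Fin M) × (ι → ZMod 2),
          (if Okk a q then ((M + 2 * p : ℕ) : ℝ) ^ dfc (BB a q) else 0) := by
    rw [← Fintype.sum_prod_type (f := fun k : (Fin M → ι → ZMod 2) × (Fin p → (Fin M × Fin M) × (ι → ZMod 2)) =>
      (if Okk k.1 k.2 then ((M + 2 * p : ℕ) : ℝ) ^ dfc (BB k.1 k.2) else 0)), ← Finset.sum_filter, Finset.mul_sum]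
    refine Finset.sum_le_sum fun k hk => ?_
    have hok : Okk k.1 k.2 := (Finset.mem_filter.1 hk).2
    have hcard : (BB k.1 k.2).card = M + 2 * p := hok.1
    have hne : (BB k.1 k.2).Nonempty := by
      rw [← Finset.card_pos, hcard]; omega
    have h3 := prob_gen hD hg (BB k.1 k.2) hne (by rw [hcard, hμe]; exact hm)
    refine h3.trans (le_of_eq ?_)
    rw [dfc, hcard]
    ring
  have h4 := sum_seq_le (ι := ι) M p ((M + 2 * p : ℕ) : ℝ) c₁ hμ1 hc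
  have hV : ((2 : ℝ) ^ Fintype.card ι) ≤ 2 * g := by
    exact_mod_cast card_V_le hD
  have hfac : (0 : ℝ) < (p.factorial : ℝ) := by exact_mod_cast p.factorial_pos
  have h5 : ((2 : ℝ) ^ Fintype.card ι + ((M + 2 * p : ℕ) : ℝ) * c₁) ^ M
        * ((M : ℝ) ^ 2 * (2 ^ Fintype.card ι + 3 * ((M + 2 * p : ℕ) : ℝ) ^ 2 * c₁)) ^ p
      ≤ (2 * g + (M + 2 * p) * c₁) ^ M
        * ((M : ℝ) ^ 2 * (2 * g + 3 * (M + 2 * p : ℝ) ^ 2 * c₁)) ^ p := by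
    rw [hμe]
    gcongr
  calc cnt c (fun Φ => E3 M p (SS y c₀ Φ))
      ≤ _ := h1
    _ ≤ (2 * (64 / √(g : ℝ)) ^ (M + 2 * p) * 2 ^ g * ((2 * g + (M + 2 * p) * c₁) ^ M
        * ((M : ℝ) ^ 2 * (2 * g + 3 * (M + 2 * p : ℝ) ^ 2 * c₁)) ^ p)) / p.factorial := by
        refine div_le_div_of_nonneg_right (h2.trans ?_) hfac.le
        exact mul_le_mul_of_nonneg_left (h4.trans h5) hK
    _ = _ := by ring

end Pool.Agent.Lib.MP_938ce2_ag_l4
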