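import Mathlib

set_option autoImplicit false
set_option linter.unusedSectionVars false

namespace Pool.Agent.Lib.MP_938ce2_ag_l4

open Finset

namespace T23aaux

open Filter Real

theorem ev_pow (c : ℝ) (n : ℕ) : ∀ᶠ x : ℝ in atTop, c * x ^ n ≤ exp x := by
  have h := (isLittleO_pow_exp_atTop (n := n)).const_mul_left c
  have h1 := h.bound (c := 1) one_pos
  filter_upwards [h1] with x hx
  rw [one_mul, Real.norm_eq_abs, Real.norm_eq_abs, abs_of_pos (exp_pos x)] at hx
  exact (le_abs_self _).trans hx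

theorem ev_log (c d : ℝ) : ∀ᶠ x : ℝ in atTop, c * log x + d ≤ x := by
  have h := (isLittleO_log_id_atTop).const_mul_left c
  have h1 := h.bound (c := 1 / 2) (by norm_num)
  filter_upwards [h1, eventually_ge_atTop (2 * d), eventually_ge_atTop (0 : ℝ)] with x hx hd h0
  rw [Real.norm_eq_abs, Real.norm_eq_abs, id, abs_of_nonneg h0] at hx
  have := (le_abs_self _).trans hx
  linarith

/-- all the facts about `g`, `ℓ = log g` and `M = ⌊ℓ / 10⌋₊` used below -/
theorem setup : ∃ g₀ : ℕ, ∀ g : ℕ, g₀ ≤ g → ∀ M : ℕ, M = ⌊Real.log g / 10⌋₊ →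
    (1 : ℝ) < g ∧ (1000 : ℝ) ≤ M ∧ 10 * (M : ℝ) ≤ Real.log g ∧
      1000 * Real.log M + 1000 ≤ (M : ℝ) ∧ 256 * Real.log g ^ 6 ≤ g := by
  have h1 : Tendsto (fun g : ℕ => Real.log (g : ℝ)) atTop atTop :=
    tendsto_log_atTop.comp tendsto_natCast_atTop_atTop
  have h2 : Tendsto (fun g : ℕ => ((⌊Real.log (g : ℝ) / 10⌋₊ : ℕ) : ℝ)) atTop atTop := by
    refine tendsto_natCast_atTop_atTop.comp (tendsto_nat_floor_atTop.comp ?_)
    exact h1.atTop_div_const (by norm_num)
  have h3 := h2.eventually ((eventually_ge_atTop (1000 : ℝ)).and (ev_log 1000 1000))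
  have h4 := h1.eventually ((ev_pow 256 6).and (eventually_ge_atTop (0 : ℝ)))
  have h5 : ∀ᶠ g : ℕ in atTop, 2 ≤ g := eventually_ge_atTop 2
  obtain ⟨g₀, hg₀⟩ := eventually_atTop.1 ((h3.and h4).and h5)
  refine ⟨g₀, fun g hg M hM => ?_⟩
  obtain ⟨⟨⟨ha, hb⟩, hc, hd⟩, he⟩ := hg₀ g hg
  subst hM
  have hg1 : (1 : ℝ) < g := by exact_mod_cast he
  refine ⟨hg1, ha, ?_, hb, ?_⟩
  · have := Nat.floor_le (show 0 ≤ Real.log (g : ℝ) / 10 by positivity)
    linarith
  · rwa [Real.exp_log (by linarith)] at hc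

end T23aaux

/-- pure analysis: the bound of `E1_raw` for `M = ⌊log g / 10⌋₊` -/
theorem e1_asymp : ∃ g₀ : ℕ, ∀ g : ℕ, g₀ ≤ g → ∀ M : ℕ, M = ⌊Real.log g / 10⌋₊ →
    2 ≤ M ∧ 8 * (3 * M : ℝ) ^ 5 * Real.log g ≤ g ∧
    2 * (2 * g : ℝ) ^ M * (2 ^ M : ℝ) ^ (3 * M) * (12 * M / √g) ^ (3 * M) ≤ 1 / (g : ℝ) ^ 2 := by
  obtain ⟨g₀, hg₀⟩ := T23aaux.setup
  refine ⟨g₀, fun g hg M hM => ?_⟩
  obtain ⟨hg1, hM1, hM2, hM3, hp⟩ := hg₀ g hg M hM
  have hg0 : (0 : ℝ) < g := by linarith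
  set ℓ := Real.log g with hℓ
  have hM0 : (0 : ℝ) < M := by linarith
  have hℓ0 : 0 < ℓ := by linarith
  have hsq : (0 : ℝ) < √g := Real.sqrt_pos.2 hg0
  have hlsq : Real.log (√g) = ℓ / 2 := by rw [Real.log_sqrt hg0.le]
  have l2 : Real.log 2 ≤ 7 / 10 := by
    have := Real.log_two_lt_d9
    linarith
  have l2p : 0 ≤ Real.log 2 := Real.log_nonneg (by norm_num)
  have l12 : Real.log 12 ≤ 3 := by
    have h16 : Real.log 12 ≤ Real.log (2 ^ 4) := Real.log_le_log (by norm_num) (by norm_num)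
    rw [Real.log_pow] at h16
    push_cast at h16
    linarith
  have hlM : 0 ≤ Real.log M := Real.log_nonneg (by linarith)
  refine ⟨?_, ?_, ?_⟩
  · have : (2 : ℝ) ≤ M := by linarith
    exact_mod_cast this
  · have h5 : (3 * M : ℝ) ^ 5 ≤ ℓ ^ 5 := by
      apply pow_le_pow_left₀ (by positivity)
      linarith
    calc 8 * (3 * M : ℝ) ^ 5 * ℓ ≤ 8 * ℓ ^ 5 * ℓ := by gcongr
      _ ≤ 256 * ℓ ^ 6 := by nlinarith [pow_pos hℓ0 6]
      _ ≤ g := hp
  · rw [← Real.log_le_log_iff (by positivity) (by positivity)]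
    rw [Real.log_mul (by positivity) (by positivity), Real.log_mul (by positivity) (by positivity),
      Real.log_mul (by positivity) (by positivity), Real.log_pow, Real.log_pow, Real.log_pow,
      Real.log_pow, Real.log_div (by positivity) hsq.ne', Real.log_mul (by positivity)
      (by positivity), Real.log_mul (by positivity) (by positivity), hlsq,
      Real.log_div one_ne_zero (by positivity), Real.log_one, Real.log_pow]
    push_cast
    rw [← hℓ]
    -- total: `-2 ℓ - (M / 2 - 2) ℓ + 3 M ^ 2 log 2 + O(M log M)`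
    have e1 : ((M : ℝ) / 2 - 2) * (10 * M) ≤ (M / 2 - 2) * ℓ := by
      have : (0 : ℝ) ≤ M / 2 - 2 := by linarith
      gcongr
    have e2 : (3 * M : ℝ) * (M * Real.log 2) ≤ 3 * M * (M * (7 / 10)) := by gcongr
    have e3 : (M : ℝ) * (1000 * Real.log M + 1000) ≤ M * M := by gcongr
    have e4 : (M : ℝ) * Real.log 12 ≤ M * 3 := by gcongr
    have e5 : (M : ℝ) * Real.log 2 ≤ M * (7 / 10) := by gcongr
    have e6 : 0 ≤ (M : ℝ) * Real.log M := by positivity
    have e7 : (1000 : ℝ) * M ≤ M * M := by gcongr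
    nlinarith

/-- pure analysis: the bound of `E2_raw` for `M = ⌊log g / 10⌋₊`; every term is at most
`exp (-20 M ^ 2 + 10.4 M ^ 2 + O(M log M))` because `10 M ≤ log g` -/
theorem e2_asymp : ∃ g₀ : ℕ, ∀ g : ℕ, g₀ ≤ g → ∀ M : ℕ, M = ⌊Real.log g / 10⌋₊ →
    8 * (16 * M : ℝ) ^ 5 * Real.log g ≤ g ∧
    (∑ r ∈ Icc 1 (5 * M), 2 * (2 * g : ℝ) ^ (M + r) * (r * 2 ^ M : ℝ) ^ (5 * M + 2 * r)
        * (4 * (6 * M + 2 * r : ℝ) / √g) ^ (6 * M + 2 * r)) ≤ 1 / (g : ℝ) ^ 2 := by
  obtain ⟨g₀, hg₀⟩ := T23aaux.setup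
  refine ⟨g₀, fun g hg M hM => ?_⟩
  obtain ⟨hg1, hM1, hM2, hM3, hp⟩ := hg₀ g hg M hM
  have hg0 : (0 : ℝ) < g := by linarith
  set ℓ := Real.log g with hℓ
  have hM0 : (0 : ℝ) < M := by linarith
  have hℓ0 : 0 < ℓ := by linarith
  have hsq : (0 : ℝ) < √g := Real.sqrt_pos.2 hg0
  have hlsq : Real.log (√g) = ℓ / 2 := by rw [Real.log_sqrt hg0.le]
  have l2 : Real.log 2 ≤ 7 / 10 := by
    have := Real.log_two_lt_d9
    linarith
  have l2p : 0 ≤ Real.log 2 := Real.log_nonneg (by norm_num)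
  have l64 : Real.log 64 ≤ 5 := by
    have h16 : Real.log 64 = 6 * Real.log 2 := by
      rw [show (64 : ℝ) = 2 ^ 6 by norm_num, Real.log_pow]
      norm_num
    linarith
  have hlM : 0 ≤ Real.log M := Real.log_nonneg (by linarith)
  refine ⟨?_, ?_⟩
  · have h5 : (16 * M : ℝ) ^ 5 ≤ (2 * ℓ) ^ 5 := by
      apply pow_le_pow_left₀ (by positivity)
      linarith
    calc 8 * (16 * M : ℝ) ^ 5 * ℓ ≤ 8 * (2 * ℓ) ^ 5 * ℓ := by gcongr
      _ = 256 * ℓ ^ 6 := by ring
      _ ≤ g := hp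
  · -- every term is at most `1 / (5 M g ^ 2)`
    have hterm : ∀ r ∈ Icc 1 (5 * M), 2 * (2 * g : ℝ) ^ (M + r) *
        (r * 2 ^ M : ℝ) ^ (5 * M + 2 * r) * (4 * (6 * M + 2 * r : ℝ) / √g) ^ (6 * M + 2 * r) ≤
          1 / (5 * M * (g : ℝ) ^ 2) := by
      intro r hr
      rw [Finset.mem_Icc] at hr
      have hr1 : (1 : ℝ) ≤ r := by exact_mod_cast hr.1
      have hr2 : (r : ℝ) ≤ 5 * M := by exact_mod_cast hr.2
      have hr0 : (0 : ℝ) < r := by linarith
      have hlr : Real.log r ≤ 5 + Real.log M := by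
        have h1 : Real.log r ≤ Real.log (64 * M) := Real.log_le_log hr0 (by linarith)
        rw [Real.log_mul (by norm_num) hM0.ne'] at h1
        linarith
      have hlq : Real.log (4 * (6 * M + 2 * r)) ≤ 5 + Real.log M := by
        have h1 : Real.log (4 * (6 * M + 2 * r)) ≤ Real.log (64 * M) :=
          Real.log_le_log (by positivity) (by linarith)
        rw [Real.log_mul (by norm_num) hM0.ne'] at h1
        linarith
      have hl5 : Real.log 5 ≤ 5 := by
        have h1 : Real.log 5 ≤ Real.log 64 := Real.log_le_log (by norm_num) (by norm_num)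
        linarith
      have hQ0 : (0 : ℝ) < 4 * (6 * M + 2 * r) := by positivity
      have hQ1 : (1 : ℝ) ≤ 4 * (6 * M + 2 * r) := by linarith
      generalize (4 * (6 * M + 2 * r) : ℝ) = Q at hlq hQ0 hQ1 ⊢
      rw [← Real.log_le_log_iff (by positivity) (by positivity)]
      rw [Real.log_mul (by positivity) (by positivity), Real.log_mul (by positivity)
        (by positivity), Real.log_mul (by positivity) (by positivity), Real.log_pow, Real.log_pow,
        Real.log_pow, Real.log_div hQ0.ne' hsq.ne', Real.log_mul (by norm_num) hg0.ne',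
        Real.log_mul hr0.ne' (by positivity), Real.log_pow, hlsq,
        Real.log_div one_ne_zero (by positivity), Real.log_one, Real.log_mul (by positivity)
        (by positivity), Real.log_mul (by norm_num) hM0.ne', Real.log_pow]
      push_cast
      rw [← hℓ]
      have e1 : (2 * (M : ℝ) - 2) * (10 * M) ≤ (2 * M - 2) * ℓ := by
        have : (0 : ℝ) ≤ 2 * M - 2 := by linarith
        gcongr
      have e2 : (5 * M + 2 * r : ℝ) * (Real.log r + M * Real.log 2) ≤
          (15 * M) * ((5 + Real.log M) + M * (7 / 10)) := by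
        have h1 : (5 * M + 2 * r : ℝ) ≤ 15 * M := by linarith
        have h2 : Real.log r + M * Real.log 2 ≤ (5 + Real.log M) + M * (7 / 10) := by
          have : (M : ℝ) * Real.log 2 ≤ M * (7 / 10) := by gcongr
          linarith
        have h3 : 0 ≤ Real.log r := Real.log_nonneg hr1
        gcongr
      have e3 : (6 * M + 2 * r : ℝ) * Real.log Q ≤
          (16 * M) * (5 + Real.log M) := by
        have h1 : (6 * M + 2 * r : ℝ) ≤ 16 * M := by linarith
        have h3 : 0 ≤ Real.log Q := Real.log_nonneg hQ1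
        gcongr
      have e4 : (M : ℝ) * (1000 * Real.log M + 1000) ≤ M * M := by gcongr
      have e5 : ((M : ℝ) + r) * Real.log 2 ≤ (6 * M) * (7 / 10) := by
        have h1 : (M + r : ℝ) ≤ 6 * M := by linarith
        gcongr
      have e6 : 0 ≤ (M : ℝ) * Real.log M := by positivity
      have e7 : (1000 : ℝ) * M ≤ M * M := by gcongr
      have e8 : Real.log M ≤ M * Real.log M := by nlinarith
      -- the terms with `ℓ`: `(M + r) ℓ - (6 M + 2 r) ℓ / 2 = -2 M ℓ`
      have e9 : ((M : ℝ) + r) * (Real.log 2 + ℓ) +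
          (6 * M + 2 * r) * (Real.log Q - ℓ / 2) =
          (M + r) * Real.log 2 + (6 * M + 2 * r) * Real.log Q - 2 * M * ℓ := by
        ring
      nlinarith
    calc (∑ r ∈ Icc 1 (5 * M), 2 * (2 * g : ℝ) ^ (M + r) * (r * 2 ^ M : ℝ) ^ (5 * M + 2 * r)
        * (4 * (6 * M + 2 * r : ℝ) / √g) ^ (6 * M + 2 * r))
        ≤ ∑ r ∈ Icc 1 (5 * M), 1 / (5 * M * (g : ℝ) ^ 2) := Finset.sum_le_sum hterm
      _ = 1 / (g : ℝ) ^ 2 := by
          rw [Finset.sum_const, Nat.card_Icc, nsmul_eq_mul]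
          push_cast
          field_simp

end Pool.Agent.Lib.MP_938ce2_ag_l4
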