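import Mathlib

set_option autoImplicit false
set_option linter.unusedSectionVars false

namespace Pool.Agent.Lib.MP_938ce2_ag_l4

open Finset

private theorem t23_ev : ∀ᶠ g : ℕ in Filter.atTop, 10 ≤ Real.log g ∧
    2 * 10 ^ 18 * Real.log g ^ 11 ≤ g := by
  have h1 : ∀ᶠ x : ℝ in Filter.atTop, 10 ≤ Real.log x :=
    Real.tendsto_log_atTop.eventually_ge_atTop 10
  have h2 : ∀ᶠ x : ℝ in Filter.atTop, ‖Real.log x ^ 11‖ ≤ (1 / (2 * 10 ^ 18)) * ‖id x‖ :=
    (Real.isLittleO_pow_log_id_atTop (n := 11)).bound (by norm_num)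
  have h3 : ∀ᶠ x : ℝ in Filter.atTop, 10 ≤ Real.log x ∧ 2 * 10 ^ 18 * Real.log x ^ 11 ≤ x := by
    filter_upwards [h1, h2, Filter.eventually_gt_atTop 0] with x hx1 hx2 hx3
    refine ⟨hx1, ?_⟩
    rw [id, Real.norm_of_nonneg (by positivity), Real.norm_of_nonneg hx3.le] at hx2
    linarith
  exact tendsto_natCast_atTop_atTop.eventually h3

/-- pure analysis: the bound of `E3_raw` for `M = ⌊log g / 10⌋₊`, `p = 10 ^ 5 * M ^ 2`, `c₁ = g ^ (1 / 10)`: the second factor is at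
most `(4 g) ^ M`, the third `(4 g M ^ 2) ^ p`, `p! ≥ (p / e) ^ p`, so the bound is at most
`2 * (256 √g) ^ M * (16384 * e / 10 ^ 5) ^ p`, and `log g ≤ 10 (M + 1)` -/
theorem e3_asymp : ∃ g₀ : ℕ, ∀ g : ℕ, g₀ ≤ g → ∀ M p : ℕ, M = ⌊Real.log g / 10⌋₊ → p = 10 ^ 5 * M ^ 2 →
    8 * (M + 2 * p : ℝ) ^ 5 * Real.log g ≤ g ∧ (M + 2 * p : ℝ) ≤ 3000 * Real.log g ^ 2 ∧
    2 * (64 / √g) ^ (M + 2 * p) * (2 * g + (M + 2 * p) * (g : ℝ) ^ (1 / 10 : ℝ)) ^ M
        * ((M : ℝ) ^ 2 * (2 * g + 3 * (M + 2 * p : ℝ) ^ 2 * (g : ℝ) ^ (1 / 10 : ℝ))) ^ p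
        / p.factorial ≤ 1 / (g : ℝ) ^ 2 := by
  obtain ⟨g₀, hg₀⟩ := Filter.eventually_atTop.mp t23_ev
  refine ⟨g₀, fun g hg M p hM hp => ?_⟩
  obtain ⟨hl, hA⟩ := hg₀ g hg
  set G : ℝ := (g : ℝ) with hG
  set l : ℝ := Real.log G with hldef
  have hl0 : 0 < l := by linarith
  have hl1 : 1 ≤ l := by linarith
  have hGpos : 0 < G := by
    have : (0 : ℝ) < 2 * 10 ^ 18 * l ^ 11 := by positivity
    linarith
  have hG1 : 1 ≤ G := by
    have h1 : (1 : ℝ) ≤ l ^ 11 := one_le_pow₀ hl1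
    nlinarith
  have hM1 : (M : ℝ) ≤ l / 10 := by
    rw [hM]
    exact Nat.floor_le (by positivity)
  have hM2 : l / 10 < (M : ℝ) + 1 := by
    rw [hM]
    exact Nat.lt_floor_add_one _
  have hM3 : 1 ≤ M := by
    rw [hM, Nat.one_le_floor_iff]
    linarith
  have hM3r : (1 : ℝ) ≤ M := by exact_mod_cast hM3
  have hpr : (p : ℝ) = 10 ^ 5 * (M : ℝ) ^ 2 := by
    rw [hp]; push_cast; ring
  have hMsq : (M : ℝ) ^ 2 ≤ l ^ 2 / 100 := by nlinarith
  have hm : (M : ℝ) + 2 * p ≤ 3000 * l ^ 2 := by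
    rw [hpr]
    nlinarith
  have hm0 : (0 : ℝ) ≤ (M : ℝ) + 2 * p := by positivity
  refine ⟨?_, hm, ?_⟩
  · calc 8 * ((M : ℝ) + 2 * p) ^ 5 * l ≤ 8 * (3000 * l ^ 2) ^ 5 * l := by
          gcongr
      _ = 1944 * 10 ^ 15 * l ^ 11 := by ring
      _ ≤ 2 * 10 ^ 18 * l ^ 11 := by
          have : (0 : ℝ) < l ^ 11 := by positivity
          nlinarith
      _ ≤ G := hA
  · set s : ℝ := √G with hs
    have hs0 : 0 < s := Real.sqrt_pos.mpr hGpos
    have hss : s * s = G := Real.mul_self_sqrt hGpos.le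
    set r : ℝ := G ^ (1 / 10 : ℝ) with hr
    have hr0 : 0 ≤ r := by positivity
    have hrs : r ≤ s := by
      rw [hr, hs, Real.sqrt_eq_rpow]
      exact Real.rpow_le_rpow_of_exponent_le hG1 (by norm_num)
    have hB : 27 * 10 ^ 6 * l ^ 4 ≤ 2 * s := by
      have h1 : 27 * 10 ^ 6 * l ^ 4 / 2 ≤ s := by
        rw [hs]
        refine Real.le_sqrt_of_sq_le ?_
        calc (27 * 10 ^ 6 * l ^ 4 / 2) ^ 2 = 182250000000000 * l ^ 8 := by ring
          _ ≤ 2 * 10 ^ 18 * l ^ 11 := by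
            have h2 : l ^ 8 ≤ l ^ 11 := pow_le_pow_right₀ hl1 (by norm_num)
            have h3 : (0 : ℝ) < l ^ 8 := by positivity
            nlinarith
          _ ≤ G := hA
      linarith
    have h2nd : 2 * G + ((M : ℝ) + 2 * p) * r ≤ 4 * G := by
      have h1 : ((M : ℝ) + 2 * p) * r ≤ (3000 * l ^ 2) * s :=
        mul_le_mul hm hrs hr0 (by positivity)
      have h2 : 3000 * l ^ 2 ≤ 2 * s := by
        refine le_trans ?_ hB
        have h3 : l ^ 2 ≤ l ^ 4 := pow_le_pow_right₀ hl1 (by norm_num)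
        have h4 : (0 : ℝ) < l ^ 2 := by positivity
        nlinarith
      have h3 : (3000 * l ^ 2) * s ≤ (2 * s) * s := mul_le_mul_of_nonneg_right h2 hs0.le
      nlinarith
    have h3rd : 2 * G + 3 * ((M : ℝ) + 2 * p) ^ 2 * r ≤ 4 * G := by
      have h1 : ((M : ℝ) + 2 * p) ^ 2 ≤ (3000 * l ^ 2) ^ 2 := pow_le_pow_left₀ hm0 hm 2
      have h2 : 3 * ((M : ℝ) + 2 * p) ^ 2 * r ≤ 3 * (3000 * l ^ 2) ^ 2 * s :=
        mul_le_mul (by linarith) hrs hr0 (by positivity)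
      have h3 : 3 * (3000 * l ^ 2) ^ 2 * s ≤ (2 * s) * s := by
        refine mul_le_mul_of_nonneg_right ?_ hs0.le
        calc 3 * (3000 * l ^ 2) ^ 2 = 27 * 10 ^ 6 * l ^ 4 := by ring
          _ ≤ 2 * s := hB
      nlinarith
    have hfac : (0 : ℝ) < (p.factorial : ℝ) := by exact_mod_cast p.factorial_pos
    have hstep1 : 2 * (64 / s) ^ (M + 2 * p) * (2 * G + ((M : ℝ) + 2 * p) * r) ^ M
        * ((M : ℝ) ^ 2 * (2 * G + 3 * ((M : ℝ) + 2 * p) ^ 2 * r)) ^ p / p.factorial ≤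
        2 * (64 / s) ^ (M + 2 * p) * (4 * G) ^ M * ((M : ℝ) ^ 2 * (4 * G)) ^ p / p.factorial := by
      gcongr
    refine hstep1.trans ?_
    have hstep2 : 2 * (64 / s) ^ (M + 2 * p) * (4 * G) ^ M * ((M : ℝ) ^ 2 * (4 * G)) ^ p
        / p.factorial = 2 * (256 * s) ^ M * ((16384 / 10 ^ 5) ^ p * ((p : ℝ) ^ p / p.factorial)) := by
      have e1 : (64 / s) ^ (M + 2 * p) = (64 / s) ^ M * (4096 / G) ^ p := by
        rw [pow_add, pow_mul]
        congr 2
        rw [div_pow, sq s, hss]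
        norm_num
      have e2 : (64 / s) ^ M * (4 * G) ^ M = (256 * s) ^ M := by
        rw [← mul_pow]
        congr 1
        rw [← hss]
        field_simp
        norm_num
      have e3 : (4096 / G) ^ p * ((M : ℝ) ^ 2 * (4 * G)) ^ p =
          (16384 / 10 ^ 5) ^ p * (p : ℝ) ^ p := by
        rw [← mul_pow, ← mul_pow]
        congr 1
        rw [hpr]
        field_simp
        norm_num
      calc 2 * (64 / s) ^ (M + 2 * p) * (4 * G) ^ M * ((M : ℝ) ^ 2 * (4 * G)) ^ p / p.factorial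
          = 2 * ((64 / s) ^ M * (4 * G) ^ M) * ((4096 / G) ^ p * ((M : ℝ) ^ 2 * (4 * G)) ^ p)
            / p.factorial := by rw [e1]; ring
        _ = 2 * (256 * s) ^ M * ((16384 / 10 ^ 5) ^ p * (p : ℝ) ^ p) / p.factorial := by
            rw [e2, e3]
        _ = _ := by ring
    rw [hstep2]
    have hexp1 : (p : ℝ) ^ p / p.factorial ≤ Real.exp p :=
      Real.pow_div_factorial_le_exp _ (Nat.cast_nonneg _) _
    have hexp2 : (16384 / 10 ^ 5 : ℝ) ^ p * ((p : ℝ) ^ p / p.factorial) ≤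
        Real.exp (-(p : ℝ) / 2) := by
      calc (16384 / 10 ^ 5 : ℝ) ^ p * ((p : ℝ) ^ p / p.factorial) ≤
          (16384 / 10 ^ 5 : ℝ) ^ p * Real.exp p := by gcongr
        _ = (16384 / 10 ^ 5 * Real.exp 1) ^ p := by
            rw [mul_pow, ← Real.exp_nat_mul, mul_one]
        _ ≤ (Real.exp (-(1 / 2))) ^ p := by
            refine pow_le_pow_left₀ (by positivity) ?_ p
            have h1 := Real.exp_one_lt_d9
            have h2 := Real.add_one_le_exp (-(1 / 2 : ℝ))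
            linarith
        _ = Real.exp (-(p : ℝ) / 2) := by
            rw [← Real.exp_nat_mul]
            congr 1
            ring
    have hsexp : s = Real.exp (l / 2) := by
      rw [Real.exp_half, hldef, Real.exp_log hGpos]
    have h256 : (256 : ℝ) ≤ Real.exp 6 := by
      have h1 := Real.exp_one_gt_d9
      have h2 : Real.exp 6 = Real.exp 1 ^ 6 := by
        rw [← Real.exp_nat_mul]
        norm_num
      rw [h2]
      calc (256 : ℝ) ≤ (2.7 : ℝ) ^ 6 := by norm_num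
        _ ≤ Real.exp 1 ^ 6 := pow_le_pow_left₀ (by norm_num) (by linarith) 6
    have hexp3 : (256 * s) ^ M ≤ Real.exp (M * (6 + l / 2)) := by
      calc (256 * s) ^ M ≤ (Real.exp 6 * Real.exp (l / 2)) ^ M := by
            refine pow_le_pow_left₀ (by positivity) ?_ M
            rw [← hsexp]
            exact mul_le_mul_of_nonneg_right h256 hs0.le
        _ = Real.exp (M * (6 + l / 2)) := by
            rw [← Real.exp_add, ← Real.exp_nat_mul]
    have h2e : (2 : ℝ) ≤ Real.exp 1 := by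
      have := Real.exp_one_gt_d9
      linarith
    calc 2 * (256 * s) ^ M * ((16384 / 10 ^ 5) ^ p * ((p : ℝ) ^ p / p.factorial)) ≤
        Real.exp 1 * Real.exp (M * (6 + l / 2)) * Real.exp (-(p : ℝ) / 2) := by
          gcongr
      _ = Real.exp (1 + M * (6 + l / 2) + -(p : ℝ) / 2) := by
          rw [Real.exp_add, Real.exp_add]
      _ ≤ Real.exp (-(2 * l)) := by
          refine Real.exp_le_exp.mpr ?_
          rw [hpr]
          have h1 : l ≤ 10 * ((M : ℝ) + 1) := by linarith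
          have h2 : (M : ℝ) * l ≤ M * (10 * ((M : ℝ) + 1)) :=
            mul_le_mul_of_nonneg_left h1 (Nat.cast_nonneg _)
          nlinarith
      _ = 1 / G ^ 2 := by
          rw [Real.exp_neg, one_div]
          congr 1
          rw [two_mul, Real.exp_add, Real.exp_log hGpos, sq]

end Pool.Agent.Lib.MP_938ce2_ag_l4
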