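import Mathlib
import Pool.Agent.Lib.MP_938ce2_ag_l4.T10
import Pool.Agent.Lib.MP_938ce2_ag_l4.T11
import Pool.Agent.Lib.MP_938ce2_ag_l4.T20
import Pool.Agent.Lib.MP_938ce2_ag_l4.T22c
import Pool.Agent.Lib.MP_938ce2_ag_l4.T23a
import Pool.Agent.Lib.MP_938ce2_ag_l4.T23b

set_option autoImplicit false
set_option linter.unusedSectionVars false

namespace Pool.Agent.Lib.MP_938ce2_ag_l4

open Finset

/-- the three bad events are rare: `E1_raw`, `E2_raw`, `E3_raw` with `M = ⌊log g / 10⌋₊`, `p = 10 ^ 5 * M ^ 2`; the closures are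
bounded by `clo_card` with `j = 4`, `clp_card` with `j = 3` and `params 3000` -/
theorem EEE_small : ∃ g₀ : ℕ, ∀ {ι : Type} [Fintype ι] [DecidableEq ι] {X : Type} [Fintype X]
    [DecidableEq X] {c : X → X} {y : X → ι → ZMod 2} {c₀ : ι → ZMod 2} {g : ℕ},
    Dat c y c₀ g → g₀ ≤ g → ∀ M : ℕ, M = ⌊Real.log g / 10⌋₊ →
    cnt c (fun Φ => E1 M (SS y c₀ Φ) ∨ E2 M (SS y c₀ Φ) ∨ E3 M (10 ^ 5 * M ^ 2) (SS y c₀ Φ))
      ≤ 3 * 2 ^ g / (g : ℝ) ^ 2 := by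
  obtain ⟨g₁, h₁⟩ := e1_asymp
  obtain ⟨g₂, h₂⟩ := e2_asymp
  obtain ⟨g₃, h₃⟩ := e3_asymp
  obtain ⟨g₄, h₄⟩ := params 3000
  refine ⟨g₁ + g₂ + g₃ + g₄ + 2, ?_⟩
  intro ι _ _ X _ _ c y c₀ g hD hg M hM
  obtain ⟨hM2, ha1, hb1⟩ := h₁ g (by omega) M hM
  obtain ⟨ha2, hb2⟩ := h₂ g (by omega) M hM
  obtain ⟨ha3, hc3, hb3⟩ := h₃ g (by omega) M (10 ^ 5 * M ^ 2) hM rfl
  obtain ⟨d, hd3, hd4, hd⟩ := h₄ g (by omega) (Fintype.card ι) (card_V_le hD)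
  have h2g : (0 : ℝ) < 2 ^ g := by positivity
  have E1' : cnt c (fun Φ => E1 M (SS y c₀ Φ)) ≤ 1 / (g : ℝ) ^ 2 * 2 ^ g :=
    (E1_raw hD (by omega) M (by omega) ha1).trans (mul_le_mul_of_nonneg_right hb1 h2g.le)
  have E2' : cnt c (fun Φ => E2 M (SS y c₀ Φ)) ≤ 1 / (g : ℝ) ^ 2 * 2 ^ g :=
    (E2_raw hD (by omega) M (by omega) ha2).trans (mul_le_mul_of_nonneg_right hb2 h2g.le)
  have hcl : ∀ B : Finset (ι → ZMod 2), B.card ≤ M + 2 * (10 ^ 5 * M ^ 2) →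
      ((clo 4 B).card : ℝ) ≤ (g : ℝ) ^ (1 / 10 : ℝ) ∧
        ∀ ψ : ι → ZMod 2, ψ ≠ 0 → ((clp 4 B ψ).card : ℝ) ≤ (g : ℝ) ^ (1 / 10 : ℝ) := by
    intro B hB
    have hB' : (B.card : ℝ) ≤ 3000 * Real.log g ^ 2 := by
      refine le_trans ?_ hc3
      exact_mod_cast hB
    have hB4 : B.card < d.choose 4 := by exact_mod_cast hB'.trans_lt hd4
    have hB3 : B.card < d.choose 3 := by exact_mod_cast hB'.trans_lt hd3
    refine ⟨?_, fun ψ hψ => ?_⟩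
    · refine le_trans ?_ hd
      have h := clo_card 4 d B hB4
      have h' : ((clo 4 B).card : ℝ) ≤ ((∑ i ∈ range d, (Fintype.card ι).choose i : ℕ) : ℝ) := by
        exact_mod_cast h
      have h0 : (0 : ℝ) ≤ ((∑ i ∈ range d, (Fintype.card ι).choose i : ℕ) : ℝ) := Nat.cast_nonneg _
      linarith
    · refine le_trans ?_ hd
      have h := clp_card 3 d B ψ hψ hB3
      exact_mod_cast h
  have E3' : cnt c (fun Φ => E3 M (10 ^ 5 * M ^ 2) (SS y c₀ Φ)) ≤ 1 / (g : ℝ) ^ 2 * 2 ^ g :=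
    (E3_raw hD (by omega) M (10 ^ 5 * M ^ 2) (by omega) ((g : ℝ) ^ (1 / 10 : ℝ)) hcl ha3).trans
      (mul_le_mul_of_nonneg_right hb3 h2g.le)
  have h1 := cnt_or (c := c) (fun Φ => E1 M (SS y c₀ Φ))
    (fun Φ => E2 M (SS y c₀ Φ) ∨ E3 M (10 ^ 5 * M ^ 2) (SS y c₀ Φ))
  have h2 := cnt_or (c := c) (fun Φ => E2 M (SS y c₀ Φ))
    (fun Φ => E3 M (10 ^ 5 * M ^ 2) (SS y c₀ Φ))
  exact h1.trans ((add_le_add E1' (h2.trans (add_le_add E2' E3'))).trans (le_of_eq (by ring)))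

end Pool.Agent.Lib.MP_938ce2_ag_l4
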