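import Mathlib
import Pool.Agent.Lib.MP_938ce2_ag_l4.D2

set_option autoImplicit false
set_option linter.unusedSectionVars false

namespace Pool.Agent.Lib.MP_938ce2_ag_l4

open Finset

/-- if no set `Y` with at most `L` elements has `∑ s ≥ L + 2 * Y.card`, then the sum of the squares is small: `∑ (s - 2) < L`
over the `q` with `3 ≤ s q` (otherwise take a minimal subset with sum `≥ L`), `s q ≤ 3 * (s q - 2)` -/
theorem sum_sq_le {κ : Type} [DecidableEq κ] (Q : Finset κ) (s : κ → ℕ) (L : ℕ) (hL : 1 ≤ L)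
    (h3 : ∀ q ∈ Q, 3 ≤ s q)
    (h : ¬ ∃ Y ⊆ Q, 1 ≤ Y.card ∧ Y.card ≤ L ∧ L + 2 * Y.card ≤ ∑ q ∈ Y, s q) :
    ∑ q ∈ Q, s q ^ 2 ≤ 9 * L ^ 2 := by
  have key : ∑ q ∈ Q, (s q - 2) < L := by
    by_contra hcon
    push Not at hcon
    have hsum : ∀ Y ⊆ Q, ∑ q ∈ Y, s q = ∑ q ∈ Y, (s q - 2) + 2 * Y.card := by
      intro Y hY
      rw [mul_comm, ← smul_eq_mul, ← Finset.sum_const, ← Finset.sum_add_distrib]
      refine Finset.sum_congr rfl fun q hq => ?_
      have := h3 q (hY hq)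
      omega
    rcases le_or_gt Q.card L with hQ | hQ
    · refine h ⟨Q, Finset.Subset.refl Q, ?_, hQ, ?_⟩
      · rw [Nat.one_le_iff_ne_zero]
        intro h0
        rw [Finset.card_eq_zero] at h0
        rw [h0, Finset.sum_empty] at hcon
        omega
      · rw [hsum Q (Finset.Subset.refl Q)]
        omega
    · obtain ⟨Y, hY, hYc⟩ := Finset.exists_subset_card_eq hQ.le
      refine h ⟨Y, hY, by omega, hYc.le, ?_⟩
      rw [hsum Y hY]
      have h1 : Y.card ≤ ∑ q ∈ Y, (s q - 2) := by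
        calc Y.card = ∑ _q ∈ Y, 1 := by simp
          _ ≤ ∑ q ∈ Y, (s q - 2) := Finset.sum_le_sum fun q hq => by
              have := h3 q (hY hq)
              omega
      omega
  have h1 : ∑ q ∈ Q, s q ^ 2 ≤ ∑ q ∈ Q, 9 * (s q - 2) ^ 2 := by
    refine Finset.sum_le_sum fun q hq => ?_
    have h2 : s q ≤ 3 * (s q - 2) := by
      have := h3 q hq
      omega
    calc s q ^ 2 ≤ (3 * (s q - 2)) ^ 2 := Nat.pow_le_pow_left h2 2
      _ = 9 * (s q - 2) ^ 2 := by ring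
  have h2 : ∑ q ∈ Q, (s q - 2) ^ 2 ≤ (∑ q ∈ Q, (s q - 2)) ^ 2 := by
    rw [sq (∑ q ∈ Q, (s q - 2)), Finset.sum_mul]
    refine Finset.sum_le_sum fun q hq => ?_
    rw [sq]
    exact Nat.mul_le_mul_left _ (Finset.single_le_sum (f := fun q => s q - 2)
      (fun _ _ => Nat.zero_le _) hq)
  calc ∑ q ∈ Q, s q ^ 2 ≤ ∑ q ∈ Q, 9 * (s q - 2) ^ 2 := h1
    _ = 9 * ∑ q ∈ Q, (s q - 2) ^ 2 := by rw [Finset.mul_sum]
    _ ≤ 9 * (∑ q ∈ Q, (s q - 2)) ^ 2 := Nat.mul_le_mul_left _ h2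
    _ ≤ 9 * L ^ 2 := Nat.mul_le_mul_left _ (Nat.pow_le_pow_left key.le 2)

variable {ι : Type} [Fintype ι] [DecidableEq ι]

private lemma add_self' (v : ι → ZMod 2) : v + v = 0 := by
  funext i
  exact CharTwo.add_self_eq_zero (v i)

/-- for a Sidon set every sum has at most two representations -/
theorem RR_le (S A : Finset (ι → ZMod 2)) (hs : Sid A) :
    RR S A ≤ 2 * ((S ×ˢ S).filter fun p => ∃ a ∈ A, ∃ a' ∈ A, a ≠ a' ∧ p.1 + p.2 = a + a').card := by
  classical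
  have h1 : RR S A = (((A ×ˢ A).filter (fun p => p.1 ≠ p.2)).sigma
      (fun p => S.filter fun b => b + (p.1 + p.2) ∈ S)).card := by
    rw [Finset.card_sigma]
    rfl
  rw [h1]
  apply Finset.card_le_mul_card_image_of_maps_to
    (f := fun z : (_ : (ι → ZMod 2) × (ι → ZMod 2)) × (ι → ZMod 2) =>
      (z.2, z.2 + (z.1.1 + z.1.2)))
  · rintro ⟨⟨a, a'⟩, b⟩ hz
    rw [Finset.mem_sigma, Finset.mem_filter, Finset.mem_filter, Finset.mem_product] at hz
    obtain ⟨⟨⟨ha, ha'⟩, hne⟩, hb, hb'⟩ := hz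
    rw [Finset.mem_filter, Finset.mem_product]
    refine ⟨⟨hb, hb'⟩, a, ha, a', ha', hne, ?_⟩
    show b + (b + (a + a')) = a + a'
    rw [← add_assoc, add_self', zero_add]
  · intro p hp
    rcases Finset.eq_empty_or_nonempty (((((A ×ˢ A).filter (fun p => p.1 ≠ p.2)).sigma
      (fun p => S.filter fun b => b + (p.1 + p.2) ∈ S))).filter
        (fun z : (_ : (ι → ZMod 2) × (ι → ZMod 2)) × (ι → ZMod 2) =>
          (z.2, z.2 + (z.1.1 + z.1.2)) = p)) with h0 | ⟨⟨⟨a, a'⟩, b⟩, hz⟩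
    · rw [h0]
      simp
    · rw [Finset.mem_filter, Finset.mem_sigma, Finset.mem_filter, Finset.mem_product] at hz
      obtain ⟨⟨⟨⟨ha, ha'⟩, hne⟩, -⟩, hzp⟩ := hz
      refine (Finset.card_le_card (t := {⟨(a, a'), p.1⟩, ⟨(a', a), p.1⟩}) ?_).trans
        Finset.card_le_two
      rintro ⟨⟨d, d'⟩, e⟩ hw
      rw [Finset.mem_filter, Finset.mem_sigma, Finset.mem_filter, Finset.mem_product] at hw
      obtain ⟨⟨⟨⟨hd, hd'⟩, hne'⟩, -⟩, hwp⟩ := hw
      have e1 : e = p.1 := congrArg Prod.fst hwp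
      have e2 : e + (d + d') = p.2 := congrArg Prod.snd hwp
      have e3 : b = p.1 := congrArg Prod.fst hzp
      have e4 : b + (a + a') = p.2 := congrArg Prod.snd hzp
      have e5 : d + d' = a + a' := by
        have e6 : p.1 + (d + d') = p.1 + (a + a') := by
          rw [← e1, e2, e1, ← e3, e4]
        exact add_left_cancel e6
      rw [Finset.mem_insert, Finset.mem_singleton]
      rcases hs d hd d' hd' a ha a' ha' hne' hne e5 with ⟨h7, h8⟩ | ⟨h7, h8⟩
      · left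
        rw [h7, h8, e1]
      · right
        rw [h7, h8, e1]

theorem mem_sp_add {A : Finset (ι → ZMod 2)} {v w : ι → ZMod 2} (hv : v ∈ sp A) (hw : w ∈ sp A) :
    v + w ∈ sp A := by
  classical
  unfold sp at *
  rw [Finset.mem_filter] at *
  exact ⟨Finset.mem_univ _, Submodule.add_mem _ hv.2 hw.2⟩

theorem mem_sp_of_mem {A : Finset (ι → ZMod 2)} {v : ι → ZMod 2} (hv : v ∈ A) : v ∈ sp A := by
  classical
  unfold sp
  rw [Finset.mem_filter]
  exact ⟨Finset.mem_univ _, Submodule.subset_span (Finset.mem_coe.2 hv)⟩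


end Pool.Agent.Lib.MP_938ce2_ag_l4
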