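import Mathlib
import Pool.Agent.Lib.MP_938ce2_ag_l4.T24a

set_option autoImplicit false
set_option linter.unusedSectionVars false

namespace Pool.Agent.Lib.MP_938ce2_ag_l4

open Finset

variable {ι : Type} [Fintype ι] [DecidableEq ι]

private lemma add_self0 (v : ι → ZMod 2) : v + v = 0 := by
  funext i; exact CharTwo.add_self_eq_zero (v i)

private lemma zero_mem_sp (A : Finset (ι → ZMod 2)) : (0 : ι → ZMod 2) ∈ sp A := by
  unfold sp
  simp

private noncomputable def cst (A : Finset (ι → ZMod 2)) (b : ι → ZMod 2) : Finset (ι → ZMod 2) :=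
  univ.filter fun v => v + b ∈ sp A

private lemma cst_eq_iff (A : Finset (ι → ZMod 2)) (b b' : ι → ZMod 2) :
    cst A b = cst A b' ↔ b + b' ∈ sp A := by
  constructor
  · intro h
    have h1 : b ∈ cst A b := by
      unfold cst
      rw [mem_filter]
      exact ⟨mem_univ _, by rw [add_self0]; exact zero_mem_sp A⟩
    rw [h] at h1
    unfold cst at h1
    exact (mem_filter.mp h1).2
  · intro h
    ext v
    unfold cst
    rw [mem_filter, mem_filter]
    have e1 : v + b' = (v + b) + (b + b') := by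
      have : (v + b) + (b + b') = v + (b + b) + b' := by abel
      rw [this, add_self0, add_zero]
    have e2 : v + b = (v + b') + (b + b') := by
      have : (v + b') + (b + b') = v + b + (b' + b') := by abel
      rw [this, add_self0, add_zero]
    constructor
    · rintro ⟨_, h1⟩
      exact ⟨mem_univ _, by rw [e1]; exact mem_sp_add h1 h⟩
    · rintro ⟨_, h1⟩
      exact ⟨mem_univ _, by rw [e2]; exact mem_sp_add h1 h⟩

private def prs (S A : Finset (ι → ZMod 2)) : Finset ((ι → ZMod 2) × (ι → ZMod 2)) :=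
  (S ×ˢ S).filter fun p => ∃ a ∈ A, ∃ a' ∈ A, a ≠ a' ∧ p.1 + p.2 = a + a'

private noncomputable def cls (S A : Finset (ι → ZMod 2)) (q : Finset (ι → ZMod 2)) : Finset (ι → ZMod 2) :=
  S.filter fun b => cst A b = q

private lemma prs_spec (S A : Finset (ι → ZMod 2)) (p : (ι → ZMod 2) × (ι → ZMod 2))
    (hp : p ∈ prs S A) : p.1 ∈ S ∧ p.2 ∈ S ∧ p.1 ≠ p.2 ∧ p.1 + p.2 ∈ sp A ∧
      ∃ a ∈ A, ∃ a' ∈ A, a ≠ a' ∧ p.1 + p.2 = a + a' := by
  unfold prs at hp
  rw [mem_filter, mem_product] at hp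
  obtain ⟨⟨h1, h2⟩, a, ha, a', ha', hne, he⟩ := hp
  refine ⟨h1, h2, ?_, ?_, a, ha, a', ha', hne, he⟩
  · intro h
    apply hne
    rw [h, add_self0] at he
    have : a + (a + a') = a := by rw [← he, add_zero]
    rw [← add_assoc, add_self0, zero_add] at this
    exact this.symm
  · rw [he]
    exact mem_sp_add (mem_sp_of_mem ha) (mem_sp_of_mem ha')

/-- the pairs in the span -/
private lemma part0 (S : Finset (ι → ZMod 2)) (M : ℕ) (h1 : ¬ E1 M S) (A : Finset (ι → ZMod 2))
    (hc : A.card = M) : ((prs S A).filter fun p => p.1 ∈ sp A).card ≤ 9 * M ^ 2 := by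
  have h2 : (S ∩ sp A).card < 3 * M := by
    by_contra h
    exact h1 ⟨A, hc, not_lt.mp h⟩
  have h3 : ((prs S A).filter fun p => p.1 ∈ sp A) ⊆ (S ∩ sp A) ×ˢ (S ∩ sp A) := by
    intro p hp
    rw [mem_filter] at hp
    obtain ⟨hp1, hp2, -, hp4, -⟩ := prs_spec S A p hp.1
    rw [mem_product, mem_inter, mem_inter]
    refine ⟨⟨hp1, hp.2⟩, hp2, ?_⟩
    have h4 := mem_sp_add hp.2 hp4
    rwa [← add_assoc, add_self0, zero_add] at h4
  calc ((prs S A).filter fun p => p.1 ∈ sp A).card ≤ ((S ∩ sp A) ×ˢ (S ∩ sp A)).card :=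
        card_le_card h3
    _ = (S ∩ sp A).card * (S ∩ sp A).card := card_product _ _
    _ ≤ (3 * M) * (3 * M) := Nat.mul_le_mul h2.le h2.le
    _ = 9 * M ^ 2 := by ring

/-- the pairs in the large cosets -/
private lemma part1 (S : Finset (ι → ZMod 2)) (M : ℕ) (hM : 1 ≤ M) (h2 : ¬ E2 M S)
    (A : Finset (ι → ZMod 2)) (hA : A ⊆ S) (hc : A.card = M) :
    ((prs S A).filter fun p => p.1 ∉ sp A ∧ 3 ≤ (cls S A (cst A p.1)).card).card
      ≤ 225 * M ^ 2 := by
  set Q : Finset (Finset (ι → ZMod 2)) :=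
    ((S.filter fun b => b ∉ sp A).image (cst A)).filter fun q => 3 ≤ (cls S A q).card with hQ
  have hQ3 : ∀ q ∈ Q, 3 ≤ (cls S A q).card := fun q hq => (mem_filter.mp hq).2
  have hrep : ∀ q ∈ Q, ∃ b, b ∈ S ∧ b ∉ sp A ∧ cst A b = q := by
    intro q hq
    have h3 := (mem_filter.mp hq).1
    rw [mem_image] at h3
    obtain ⟨b, hb, he⟩ := h3
    rw [mem_filter] at hb
    exact ⟨b, hb.1, hb.2, he⟩
  have hno : ¬ ∃ Y ⊆ Q, 1 ≤ Y.card ∧ Y.card ≤ 5 * M ∧
      5 * M + 2 * Y.card ≤ ∑ q ∈ Y, (cls S A q).card := by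
    rintro ⟨Y, hY, hY1, hY2, hY3⟩
    apply h2
    choose! r hr1 hr2 hr3 using hrep
    have hinj : Set.InjOn r (Y : Set (Finset (ι → ZMod 2))) := by
      intro q hq q' hq' he
      rw [← hr3 q (hY hq), ← hr3 q' (hY hq'), he]
    have hRc : (Y.image r).card = Y.card := card_image_of_injOn hinj
    have hdisj : Set.PairwiseDisjoint (Y : Set (Finset (ι → ZMod 2))) (cls S A) := by
      intro q _ q' _ hne
      rw [Function.onFun, disjoint_left]
      intro b hb hb'
      unfold cls at hb hb'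
      rw [mem_filter] at hb hb'
      exact hne (hb.2.symm.trans hb'.2)
    have hU : (Y.biUnion (cls S A)).card = ∑ q ∈ Y, (cls S A q).card :=
      card_biUnion hdisj
    obtain ⟨F, hF1, hF2⟩ := exists_subset_card_eq (s := Y.biUnion (cls S A))
      (n := 5 * M + 2 * Y.card) (by rw [hU]; exact hY3)
    refine ⟨A, Y.image r, F, hA, hc, by rw [hRc]; exact hY1, by rw [hRc]; exact hY2, ?_,
      by rw [hF2, hRc], ?_⟩
    · intro f hf
      have h3 := hF1 hf
      rw [mem_biUnion] at h3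
      obtain ⟨q, _, hq⟩ := h3
      unfold cls at hq
      exact (mem_filter.mp hq).1
    · intro f hf
      have h3 := hF1 hf
      rw [mem_biUnion] at h3
      obtain ⟨q, hqY, hq⟩ := h3
      unfold cls at hq
      have h4 : cst A f = q := (mem_filter.mp hq).2
      have h5 : f + r q ∈ sp A := by
        rw [← cst_eq_iff, h4, hr3 q (hY hqY)]
      refine ⟨?_, r q, mem_image_of_mem r hqY, h5⟩
      intro hfA
      apply hr2 q (hY hqY)
      have h6 := mem_sp_add hfA h5
      rwa [← add_assoc, add_self0, zero_add] at h6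
  have hsq := sum_sq_le Q (fun q => (cls S A q).card) (5 * M) (by omega) hQ3 hno
  have hsub : ((prs S A).filter fun p => p.1 ∉ sp A ∧ 3 ≤ (cls S A (cst A p.1)).card) ⊆
      Q.biUnion fun q => cls S A q ×ˢ cls S A q := by
    intro p hp
    rw [mem_filter] at hp
    obtain ⟨hp0, hpA, hp3⟩ := hp
    obtain ⟨hp1, hp2, -, hp4, -⟩ := prs_spec S A p hp0
    rw [mem_biUnion]
    refine ⟨cst A p.1, ?_, ?_⟩
    · rw [hQ, mem_filter, mem_image]
      exact ⟨⟨p.1, mem_filter.mpr ⟨hp1, hpA⟩, rfl⟩, hp3⟩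
    · rw [mem_product]
      unfold cls
      rw [mem_filter, mem_filter]
      refine ⟨⟨hp1, rfl⟩, hp2, ?_⟩
      rw [cst_eq_iff, add_comm]
      exact hp4
  calc ((prs S A).filter fun p => p.1 ∉ sp A ∧ 3 ≤ (cls S A (cst A p.1)).card).card
      ≤ (Q.biUnion fun q => cls S A q ×ˢ cls S A q).card := card_le_card hsub
    _ ≤ ∑ q ∈ Q, (cls S A q ×ˢ cls S A q).card := card_biUnion_le
    _ = ∑ q ∈ Q, (cls S A q).card ^ 2 := by
        refine sum_congr rfl fun q _ => ?_
        rw [card_product, sq]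
    _ ≤ 9 * (5 * M) ^ 2 := hsq
    _ = 225 * M ^ 2 := by ring

/-- the pairs in the small cosets -/
private lemma part2 (S : Finset (ι → ZMod 2)) (M K : ℕ) (h3 : ¬ E3 M (K * M ^ 2) S)
    (A : Finset (ι → ZMod 2)) (hA : A ⊆ S) (hc : A.card = M) :
    ((prs S A).filter fun p => p.1 ∉ sp A ∧ ¬ 3 ≤ (cls S A (cst A p.1)).card).card
      ≤ 2 * (K * M ^ 2) := by
  set P := (prs S A).filter fun p => p.1 ∉ sp A ∧ ¬ 3 ≤ (cls S A (cst A p.1)).card with hP
  have hfib : ∀ q ∈ P.image (fun p => cst A p.1),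
      (P.filter fun p => cst A p.1 = q).card ≤ 2 := by
    intro q hq
    rw [mem_image] at hq
    obtain ⟨p0, hp0, hq0⟩ := hq
    rw [hP, mem_filter] at hp0
    have hcard : (cls S A q).card ≤ 2 := by
      have := hp0.2.2
      simp only [hq0] at this
      omega
    have hsub : (P.filter fun p => cst A p.1 = q) ⊆ (cls S A q).offDiag := by
      intro p hp
      rw [mem_filter, hP, mem_filter] at hp
      obtain ⟨hp1, hp2, hne, hp4, -⟩ := prs_spec S A p hp.1.1
      rw [mem_offDiag]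
      unfold cls
      rw [mem_filter, mem_filter]
      refine ⟨⟨hp1, hp.2⟩, ⟨hp2, ?_⟩, hne⟩
      rw [← hp.2, cst_eq_iff, add_comm]
      exact hp4
    refine (card_le_card hsub).trans ?_
    rw [offDiag_card]
    interval_cases h : (cls S A q).card <;> simp
  have h5 := card_le_mul_card_image (f := fun p : (ι → ZMod 2) × (ι → ZMod 2) => cst A p.1) P 2
    hfib
  refine h5.trans ?_
  have h6 : (P.image fun p => cst A p.1).card ≤ K * M ^ 2 := by
    by_contra hcon
    apply h3
    obtain ⟨T, hT1, hT2⟩ := exists_subset_card_eq (s := P.image fun p => cst A p.1)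
      (n := K * M ^ 2) (not_le.mp hcon).le
    have hrep : ∀ q ∈ T, ∃ p, p ∈ P ∧ cst A p.1 = q := by
      intro q hq
      have := hT1 hq
      rw [mem_image] at this
      exact this
    choose! r hr1 hr2 using hrep
    have e := (T.equivFinOfCardEq hT2).symm
    refine ⟨A, hA, hc, fun i => ((r (e i)).1, (r (e i)).1 + (r (e i)).2), ?_, ?_⟩
    · intro i
      have hi := hr1 (e i) (e i).2
      rw [hP, mem_filter] at hi
      obtain ⟨hp1, hp2, -, hp4, hp5⟩ := prs_spec S A _ hi.1
      refine ⟨hp1, ?_, hi.2.1, hp5⟩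
      show (r (e i)).1 + ((r (e i)).1 + (r (e i)).2) ∈ S
      rw [← add_assoc, add_self0, zero_add]
      exact hp2
    · intro i j hij hmem
      have h7 : cst A (r (e i)).1 = cst A (r (e j)).1 := (cst_eq_iff A _ _).mpr hmem
      rw [hr2 (e i) (e i).2, hr2 (e j) (e j).2] at h7
      exact hij (e.injective (Subtype.ext h7))
  exact Nat.mul_le_mul_left 2 h6

/-- **Outside the bad events every Sidon subset has small `RR`.** Split `S` by the cosets of `sp A`, `s q` = the number of the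
elements of `S` in the coset `q`. The pairs of `RR_le` are in one coset: at most `9 M ^ 2` in `sp A` (not `E1`), at most
`225 M ^ 2` in the other cosets with `s q ≥ 3` (`sum_sq_le` with `L = 5 M`, not `E2`: `R` = representatives of the cosets in
`Y`, `F` = `5 M + 2 Y.card` elements), and two for each coset `q` with `s q = 2` which contains a pair, less
than `K * M ^ 2` such cosets (not `E3`). -/
theorem RS_of (S : Finset (ι → ZMod 2)) (M K : ℕ) (hM : 1 ≤ M) (h1 : ¬ E1 M S) (h2 : ¬ E2 M S)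
    (h3 : ¬ E3 M (K * M ^ 2) S) (A : Finset (ι → ZMod 2)) (hA : A ⊆ S) (hc : A.card = M)
    (hs : Sid A) : RR S A ≤ (468 + 4 * K) * M ^ 2 := by
  have hRR := RR_le S A hs
  change RR S A ≤ 2 * (prs S A).card at hRR
  have hp0 := part0 S M h1 A hc
  have hp1 := part1 S M hM h2 A hA hc
  have hp2 := part2 S M K h3 A hA hc
  have e1 : (prs S A).card = ((prs S A).filter fun p => p.1 ∈ sp A).card +
      ((prs S A).filter fun p => p.1 ∉ sp A).card :=
    (card_filter_add_card_filter_not (s := prs S A) (fun p => p.1 ∈ sp A)).symm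
  have e2 : ((prs S A).filter fun p => p.1 ∉ sp A).card =
      (((prs S A).filter fun p => p.1 ∉ sp A ∧ 3 ≤ (cls S A (cst A p.1)).card)).card +
      (((prs S A).filter fun p => p.1 ∉ sp A ∧ ¬ 3 ≤ (cls S A (cst A p.1)).card)).card := by
    rw [← filter_filter, ← filter_filter]
    exact (card_filter_add_card_filter_not
      (s := (prs S A).filter fun p => p.1 ∉ sp A)
      (fun p => 3 ≤ (cls S A (cst A p.1)).card)).symm
  have e3 : (468 + 4 * K) * M ^ 2 = 2 * (9 * M ^ 2 + (225 * M ^ 2 + 2 * (K * M ^ 2))) := by ring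
  rw [e3]
  refine hRR.trans (Nat.mul_le_mul_left 2 ?_)
  rw [e1, e2]
  exact Nat.add_le_add hp0 (Nat.add_le_add hp1 hp2)


end Pool.Agent.Lib.MP_938ce2_ag_l4
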