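import Mathlib
import Pool.Agent.Lib.MP_938ce2_ag_l4.D2

set_option autoImplicit false
set_option linter.unusedSectionVars false

namespace Pool.Agent.Lib.MP_938ce2_ag_l4

open Finset

variable {ι : Type} [Fintype ι] [DecidableEq ι]

private lemma sum_prod_one {V : Type} [Fintype V] (n : ℕ) (ν : V → ℝ) (h1 : ∑ v, ν v = 1) :
    ∑ a : Fin n → V, ∏ i, ν (a i) = 1 := by
  have h := (Finset.prod_univ_sum (fun _ : Fin n => (univ : Finset V)) (fun _ v => ν v)).symm
  rw [Fintype.piFinset_univ] at h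
  rw [h]
  simp [h1]

/-- one coordinate is determined by the others -/
private lemma one_le {V : Type} [Fintype V] [DecidableEq V] (n : ℕ) (ν : V → ℝ)
    (hν : ∀ v, 0 ≤ ν v) (h1 : ∑ v, ν v = 1) (β : ℝ) (hβ : ∀ v, ν v ≤ β) (i : Fin (n + 1))
    (F : (Fin (n + 1) → V) → V)
    (hF : ∀ a b : Fin (n + 1) → V, (∀ j, j ≠ i → a j = b j) → F a = F b)
    (E : (Fin (n + 1) → V) → Prop) [DecidablePred E] (hE : ∀ a, E a → a i = F a) :
    ∑ a : Fin (n + 1) → V, (if E a then ∏ j, ν (a j) else 0) ≤ β := by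
  obtain ⟨v0⟩ : Nonempty V := by
    by_contra hne
    rw [not_nonempty_iff] at hne
    simp at h1
  rw [← (Fin.insertNthEquiv (fun _ => V) i).sum_comp]
  rw [Fintype.sum_prod_type_right]
  have key : ∀ a' : Fin n → V,
      ∑ v : V, (if E (Fin.insertNthEquiv (fun _ => V) i (v, a')) then
        ∏ j, ν (Fin.insertNthEquiv (fun _ => V) i (v, a') j) else 0) ≤ β * ∏ j, ν (a' j) := by
    intro a'
    set w : V := F (Fin.insertNthEquiv (fun _ => V) i (v0, a')) with hw
    have hprod : ∀ v : V, ∏ j, ν (Fin.insertNthEquiv (fun _ => V) i (v, a') j)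
        = ν v * ∏ j, ν (a' j) := by
      intro v
      rw [Fin.prod_univ_succAbove _ i]
      simp [Fin.insertNthEquiv]
    have hP : 0 ≤ ∏ j, ν (a' j) := Finset.prod_nonneg fun j _ => hν _
    calc ∑ v : V, (if E (Fin.insertNthEquiv (fun _ => V) i (v, a')) then
        ∏ j, ν (Fin.insertNthEquiv (fun _ => V) i (v, a') j) else 0)
        ≤ ∑ v : V, (if v = w then ν v * ∏ j, ν (a' j) else 0) := by
          refine Finset.sum_le_sum fun v _ => ?_
          by_cases hEv : E (Fin.insertNthEquiv (fun _ => V) i (v, a'))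
          · have h2 := hE _ hEv
            have h3 : F (Fin.insertNthEquiv (fun _ => V) i (v, a')) = w := by
              apply hF
              intro j hj
              obtain ⟨k, rfl⟩ := Fin.exists_succAbove_eq hj
              simp [Fin.insertNthEquiv]
            have h4 : v = w := by
              rw [h3] at h2
              simpa [Fin.insertNthEquiv] using h2
            rw [if_pos hEv, if_pos h4, hprod v]
          · rw [if_neg hEv]
            split_ifs
            · exact mul_nonneg (hν v) hP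
            · exact le_rfl
      _ = ν w * ∏ j, ν (a' j) := by simp
      _ ≤ β * ∏ j, ν (a' j) := mul_le_mul_of_nonneg_right (hβ w) hP
  calc _ ≤ ∑ a' : Fin n → V, β * ∏ j, ν (a' j) := Finset.sum_le_sum fun a' _ => key a'
    _ = β := by rw [← Finset.mul_sum, sum_prod_one n ν h1, mul_one]

private lemma zmod2_add_self (a : ι → ZMod 2) : a + a = 0 := by
  funext i
  exact (by decide : ∀ x : ZMod 2, x + x = 0) _

open Classical in
/-- the probability that `M` samples are not different or not Sidon: two equal samples, or four different indices with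
`a i = a j + a k + a l` (if the samples are different and two sums agree, the four indices are different) -/
theorem bad_le (M : ℕ) (ν : (ι → ZMod 2) → ℝ) (hν : ∀ v, 0 ≤ ν v) (h1 : ∑ v, ν v = 1) (β : ℝ)
    (hβ : ∀ v, ν v ≤ β) :
    ∑ a : Fin M → ι → ZMod 2,
        (if Function.Injective a ∧ Sid (univ.image a) then 0 else ∏ i, ν (a i))
      ≤ (M : ℝ) ^ 4 * β := by
  have hβ0 : 0 ≤ β := (hν 0).trans (hβ 0)
  -- the events
  let Ev : (Fin M × Fin M) × (Fin M × Fin M) → (Fin M → ι → ZMod 2) → Prop := fun τ a =>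
    (τ.1.1 ≠ τ.1.2 ∧ τ.1.1 ≠ τ.2.1 ∧ τ.1.1 ≠ τ.2.2 ∧ a τ.1.1 = a τ.1.2 + a τ.2.1 + a τ.2.2) ∨
    (τ.1.1 ≠ τ.1.2 ∧ τ.2.1 = τ.1.1 ∧ τ.2.2 = τ.1.1 ∧ a τ.1.1 = a τ.1.2)
  have hbad : ∀ a : Fin M → ι → ZMod 2, ¬ (Function.Injective a ∧ Sid (univ.image a)) →
      ∃ τ, Ev τ a := by
    intro a hnot
    by_cases hinj : Function.Injective a
    · have hS : ¬ Sid (univ.image a) := fun h => hnot ⟨hinj, h⟩
      unfold Sid at hS
      push Not at hS
      obtain ⟨x, hx, y, hy, z, hz, w, hw, hxy, hzw, hsum, h3, h4⟩ := hS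
      obtain ⟨i, -, rfl⟩ := Finset.mem_image.mp hx
      obtain ⟨j, -, rfl⟩ := Finset.mem_image.mp hy
      obtain ⟨k, -, rfl⟩ := Finset.mem_image.mp hz
      obtain ⟨l, -, rfl⟩ := Finset.mem_image.mp hw
      refine ⟨((i, j), (k, l)), Or.inl ⟨?_, ?_, ?_, ?_⟩⟩
      · intro (h : i = j)
        exact hxy (by rw [h])
      · intro (h : i = k)
        apply h3 (by rw [h])
        rw [h] at hsum
        exact add_left_cancel hsum
      · intro (h : i = l)
        apply h4 (by rw [h])
        rw [h, add_comm (a k)] at hsum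
        exact add_left_cancel hsum
      · show a i = a j + a k + a l
        have h5 : a i = a i + a j + a j := by rw [add_assoc, zmod2_add_self, add_zero]
        rw [h5, hsum]
        abel
    · unfold Function.Injective at hinj
      push Not at hinj
      obtain ⟨i, j, hij, hne⟩ := hinj
      exact ⟨((i, j), (i, i)), Or.inr ⟨hne, rfl, rfl, hij⟩⟩
  have hone : ∀ τ, ∑ a : Fin M → ι → ZMod 2, (if Ev τ a then ∏ i, ν (a i) else 0) ≤ β := by
    intro τ
    obtain ⟨n, rfl⟩ : ∃ n, M = n + 1 := ⟨M - 1, by have := τ.1.1.pos; omega⟩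
    by_cases hτ : τ.1.1 ≠ τ.1.2 ∧ τ.1.1 ≠ τ.2.1 ∧ τ.1.1 ≠ τ.2.2
    · refine one_le n ν hν h1 β hβ τ.1.1 (fun a => a τ.1.2 + a τ.2.1 + a τ.2.2) ?_ _ ?_
      · intro a b hab
        show a τ.1.2 + a τ.2.1 + a τ.2.2 = b τ.1.2 + b τ.2.1 + b τ.2.2
        rw [hab _ (Ne.symm hτ.1), hab _ (Ne.symm hτ.2.1), hab _ (Ne.symm hτ.2.2)]
      · rintro a (⟨-, -, -, h⟩ | ⟨-, h, -, -⟩)
        · exact h
        · exact absurd h.symm hτ.2.1
    · by_cases hτ2 : τ.1.1 ≠ τ.1.2
      · refine one_le n ν hν h1 β hβ τ.1.1 (fun a => a τ.1.2) ?_ _ ?_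
        · intro a b hab
          exact hab _ (Ne.symm hτ2)
        · rintro a (⟨h2, h3, h4, -⟩ | ⟨-, -, -, h⟩)
          · exact absurd ⟨h2, h3, h4⟩ hτ
          · exact h
      · have : ∀ a, ¬ Ev τ a := by
          rintro a (⟨h2, -⟩ | ⟨h2, -⟩) <;> exact hτ2 h2
        simp only [this, if_false, Finset.sum_const_zero]
        exact hβ0
  calc ∑ a : Fin M → ι → ZMod 2,
        (if Function.Injective a ∧ Sid (univ.image a) then 0 else ∏ i, ν (a i))
      ≤ ∑ a : Fin M → ι → ZMod 2, ∑ τ : (Fin M × Fin M) × (Fin M × Fin M),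
          (if Ev τ a then ∏ i, ν (a i) else 0) := by
        refine Finset.sum_le_sum fun a _ => ?_
        have hP : 0 ≤ ∏ i, ν (a i) := Finset.prod_nonneg fun j _ => hν _
        have hnn : ∀ τ : (Fin M × Fin M) × (Fin M × Fin M),
            0 ≤ (if Ev τ a then ∏ i, ν (a i) else 0) := by
          intro τ
          split_ifs
          · exact hP
          · exact le_rfl
        by_cases hg : Function.Injective a ∧ Sid (univ.image a)
        · rw [if_pos hg]
          exact Finset.sum_nonneg fun τ _ => hnn τ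
        · rw [if_neg hg]
          obtain ⟨τ, hτ⟩ := hbad a hg
          calc ∏ i, ν (a i) = (if Ev τ a then ∏ i, ν (a i) else 0) := by rw [if_pos hτ]
            _ ≤ _ := Finset.single_le_sum (fun τ _ => hnn τ) (Finset.mem_univ τ)
    _ = ∑ τ : (Fin M × Fin M) × (Fin M × Fin M), ∑ a : Fin M → ι → ZMod 2,
          (if Ev τ a then ∏ i, ν (a i) else 0) := Finset.sum_comm
    _ ≤ ∑ τ : (Fin M × Fin M) × (Fin M × Fin M), β := Finset.sum_le_sum fun τ _ => hone τ
    _ = (M : ℝ) ^ 4 * β := by
        simp only [Finset.sum_const, Finset.card_univ, Fintype.card_prod, Fintype.card_fin,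
          nsmul_eq_mul]
        push_cast
        ring

private lemma pair_eq {V : Type} [Fintype V] [DecidableEq V] (M : ℕ) (ν : V → ℝ)
    (h1 : ∑ v, ν v = 1) (i j : Fin M) (hij : i ≠ j) (u v : V) :
    ∑ a : Fin M → V, (∏ k, ν (a k)) * ((if a i = u then 1 else 0) * (if a j = v then 1 else 0))
      = ν u * ν v := by
  have h := (Finset.prod_univ_sum (fun _ : Fin M => (univ : Finset V)) (fun k x =>
    ν x * ((if k = i then (if x = u then (1 : ℝ) else 0) else 1) *
      (if k = j then (if x = v then (1 : ℝ) else 0) else 1)))).symm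
  rw [Fintype.piFinset_univ] at h
  have h2 : ∀ a : Fin M → V, ∏ k, (ν (a k) * ((if k = i then (if a k = u then (1 : ℝ) else 0) else 1) *
      (if k = j then (if a k = v then (1 : ℝ) else 0) else 1))) =
      (∏ k, ν (a k)) * ((if a i = u then 1 else 0) * (if a j = v then 1 else 0)) := by
    intro a
    rw [Finset.prod_mul_distrib, Finset.prod_mul_distrib, Finset.prod_ite_eq', Finset.prod_ite_eq']
    simp
  simp only [h2] at h
  rw [h]
  have h3 : ∀ k : Fin M, ∑ x : V, (ν x * ((if k = i then (if x = u then (1 : ℝ) else 0) else 1) *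
      (if k = j then (if x = v then (1 : ℝ) else 0) else 1))) =
      (if k = i then ν u else 1) * (if k = j then ν v else 1) := by
    intro k
    by_cases hki : k = i
    · have hkj : k ≠ j := fun h => hij (hki.symm.trans h)
      simp only [if_pos hki, if_neg hkj, mul_one]
      simp
    · by_cases hkj : k = j
      · simp only [if_neg hki, if_pos hkj, one_mul]
        simp
      · simp only [if_neg hki, if_neg hkj, mul_one]
        exact h1
  rw [Finset.prod_congr rfl (fun k _ => h3 k), Finset.prod_mul_distrib, Finset.prod_ite_eq',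
    Finset.prod_ite_eq']
  simp

/-- the expectation of the sum over the pairs of samples -/
theorem sum_pairs_eq (M : ℕ) (ν : (ι → ZMod 2) → ℝ) (h1 : ∑ v, ν v = 1)
    (f : (ι → ZMod 2) → (ι → ZMod 2) → ℝ) :
    ∑ a : Fin M → ι → ZMod 2, (∏ i, ν (a i)) *
        ∑ p ∈ (univ : Finset (Fin M × Fin M)).filter (fun p => p.1 ≠ p.2), f (a p.1) (a p.2)
      = M * (M - 1) * ∑ u, ∑ v, ν u * ν v * f u v := by
  simp only [Finset.mul_sum]
  rw [Finset.sum_comm]
  have key : ∀ p ∈ (univ : Finset (Fin M × Fin M)).filter (fun p => p.1 ≠ p.2),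
      ∑ a : Fin M → ι → ZMod 2, (∏ i, ν (a i)) * f (a p.1) (a p.2) =
        ∑ u, ∑ v, ν u * ν v * f u v := by
    intro p hp
    have hne : p.1 ≠ p.2 := (Finset.mem_filter.mp hp).2
    have h2 : ∀ a : Fin M → ι → ZMod 2, (∏ i, ν (a i)) * f (a p.1) (a p.2) =
        ∑ u, ∑ v, ((∏ i, ν (a i)) * ((if a p.1 = u then 1 else 0) * (if a p.2 = v then 1 else 0)))
          * f u v := by
      intro a
      have h3 : ∀ u v, ((∏ i, ν (a i)) * ((if a p.1 = u then (1 : ℝ) else 0) *
          (if a p.2 = v then 1 else 0))) * f u v =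
          if a p.1 = u then (if a p.2 = v then (∏ i, ν (a i)) * f u v else 0) else 0 := by
        intro u v
        split_ifs <;> ring
      simp only [h3]
      simp
    rw [Finset.sum_congr rfl (fun a _ => h2 a), Finset.sum_comm]
    refine Finset.sum_congr rfl fun u _ => ?_
    rw [Finset.sum_comm]
    refine Finset.sum_congr rfl fun v _ => ?_
    rw [← Finset.sum_mul, pair_eq M ν h1 p.1 p.2 hne u v]
  rw [Finset.sum_congr rfl key, Finset.sum_const, nsmul_eq_mul]
  have hcard : (((univ : Finset (Fin M × Fin M)).filter (fun p => p.1 ≠ p.2)).card : ℝ)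
      = M * (M - 1) := by
    have h3 : (univ : Finset (Fin M × Fin M)).filter (fun p => p.1 ≠ p.2)
        = (univ : Finset (Fin M)).offDiag := by
      ext p
      simp [Finset.mem_offDiag]
    rw [h3, Finset.offDiag_card, Finset.card_univ, Fintype.card_fin]
    rw [Nat.cast_sub (Nat.le_mul_self M)]
    push_cast
    ring
  rw [hcard]
  simp only [Finset.mul_sum]

end Pool.Agent.Lib.MP_938ce2_ag_l4
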