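import Mathlib
import Pool.Agent.Lib.MP_938ce2_ag_l4.T25a

set_option autoImplicit false
set_option linter.unusedSectionVars false

namespace Pool.Agent.Lib.MP_938ce2_ag_l4

open Finset

variable {ι : Type} [Fintype ι] [DecidableEq ι]

/-- **Sampling.** `sum_pairs_eq` with `f u v = if u ≠ v then rr S (u + v) else 0`: for a good sample (in `S`) the sum over the pairs is
`RR S (image of a) ≤ K' M ^ 2`, for a bad sample at most `M ^ 2 * R₀`, and the bad samples have weight `≤ M ^ 4 β`; so
`M (M - 1) * T ≤ (K' + 1) M ^ 2`. -/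
theorem sampling (S : Finset (ι → ZMod 2)) (M : ℕ) (hM : 2 ≤ M) (ν : (ι → ZMod 2) → ℝ)
    (hν : ∀ v, 0 ≤ ν v) (h1 : ∑ v, ν v = 1) (hsupp : ∀ v ∉ S, ν v = 0) (β R₀ K' : ℝ)
    (hβ : ∀ v, ν v ≤ β) (hR : ∀ ψ : ι → ZMod 2, ψ ≠ 0 → (rr S ψ : ℝ) ≤ R₀) (hR0 : 0 ≤ R₀)
    (hβR : (M : ℝ) ^ 4 * β * R₀ ≤ 1) (hK : 0 ≤ K')
    (hA : ∀ A ⊆ S, A.card = M → Sid A → (RR S A : ℝ) ≤ K' * M ^ 2) :
    ∑ u, ∑ v, (if u ≠ v then ν u * ν v * rr S (u + v) else 0) ≤ 2 * K' + 2 := by
  classical
  have h0 : ∀ u v : ι → ZMod 2, u ≠ v → u + v ≠ 0 := by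
    intro u v huv h
    apply huv
    funext i
    have h2 : u i + v i = 0 := congrFun h i
    have : ∀ a b : ZMod 2, a + b = 0 → a = b := by decide
    exact this _ _ h2
  set f : (ι → ZMod 2) → (ι → ZMod 2) → ℝ := fun u v => if u ≠ v then (rr S (u + v) : ℝ) else 0
    with hf
  have hf1 : ∀ u v, f u v ≤ R₀ := by
    intro u v
    simp only [hf]
    split_ifs with h
    · exact hR _ (h0 u v h)
    · exact hR0
  have hf0 : ∀ u v, 0 ≤ f u v := by
    intro u v
    simp only [hf]
    split_ifs
    · positivity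
    · exact le_refl _
  have hT : ∑ u, ∑ v, (if u ≠ v then ν u * ν v * rr S (u + v) else 0) =
      ∑ u, ∑ v, ν u * ν v * f u v := by
    refine Finset.sum_congr rfl fun u _ => Finset.sum_congr rfl fun v _ => ?_
    simp only [hf]
    split_ifs <;> simp
  rw [hT]
  have hsum := sum_pairs_eq M ν h1 f
  have hone : ∑ a : Fin M → ι → ZMod 2, ∏ i, ν (a i) = 1 := by
    rw [← Fintype.sum_pow, h1, one_pow]
  have hprod : ∀ a : Fin M → ι → ZMod 2, 0 ≤ ∏ i, ν (a i) :=
    fun a => Finset.prod_nonneg fun i _ => hν _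
  have hb := bad_le M ν hν h1 β hβ
  have key : ∑ a : Fin M → ι → ZMod 2, (∏ i, ν (a i)) *
        ∑ p ∈ (univ : Finset (Fin M × Fin M)).filter (fun p => p.1 ≠ p.2), f (a p.1) (a p.2) ≤
      K' * (M : ℝ) ^ 2 * ∑ a : Fin M → ι → ZMod 2, ∏ i, ν (a i) +
        (M : ℝ) ^ 2 * R₀ * ((M : ℝ) ^ 4 * β) := by
    refine le_trans ?_ (add_le_add_right (mul_le_mul_of_nonneg_left hb (by positivity)) _)
    rw [Finset.mul_sum, Finset.mul_sum, ← Finset.sum_add_distrib]
    refine Finset.sum_le_sum fun a _ => ?_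
    split_ifs with hgood
    · rw [mul_zero, add_zero]
      rcases (hprod a).eq_or_lt with hz | hz
      · rw [← hz, zero_mul, mul_zero]
      · have hmem : ∀ i, a i ∈ S := by
          intro i
          by_contra hi
          have : ∏ i, ν (a i) = 0 := Finset.prod_eq_zero (Finset.mem_univ i) (hsupp _ hi)
          linarith
        have hcard : (univ.image a).card = M := by
          rw [Finset.card_image_of_injective _ hgood.1, Finset.card_univ, Fintype.card_fin]
        have hsub : univ.image a ⊆ S := by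
          intro v hv
          obtain ⟨i, _, rfl⟩ := Finset.mem_image.mp hv
          exact hmem i
        have hRR := hA (univ.image a) hsub hcard hgood.2
        have hG : ∑ p ∈ (univ : Finset (Fin M × Fin M)).filter (fun p => p.1 ≠ p.2),
            f (a p.1) (a p.2) = (RR S (univ.image a) : ℝ) := by
          unfold RR
          push_cast
          refine Finset.sum_bij (fun p _ => (a p.1, a p.2)) ?_ ?_ ?_ ?_
          · intro p hp
            have hp' := (Finset.mem_filter.mp hp).2
            refine Finset.mem_filter.mpr ⟨Finset.mem_product.mpr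
              ⟨Finset.mem_image_of_mem _ (Finset.mem_univ _),
                Finset.mem_image_of_mem _ (Finset.mem_univ _)⟩, ?_⟩
            intro h
            exact hp' (hgood.1 h)
          · intro p _ q _ hpq
            exact Prod.ext (hgood.1 (Prod.mk.inj hpq).1) (hgood.1 (Prod.mk.inj hpq).2)
          · rintro ⟨u, v⟩ huv
            obtain ⟨h2, h3⟩ := Finset.mem_filter.mp huv
            obtain ⟨h4, h5⟩ := Finset.mem_product.mp h2
            obtain ⟨i, _, hi⟩ := Finset.mem_image.mp h4
            obtain ⟨j, _, hj⟩ := Finset.mem_image.mp h5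
            refine ⟨(i, j), Finset.mem_filter.mpr ⟨Finset.mem_univ _, ?_⟩, ?_⟩
            · intro hij
              apply h3
              change i = j at hij
              change u = v
              change a i = u at hi
              change a j = v at hj
              rw [← hi, ← hj, hij]
            · exact Prod.ext hi hj
          · intro p hp
            have hp' := (Finset.mem_filter.mp hp).2
            have h3 : a p.1 ≠ a p.2 := fun h => hp' (hgood.1 h)
            simp only [hf]
            rw [if_pos h3]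
        rw [hG, mul_comm]
        exact mul_le_mul_of_nonneg_right hRR hz.le
    · have hG : ∑ p ∈ (univ : Finset (Fin M × Fin M)).filter (fun p => p.1 ≠ p.2),
          f (a p.1) (a p.2) ≤ (M : ℝ) ^ 2 * R₀ := by
        calc ∑ p ∈ (univ : Finset (Fin M × Fin M)).filter (fun p => p.1 ≠ p.2), f (a p.1) (a p.2)
            ≤ ∑ p ∈ (univ : Finset (Fin M × Fin M)).filter (fun p => p.1 ≠ p.2), R₀ :=
              Finset.sum_le_sum fun p _ => hf1 _ _
          _ = (((univ : Finset (Fin M × Fin M)).filter (fun p => p.1 ≠ p.2)).card : ℝ) * R₀ := by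
              rw [Finset.sum_const, nsmul_eq_mul]
          _ ≤ (M : ℝ) ^ 2 * R₀ := by
              refine mul_le_mul_of_nonneg_right ?_ hR0
              have h2 : ((univ : Finset (Fin M × Fin M)).filter (fun p => p.1 ≠ p.2)).card ≤
                  M * M := by
                refine (Finset.card_filter_le _ _).trans ?_
                rw [Finset.card_univ, Fintype.card_prod, Fintype.card_fin]
              rw [sq]
              exact_mod_cast h2
      have h2 : 0 ≤ K' * (M : ℝ) ^ 2 * ∏ i, ν (a i) := mul_nonneg (by positivity) (hprod a)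
      have h3 := mul_le_mul_of_nonneg_left hG (hprod a)
      linarith
  rw [hsum, hone, mul_one] at key
  have hMr : (2 : ℝ) ≤ M := by exact_mod_cast hM
  set T := ∑ u, ∑ v, ν u * ν v * f u v with hTdef
  have h5 : (M : ℝ) ^ 2 * R₀ * ((M : ℝ) ^ 4 * β) ≤ (M : ℝ) ^ 2 := by
    have : (M : ℝ) ^ 2 * R₀ * ((M : ℝ) ^ 4 * β) = (M : ℝ) ^ 2 * ((M : ℝ) ^ 4 * β * R₀) := by ring
    rw [this]
    calc (M : ℝ) ^ 2 * ((M : ℝ) ^ 4 * β * R₀) ≤ (M : ℝ) ^ 2 * 1 :=
          mul_le_mul_of_nonneg_left hβR (by positivity)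
      _ = (M : ℝ) ^ 2 := mul_one _
  have h6 : (M : ℝ) * (M - 1) * T ≤ (K' + 1) * (M : ℝ) ^ 2 := by linarith
  have h7 : (M : ℝ) * ((M - 1) * T) ≤ M * ((K' + 1) * M) := by nlinarith
  have h8 : ((M : ℝ) - 1) * T ≤ (K' + 1) * M := le_of_mul_le_mul_left h7 (by linarith)
  have h9 : ((M : ℝ) - 1) * T ≤ (M - 1) * (2 * K' + 2) := by nlinarith
  exact le_of_mul_le_mul_left h9 (by linarith)


end Pool.Agent.Lib.MP_938ce2_ag_l4
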