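import Mathlib
import Pool.Agent.Lib.MP_938ce2_ag_l4.T25b

set_option autoImplicit false
set_option linter.unusedSectionVars false

namespace Pool.Agent.Lib.MP_938ce2_ag_l4

open Finset

variable {ι : Type} [Fintype ι] [DecidableEq ι]

/-- **The tail.** Let `m = ∑ w ^ 2`. If `m * √R₀ ≤ W`, bound `rr` by `R₀`; otherwise `sampling` for `ν = w ^ 2 / m ≤ β * √R₀`. -/
theorem tail (S : Finset (ι → ZMod 2)) (M : ℕ) (hM : 2 ≤ M) (w : (ι → ZMod 2) → ℝ)
    (hsupp : ∀ v ∉ S, w v = 0) (W β R₀ K' : ℝ) (hW : ∑ v, w v ^ 2 ≤ W)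
    (hβ : ∀ v, w v ^ 2 ≤ β * W) (hR0 : 0 < R₀) (hβR : (M : ℝ) ^ 4 * (β * √R₀) * R₀ ≤ 1)
    (hR : ∀ ψ : ι → ZMod 2, ψ ≠ 0 → (rr S ψ : ℝ) ≤ R₀) (hK : 0 ≤ K')
    (hA : ∀ A ⊆ S, A.card = M → Sid A → (RR S A : ℝ) ≤ K' * M ^ 2) :
    TT S w ≤ (2 * K' + 2) * W ^ 2 := by
  set m : ℝ := ∑ v, w v ^ 2 with hm
  have hm0 : 0 ≤ m := Finset.sum_nonneg fun v _ => sq_nonneg _
  have hW0 : 0 ≤ W := hm0.trans hW
  rcases le_or_gt (m * √R₀) W with hcase | hcase
  · -- small mass
    have h1 : TT S w ≤ R₀ * m ^ 2 := by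
      unfold TT
      have h2 : R₀ * m ^ 2 = ∑ a : ι → ZMod 2, ∑ b : ι → ZMod 2, R₀ * (w a ^ 2 * w b ^ 2) := by
        rw [hm, sq, Finset.sum_mul_sum, Finset.mul_sum]
        refine Finset.sum_congr rfl fun a _ => ?_
        rw [Finset.mul_sum]
      rw [h2]
      refine Finset.sum_le_sum fun a _ => Finset.sum_le_sum fun b _ => ?_
      split_ifs with hab
      · have hne : a + b ≠ 0 := by
          intro h0
          apply hab
          funext i
          have h3 := congrFun h0 i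
          have h4 : a i + b i = 0 := h3
          have h5 : ∀ x y : ZMod 2, x + y = 0 → x = y := by decide
          exact h5 _ _ h4
        have h3 := hR _ hne
        have h4 : 0 ≤ w a ^ 2 * w b ^ 2 := by positivity
        nlinarith
      · positivity
    have h2 : R₀ * m ^ 2 = (m * √R₀) ^ 2 := by
      rw [mul_pow, Real.sq_sqrt hR0.le]; ring
    have h3 : (m * √R₀) ^ 2 ≤ W ^ 2 := by
      apply pow_le_pow_left₀ (by positivity) hcase
    have h4 : W ^ 2 ≤ (2 * K' + 2) * W ^ 2 := by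
      have : 0 ≤ W ^ 2 := sq_nonneg _
      nlinarith
    linarith
  · -- large mass
    have hsq : 0 < √R₀ := Real.sqrt_pos.mpr hR0
    have hmpos : 0 < m := by
      by_contra hle
      have : m = 0 := le_antisymm (not_lt.mp hle) hm0
      rw [this, zero_mul] at hcase
      linarith
    have hWpos : 0 < W := hmpos.trans_le hW
    have hβ0 : 0 ≤ β := by
      have h1 : 0 ≤ β * W := (sq_nonneg (w 0)).trans (hβ 0)
      by_contra hneg
      push Not at hneg
      have : β * W < 0 := mul_neg_of_neg_of_pos hneg hWpos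
      linarith
    have h1 : ∀ v, w v ^ 2 / m ≤ β * √R₀ := by
      intro v
      rw [div_le_iff₀ hmpos]
      calc w v ^ 2 ≤ β * W := hβ v
        _ ≤ β * (m * √R₀) := mul_le_mul_of_nonneg_left hcase.le hβ0
        _ = β * √R₀ * m := by ring
    have h2 := sampling S M hM (fun v => w v ^ 2 / m) (fun v => by positivity)
      (by rw [← Finset.sum_div, ← hm, div_self hmpos.ne'])
      (fun v hv => by rw [hsupp v hv]; simp) (β * √R₀) R₀ K' h1 hR hR0.le hβR hK hA
    have h3 : TT S w = m ^ 2 * ∑ u : ι → ZMod 2, ∑ v : ι → ZMod 2,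
        (if u ≠ v then w u ^ 2 / m * (w v ^ 2 / m) * rr S (u + v) else 0) := by
      unfold TT
      rw [Finset.mul_sum]
      refine Finset.sum_congr rfl fun a _ => ?_
      rw [Finset.mul_sum]
      refine Finset.sum_congr rfl fun b _ => ?_
      split_ifs with hab
      · field_simp
      · ring
    rw [h3]
    calc m ^ 2 * _ ≤ m ^ 2 * (2 * K' + 2) := mul_le_mul_of_nonneg_left h2 (sq_nonneg _)
      _ ≤ W ^ 2 * (2 * K' + 2) := by
          apply mul_le_mul_of_nonneg_right _ (by linarith)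
          exact pow_le_pow_left₀ hm0 hW 2
      _ = _ := by ring

end Pool.Agent.Lib.MP_938ce2_ag_l4
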