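import Mathlib
import Pool.Agent.Lib.MP_938ce2_ag_l4.T01
import Pool.Agent.Lib.MP_938ce2_ag_l4.D2

set_option autoImplicit false
set_option linter.unusedSectionVars false

namespace Pool.Agent.Lib.MP_938ce2_ag_l4

open Finset

variable {ι : Type} [Fintype ι] [DecidableEq ι]

private theorem t26_add_self (v : ι → ZMod 2) : v + v = 0 := by
  funext i
  exact CharTwo.add_self_eq_zero (v i)

private theorem t26_add_zero_iff (a b : ι → ZMod 2) : a + b = 0 ↔ a = b := by
  constructor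
  · intro h
    have h1 : a + b + b = b := by rw [h, zero_add]
    rw [add_assoc, t26_add_self, add_zero] at h1
    exact h1
  · intro h
    rw [h, t26_add_self]

private theorem t26_ch4 (a b c d z : ι → ZMod 2) :
    ch a z * ch b z * ch c z * ch d z = ch (a + b + c + d) z := by
  rw [ch_add, ch_add, ch_add]

private theorem t26_sum_ch (v : ι → ZMod 2) :
    ∑ z, (ch v z : ℝ) = if v = 0 then 2 ^ Fintype.card ι else 0 := by
  have h := sum_ch v
  have h2 : ∑ z, (ch v z : ℝ) = ((∑ z, ch v z : ℤ) : ℝ) := by push_cast; rfl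
  rw [h2, h]
  split_ifs <;> push_cast <;> rfl

private theorem t26_expand (w : (ι → ZMod 2) → ℝ) :
    ∑ z : ι → ZMod 2, (∑ v, w v * (ch v z : ℝ)) ^ 4 =
      (∑ a, ∑ b, ∑ c, w a * w b * w c * w (a + b + c)) * 2 ^ Fintype.card ι := by
  have h1 : ∀ z : ι → ZMod 2, (∑ v, w v * (ch v z : ℝ)) ^ 4 =
      ∑ a, ∑ b, ∑ c, ∑ d, w a * w b * w c * w d * (ch (a + b + c + d) z : ℝ) := by
    intro z
    have e : (∑ v, w v * (ch v z : ℝ)) ^ 4 = (∑ v, w v * (ch v z : ℝ)) *
        ((∑ v, w v * (ch v z : ℝ)) * ((∑ v, w v * (ch v z : ℝ)) * (∑ v, w v * (ch v z : ℝ)))) := by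
      ring
    rw [e, Finset.sum_mul]
    refine Finset.sum_congr rfl fun a _ => ?_
    rw [Finset.sum_mul, Finset.mul_sum]
    refine Finset.sum_congr rfl fun b _ => ?_
    rw [Finset.sum_mul, Finset.mul_sum, Finset.mul_sum]
    refine Finset.sum_congr rfl fun c _ => ?_
    rw [Finset.mul_sum, Finset.mul_sum, Finset.mul_sum]
    refine Finset.sum_congr rfl fun d _ => ?_
    rw [← t26_ch4]
    push_cast
    ring
  have h2 : ∀ a b c : ι → ZMod 2, ∑ d, w a * w b * w c * w d *
      (∑ z : ι → ZMod 2, (ch (a + b + c + d) z : ℝ)) =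
      w a * w b * w c * w (a + b + c) * 2 ^ Fintype.card ι := by
    intro a b c
    rw [Finset.sum_eq_single (a + b + c)]
    · rw [t26_sum_ch, if_pos (t26_add_self _)]
    · intro d _ hd
      rw [t26_sum_ch, if_neg, mul_zero]
      intro h
      exact hd ((t26_add_zero_iff _ _).1 h).symm
    · intro h
      exact absurd (Finset.mem_univ _) h
  rw [Finset.sum_congr rfl fun z _ => h1 z]
  rw [Finset.sum_comm, Finset.sum_mul]
  refine Finset.sum_congr rfl fun a _ => ?_
  rw [Finset.sum_comm, Finset.sum_mul]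
  refine Finset.sum_congr rfl fun b _ => ?_
  rw [Finset.sum_comm, Finset.sum_mul]
  refine Finset.sum_congr rfl fun c _ => ?_
  rw [Finset.sum_comm, ← h2]
  refine Finset.sum_congr rfl fun d _ => ?_
  rw [Finset.mul_sum]

private theorem t26_sum_mem {α : Type} [Fintype α] [DecidableEq α] (S : Finset α) (f : α → ℝ) :
    ∑ a ∈ S, f a = ∑ a, if a ∈ S then f a else 0 := by
  rw [Finset.sum_ite_mem, Finset.univ_inter]

private theorem t26_Qf (S : Finset (ι → ZMod 2)) (w : (ι → ZMod 2) → ℝ) :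
    Qf S w = ∑ a, ∑ b, ∑ c, if a ∈ S ∧ b ∈ S ∧ c ∈ S ∧ rel S a b c then
      w a * w b * w c * w (a + b + c) else 0 := by
  unfold Qf
  rw [t26_sum_mem]
  refine Finset.sum_congr rfl fun a _ => ?_
  by_cases ha : a ∈ S
  · rw [if_pos ha, t26_sum_mem]
    refine Finset.sum_congr rfl fun b _ => ?_
    by_cases hb : b ∈ S
    · rw [if_pos hb, t26_sum_mem]
      refine Finset.sum_congr rfl fun c _ => ?_
      by_cases hc : c ∈ S
      · rw [if_pos hc]
        by_cases hr : rel S a b c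
        · rw [if_pos hr, if_pos ⟨ha, hb, hc, hr⟩]
        · rw [if_neg hr, if_neg fun h => hr h.2.2.2]
      · rw [if_neg hc, if_neg fun h => hc h.2.2.1]
    · rw [if_neg hb]
      symm
      refine Finset.sum_eq_zero fun c _ => ?_
      rw [if_neg fun h => hb h.2.1]
  · rw [if_neg ha]
    symm
    refine Finset.sum_eq_zero fun b _ => Finset.sum_eq_zero fun c _ => ?_
    rw [if_neg fun h => ha h.1]

private theorem t26_pt (S : Finset (ι → ZMod 2)) (w : (ι → ZMod 2) → ℝ) (hsupp : ∀ v ∉ S, w v = 0)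
    (a b c : ι → ZMod 2) : w a * w b * w c * w (a + b + c) ≤
      ((if a = b then w a ^ 2 * w c ^ 2 else 0) + (if a = c then w a ^ 2 * w b ^ 2 else 0) +
        (if b = c then w b ^ 2 * w a ^ 2 else 0)) +
      (if a ∈ S ∧ b ∈ S ∧ c ∈ S ∧ rel S a b c then |w a| * |w b| * |w c| * |w (a + b + c)|
        else 0) := by
  have n1 : 0 ≤ (if a = b then w a ^ 2 * w c ^ 2 else 0) := by split_ifs <;> positivity
  have n2 : 0 ≤ (if a = c then w a ^ 2 * w b ^ 2 else 0) := by split_ifs <;> positivity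
  have n3 : 0 ≤ (if b = c then w b ^ 2 * w a ^ 2 else 0) := by split_ifs <;> positivity
  have n4 : 0 ≤ (if a ∈ S ∧ b ∈ S ∧ c ∈ S ∧ rel S a b c then
      |w a| * |w b| * |w c| * |w (a + b + c)| else 0) := by split_ifs <;> positivity
  by_cases hab : a = b
  · have e : w a * w b * w c * w (a + b + c) = w a ^ 2 * w c ^ 2 := by
      rw [hab, t26_add_self, zero_add]; ring
    rw [e]
    rw [if_pos hab]
    linarith
  · by_cases hac : a = c
    · have e : w a * w b * w c * w (a + b + c) = w a ^ 2 * w b ^ 2 := by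
        have : a + b + c = b := by
          rw [← hac, add_right_comm, t26_add_self, zero_add]
        rw [this, ← hac]; ring
      rw [e, if_pos hac]
      linarith
    · by_cases hbc : b = c
      · have e : w a * w b * w c * w (a + b + c) = w b ^ 2 * w a ^ 2 := by
          have : a + b + c = a := by
            rw [← hbc, add_assoc, t26_add_self, add_zero]
          rw [this, ← hbc]; ring
        rw [e, if_pos hbc]
        linarith
      · by_cases hS : a ∈ S ∧ b ∈ S ∧ c ∈ S ∧ a + b + c ∈ S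
        · have hr : a ∈ S ∧ b ∈ S ∧ c ∈ S ∧ rel S a b c :=
            ⟨hS.1, hS.2.1, hS.2.2.1, hbc, hab, hac, hS.2.2.2⟩
          rw [if_pos hr]
          have h1 : w a * w b * w c * w (a + b + c) ≤ |w a| * |w b| * |w c| * |w (a + b + c)| := by
            rw [← abs_mul, ← abs_mul, ← abs_mul]
            exact le_abs_self _
          linarith
        · have e : w a * w b * w c * w (a + b + c) = 0 := by
            by_contra h
            apply hS
            refine ⟨?_, ?_, ?_, ?_⟩ <;>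
              (by_contra hn; apply h; rw [hsupp _ hn]; ring)
          rw [e]
          linarith

private theorem t26_diag (w : (ι → ZMod 2) → ℝ) :
    (∑ a : ι → ZMod 2, ∑ b, ∑ c, (if a = b then w a ^ 2 * w c ^ 2 else 0)) =
      (∑ v, w v ^ 2) ^ 2 := by
  rw [sq (∑ v, w v ^ 2), Finset.sum_mul]
  refine Finset.sum_congr rfl fun a _ => ?_
  rw [Finset.sum_eq_single a]
  · rw [Finset.mul_sum]
    refine Finset.sum_congr rfl fun c _ => ?_
    rw [if_pos rfl]
  · intro b _ hb
    refine Finset.sum_eq_zero fun c _ => ?_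
    rw [if_neg hb.symm]
  · intro h; exact absurd (Finset.mem_univ _) h

/-- **The fourth moment.** Expand: the sum over `z` is `2 ^ card ι` times the sum of `w a * w b * w c * w (a + b + c)`; the terms
with `a = b`, `a = c` or `b = c` are squares and their sum is at most `3 * (∑ w ^ 2) ^ 2` -/
theorem fourth (S : Finset (ι → ZMod 2)) (w : (ι → ZMod 2) → ℝ) (hsupp : ∀ v ∉ S, w v = 0) :
    ∑ z : ι → ZMod 2, (∑ v, w v * (ch v z : ℝ)) ^ 4
      ≤ (3 * (∑ v, w v ^ 2) ^ 2 + Qf S (fun v => |w v|)) * 2 ^ Fintype.card ι := by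
  rw [t26_expand]
  refine mul_le_mul_of_nonneg_right ?_ (by positivity)
  have h1 := Finset.sum_le_sum fun (a : ι → ZMod 2) (_ : a ∈ univ) =>
    Finset.sum_le_sum fun (b : ι → ZMod 2) (_ : b ∈ univ) =>
      Finset.sum_le_sum fun (c : ι → ZMod 2) (_ : c ∈ univ) => t26_pt S w hsupp a b c
  refine h1.trans (le_of_eq ?_)
  simp only [Finset.sum_add_distrib]
  rw [← t26_Qf S fun v => |w v|]
  have d1 := t26_diag w
  have d2 : (∑ a : ι → ZMod 2, ∑ b, ∑ c, (if a = c then w a ^ 2 * w b ^ 2 else 0)) =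
      (∑ v, w v ^ 2) ^ 2 := by
    rw [← d1]
    refine Finset.sum_congr rfl fun a _ => ?_
    rw [Finset.sum_comm]
  have d3 : (∑ a : ι → ZMod 2, ∑ b, ∑ c, (if b = c then w b ^ 2 * w a ^ 2 else 0)) =
      (∑ v, w v ^ 2) ^ 2 := by
    rw [← d1, Finset.sum_comm]
    refine Finset.sum_congr rfl fun b _ => ?_
    rw [Finset.sum_comm]
  rw [d1, d2, d3]
  ring

private theorem t26_rr (S : Finset (ι → ZMod 2)) (ψ : ι → ZMod 2) :
    (rr S ψ : ℝ) = ∑ a, if a ∈ S ∧ a + ψ ∈ S then (1 : ℝ) else 0 := by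
  unfold rr
  rw [Finset.card_filter]
  push_cast
  rw [t26_sum_mem]
  refine Finset.sum_congr rfl fun a _ => ?_
  by_cases ha : a ∈ S
  · by_cases hb : a + ψ ∈ S
    · rw [if_pos ha, if_pos hb, if_pos ⟨ha, hb⟩]
    · rw [if_pos ha, if_neg hb, if_neg fun h => hb h.2]
  · rw [if_neg ha, if_neg fun h => ha h.1]

/-- `w a w b w c w d ≤ (w a ^ 2 w b ^ 2 + w c ^ 2 w d ^ 2) / 2` and the symmetry `(a, b) ↔ (c, d)` -/
theorem Qf_le_TT (S : Finset (ι → ZMod 2)) (w : (ι → ZMod 2) → ℝ) (hw : ∀ v, 0 ≤ w v) :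
    Qf S w ≤ TT S w := by
  rw [t26_Qf]
  -- the two halves
  have hA : (∑ a, ∑ b, ∑ c, if a ∈ S ∧ b ∈ S ∧ c ∈ S ∧ rel S a b c then
      w a ^ 2 * w b ^ 2 else 0) ≤ TT S w := by
    unfold TT
    refine Finset.sum_le_sum fun a _ => Finset.sum_le_sum fun b _ => ?_
    by_cases hab : a = b
    · rw [if_neg (not_not.2 hab)]
      refine le_of_eq (Finset.sum_eq_zero fun c _ => ?_)
      rw [if_neg fun h => h.2.2.2.2.1 hab]
    · rw [if_pos hab, t26_rr, Finset.mul_sum]
      refine Finset.sum_le_sum fun c _ => ?_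
      by_cases hr : a ∈ S ∧ b ∈ S ∧ c ∈ S ∧ rel S a b c
      · rw [if_pos hr, if_pos, mul_one]
        refine ⟨hr.2.2.1, ?_⟩
        have e : c + (a + b) = a + b + c := add_comm _ _
        rw [e]
        exact hr.2.2.2.2.2.2
      · rw [if_neg hr]
        split_ifs <;> positivity
  have hB : (∑ a, ∑ b, ∑ c, if a ∈ S ∧ b ∈ S ∧ c ∈ S ∧ rel S a b c then
      w c ^ 2 * w (a + b + c) ^ 2 else 0) ≤ TT S w := by
    have e1 : (∑ a, ∑ b, ∑ c, if a ∈ S ∧ b ∈ S ∧ c ∈ S ∧ rel S a b c then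
        w c ^ 2 * w (a + b + c) ^ 2 else 0) =
        ∑ c, ∑ d, ∑ a, if a ∈ S ∧ a + c + d ∈ S ∧ c ∈ S ∧ rel S a (a + c + d) c then
          w c ^ 2 * w d ^ 2 else 0 := by
      have e2 : ∀ a c : ι → ZMod 2, (∑ b, if a ∈ S ∧ b ∈ S ∧ c ∈ S ∧ rel S a b c then
          w c ^ 2 * w (a + b + c) ^ 2 else 0) =
          ∑ d, if a ∈ S ∧ a + c + d ∈ S ∧ c ∈ S ∧ rel S a (a + c + d) c then
          w c ^ 2 * w d ^ 2 else 0 := by
        intro a c
        rw [← Equiv.sum_comp (Equiv.addLeft (a + c))]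
        refine Finset.sum_congr rfl fun d _ => ?_
        have e3 : (Equiv.addLeft (a + c)) d = a + c + d := rfl
        have e4 : a + (a + c + d) + c = d := by
          have : a + (a + c + d) + c = (a + a) + (c + c) + d := by abel
          rw [this, t26_add_self, t26_add_self, zero_add, zero_add]
        rw [e3, e4]
      calc (∑ a, ∑ b, ∑ c, if a ∈ S ∧ b ∈ S ∧ c ∈ S ∧ rel S a b c then
          w c ^ 2 * w (a + b + c) ^ 2 else 0)
          = ∑ a, ∑ c, ∑ b, (if a ∈ S ∧ b ∈ S ∧ c ∈ S ∧ rel S a b c then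
              w c ^ 2 * w (a + b + c) ^ 2 else 0) :=
            Finset.sum_congr rfl fun a _ => Finset.sum_comm
        _ = ∑ a, ∑ c, ∑ d, (if a ∈ S ∧ a + c + d ∈ S ∧ c ∈ S ∧ rel S a (a + c + d) c then
              w c ^ 2 * w d ^ 2 else 0) :=
            Finset.sum_congr rfl fun a _ => Finset.sum_congr rfl fun c _ => e2 a c
        _ = ∑ c, ∑ a, ∑ d, (if a ∈ S ∧ a + c + d ∈ S ∧ c ∈ S ∧ rel S a (a + c + d) c then
              w c ^ 2 * w d ^ 2 else 0) := Finset.sum_comm
        _ = _ := Finset.sum_congr rfl fun c _ => Finset.sum_comm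
    rw [e1]
    unfold TT
    refine Finset.sum_le_sum fun c _ => Finset.sum_le_sum fun d _ => ?_
    by_cases hcd : c = d
    · rw [if_neg (not_not.2 hcd)]
      refine le_of_eq (Finset.sum_eq_zero fun a _ => ?_)
      rw [if_neg]
      intro h
      refine h.2.2.2.2.1 ?_
      rw [hcd, add_assoc, t26_add_self, add_zero]
    · rw [if_pos hcd, t26_rr, Finset.mul_sum]
      refine Finset.sum_le_sum fun a _ => ?_
      by_cases hr : a ∈ S ∧ a + c + d ∈ S ∧ c ∈ S ∧ rel S a (a + c + d) c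
      · rw [if_pos hr, if_pos, mul_one]
        refine ⟨hr.1, ?_⟩
        rw [← add_assoc]
        exact hr.2.1
      · rw [if_neg hr]
        split_ifs <;> positivity
  have hpt : ∀ a b c : ι → ZMod 2, (if a ∈ S ∧ b ∈ S ∧ c ∈ S ∧ rel S a b c then
      w a * w b * w c * w (a + b + c) else 0) ≤
      (1 / 2) * (if a ∈ S ∧ b ∈ S ∧ c ∈ S ∧ rel S a b c then w a ^ 2 * w b ^ 2 else 0) +
      (1 / 2) * (if a ∈ S ∧ b ∈ S ∧ c ∈ S ∧ rel S a b c then
        w c ^ 2 * w (a + b + c) ^ 2 else 0) := by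
    intro a b c
    by_cases hr : a ∈ S ∧ b ∈ S ∧ c ∈ S ∧ rel S a b c
    · rw [if_pos hr, if_pos hr, if_pos hr]
      nlinarith [sq_nonneg (w a * w b - w c * w (a + b + c))]
    · rw [if_neg hr, if_neg hr, if_neg hr]
      simp
  have h1 := Finset.sum_le_sum fun (a : ι → ZMod 2) (_ : a ∈ univ) =>
    Finset.sum_le_sum fun (b : ι → ZMod 2) (_ : b ∈ univ) =>
      Finset.sum_le_sum fun (c : ι → ZMod 2) (_ : c ∈ univ) => hpt a b c
  refine h1.trans ?_
  simp only [Finset.sum_add_distrib, ← Finset.mul_sum]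
  linarith

end Pool.Agent.Lib.MP_938ce2_ag_l4
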