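import Mathlib
import Pool.Agent.Lib.MP_938ce2_ag_l4.T18b
import Pool.Agent.Lib.MP_938ce2_ag_l4.T25c
import Pool.Agent.Lib.MP_938ce2_ag_l4.T26a

set_option autoImplicit false
set_option linter.unusedSectionVars false

namespace Pool.Agent.Lib.MP_938ce2_ag_l4

open Finset

variable {ι : Type} [Fintype ι] [DecidableEq ι]

/-- **Assembly.** Let `W = ∑ w ^ 2`, `T` = the `v` with `W / s₀ < w v ^ 2` (less than `s₀` elements, in `S`), `w = w₁ + w₂` with `w₁`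
supported on `T`; `(x + y) ^ 4 ≤ 8 * (x ^ 4 + y ^ 4)`; `fourth` for `w₁` on `T` with `weighted`, and for `w₂` on `S` with
`Qf_le_TT` and `tail` with `β = 1 / s₀`. -/
theorem L4_of (S : Finset (ι → ZMod 2)) (s₀ R₀ K' : ℝ) (C M : ℕ) (hM : 2 ≤ M) (hs : 1 ≤ s₀)
    (hTG : TG s₀ C S) (hR0 : 0 < R₀) (hR : ∀ ψ : ι → ZMod 2, ψ ≠ 0 → (rr S ψ : ℝ) ≤ R₀)
    (hK : 0 ≤ K') (hA : ∀ A ⊆ S, A.card = M → Sid A → (RR S A : ℝ) ≤ K' * M ^ 2)
    (hβ : (M : ℝ) ^ 4 * (1 / s₀ * √R₀) * R₀ ≤ 1) :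
    L4 (8 * (6 + 24 * C + (2 * K' + 2))) S := by
  classical
  intro w hw
  set W : ℝ := ∑ v, w v ^ 2 with hW
  have hW0 : 0 ≤ W := sum_nonneg fun v _ => sq_nonneg _
  have hs0 : (0 : ℝ) < s₀ := by linarith
  set T : Finset (ι → ZMod 2) := S.filter fun v => W / s₀ < w v ^ 2 with hT
  have hTS : T ⊆ S := filter_subset _ _
  set w₁ : (ι → ZMod 2) → ℝ := fun v => if v ∈ T then w v else 0 with hw₁
  set w₂ : (ι → ZMod 2) → ℝ := fun v => if v ∈ T then 0 else w v with hw₂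
  have hsum : ∀ v, w v = w₁ v + w₂ v := by
    intro v
    by_cases h : v ∈ T <;> simp [hw₁, hw₂, h]
  have hw1le : ∀ v, w₁ v ^ 2 ≤ w v ^ 2 := by
    intro v
    by_cases h : v ∈ T
    · simp [hw₁, h]
    · have e : w₁ v = 0 := by simp [hw₁, h]
      rw [e]
      simpa using sq_nonneg (w v)
  have hw2le : ∀ v, w₂ v ^ 2 ≤ w v ^ 2 := by
    intro v
    by_cases h : v ∈ T
    · have e : w₂ v = 0 := by simp [hw₂, h]
      rw [e]
      simpa using sq_nonneg (w v)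
    · simp [hw₂, h]
  have hW1 : ∑ v, w₁ v ^ 2 ≤ W := sum_le_sum fun v _ => hw1le v
  have hW2 : ∑ v, w₂ v ^ 2 ≤ W := sum_le_sum fun v _ => hw2le v
  have hTc : (T.card : ℝ) ≤ s₀ := by
    rcases hW0.eq_or_lt with h0 | h0
    · have hT0 : T = ∅ := by
        rw [hT, filter_eq_empty_iff]
        intro v _
        rw [← h0, zero_div, not_lt]
        have : w v ^ 2 ≤ W := single_le_sum (f := fun v => w v ^ 2)
          (fun v _ => sq_nonneg _) (mem_univ v)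
        rw [h0]
        exact this
      rw [hT0]
      simpa using hs0.le
    · have h1 : (T.card : ℝ) * (W / s₀) ≤ W := by
        calc (T.card : ℝ) * (W / s₀) = ∑ _v ∈ T, W / s₀ := by
              rw [sum_const, nsmul_eq_mul]
          _ ≤ ∑ v ∈ T, w v ^ 2 := sum_le_sum fun v hv => (mem_filter.mp hv).2.le
          _ ≤ W := sum_le_univ_sum_of_nonneg fun v => sq_nonneg _
      rw [← mul_div_assoc, div_le_iff₀ hs0, mul_comm W s₀] at h1
      exact le_of_mul_le_mul_right h1 h0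
  have h1supp : ∀ v ∉ T, w₁ v = 0 := fun v hv => by simp [hw₁, hv]
  have h2supp : ∀ v ∉ S, w₂ v = 0 := by
    intro v hv
    by_cases h : v ∈ T
    · simp [hw₂, h]
    · simp [hw₂, h, hw v hv]
  have hF1 := fourth T w₁ h1supp
  have hF2 := fourth S w₂ h2supp
  have hQ1 : Qf T (fun v => |w₁ v|) ≤ 24 * C * W ^ 2 := by
    have h := weighted S T hTS s₀ C hTc hTG (fun v => |w₁ v|) (fun v => abs_nonneg _)
    refine h.trans ?_
    have h2 : ∑ v ∈ T, |w₁ v| ^ 2 ≤ W := by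
      simp_rw [sq_abs]
      exact (sum_le_univ_sum_of_nonneg fun v => sq_nonneg _).trans hW1
    have h3 : 0 ≤ ∑ v ∈ T, |w₁ v| ^ 2 := sum_nonneg fun v _ => sq_nonneg _
    have h4 : (∑ v ∈ T, |w₁ v| ^ 2) ^ 2 ≤ W ^ 2 := pow_le_pow_left₀ h3 h2 2
    exact mul_le_mul_of_nonneg_left h4 (by positivity)
  have hQ2 : Qf S (fun v => |w₂ v|) ≤ (2 * K' + 2) * W ^ 2 := by
    refine (Qf_le_TT S (fun v => |w₂ v|) (fun v => abs_nonneg _)).trans ?_
    refine tail S M hM (fun v => |w₂ v|) (fun v hv => by simp [h2supp v hv]) W (1 / s₀) R₀ K' ?_ ?_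
      hR0 hβ hR hK hA
    · simp_rw [sq_abs]
      exact hW2
    · intro v
      rw [sq_abs]
      by_cases h : v ∈ T
      · have e : w₂ v = 0 := by simp [hw₂, h]
        rw [e]
        have : 0 ≤ 1 / s₀ * W := by positivity
        simpa using this
      · have e : w₂ v = w v := by simp [hw₂, h]
        rw [e]
        by_cases hvS : v ∈ S
        · have : ¬ (W / s₀ < w v ^ 2) := fun h' => h (mem_filter.mpr ⟨hvS, h'⟩)
          have h5 := not_lt.mp this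
          rwa [div_eq_mul_inv, mul_comm, inv_eq_one_div] at h5
        · rw [hw v hvS]
          have : 0 ≤ 1 / s₀ * W := by positivity
          simpa using this
  have hpt : ∀ z : ι → ZMod 2, (∑ v, w v * (ch v z : ℝ)) ^ 4 ≤
      8 * ((∑ v, w₁ v * (ch v z : ℝ)) ^ 4 + (∑ v, w₂ v * (ch v z : ℝ)) ^ 4) := by
    intro z
    have e : ∑ v, w v * (ch v z : ℝ) = ∑ v, w₁ v * (ch v z : ℝ) + ∑ v, w₂ v * (ch v z : ℝ) := by
      rw [← sum_add_distrib]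
      refine sum_congr rfl fun v _ => ?_
      rw [hsum v, add_mul]
    rw [e]
    set x := ∑ v, w₁ v * (ch v z : ℝ)
    set y := ∑ v, w₂ v * (ch v z : ℝ)
    have h1 : (x + y) ^ 2 ≤ 2 * (x ^ 2 + y ^ 2) := by nlinarith [sq_nonneg (x - y)]
    have h2 : (x ^ 2 + y ^ 2) ^ 2 ≤ 2 * (x ^ 4 + y ^ 4) := by nlinarith [sq_nonneg (x ^ 2 - y ^ 2)]
    have h3 : ((x + y) ^ 2) ^ 2 ≤ (2 * (x ^ 2 + y ^ 2)) ^ 2 :=
      pow_le_pow_left₀ (sq_nonneg _) h1 2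
    nlinarith [h2, h3]
  have hW1' : (∑ v, w₁ v ^ 2) ^ 2 ≤ W ^ 2 :=
    pow_le_pow_left₀ (sum_nonneg fun v _ => sq_nonneg _) hW1 2
  have hW2' : (∑ v, w₂ v ^ 2) ^ 2 ≤ W ^ 2 :=
    pow_le_pow_left₀ (sum_nonneg fun v _ => sq_nonneg _) hW2 2
  have hP : (0 : ℝ) < 2 ^ Fintype.card ι := by positivity
  calc ∑ z : ι → ZMod 2, (∑ v, w v * (ch v z : ℝ)) ^ 4
      ≤ ∑ z : ι → ZMod 2, 8 * ((∑ v, w₁ v * (ch v z : ℝ)) ^ 4 +
          (∑ v, w₂ v * (ch v z : ℝ)) ^ 4) := sum_le_sum fun z _ => hpt z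
    _ = 8 * (∑ z : ι → ZMod 2, (∑ v, w₁ v * (ch v z : ℝ)) ^ 4 +
          ∑ z : ι → ZMod 2, (∑ v, w₂ v * (ch v z : ℝ)) ^ 4) := by
        rw [← mul_sum, sum_add_distrib]
    _ ≤ 8 * ((3 * (∑ v, w₁ v ^ 2) ^ 2 + Qf T (fun v => |w₁ v|)) * 2 ^ Fintype.card ι +
          (3 * (∑ v, w₂ v ^ 2) ^ 2 + Qf S (fun v => |w₂ v|)) * 2 ^ Fintype.card ι) := by
        linarith [hF1, hF2]
    _ ≤ 8 * ((3 * W ^ 2 + 24 * C * W ^ 2) * 2 ^ Fintype.card ι +
          (3 * W ^ 2 + (2 * K' + 2) * W ^ 2) * 2 ^ Fintype.card ι) := by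
        have a1 : (3 * (∑ v, w₁ v ^ 2) ^ 2 + Qf T (fun v => |w₁ v|)) * 2 ^ Fintype.card ι ≤
            (3 * W ^ 2 + 24 * C * W ^ 2) * 2 ^ Fintype.card ι :=
          mul_le_mul_of_nonneg_right (by linarith) hP.le
        have a2 : (3 * (∑ v, w₂ v ^ 2) ^ 2 + Qf S (fun v => |w₂ v|)) * 2 ^ Fintype.card ι ≤
            (3 * W ^ 2 + (2 * K' + 2) * W ^ 2) * 2 ^ Fintype.card ι :=
          mul_le_mul_of_nonneg_right (by linarith) hP.le
        linarith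
    _ = 8 * (6 + 24 * C + (2 * K' + 2)) * W ^ 2 * 2 ^ Fintype.card ι := by ring


end Pool.Agent.Lib.MP_938ce2_ag_l4
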