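import Mathlib
import Pool.Agent.Lib.MP_938ce2_ag_l4.T17
import Pool.Agent.Lib.MP_938ce2_ag_l4.T19b
import Pool.Agent.Lib.MP_938ce2_ag_l4.T23c
import Pool.Agent.Lib.MP_938ce2_ag_l4.T24b
import Pool.Agent.Lib.MP_938ce2_ag_l4.T26b

set_option autoImplicit false
set_option linter.unusedSectionVars false

namespace Pool.Agent.Lib.MP_938ce2_ag_l4

open Finset

private lemma cnt_or3 {X : Type} [Fintype X] [DecidableEq X] (c : X → X)
    (p q₁ q₂ q₃ : Finset X → Prop) (h : ∀ Φ, p Φ → q₁ Φ ∨ q₂ Φ ∨ q₃ Φ) :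
    cnt c p ≤ cnt c q₁ + cnt c q₂ + cnt c q₃ := by
  classical
  unfold cnt
  have h1 : (Finset.univ.filter fun Φ : Finset X => Typ c Φ ∧ p Φ) ⊆
      ((Finset.univ.filter fun Φ : Finset X => Typ c Φ ∧ q₁ Φ) ∪
        (Finset.univ.filter fun Φ : Finset X => Typ c Φ ∧ q₂ Φ)) ∪
        (Finset.univ.filter fun Φ : Finset X => Typ c Φ ∧ q₃ Φ) := by
    intro Φ hΦ
    simp only [Finset.mem_filter, Finset.mem_univ, true_and, Finset.mem_union] at hΦ ⊢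
    rcases h Φ hΦ.2 with h2 | h2 | h2
    · exact Or.inl (Or.inl ⟨hΦ.1, h2⟩)
    · exact Or.inl (Or.inr ⟨hΦ.1, h2⟩)
    · exact Or.inr ⟨hΦ.1, h2⟩
  have h2 := (Finset.card_le_card h1).trans ((Finset.card_union_le _ _).trans
    (Nat.add_le_add_right (Finset.card_union_le _ _) _))
  exact_mod_cast h2

private lemma params27 (x : ℝ) (hx : 20 ≤ x) (M : ℕ) (hM : M = ⌊x / 10⌋₊) :
    2 ≤ M ∧ (M : ℝ) ^ 4 * (1 / x ^ 9 * √(x ^ 3)) * x ^ 3 ≤ 1 := by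
  have hx0 : 0 < x := by linarith
  have hx1 : 1 ≤ x := by linarith
  have h1 : (M : ℝ) ≤ x := by
    rw [hM]
    refine (Nat.floor_le (by positivity)).trans ?_
    linarith
  constructor
  · rw [hM]
    apply Nat.le_floor
    push_cast
    linarith
  · have h2 : √(x ^ 3) ≤ x ^ 2 := by
      rw [show x ^ 2 = √((x ^ 2) ^ 2) from (Real.sqrt_sq (by positivity)).symm]
      apply Real.sqrt_le_sqrt
      nlinarith [pow_pos hx0 3]
    have h3 : (M : ℝ) ^ 4 ≤ x ^ 4 := pow_le_pow_left₀ (Nat.cast_nonneg M) h1 4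
    calc (M : ℝ) ^ 4 * (1 / x ^ 9 * √(x ^ 3)) * x ^ 3
        ≤ x ^ 4 * (1 / x ^ 9 * x ^ 2) * x ^ 3 := by gcongr
      _ = 1 := by field_simp

/-- **Theorem S.** For almost all types the balanced odd characters form a `Λ(4)` set with an absolute constant: `TG_small`,
`rr_small`, `EEE_small`, `RS_of` with `K = 10 ^ 5`, `L4_of` with `s₀ = (log g) ^ 9`, `R₀ = (log g) ^ 3`, `C = 16000` -/
theorem theoremS : ∃ C : ℝ, 0 < C ∧ ∃ g₀ : ℕ, ∀ {ι : Type} [Fintype ι] [DecidableEq ι] {X : Type}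
    [Fintype X] [DecidableEq X] {c : X → X} {y : X → ι → ZMod 2} {c₀ : ι → ZMod 2} {g : ℕ},
    Dat c y c₀ g → g₀ ≤ g → cnt c (fun Φ => ¬ L4 C (SS y c₀ Φ)) ≤ 5 * 2 ^ g / g := by
  obtain ⟨g₁, h₁⟩ := TG_small
  obtain ⟨g₂, h₂⟩ := rr_small
  obtain ⟨g₃, h₃⟩ := EEE_small
  obtain ⟨g₄, h₄⟩ := exists_nat_ge (Real.exp 20)
  refine ⟨8 * (6 + 24 * ((16000 : ℕ) : ℝ) + (2 * (468 + 4 * 10 ^ 5) + 2)), by norm_num,
    max (max g₁ g₂) (max g₃ g₄), ?_⟩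
  intro ι _ _ X _ _ c y c₀ g hD hg
  have hg1 : g₁ ≤ g := (le_max_left _ _).trans ((le_max_left _ _).trans hg)
  have hg2 : g₂ ≤ g := (le_max_right _ _).trans ((le_max_left _ _).trans hg)
  have hg3 : g₃ ≤ g := (le_max_left _ _).trans ((le_max_right _ _).trans hg)
  have hg4 : g₄ ≤ g := (le_max_right _ _).trans ((le_max_right _ _).trans hg)
  have hgR : Real.exp 20 ≤ g := h₄.trans (by exact_mod_cast hg4)
  have hg0 : (0 : ℝ) < g := (Real.exp_pos 20).trans_le hgR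
  have hlog : 20 ≤ Real.log g := by
    rw [← Real.log_exp 20]
    exact Real.log_le_log (Real.exp_pos 20) hgR
  obtain ⟨hM2, hβ⟩ := params27 (Real.log g) hlog ⌊Real.log g / 10⌋₊ rfl
  set M := ⌊Real.log g / 10⌋₊ with hM
  have hcnt := cnt_or3 c (fun Φ => ¬ L4 (8 * (6 + 24 * ((16000 : ℕ) : ℝ) +
      (2 * (468 + 4 * 10 ^ 5) + 2))) (SS y c₀ Φ))
    (fun Φ => ¬ TG (Real.log g ^ 9) 16000 (SS y c₀ Φ))
    (fun Φ => ¬ ∀ ψ : ι → ZMod 2, ψ ≠ 0 → (rr (SS y c₀ Φ) ψ : ℝ) ≤ Real.log g ^ 3)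
    (fun Φ => E1 M (SS y c₀ Φ) ∨ E2 M (SS y c₀ Φ) ∨ E3 M (10 ^ 5 * M ^ 2) (SS y c₀ Φ)) (by
      intro Φ hΦ
      by_contra hcon
      push Not at hcon
      obtain ⟨hTG, hrr, hE1, hE2, hE3⟩ := hcon
      apply hΦ
      refine L4_of (SS y c₀ Φ) (Real.log g ^ 9) (Real.log g ^ 3) (468 + 4 * 10 ^ 5) 16000 M hM2
        (one_le_pow₀ (by linarith)) hTG (by positivity) hrr (by norm_num) ?_ hβ
      intro A hA hAc hs
      have h5 := RS_of (SS y c₀ Φ) M (10 ^ 5) (by omega) hE1 hE2 hE3 A hA hAc hs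
      exact_mod_cast h5)
  have hb1 := h₁ hD hg1
  have hb2 := h₂ hD hg2
  have hb3 := h₃ hD hg3 M rfl
  have hb4 : 3 * 2 ^ g / (g : ℝ) ^ 2 ≤ 3 * 2 ^ g / g := by
    have hg1' : (1 : ℝ) ≤ g := (Real.one_le_exp (by norm_num)).trans hgR
    apply div_le_div_of_nonneg_left (by positivity) hg0
    nlinarith
  calc cnt c _ ≤ _ := hcnt
    _ ≤ 2 ^ g / g + 2 ^ g / g + 3 * 2 ^ g / (g : ℝ) ^ 2 := add_le_add (add_le_add hb1 hb2) hb3
    _ ≤ 2 ^ g / g + 2 ^ g / g + 3 * 2 ^ g / g := by linarith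
    _ = 5 * 2 ^ g / g := by ring


end Pool.Agent.Lib.MP_938ce2_ag_l4
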