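import Mathlib
import Pool.Agent.Lib.MP_938ce2_ag_l4.T01
import Pool.Agent.Lib.MP_938ce2_ag_sub.SD
import Pool.Agent.Lib.MP_938ce2_ag_sub.S4

set_option autoImplicit false
set_option linter.unusedSectionVars false

namespace Pool.Agent.Lib.MP_938ce2_ag_l4

open Finset
open Pool.Agent.Lib.MP_938ce2_ag_h67 (sg)
open Pool.Agent.Lib.MP_938ce2_ag_sub (Quad ZZ quad_sum)
open Pool.Agent.Lib.MP_938ce2_ag_u2 (Act)

section

variable (G : Type) {X : Type} [Group G] [MulAction G X] [Fintype X] [DecidableEq X]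

/-- the functions which are changed by a constant by every element of the group -/
private def QQ (x₀ : X) : Submodule (ZMod 2) (X → ZMod 2) where
  carrier := {f | f x₀ = 0 ∧ ∀ σ : G, ∃ e : ZMod 2, ∀ x, f (σ • x) = f x + e}
  zero_mem' := ⟨rfl, fun σ => ⟨0, fun x => by simp⟩⟩
  add_mem' := by
    rintro f f' ⟨h, h'⟩ ⟨k, k'⟩
    refine ⟨by simp [h, k], fun σ => ?_⟩
    obtain ⟨e, he⟩ := h' σ
    obtain ⟨e', he'⟩ := k' σ
    refine ⟨e + e', fun x => ?_⟩
    simp only [Pi.add_apply, he, he']
    ring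
  smul_mem' := by
    rintro a f ⟨h, h'⟩
    refine ⟨by simp [h], fun σ => ?_⟩
    obtain ⟨e, he⟩ := h' σ
    refine ⟨a * e, fun x => ?_⟩
    simp only [Pi.smul_apply, smul_eq_mul, he]
    ring

private def toF (U : Finset X) : X → ZMod 2 := fun x => if x ∈ U then 0 else 1

private lemma toF_eq_zero (U : Finset X) (x : X) : toF U x = 0 ↔ x ∈ U := by
  unfold toF
  split_ifs with h
  · simp [h]
  · simp [h]

private lemma zmod2 (a : ZMod 2) : a = 0 ∨ a = 1 := by
  revert a; decide

private lemma quad_iff (x₀ : X) (U : Finset X) : Quad G x₀ U ↔ toF U ∈ QQ G x₀ := by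
  constructor
  · rintro ⟨h0, h1⟩
    refine ⟨(toF_eq_zero U x₀).2 h0, fun σ => ?_⟩
    rcases h1 σ with h | h
    · refine ⟨0, fun x => ?_⟩
      unfold toF
      by_cases hx : x ∈ U
      · rw [if_pos hx, if_pos ((h x).2 hx)]; rfl
      · rw [if_neg hx, if_neg (fun h' => hx ((h x).1 h'))]; rfl
    · refine ⟨1, fun x => ?_⟩
      unfold toF
      by_cases hx : x ∈ U
      · rw [if_pos hx, if_neg (fun h' => (h x).1 h' hx)]; rfl
      · rw [if_neg hx, if_pos ((h x).2 hx)]; rfl
  · rintro ⟨h0, h1⟩
    refine ⟨(toF_eq_zero U x₀).1 h0, fun σ => ?_⟩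
    obtain ⟨e, he⟩ := h1 σ
    rcases zmod2 e with rfl | rfl
    · left
      intro x
      rw [← toF_eq_zero, ← toF_eq_zero, he x, add_zero]
    · right
      intro x
      rw [← toF_eq_zero, ← toF_eq_zero, he x]
      rcases zmod2 (toF U x) with h | h <;> rw [h] <;> decide

end

/-- **The quadratic sets are characters.** The functions `f : X → ZMod 2` with `f x₀ = 0` such that for every `σ`
either `f (σ • x) = f x` for all `x` or `f (σ • x) = f x + 1` for all `x` form a subspace `Q`; they are the indicator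
functions of the complements of the quadratic sets. Take a basis `b` of `Q` and `y x i = b i x`. The fibres have the
same number of elements by orthogonality (`sum_ch_mul`, `quad_sum`); `c₀ = y (c • x₀)`. -/
theorem exists_dat {G X : Type} [Group G] [Fintype G] [MulAction G X] [Fintype X] [DecidableEq X]
    [MulAction.IsPretransitive G X] {c : G} {g : ℕ} (hA : Act G X c g) (x₀ : X) :
    ∃ (κ : ℕ) (y : X → Fin κ → ZMod 2) (c₀ : Fin κ → ZMod 2), Dat (fun x => c • x) y c₀ g ∧
      ∀ U : Finset X, Quad G x₀ U ↔ ∃ v : Fin κ → ZMod 2, ∀ x, sg U x = ch v (y x) := by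
  classical
  obtain ⟨κ, hκ⟩ : ∃ κ, κ = Module.finrank (ZMod 2) (QQ G x₀) := ⟨_, rfl⟩
  obtain ⟨b, -⟩ : ∃ _ : Module.Basis (Fin κ) (ZMod 2) (QQ G x₀), True := by
    rw [hκ]
    exact ⟨Module.finBasis (ZMod 2) (QQ G x₀), trivial⟩
  obtain ⟨y, hy⟩ : ∃ y : X → Fin κ → ZMod 2, y = fun x i => (b i : X → ZMod 2) x := ⟨_, rfl⟩
  have hval : ∀ (v : Fin κ → ZMod 2) (x : X),
      ∑ i, v i * y x i = ((∑ i, v i • b i : QQ G x₀) : X → ZMod 2) x := by
    intro v x
    rw [hy]
    simp only [AddSubmonoidClass.coe_finsetSum, SetLike.val_smul, Finset.sum_apply, Pi.smul_apply,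
      smul_eq_mul]
  have hQ : ∀ U : Finset X, Quad G x₀ U ↔ ∃ v : Fin κ → ZMod 2, ∀ x, sg U x = ch v (y x) := by
    intro U
    have key : ∀ v : Fin κ → ZMod 2, (∀ x, sg U x = ch v (y x)) ↔
        toF U = ((∑ i, v i • b i : QQ G x₀) : X → ZMod 2) := by
      intro v
      have h1 : ∀ x, sg U x = ch v (y x) ↔
          toF U x = ((∑ i, v i • b i : QQ G x₀) : X → ZMod 2) x := by
        intro x
        unfold ch
        rw [hval v x]
        rcases zmod2 (((∑ i, v i • b i : QQ G x₀) : X → ZMod 2) x) with h | h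
        · rw [h, if_pos rfl, toF_eq_zero]
          unfold sg
          split_ifs with hx <;> simp [hx]
        · rw [h, if_neg (by decide)]
          unfold sg toF
          split_ifs with hx <;> simp
      constructor
      · intro h
        funext x
        exact (h1 x).1 (h x)
      · intro h x
        exact (h1 x).2 (congrFun h x)
    rw [quad_iff]
    constructor
    · intro h
      refine ⟨fun i => b.repr ⟨toF U, h⟩ i, ?_⟩
      rw [key, b.sum_repr]
    · rintro ⟨v, hv⟩
      rw [key] at hv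
      rw [hv]
      exact (∑ i, v i • b i : QQ G x₀).2
  have hshift : ∀ (σ : G) (x : X), y (σ • x) = y x + y (σ • x₀) := by
    intro σ x
    funext i
    rw [hy]
    obtain ⟨e, he⟩ := (b i).2.2 σ
    simp only [Pi.add_apply]
    rw [he x, he x₀, (b i).2.1, zero_add]
  have hsum : ∀ v : Fin κ → ZMod 2, v ≠ 0 → ∑ x, ch v (y x) = 0 := by
    intro v hv
    obtain ⟨U, hU⟩ : ∃ U : Finset X, U = Finset.univ.filter fun x => ch v (y x) = 1 := ⟨_, rfl⟩
    have h1 : ∀ x, sg U x = ch v (y x) := by
      intro x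
      have hmem : x ∈ U ↔ ch v (y x) = 1 := by
        rw [hU, Finset.mem_filter]
        exact ⟨fun h => h.2, fun h => ⟨Finset.mem_univ _, h⟩⟩
      unfold sg
      rcases ch_eq_or v (y x) with h | h
      · rw [if_pos (hmem.2 h), h]
      · rw [if_neg (fun h' => by rw [hmem.1 h'] at h; norm_num at h), h]
    have h2 : Quad G x₀ U := (hQ U).2 ⟨v, h1⟩
    have h3 : U ≠ Finset.univ := by
      intro h4
      apply hv
      have h5 : ((∑ i, v i • b i : QQ G x₀) : X → ZMod 2) = 0 := by
        funext x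
        have h6 := h1 x
        rw [h4] at h6
        unfold sg ch at h6
        rw [if_pos (Finset.mem_univ x), hval v x] at h6
        by_contra h7
        rw [if_neg (show ¬ ((∑ i, v i • b i : QQ G x₀) : X → ZMod 2) x = 0 from h7)] at h6
        norm_num at h6
      have h6 : (∑ i, v i • b i : QQ G x₀) = 0 := Subtype.ext h5
      have h7 := Fintype.linearIndependent_iff.1 b.linearIndependent v h6
      funext i
      exact h7 i
    have h4 := quad_sum h2 h3
    simp only [h1] at h4
    exact h4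
  refine ⟨κ, y, y (c • x₀), ⟨hA.card, hA.pos, fun x => ?_, hA.free, fun x => hshift c x, fun z => ?_⟩,
    hQ⟩
  · show c • (c • x) = x
    rw [smul_smul, hA.sq, one_smul]
  · have h1 : ∑ v : Fin κ → ZMod 2, ∑ x, ch v (y x) * ch v z
        = ((Finset.univ.filter fun x => y x = z).card : ℤ) * 2 ^ Fintype.card (Fin κ) := by
      rw [Finset.sum_comm]
      have h2 : ∀ x, ∑ v : Fin κ → ZMod 2, ch v (y x) * ch v z
          = if y x = z then (2 : ℤ) ^ Fintype.card (Fin κ) else 0 := by
        intro x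
        rw [← sum_ch_mul (y x) z]
        refine Finset.sum_congr rfl fun v _ => ?_
        rw [ch_comm v (y x), ch_comm v z]
      rw [Finset.sum_congr rfl fun x _ => h2 x, ← Finset.sum_filter, Finset.sum_const, nsmul_eq_mul]
    have h3 : ∑ v : Fin κ → ZMod 2, ∑ x, ch v (y x) * ch v z = 2 * g := by
      have h4 : ∀ v : Fin κ → ZMod 2, ∑ x, ch v (y x) * ch v z
          = if v = 0 then (2 * g : ℤ) else 0 := by
        intro v
        rw [← Finset.sum_mul]
        split_ifs with hv
        · rw [hv]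
          simp only [ch_zero]
          rw [Finset.sum_const, Finset.card_univ, hA.card]
          simp
        · rw [hsum v hv, zero_mul]
      rw [Finset.sum_congr rfl fun v _ => h4 v, Finset.sum_ite_eq' Finset.univ (0 : Fin κ → ZMod 2)]
      simp
    rw [h3] at h1
    exact_mod_cast h1.symm

end Pool.Agent.Lib.MP_938ce2_ag_l4
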