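import Mathlib
import Pool.Agent.Lib.MP_938ce2_ag_l4.T27
import Pool.Agent.Lib.MP_938ce2_ag_l4.T28a

set_option autoImplicit false
set_option linter.unusedSectionVars false

namespace Pool.Agent.Lib.MP_938ce2_ag_l4

open Finset
open Pool.Agent.Lib.MP_938ce2_ag_h67 (sg)
open Pool.Agent.Lib.MP_938ce2_ag_h60 (CMType)
open Pool.Agent.Lib.MP_938ce2_ag_sub (Quad ZZ mem_ZZ sg_inj)
open Pool.Agent.Lib.MP_938ce2_ag_u2 (Act)

private lemma ch_inj {κ : ℕ} {v w : Fin κ → ZMod 2} (h : ∀ z, ch v z = ch w z) : v = w := by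
  by_contra hne
  have h1 := sum_ch_mul v w
  rw [if_neg hne] at h1
  have h2 : ∑ z, ch v z * ch w z = ∑ _z : Fin κ → ZMod 2, (1 : ℤ) :=
    Finset.sum_congr rfl fun z _ => by rw [h z, ch_mul_self]
  rw [h2] at h1
  simp at h1

open Classical in
/-- **Theorem S for `G`-sets.** `exists_dat`, `theoremS`; the sets in `ZZ G c x₀ Φ` correspond to the `v ∈ SS y c₀ Φ`
(`sg U x = ch v (y x)`, injective because `y` is surjective), `w v = b U`; `sum_fib` for the sum over `X`. -/
theorem theoremS_sets : ∃ C : ℝ, 0 < C ∧ ∃ g₀ : ℕ, ∀ (G X : Type) [Group G] [Fintype G]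
    [MulAction G X] [Fintype X] [DecidableEq X] [MulAction.IsPretransitive G X] (c : G) (g : ℕ),
    Act G X c g → g₀ ≤ g → ∀ x₀ : X,
    ((Finset.univ.filter fun Φ : Finset X => CMType c Φ ∧ ¬ ∀ b : Finset X → ℝ,
        ∑ x, (∑ U ∈ ZZ G c x₀ Φ, b U * (sg U x : ℝ)) ^ 4
          ≤ C * (∑ U ∈ ZZ G c x₀ Φ, b U ^ 2) ^ 2 * (2 * g)).card : ℝ) ≤ 5 * 2 ^ g / g := by
  obtain ⟨C, hC, g₀, h⟩ := theoremS
  refine ⟨C, hC, g₀, ?_⟩
  intro G X _ _ _ _ _ _ c g hA hg x₀
  obtain ⟨κ, y, c₀, hD, hQ⟩ := exists_dat hA x₀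
  refine le_trans ?_ (h hD hg)
  unfold cnt
  have hsub : (Finset.univ.filter fun Φ : Finset X => CMType c Φ ∧ ¬ ∀ b : Finset X → ℝ,
        ∑ x, (∑ U ∈ ZZ G c x₀ Φ, b U * (sg U x : ℝ)) ^ 4
          ≤ C * (∑ U ∈ ZZ G c x₀ Φ, b U ^ 2) ^ 2 * (2 * g))
      ⊆ (Finset.univ.filter fun Φ : Finset X => Typ (fun x => c • x) Φ ∧ ¬ L4 C (SS y c₀ Φ)) := by
    intro Φ hΦ
    rw [Finset.mem_filter] at hΦ ⊢
    obtain ⟨-, hcm, hbad⟩ := hΦ
    refine ⟨Finset.mem_univ _, hcm, fun hL => hbad fun b => ?_⟩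
    have hsurj : ∀ z, ∃ x, y x = z := by
      intro z
      have h1 := hD.fib z
      have h2 := hD.pos
      by_contra hcon
      push Not at hcon
      rw [Finset.filter_false_of_mem fun x _ => hcon x] at h1
      rw [Finset.card_empty, zero_mul] at h1
      omega
    obtain ⟨u, hu⟩ : ∃ u : (Fin κ → ZMod 2) → Finset X,
        u = fun v => Finset.univ.filter fun x => ch v (y x) = 1 := ⟨_, rfl⟩
    have hsg : ∀ v x, sg (u v) x = ch v (y x) := by
      intro v x
      have hmem : x ∈ u v ↔ ch v (y x) = 1 := by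
        rw [hu, Finset.mem_filter]
        exact ⟨fun h => h.2, fun h => ⟨Finset.mem_univ _, h⟩⟩
      unfold sg
      rcases ch_eq_or v (y x) with h | h
      · rw [if_pos (hmem.2 h), h]
      · rw [if_neg (fun h' => by rw [hmem.1 h'] at h; norm_num at h), h]
    have hinj : Function.Injective u := by
      intro v w hvw
      apply ch_inj
      intro z
      obtain ⟨x, rfl⟩ := hsurj z
      rw [← hsg, ← hsg, hvw]
    have hsgn : ∀ (U : Finset X) (x : X), sgn U x = sg U x := fun U x => rfl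
    have hZ : ZZ G c x₀ Φ = (SS y c₀ Φ).image u := by
      ext U
      rw [mem_ZZ, Finset.mem_image]
      constructor
      · rintro ⟨h1, h2, h3⟩
        obtain ⟨v, hv⟩ := (hQ U).1 h1
        refine ⟨v, mem_SS.2 ⟨?_, ?_⟩, ?_⟩
        · have h4 : sg U (c • x₀) = - sg U x₀ := by
            have h5 := h2 x₀
            unfold sg
            by_cases hx : x₀ ∈ U
            · rw [if_pos hx, if_neg (h5.1 hx)]
            · rw [if_neg hx, if_pos (not_not.1 (fun h6 => hx (h5.2 h6)))]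
              norm_num
          rw [hv, hv, hD.shift, ch_add_right] at h4
          rcases ch_eq_or v (y x₀) with h5 | h5
          · rw [h5] at h4
            linarith
          · rw [h5] at h4
            linarith
        · rw [← h3]
          exact Finset.sum_congr rfl fun x _ => by rw [hsgn, hv]
        · exact sg_inj fun x => by rw [hsg, hv]
      · rintro ⟨v, hv, rfl⟩
        obtain ⟨h1, h2⟩ := mem_SS.1 hv
        refine ⟨(hQ _).2 ⟨v, hsg v⟩, ?_, ?_⟩
        · intro x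
          have hmem : ∀ x, x ∈ u v ↔ ch v (y x) = 1 := by
            intro x
            rw [hu, Finset.mem_filter]
            exact ⟨fun h => h.2, fun h => ⟨Finset.mem_univ _, h⟩⟩
          rw [hmem, hmem, hD.shift, ch_add_right, h1]
          rcases ch_eq_or v (y x) with h | h <;> rw [h] <;> norm_num
        · rw [← h2]
          exact Finset.sum_congr rfl fun x _ => by rw [hsgn, hsg]
    obtain ⟨w, hw⟩ : ∃ w : (Fin κ → ZMod 2) → ℝ,
        w = fun v => if v ∈ SS y c₀ Φ then b (u v) else 0 := ⟨_, rfl⟩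
    have hw1 : ∀ x, ∑ U ∈ ZZ G c x₀ Φ, b U * (sg U x : ℝ) = ∑ v, w v * (ch v (y x) : ℝ) := by
      intro x
      rw [hZ, Finset.sum_image fun v _ v' _ hvv => hinj hvv, hw]
      simp only [ite_mul, zero_mul]
      rw [← Finset.sum_filter, Finset.filter_mem_eq_inter, Finset.univ_inter]
      exact Finset.sum_congr rfl fun v _ => by rw [hsg]
    have hw2 : ∑ U ∈ ZZ G c x₀ Φ, b U ^ 2 = ∑ v, w v ^ 2 := by
      rw [hZ, Finset.sum_image fun v _ v' _ hvv => hinj hvv, hw]
      have h1 : ∀ v, (if v ∈ SS y c₀ Φ then b (u v) else 0) ^ 2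
          = if v ∈ SS y c₀ Φ then b (u v) ^ 2 else 0 := by
        intro v
        split_ifs
        · rfl
        · norm_num
      simp only [h1]
      rw [← Finset.sum_filter, Finset.filter_mem_eq_inter, Finset.univ_inter]
    have h1 := hL w fun v hv => by
      rw [hw]
      exact if_neg hv
    have h2 := sum_fib hD (fun z => (∑ v, w v * (ch v z : ℝ)) ^ 4)
    beta_reduce at h2
    have h3 : (0 : ℝ) < 2 ^ Fintype.card (Fin κ) := by positivity
    have h4 : (0 : ℝ) < g := by exact_mod_cast hD.pos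
    rw [hw2, Finset.sum_congr rfl fun x _ => by rw [hw1 x]]
    refine le_of_mul_le_mul_right ?_ h3
    rw [h2]
    calc 2 * (g : ℝ) * ∑ z, (∑ v, w v * (ch v z : ℝ)) ^ 4
        ≤ 2 * (g : ℝ) * (C * (∑ v, w v ^ 2) ^ 2 * 2 ^ Fintype.card (Fin κ)) :=
          mul_le_mul_of_nonneg_left h1 (by positivity)
      _ = C * (∑ v, w v ^ 2) ^ 2 * (2 * g) * 2 ^ Fintype.card (Fin κ) := by ring
  exact Nat.cast_le.2 ((Finset.card_le_card hsub).trans (le_of_eq (by congr!)))

end Pool.Agent.Lib.MP_938ce2_ag_l4
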