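import Mathlib
import Pool.Agent.Lib.MP_938ce2_ag_l4.T28b
import Pool.Agent.Lib.MP_938ce2_ag_rr.TSD

set_option autoImplicit false
set_option linter.unusedSectionVars false

namespace Pool.Agent.Lib.MP_938ce2_ag_l4

open Finset
open Pool.Agent.Lib.MP_938ce2_ag_h67 (sg)
open Pool.Agent.Lib.MP_938ce2_ag_h60 (CMType)
open Pool.Agent.Lib.MP_938ce2_ag_sub (ZZ)
open Pool.Agent.Lib.MP_938ce2_ag_u2 (Act)
open Pool.Agent.Lib.MP_938ce2_ag_rr (TS)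

/-- Theorem S in the form used by the rows `rr_tasks` -/
theorem ts : TS := by
  classical
  obtain ⟨C, hC, g₁, h⟩ := theoremS_sets
  refine ⟨C, hC, fun η hη => ⟨max g₁ (max 1 ⌈5 / η⌉₊), ?_⟩⟩
  intro G X _ _ _ _ _ _ c g hA hg x₀
  have hg1 : g₁ ≤ g := (le_max_left _ _).trans hg
  have hg2 : 1 ≤ g := (le_max_left _ _).trans ((le_max_right _ _).trans hg)
  have hg3 : 5 / η ≤ g := Nat.ceil_le.1 ((le_max_right _ _).trans ((le_max_right _ _).trans hg))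
  have hg0 : (0 : ℝ) < g := by exact_mod_cast hg2
  have h1 := h G X c g hA hg1 x₀
  have h2 : (Finset.univ.filter fun Φ : Finset X => CMType c Φ ∧ ∃ b : Finset X → ℝ,
      C * (2 * g) * (∑ U ∈ ZZ G c x₀ Φ, b U ^ 2) ^ 2
        < ∑ x, (∑ U ∈ ZZ G c x₀ Φ, b U * (sg U x : ℝ)) ^ 4)
      ⊆ (Finset.univ.filter fun Φ : Finset X => CMType c Φ ∧ ¬ ∀ b : Finset X → ℝ,
        ∑ x, (∑ U ∈ ZZ G c x₀ Φ, b U * (sg U x : ℝ)) ^ 4
          ≤ C * (∑ U ∈ ZZ G c x₀ Φ, b U ^ 2) ^ 2 * (2 * g)) := by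
    intro Φ hΦ
    rw [Finset.mem_filter] at hΦ ⊢
    obtain ⟨h3, h4, b, hb⟩ := hΦ
    refine ⟨h3, h4, fun h5 => ?_⟩
    have h6 := h5 b
    have h7 : C * (∑ U ∈ ZZ G c x₀ Φ, b U ^ 2) ^ 2 * (2 * g)
        = C * (2 * g) * (∑ U ∈ ZZ G c x₀ Φ, b U ^ 2) ^ 2 := by ring
    rw [h7] at h6
    exact absurd hb (not_lt.2 h6)
  have h3 : (5 : ℝ) * 2 ^ g / g ≤ η * 2 ^ g := by
    have h4 : (5 : ℝ) / g ≤ η := by
      rw [div_le_iff₀ hη] at hg3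
      rw [div_le_iff₀ hg0]
      linarith
    calc (5 : ℝ) * 2 ^ g / g = 5 / g * 2 ^ g := by ring
      _ ≤ η * 2 ^ g := mul_le_mul_of_nonneg_right h4 (by positivity)
  refine le_trans ?_ (h1.trans h3)
  refine Nat.cast_le.2 (le_trans (Finset.card_le_card h2) (le_of_eq (by congr!)))

end Pool.Agent.Lib.MP_938ce2_ag_l4
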